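import Mathlib

/-!
# Infimum of a nonnegative quadratic functional over a linear space
-/

namespace Pool.Agent.ShearComposite

section

variable {V M : Type} [AddCommGroup V] [Module ℝ V] [AddCommGroup M] [Module ℝ M]

/-- infimum of `f v u` over `u` -/
noncomputable def infQ (f : V → M → ℝ) (v : V) : ℝ := ⨅ u : M, f v u

variable {f : V → M → ℝ}

theorem infQ_le (h0 : ∀ v u, 0 ≤ f v u) (v : V) (u : M) : infQ f v ≤ f v u :=
  ciInf_le ⟨0, by rintro _ ⟨u, rfl⟩; exact h0 v u⟩ u

theorem infQ_nonneg (h0 : ∀ v u, 0 ≤ f v u) (v : V) : 0 ≤ infQ f v :=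
  le_ciInf (h0 v)

theorem le_infQ (v : V) (c : ℝ) (h : ∀ u, c ≤ f v u) : c ≤ infQ f v := le_ciInf h

theorem infQ_smul (h0 : ∀ v u, 0 ≤ f v u) (hs : ∀ (t : ℝ) v u, f (t • v) (t • u) = t ^ 2 * f v u)
    (t : ℝ) (v : V) : infQ f (t • v) = t ^ 2 * infQ f v := by
  have key : ∀ (t : ℝ) (v : V), infQ f (t • v) ≤ t ^ 2 * infQ f v := by
    intro t v
    rcases eq_or_ne t 0 with rfl | ht
    · have h1 := infQ_le h0 ((0 : ℝ) • v) (0 : M)
      have h2 := hs 0 v 0
      simp at h2
      simp at h1 ⊢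
      linarith
    · have h1 : t⁻¹ ^ 2 * infQ f (t • v) ≤ infQ f v := by
        apply le_infQ
        intro u
        have h2 := infQ_le h0 (t • v) (t • u)
        rw [hs] at h2
        have ht2 : 0 < t ^ 2 := by positivity
        calc t⁻¹ ^ 2 * infQ f (t • v) ≤ t⁻¹ ^ 2 * (t ^ 2 * f v u) := by
              apply mul_le_mul_of_nonneg_left h2; positivity
          _ = f v u := by field_simp
      have ht2 : 0 < t ^ 2 := by positivity
      calc infQ f (t • v) = t ^ 2 * (t⁻¹ ^ 2 * infQ f (t • v)) := by field_simp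
        _ ≤ t ^ 2 * infQ f v := mul_le_mul_of_nonneg_left h1 ht2.le
  apply le_antisymm (key t v)
  rcases eq_or_ne t 0 with rfl | ht
  · simp
    exact infQ_nonneg h0 0
  · have h1 := key t⁻¹ (t • v)
    rw [smul_smul, inv_mul_cancel₀ ht, one_smul] at h1
    have ht2 : 0 < t ^ 2 := by positivity
    calc t ^ 2 * infQ f v ≤ t ^ 2 * (t⁻¹ ^ 2 * infQ f (t • v)) :=
          mul_le_mul_of_nonneg_left h1 ht2.le
      _ = infQ f (t • v) := by field_simp

theorem infQ_parallelogram (h0 : ∀ v u, 0 ≤ f v u)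
    (hs : ∀ (t : ℝ) v u, f (t • v) (t • u) = t ^ 2 * f v u)
    (hp : ∀ v u v' u', f (v + v') (u + u') + f (v - v') (u - u') = 2 * f v u + 2 * f v' u')
    (v v' : V) : infQ f (v + v') + infQ f (v - v') = 2 * infQ f v + 2 * infQ f v' := by
  have key : ∀ v v' : V, infQ f (v + v') + infQ f (v - v') ≤ 2 * infQ f v + 2 * infQ f v' := by
    intro v v'
    have h1 : ∀ u u' : M, infQ f (v + v') + infQ f (v - v') ≤ 2 * f v u + 2 * f v' u' := by
      intro u u'
      rw [← hp]
      exact add_le_add (infQ_le h0 _ _) (infQ_le h0 _ _)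
    have h2 : ∀ u : M, (infQ f (v + v') + infQ f (v - v') - 2 * f v u) / 2 ≤ infQ f v' := by
      intro u
      apply le_infQ
      intro u'
      have := h1 u u'
      linarith
    have h3 : (infQ f (v + v') + infQ f (v - v') - 2 * infQ f v') / 2 ≤ infQ f v := by
      apply le_infQ
      intro u
      have := h2 u
      linarith
    linarith
  apply le_antisymm (key v v')
  have h1 := key (v + v') (v - v')
  have e1 : v + v' + (v - v') = (2 : ℝ) • v := by rw [two_smul]; abel
  have e2 : v + v' - (v - v') = (2 : ℝ) • v' := by rw [two_smul]; abel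
  rw [e1, e2, infQ_smul h0 hs, infQ_smul h0 hs] at h1
  linarith

end

end Pool.Agent.ShearComposite
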