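import Mathlib

/-!
# Quadratic forms from the parallelogram law

A nonnegative function on `ℝ × ℂ` (isotropic part, deviatoric part of a plane strain) which
satisfies the parallelogram law and is invariant under the threefold rotation is isotropic.
-/

namespace Pool.Agent.ShearComposite

/-- An additive function which is bounded on `[0,1]` is linear. -/
theorem additive_linear (g : ℝ → ℝ) (hadd : ∀ s t, g (s + t) = g s + g t) (C : ℝ)
    (hC : ∀ t, 0 ≤ t → t ≤ 1 → |g t| ≤ C) (t : ℝ) : g t = t * g 1 := by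
  have h0 : g 0 = 0 := by have := hadd 0 0; simp at this; linarith
  set h : ℝ → ℝ := fun t => g t - t * g 1 with hh
  have hhadd : ∀ s t, h (s + t) = h s + h t := by
    intro s t; simp only [hh, hadd]; ring
  have hh0 : h 0 = 0 := by simp [hh, h0]
  have hh1 : h 1 = 0 := by simp [hh]
  have hneg : ∀ t, h (-t) = - h t := by
    intro t; have := hhadd t (-t); simp [hh0] at this; linarith
  have hnat : ∀ (n : ℕ) (t : ℝ), h (n * t) = n * h t := by
    intro n t
    induction n with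
    | zero => simp [hh0]
    | succ n ih => push_cast; rw [add_mul, hhadd, ih, one_mul]; ring
  have hint : ∀ (n : ℤ) (t : ℝ), h (n * t) = n * h t := by
    intro n t
    obtain ⟨m, rfl | rfl⟩ := n.eq_nat_or_neg
    · exact_mod_cast hnat m t
    · push_cast
      rw [neg_mul, hneg, hnat]; ring
  have hb : ∀ t, |h t| ≤ C + |g 1| := by
    intro t
    have e : h t = h (Int.fract t) := by
      have h2 : h (⌊t⌋ : ℝ) = 0 := by
        have := hint ⌊t⌋ 1
        rw [mul_one, hh1, mul_zero] at this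
        exact this
      conv_lhs => rw [← Int.floor_add_fract t]
      rw [hhadd, h2, zero_add]
    rw [e]
    have h1 := hC (Int.fract t) (Int.fract_nonneg t) (Int.fract_lt_one t).le
    have h2 : |Int.fract t * g 1| ≤ |g 1| := by
      rw [abs_mul, abs_of_nonneg (Int.fract_nonneg t)]
      have := (Int.fract_lt_one t).le
      nlinarith [abs_nonneg (g 1)]
    simp only [hh]
    calc |g (Int.fract t) - Int.fract t * g 1| ≤ |g (Int.fract t)| + |Int.fract t * g 1| :=
          abs_sub _ _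
      _ ≤ _ := by linarith
  have hz : h t = 0 := by
    by_contra hne
    have hpos : 0 < |h t| := abs_pos.mpr hne
    obtain ⟨n, hn⟩ := exists_nat_gt ((C + |g 1|) / |h t|)
    have h1 := hb (n * t)
    rw [hnat, abs_mul, Nat.abs_cast] at h1
    rw [div_lt_iff₀ hpos] at hn
    linarith
  have : g t - t * g 1 = 0 := hz
  linarith

/-- Isotropy from the parallelogram law and threefold symmetry. -/
theorem isotropic_of_parallelogram (Q : ℝ → ℂ → ℝ)
    (h0 : ∀ a b, 0 ≤ Q a b)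
    (hp : ∀ a b a' b', Q (a + a') (b + b') + Q (a - a') (b - b') = 2 * Q a b + 2 * Q a' b')
    (hs : ∀ (t a : ℝ) (b : ℂ), Q (t * a) (t * b) = t ^ 2 * Q a b)
    (η : ℂ) (hη : 1 + η + η ^ 2 = 0)
    (hinv : ∀ a b, Q a (η * b) = Q a b) (a : ℝ) (b : ℂ) :
    Q a b = Q 1 0 * a ^ 2 + Q 0 1 * ‖b‖ ^ 2 := by
  -- the three term identity
  have h3 : ∀ (a₁ : ℝ) (b₁ : ℂ) (a₂ : ℝ) (b₂ : ℂ) (a₃ : ℝ) (b₃ : ℂ),
      Q (a₁ + a₂ + a₃) (b₁ + b₂ + b₃) = Q (a₁ + a₂) (b₁ + b₂) + Q (a₂ + a₃) (b₂ + b₃)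
        + Q (a₃ + a₁) (b₃ + b₁) - Q a₁ b₁ - Q a₂ b₂ - Q a₃ b₃ := by
    intro a₁ b₁ a₂ b₂ a₃ b₃
    have e1 := hp (a₁ + a₃) (b₁ + b₃) a₂ b₂
    have e2 := hp a₁ b₁ (a₂ - a₃) (b₂ - b₃)
    have e3 := hp (a₁ + a₂) (b₁ + b₂) a₃ b₃
    have e4 := hp a₂ b₂ a₃ b₃
    have r1 : a₁ + a₃ + a₂ = a₁ + a₂ + a₃ := by ring
    have r2 : b₁ + b₃ + b₂ = b₁ + b₂ + b₃ := by ring
    have r3 : a₁ + a₃ - a₂ = a₁ - (a₂ - a₃) := by ring
    have r4 : b₁ + b₃ - b₂ = b₁ - (b₂ - b₃) := by ring
    have r5 : a₁ + a₂ - a₃ = a₁ + (a₂ - a₃) := by ring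
    have r6 : b₁ + b₂ - b₃ = b₁ + (b₂ - b₃) := by ring
    have r7 : a₃ + a₁ = a₁ + a₃ := by ring
    have r8 : b₃ + b₁ = b₁ + b₃ := by ring
    rw [r1, r2, r3, r4] at e1
    rw [r5, r6] at e3
    rw [r7, r8]
    linarith
  have hQ0 : Q 0 0 = 0 := by
    have := hs 0 0 0; simpa using this
  have hη3 : η ^ 3 = 1 := by
    have : η ^ 3 - 1 = (η - 1) * (1 + η + η ^ 2) := by ring
    rw [hη, mul_zero] at this
    exact sub_eq_zero.mp this
  -- linearity in one direction
  have hlin : ∀ (a₁ : ℝ) (b₁ : ℂ) (a₂ : ℝ) (b₂ : ℂ) (t : ℝ),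
      Q (a₁ + t * a₂) (b₁ + t * b₂) = Q a₁ b₁
        + t * (Q (a₁ + a₂) (b₁ + b₂) - Q a₁ b₁ - Q a₂ b₂) + t ^ 2 * Q a₂ b₂ := by
    intro a₁ b₁ a₂ b₂ t
    set g : ℝ → ℝ := fun t => Q (a₁ + t * a₂) (b₁ + t * b₂) - Q a₁ b₁ - t ^ 2 * Q a₂ b₂ with hg
    have hadd : ∀ s t, g (s + t) = g s + g t := by
      intro s t
      have := h3 a₁ b₁ (s * a₂) (s * b₂) (t * a₂) (t * b₂)
      have e1 : Q (s * a₂ + t * a₂) (s * b₂ + t * b₂) = (s + t) ^ 2 * Q a₂ b₂ := by
        rw [← hs]; congr 1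
        · ring
        · push_cast; ring
      rw [e1, hs, hs] at this
      simp only [hg]
      have e2 : a₁ + s * a₂ + t * a₂ = a₁ + (s + t) * a₂ := by ring
      have e3 : b₁ + s * b₂ + t * b₂ = b₁ + ((s + t : ℝ) : ℂ) * b₂ := by push_cast; ring
      have e4 : t * a₂ + a₁ = a₁ + t * a₂ := by ring
      have e5 : (t : ℂ) * b₂ + b₁ = b₁ + t * b₂ := by ring
      rw [e2, e3, e4, e5] at this
      rw [this]; ring
    have hbd : ∀ t, 0 ≤ t → t ≤ 1 → |g t| ≤ 2 * Q a₁ b₁ + 2 * Q a₂ b₂ := by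
      intro t ht0 ht1
      have hp1 := hp a₁ b₁ (t * a₂) (t * b₂)
      rw [hs] at hp1
      have n1 := h0 (a₁ + t * a₂) (b₁ + t * b₂)
      have n2 := h0 (a₁ - t * a₂) (b₁ - t * b₂)
      have n3 := h0 a₁ b₁
      have n4 := h0 a₂ b₂
      have t2 : t ^ 2 ≤ 1 := by nlinarith
      have t3 : 0 ≤ t ^ 2 := by positivity
      have n5 : t ^ 2 * Q a₂ b₂ ≤ Q a₂ b₂ := by nlinarith
      have n6 : 0 ≤ t ^ 2 * Q a₂ b₂ := by positivity
      rw [abs_le]; constructor
      · simp only [hg]; linarith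
      · simp only [hg]; linarith
    have := additive_linear g hadd _ hbd t
    simp only [hg] at this
    simp only [one_pow, one_mul, Complex.ofReal_one] at this
    linarith
  -- the cross term vanishes
  have hcross : ∀ a b, Q a b = Q a 0 + Q 0 b := by
    intro a b
    have hB : ∀ b b', (Q a (b + b') - Q a 0 - Q 0 (b + b'))
        = (Q a b - Q a 0 - Q 0 b) + (Q a b' - Q a 0 - Q 0 b') := by
      intro b b'
      have := h3 a 0 0 b 0 b'
      simp only [add_zero, zero_add] at this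
      linarith
    have e1 := hB b (η * b)
    have e2 := hB (b + η * b) (η ^ 2 * b)
    have e3 : b + η * b + η ^ 2 * b = 0 := by
      have : b + η * b + η ^ 2 * b = (1 + η + η ^ 2) * b := by ring
      rw [this, hη, zero_mul]
    have e4 : η ^ 2 * b = η * (η * b) := by ring
    rw [e3, e4] at e2
    simp only [hinv, hQ0] at e1 e2
    linarith
  have hη_im : η.im ≠ 0 ∧ η.re = -1 / 2 ∧ η.im ^ 2 = 3 / 4 := by
    have hr := congrArg Complex.re hη
    have hi := congrArg Complex.im hη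
    simp [pow_two] at hr hi
    have hne : η.im ≠ 0 := by
      intro h
      rw [h] at hr
      nlinarith [sq_nonneg (η.re + 1 / 2)]
    have h1 : η.im * (1 + 2 * η.re) = 0 := by linarith
    have h2 : 1 + 2 * η.re = 0 := by
      rcases mul_eq_zero.mp h1 with h | h
      · exact absurd h hne
      · exact h
    refine ⟨hne, by linarith, ?_⟩
    have h3 : η.re = -1 / 2 := by linarith
    rw [h3] at hr
    nlinarith
  obtain ⟨him, hre, him2⟩ := hη_im
  have h01 : Q 0 η = Q 0 1 := by have := hinv 0 1; rwa [mul_one] at this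
  have hb1 : Q 0 (1 + η) = Q 0 1 := by
    have e : (1 + η : ℂ) = ((-1 : ℝ) : ℂ) * (η * (η * 1)) := by
      push_cast
      have : (1 + η : ℂ) = (1 + η + η ^ 2) - η ^ 2 := by ring
      rw [this, hη]; ring
    have := hs (-1) 0 (η * (η * 1))
    rw [mul_zero] at this
    rw [e, this, hinv, hinv]; ring
  have hf : ∀ x y : ℝ, Q 0 (x + y * η) = Q 0 1 * (x ^ 2 - x * y + y ^ 2) := by
    intro x y
    have e1 := hlin 0 x 0 η y
    have e2 := hlin 0 η 0 1 x
    have e3 := hs x 0 1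
    simp only [mul_zero, add_zero, mul_one] at e1 e2 e3
    rw [h01, add_comm η 1, hb1] at e2
    rw [e1, h01, e3, add_comm (x : ℂ) η, e2]
    ring
  rw [hcross a b]
  have ea : Q a 0 = Q 1 0 * a ^ 2 := by
    have := hs a 1 0
    rw [mul_one, mul_zero] at this
    rw [this]; ring
  have eb : Q 0 b = Q 0 1 * ‖b‖ ^ 2 := by
    have hb : b = ((b.re + b.im / η.im / 2 : ℝ) : ℂ) + ((b.im / η.im : ℝ) : ℂ) * η := by
      apply Complex.ext
      · simp only [Complex.add_re, Complex.ofReal_re, Complex.mul_re, Complex.ofReal_im, zero_mul,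
          sub_zero, hre]
        ring
      · simp only [Complex.add_im, Complex.ofReal_im, Complex.mul_im, Complex.ofReal_re, zero_mul,
          add_zero, zero_add]
        field_simp
    have e := hf (b.re + b.im / η.im / 2) (b.im / η.im)
    rw [← hb] at e
    rw [e]
    congr 1
    rw [Complex.sq_norm, Complex.normSq_apply]
    have : (b.im / η.im) ^ 2 * (3 / 4) = b.im ^ 2 := by
      rw [← him2]; field_simp
    nlinarith [this]
  rw [ea, eb]

end Pool.Agent.ShearComposite
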