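import Pool.Agent.ShearComposite.Base
import Pool.Agent.ShearComposite.Quad
import Pool.Agent.ShearComposite.Inf

/-!
# Isotropy of threefold symmetric plane composites
-/

open MeasureTheory Metric
open scoped ContDiff

namespace Pool.Agent.ShearComposite

/-! ### Algebra of the density -/

theorem b_dz_add (L L' : ℂ →L[ℝ] ℂ) : dz (L + L') = dz L + dz L' := by
  simp only [dz, add_apply]; ring

theorem b_dz_sub (L L' : ℂ →L[ℝ] ℂ) : dz (L - L') = dz L - dz L' := by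
  simp only [dz, sub_apply]; ring

theorem b_dzb_add (L L' : ℂ →L[ℝ] ℂ) : dzb (L + L') = dzb L + dzb L' := by
  simp only [dzb, add_apply]; ring

theorem b_dzb_sub (L L' : ℂ →L[ℝ] ℂ) : dzb (L - L') = dzb L - dzb L' := by
  simp only [dzb, sub_apply]; ring

theorem b_dz_smul (t : ℝ) (L : ℂ →L[ℝ] ℂ) : dz (t • L) = t * dz L := by
  simp only [dz, smul_apply, Complex.real_smul]; ring

theorem b_dzb_smul (t : ℝ) (L : ℂ →L[ℝ] ℂ) : dzb (t • L) = t * dzb L := by
  simp only [dzb, smul_apply, Complex.real_smul]; ring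

theorem b_dens_nonneg (κ μ : ℝ) (hκ : 0 < κ) (hμ : 0 < μ) (α : ℝ) (β : ℂ) (L : ℂ →L[ℝ] ℂ) :
    0 ≤ dens κ μ α β L := by
  unfold dens; positivity

theorem b_dens_smul (κ μ t α : ℝ) (β : ℂ) (L : ℂ →L[ℝ] ℂ) :
    dens κ μ (t * α) (t * β) (t • L) = t ^ 2 * dens κ μ α β L := by
  unfold dens
  rw [b_dz_smul, b_dzb_smul, ← mul_add, norm_mul, Complex.norm_real, mul_pow, Real.norm_eq_abs,
    sq_abs, Complex.re_ofReal_mul]
  ring

theorem b_dens_par (κ μ α α' : ℝ) (β β' : ℂ) (L L' : ℂ →L[ℝ] ℂ) :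
    dens κ μ (α + α') (β + β') (L + L') + dens κ μ (α - α') (β - β') (L - L')
      = 2 * dens κ μ α β L + 2 * dens κ μ α' β' L' := by
  unfold dens
  have h := parallelogram_law_with_norm ℝ (β + dzb L) (β' + dzb L')
  rw [b_dz_add, b_dz_sub, b_dzb_add, b_dzb_sub, Complex.add_re, Complex.sub_re]
  have e1 : β + β' + (dzb L + dzb L') = β + dzb L + (β' + dzb L') := by ring
  have e2 : β - β' + (dzb L - dzb L') = β + dzb L - (β' + dzb L') := by ring
  rw [e1, e2]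
  linear_combination 4 * μ * h

/-! ### Integrability -/

theorem b_continuous_fderiv (b : Module.Basis (Fin 2) ℝ ℂ) (u : Per b) :
    Continuous (fderiv ℝ (u : ℂ → ℂ)) :=
  u.2.1.continuous_fderiv (by simp)

theorem b_differentiable (b : Module.Basis (Fin 2) ℝ ℂ) (u : Per b) :
    Differentiable ℝ (u : ℂ → ℂ) :=
  u.2.1.differentiable (by simp)

theorem b_continuous_dens (κ μ α : ℝ) (β : ℂ) : Continuous (dens κ μ α β) := by
  unfold dens dz dzb
  fun_prop

theorem b_integrableOn (κ μ : ℝ) (b : Module.Basis (Fin 2) ℝ ℂ) (Ω : Set ℂ) (α : ℝ) (β : ℂ)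
    (u : Per b) : IntegrableOn (fun z => dens κ μ α β (fderiv ℝ (u : ℂ → ℂ) z)) (Cell b ∩ Ω) := by
  have hc : Continuous (fun z => dens κ μ α β (fderiv ℝ (u : ℂ → ℂ) z)) :=
    (b_continuous_dens κ μ α β).comp (b_continuous_fderiv b u)
  obtain ⟨R, hR⟩ := (ZSpan.fundamentalDomain_isBounded b).subset_closedBall 0
  exact (hc.continuousOn.integrableOn_compact (isCompact_closedBall 0 R)).mono_set
    (Set.inter_subset_left.trans hR)

/-! ### The energy is a quadratic functional -/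

theorem b_En_nonneg (κ μ : ℝ) (hκ : 0 < κ) (hμ : 0 < μ) (b : Module.Basis (Fin 2) ℝ ℂ)
    (Ω : Set ℂ) (v : ℝ × ℂ) (u : Per b) : 0 ≤ En κ μ b Ω v u := by
  unfold En
  apply mul_nonneg (by positivity)
  exact integral_nonneg (fun z => b_dens_nonneg κ μ hκ hμ _ _ _)

theorem b_En_smul (κ μ : ℝ) (b : Module.Basis (Fin 2) ℝ ℂ)
    (Ω : Set ℂ) (t : ℝ) (v : ℝ × ℂ) (u : Per b) :
    En κ μ b Ω (t • v) (t • u) = t ^ 2 * En κ μ b Ω v u := by
  unfold En
  have h : ∀ z, dens κ μ (t • v).1 (t • v).2 (fderiv ℝ ((t • u : Per b) : ℂ → ℂ) z)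
      = t ^ 2 * dens κ μ v.1 v.2 (fderiv ℝ (u : ℂ → ℂ) z) := by
    intro z
    rw [← b_dens_smul]
    congr 1
    exact fderiv_const_smul (b_differentiable b u z) t
  simp_rw [h]
  rw [integral_const_mul]
  ring

theorem b_En_par (κ μ : ℝ) (b : Module.Basis (Fin 2) ℝ ℂ)
    (Ω : Set ℂ) (v : ℝ × ℂ) (u : Per b) (v' : ℝ × ℂ) (u' : Per b) :
    En κ μ b Ω (v + v') (u + u') + En κ μ b Ω (v - v') (u - u')
      = 2 * En κ μ b Ω v u + 2 * En κ μ b Ω v' u' := by
  unfold En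
  have h : ∀ z, dens κ μ (v + v').1 (v + v').2 (fderiv ℝ ((u + u' : Per b) : ℂ → ℂ) z)
      + dens κ μ (v - v').1 (v - v').2 (fderiv ℝ ((u - u' : Per b) : ℂ → ℂ) z)
      = 2 * dens κ μ v.1 v.2 (fderiv ℝ (u : ℂ → ℂ) z)
        + 2 * dens κ μ v'.1 v'.2 (fderiv ℝ (u' : ℂ → ℂ) z) := by
    intro z
    have e1 : fderiv ℝ ((u + u' : Per b) : ℂ → ℂ) z
        = fderiv ℝ (u : ℂ → ℂ) z + fderiv ℝ (u' : ℂ → ℂ) z :=
      fderiv_add (b_differentiable b u z) (b_differentiable b u' z)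
    have e2 : fderiv ℝ ((u - u' : Per b) : ℂ → ℂ) z
        = fderiv ℝ (u : ℂ → ℂ) z - fderiv ℝ (u' : ℂ → ℂ) z :=
      fderiv_sub (b_differentiable b u z) (b_differentiable b u' z)
    rw [e1, e2]
    exact b_dens_par κ μ _ _ _ _ _ _
  rw [← mul_add, ← integral_add (b_integrableOn κ μ b Ω _ _ _) (b_integrableOn κ μ b Ω _ _ _)]
  simp_rw [h]
  rw [integral_add ((b_integrableOn κ μ b Ω _ _ _).const_mul 2)
    ((b_integrableOn κ μ b Ω _ _ _).const_mul 2), integral_const_mul, integral_const_mul]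
  ring

/-! ### Rotations -/

theorem b_hexEta_cube : hexEta ^ 3 = -1 := by
  have h := hexEta_sq
  linear_combination (hexEta + 1) * h

theorem b_norm_hexEta : ‖hexEta‖ = 1 := by
  have h : ‖hexEta‖ ^ 3 = 1 := by rw [← norm_pow, b_hexEta_cube]; simp
  exact (pow_eq_one_iff_of_nonneg (norm_nonneg _) (by norm_num)).mp h

theorem b_hexEta_ne : hexEta ≠ 0 := by
  intro h
  have := b_norm_hexEta
  rw [h] at this
  simp at this

/-- the unit number `ζ⁻¹ = η⁴` -/
noncomputable def b_circ : Circle :=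
  Subtype.mk (hexEta ^ 4) (mem_sphere_zero_iff_norm.2 (by simp [b_norm_hexEta]))

/-- the linear isometry `z ↦ ζ⁻¹ z` with `ζ = η²` -/
noncomputable def b_rot : ℂ ≃ₗᵢ[ℝ] ℂ := rotation b_circ

theorem b_rot_apply (z : ℂ) : b_rot z = hexEta ^ 4 * z := by
  rw [b_rot, rotation_apply]; rfl

theorem b_periods (b : Module.Basis (Fin 2) ℝ ℂ) {E : Type} (F : ℂ → E)
    (hF : ∀ i z, F (z + b i) = F z) (g : ℂ) (hg : g ∈ Submodule.span ℤ (Set.range b)) (x : ℂ) :
    F (g + x) = F x := by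
  let P : AddSubgroup ℂ :=
    { carrier := {g | ∀ x, F (g + x) = F x}
      add_mem' := by
        intro g g' hg hg' x
        rw [add_assoc, hg, hg']
      zero_mem' := by
        intro x
        rw [zero_add]
      neg_mem' := by
        intro g hg x
        rw [← hg (-g + x), add_neg_cancel_left] }
  have h1 : Submodule.span ℤ (Set.range b) ≤ AddSubgroup.toIntSubmodule P := by
    rw [Submodule.span_le]
    rintro _ ⟨i, rfl⟩ x
    rw [add_comm, hF]
  exact h1 hg x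

theorem b_span : Submodule.span ℤ (Set.range (hexBasis.map b_rot.toLinearEquiv))
    = Submodule.span ℤ (Set.range hexBasis) := by
  have h0 : hexBasis.map b_rot.toLinearEquiv 0 = - hexEta := by
    have := b_hexEta_cube
    simp only [Module.Basis.map_apply, hexBasis_zero, LinearIsometryEquiv.coe_toLinearEquiv,
      b_rot_apply]
    linear_combination hexEta * this
  have h1 : hexBasis.map b_rot.toLinearEquiv 1 = 1 - hexEta := by
    have := b_hexEta_cube
    have h2 := hexEta_sq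
    simp only [Module.Basis.map_apply, hexBasis_one, LinearIsometryEquiv.coe_toLinearEquiv,
      b_rot_apply]
    linear_combination hexEta ^ 2 * this - h2
  have m0 : (1 : ℂ) ∈ Submodule.span ℤ (Set.range hexBasis) :=
    Submodule.subset_span ⟨0, hexBasis_zero⟩
  have m1 : hexEta ∈ Submodule.span ℤ (Set.range hexBasis) :=
    Submodule.subset_span ⟨1, hexBasis_one⟩
  have n0 : - hexEta ∈ Submodule.span ℤ (Set.range (hexBasis.map b_rot.toLinearEquiv)) :=
    Submodule.subset_span ⟨0, h0⟩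
  have n1 : 1 - hexEta ∈ Submodule.span ℤ (Set.range (hexBasis.map b_rot.toLinearEquiv)) :=
    Submodule.subset_span ⟨1, h1⟩
  apply le_antisymm
  · rw [Submodule.span_le]
    rintro _ ⟨i, rfl⟩
    fin_cases i
    · change hexBasis.map b_rot.toLinearEquiv 0 ∈ _
      rw [h0]
      exact Submodule.neg_mem _ m1
    · change hexBasis.map b_rot.toLinearEquiv 1 ∈ _
      rw [h1]
      exact Submodule.sub_mem _ m0 m1
  · rw [Submodule.span_le]
    rintro _ ⟨i, rfl⟩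
    fin_cases i
    · change hexBasis 0 ∈ _
      rw [hexBasis_zero]
      have := Submodule.sub_mem _ n1 n0
      simpa using this
    · change hexBasis 1 ∈ _
      rw [hexBasis_one]
      have := Submodule.neg_mem _ n0
      simpa using this

theorem b_cell_rot (F : ℂ → ℝ) (hF : ∀ i z, F (z + hexBasis i) = F z) :
    ∫ z in Cell hexBasis, F (hexEta ^ 4 * z) = ∫ z in Cell hexBasis, F z := by
  have e1 : ∫ z in Cell hexBasis, F (hexEta ^ 4 * z)
      = ∫ z in b_rot '' (Cell hexBasis), F z := by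
    rw [b_rot.measurePreserving.setIntegral_image_emb
      b_rot.toHomeomorph.measurableEmbedding]
    simp_rw [b_rot_apply]
  have e2 : b_rot '' (Cell hexBasis)
      = ZSpan.fundamentalDomain (hexBasis.map b_rot.toLinearEquiv) :=
    ZSpan.map_fundamentalDomain hexBasis b_rot.toLinearEquiv
  have d1 := ZSpan.isAddFundamentalDomain' hexBasis volume
  have d2 := ZSpan.isAddFundamentalDomain' (hexBasis.map b_rot.toLinearEquiv) volume
  rw [b_span] at d2
  rw [e1, e2]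
  have : VAddInvariantMeasure (Submodule.span ℤ (Set.range hexBasis)).toAddSubgroup ℂ volume :=
    inferInstance
  have : Countable (Submodule.span ℤ (Set.range hexBasis)).toAddSubgroup :=
    inferInstanceAs (Countable (Submodule.span ℤ (Set.range hexBasis)))
  apply d2.setIntegral_eq d1
  intro g x
  exact b_periods hexBasis F hF g g.2 x

/-- the rotated displacement -/
noncomputable def b_rotDisp (u : Per hexBasis) : Per hexBasis :=
  ⟨fun z => hexEta ^ 2 * (u : ℂ → ℂ) (hexEta ^ 4 * z), by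
    constructor
    · have h := u.2.1
      fun_prop
    · intro i z
      have hi : hexEta ^ 4 * hexBasis i ∈ Submodule.span ℤ (Set.range hexBasis) := by
        rw [← b_span]
        apply Submodule.subset_span
        exact ⟨i, by simp [b_rot_apply]⟩
      simp only
      rw [mul_add, add_comm (hexEta ^ 4 * z), b_periods hexBasis (u : ℂ → ℂ) u.2.2 _ hi]⟩

theorem b_fderiv_rotDisp (u : Per hexBasis) (z h : ℂ) :
    fderiv ℝ (b_rotDisp u : ℂ → ℂ) z h
      = hexEta ^ 2 * fderiv ℝ (u : ℂ → ℂ) (hexEta ^ 4 * z) (hexEta ^ 4 * h) := by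
  have h1 : HasFDerivAt (u : ℂ → ℂ) (fderiv ℝ (u : ℂ → ℂ) (hexEta ^ 4 * z)) (hexEta ^ 4 * z) :=
    (b_differentiable hexBasis u _).hasFDerivAt
  have h2 : HasFDerivAt (fun z : ℂ => hexEta ^ 4 * z)
      (hexEta ^ 4 • ContinuousLinearMap.id ℝ ℂ) z := (hasFDerivAt_id z).const_mul _
  have h3 := (h1.comp z h2).const_mul (hexEta ^ 2)
  have h4 : fderiv ℝ (b_rotDisp u : ℂ → ℂ) z = _ := h3.fderiv
  rw [h4]
  simp

theorem b_linear_expand (L : ℂ →L[ℝ] ℂ) (w : ℂ) :
    L w = dz L * w + dzb L * (starRingEnd ℂ) w := by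
  have e : w = w.re • (1 : ℂ) + w.im • Complex.I := by
    simp [Complex.real_smul]
  conv_lhs => rw [e]
  rw [map_add, map_smul, map_smul]
  have e2 : w = (w.re : ℂ) + (w.im : ℂ) * Complex.I := (Complex.re_add_im w).symm
  have e3 : (starRingEnd ℂ) w = (w.re : ℂ) - (w.im : ℂ) * Complex.I := by
    apply Complex.ext <;> simp
  rw [e3]
  conv_rhs => rw [e2]
  simp only [dz, dzb, Complex.real_smul]
  have hI : Complex.I * Complex.I = -1 := Complex.I_mul_I
  simp only [Complex.add_re, Complex.ofReal_re, Complex.mul_re, Complex.I_re, Complex.I_im, Complex.ofReal_im, Complex.add_im, Complex.mul_im, mul_zero, mul_one, add_zero, zero_add, sub_self]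
  linear_combination ((w.im : ℂ) * L Complex.I) * hI

theorem b_conj : (starRingEnd ℂ) (hexEta ^ 4) = hexEta ^ 2 := by
  have h : (starRingEnd ℂ) hexEta = 1 - hexEta := by
    apply Complex.ext
    · simp [hexEta]; norm_num
    · simp [hexEta]
  have h2 := hexEta_sq
  rw [map_pow, h]
  linear_combination (hexEta ^ 2 - 3 * hexEta + 1) * h2

theorem b_dz_rotDisp (u : Per hexBasis) (z : ℂ) :
    dz (fderiv ℝ (b_rotDisp u : ℂ → ℂ) z) = dz (fderiv ℝ (u : ℂ → ℂ) (hexEta ^ 4 * z)) := by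
  have h3 := b_hexEta_cube
  conv_lhs => rw [dz, b_fderiv_rotDisp, b_fderiv_rotDisp, b_linear_expand, b_linear_expand]
  rw [map_mul, map_mul, b_conj, Complex.conj_I, map_one]
  generalize dz (fderiv ℝ (u : ℂ → ℂ) (hexEta ^ 4 * z)) = a
  generalize dzb (fderiv ℝ (u : ℂ → ℂ) (hexEta ^ 4 * z)) = b
  have hI : Complex.I * Complex.I = -1 := Complex.I_mul_I
  linear_combination (a * (hexEta ^ 3 - 1)) * h3 +
    (-hexEta ^ 2 / 2 * (a * hexEta ^ 4 - b * hexEta ^ 2)) * hI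

theorem b_dzb_rotDisp (u : Per hexBasis) (z : ℂ) :
    dzb (fderiv ℝ (b_rotDisp u : ℂ → ℂ) z)
      = hexEta ^ 4 * dzb (fderiv ℝ (u : ℂ → ℂ) (hexEta ^ 4 * z)) := by
  conv_lhs => rw [dzb, b_fderiv_rotDisp, b_fderiv_rotDisp, b_linear_expand, b_linear_expand]
  rw [map_mul, map_mul, b_conj, Complex.conj_I, map_one]
  generalize dz (fderiv ℝ (u : ℂ → ℂ) (hexEta ^ 4 * z)) = a
  generalize dzb (fderiv ℝ (u : ℂ → ℂ) (hexEta ^ 4 * z)) = b
  have hI : Complex.I * Complex.I = -1 := Complex.I_mul_I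
  linear_combination (hexEta ^ 2 / 2 * (a * hexEta ^ 4 - b * hexEta ^ 2)) * hI

theorem b_dens_rotDisp (κ μ α : ℝ) (β : ℂ) (u : Per hexBasis) (z : ℂ) :
    dens κ μ α (hexEta ^ 4 * β) (fderiv ℝ (b_rotDisp u : ℂ → ℂ) z)
      = dens κ μ α β (fderiv ℝ (u : ℂ → ℂ) (hexEta ^ 4 * z)) := by
  unfold dens
  rw [b_dz_rotDisp, b_dzb_rotDisp, ← mul_add, norm_mul, norm_pow, b_norm_hexEta, one_pow, one_mul]

theorem b_fderiv_periodic (b : Module.Basis (Fin 2) ℝ ℂ) (u : Per b) (i : Fin 2) (z : ℂ) :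
    fderiv ℝ (u : ℂ → ℂ) (z + b i) = fderiv ℝ (u : ℂ → ℂ) z := by
  have h : (u : ℂ → ℂ) = fun z => (u : ℂ → ℂ) (z + b i) := by
    funext z; rw [u.2.2]
  conv_rhs => rw [h]
  rw [fderiv_comp_add_right]

theorem b_En_rot (κ μ : ℝ) (Ω : Set ℂ) (hΩ : MeasurableSet Ω)
    (hper : ∀ i z, z + hexBasis i ∈ Ω ↔ z ∈ Ω)
    (hrot : ∀ z, hexEta ^ 2 * z ∈ Ω ↔ z ∈ Ω) (α : ℝ) (β : ℂ) (u : Per hexBasis) :
    En κ μ hexBasis Ω (α, hexEta ^ 4 * β) (b_rotDisp u) = En κ μ hexBasis Ω (α, β) u := by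
  unfold En
  congr 1
  have hm : MeasurableSet (Cell hexBasis) := ZSpan.fundamentalDomain_measurableSet hexBasis
  rw [← setIntegral_indicator hΩ, ← setIntegral_indicator hΩ]
  have hr4 : ∀ z, hexEta ^ 4 * z ∈ Ω ↔ z ∈ Ω := by
    intro z
    rw [← hrot z, ← hrot (hexEta ^ 2 * z)]
    have : hexEta ^ 2 * (hexEta ^ 2 * z) = hexEta ^ 4 * z := by ring
    rw [this]
  have key := b_cell_rot (Ω.indicator fun z => dens κ μ α β (fderiv ℝ (u : ℂ → ℂ) z)) (by
    intro i z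
    by_cases hz : z ∈ Ω
    · rw [Set.indicator_of_mem hz, Set.indicator_of_mem ((hper i z).2 hz), b_fderiv_periodic]
    · rw [Set.indicator_of_notMem hz, Set.indicator_of_notMem (fun h => hz ((hper i z).1 h))])
  rw [← key]
  congr 1
  funext z
  by_cases hz : z ∈ Ω
  · rw [Set.indicator_of_mem hz, Set.indicator_of_mem ((hr4 z).2 hz)]
    exact b_dens_rotDisp κ μ α β u z
  · rw [Set.indicator_of_notMem hz, Set.indicator_of_notMem (fun h => hz ((hr4 z).1 h))]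

theorem b_infQ_smul (κ μ : ℝ) (Ω : Set ℂ)
    (h0 : ∀ v u, 0 ≤ En κ μ hexBasis Ω v u)
    (hs : ∀ (t : ℝ) (v : ℝ × ℂ) (u : Per hexBasis),
      En κ μ hexBasis Ω (t • v) (t • u) = t ^ 2 * En κ μ hexBasis Ω v u) (t : ℝ) (v : ℝ × ℂ) :
    infQ (En κ μ hexBasis Ω) (t • v) = t ^ 2 * infQ (En κ μ hexBasis Ω) v := by
  have := @infQ_smul (ℝ × ℂ) (Per hexBasis) _ _ _ _ (En κ μ hexBasis Ω) h0
  exact this hs t v

theorem b_infQ_par (κ μ : ℝ) (Ω : Set ℂ)
    (h0 : ∀ v u, 0 ≤ En κ μ hexBasis Ω v u)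
    (hs : ∀ (t : ℝ) (v : ℝ × ℂ) (u : Per hexBasis),
      En κ μ hexBasis Ω (t • v) (t • u) = t ^ 2 * En κ μ hexBasis Ω v u)
    (hp : ∀ (v : ℝ × ℂ) (u : Per hexBasis) (v' : ℝ × ℂ) (u' : Per hexBasis),
      En κ μ hexBasis Ω (v + v') (u + u') + En κ μ hexBasis Ω (v - v') (u - u')
        = 2 * En κ μ hexBasis Ω v u + 2 * En κ μ hexBasis Ω v' u') (v v' : ℝ × ℂ) :
    infQ (En κ μ hexBasis Ω) (v + v') + infQ (En κ μ hexBasis Ω) (v - v')
      = 2 * infQ (En κ μ hexBasis Ω) v + 2 * infQ (En κ μ hexBasis Ω) v' := by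
  have h1 := @infQ_parallelogram (ℝ × ℂ) (Per hexBasis) _ _ _ _ (En κ μ hexBasis Ω) h0
  have h2 := h1 hs
  have h3 := h2 hp
  exact h3 v v'

/-- TASK B -/
theorem Weff_isotropic (κ μ : ℝ) (hκ : 0 < κ) (hμ : 0 < μ) (Ω : Set ℂ) (hΩ : MeasurableSet Ω)
    (hper : ∀ i z, z + hexBasis i ∈ Ω ↔ z ∈ Ω)
    (hrot : ∀ z, hexEta ^ 2 * z ∈ Ω ↔ z ∈ Ω) (α : ℝ) (β : ℂ) :
    Weff κ μ hexBasis Ω α β =
      Weff κ μ hexBasis Ω 1 0 * α ^ 2 + Weff κ μ hexBasis Ω 0 1 * ‖β‖ ^ 2 := by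
  have h0 : ∀ v u, 0 ≤ En κ μ hexBasis Ω v u := b_En_nonneg κ μ hκ hμ hexBasis Ω
  have hs := b_infQ_smul κ μ Ω h0 (b_En_smul κ μ hexBasis Ω)
  have hp := b_infQ_par κ μ Ω h0 (b_En_smul κ μ hexBasis Ω) (b_En_par κ μ hexBasis Ω)
  have hW : ∀ α β, Weff κ μ hexBasis Ω α β = infQ (En κ μ hexBasis Ω) (α, β) := fun _ _ => rfl
  have hle : ∀ α β, Weff κ μ hexBasis Ω α (hexEta ^ 4 * β) ≤ Weff κ μ hexBasis Ω α β := by
    intro α β
    rw [hW, hW]
    apply le_infQ
    intro u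
    rw [← b_En_rot κ μ Ω hΩ hper hrot]
    exact infQ_le h0 _ _
  have h3 := b_hexEta_cube
  have h2 := hexEta_sq
  refine isotropic_of_parallelogram (Weff κ μ hexBasis Ω) ?_ ?_ ?_ (hexEta ^ 4) ?_ ?_ α β
  · intro a b
    rw [hW]
    exact infQ_nonneg h0 _
  · intro a b a' b'
    have h := hp (a, b) (a', b')
    rw [Prod.mk_add_mk, Prod.mk_sub_mk] at h
    rw [hW, hW, hW, hW]
    exact h
  · intro t a b
    have h := hs t (a, b)
    rw [Prod.smul_mk, smul_eq_mul, Complex.real_smul] at h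
    rw [hW, hW]
    exact h
  · linear_combination (hexEta ^ 5 - hexEta ^ 2 + hexEta) * h3 + h2
  · intro a b
    apply le_antisymm (hle a b)
    have e1 := hle a (hexEta ^ 4 * b)
    have e2 := hle a (hexEta ^ 4 * (hexEta ^ 4 * b))
    have e3 : hexEta ^ 4 * (hexEta ^ 4 * (hexEta ^ 4 * b)) = b := by
      linear_combination (b * (hexEta ^ 9 - hexEta ^ 6 + hexEta ^ 3 - 1)) * h3
    rw [e3] at e2
    exact e2.trans e1

end Pool.Agent.ShearComposite
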