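import Pool.Agent.ShearComposite.Base

/-!
# Periodization, null Lagrangians, and the cell integral of a derivative
-/

set_option autoImplicit false

open MeasureTheory Metric
open scoped ContDiff Pointwise

namespace Pool.Agent.ShearComposite

/-! ### periodization -/

theorem d_per_span {b : Module.Basis (Fin 2) ℝ ℂ} {u : ℂ → ℂ} (hu : ∀ i z, u (z + b i) = u z)
    {v : ℂ} (hv : v ∈ Submodule.span ℤ (Set.range b)) : ∀ z, u (z + v) = u z := by
  induction hv using Submodule.span_induction with
  | mem x hx =>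
    obtain ⟨i, rfl⟩ := hx
    exact hu i
  | zero => simp
  | add x y _ _ hx hy =>
    intro z
    rw [← add_assoc, hy, hx]
  | smul a x _ hx =>
    have h1 : ∀ (n : ℕ) z, u (z + n • x) = u z := by
      intro n
      induction n with
      | zero => simp
      | succ n ih =>
        intro z
        rw [succ_nsmul, ← add_assoc, hx, ih]
    intro z
    obtain ⟨n, rfl | rfl⟩ := a.eq_nat_or_neg
    · simpa using h1 n z
    · have h2 := h1 n (z + -((n : ℤ) • x))
      simp only [neg_smul] at *
      rw [← h2]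
      congr 1
      simp

theorem d_local (b : Module.Basis (Fin 2) ℝ ℂ) (f : ℂ → ℂ)
    (hc : HasCompactSupport f) (hs : tsupport f ⊆ interior (Cell b)) (z₀ : ℂ) :
    (fun z => f (ZSpan.fract b z)) =ᶠ[nhds z₀] fun z => f (z - ZSpan.floor b z₀) := by
  obtain ⟨δ, hδ, hδ'⟩ := hc.isCompact.exists_thickening_subset_open isOpen_interior hs
  filter_upwards [Metric.ball_mem_nhds z₀ hδ] with z hz
  rw [Metric.mem_ball] at hz
  by_cases h1 : f (z - ZSpan.floor b z₀) = 0
  · rw [h1]
    by_contra h2
    have h3 : ZSpan.fract b z ∈ tsupport f := subset_tsupport f h2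
    -- then `z₀` has the same floor as `z`
    have h4 : z₀ - (ZSpan.floor b z : ℂ) ∈ Metric.thickening δ (tsupport f) := by
      rw [Metric.mem_thickening_iff]
      refine ⟨ZSpan.fract b z, h3, ?_⟩
      rw [ZSpan.fract_apply, dist_sub_right, dist_comm]
      exact hz
    have h5 : z₀ - (ZSpan.floor b z : ℂ) ∈ ZSpan.fundamentalDomain b :=
      interior_subset (hδ' h4)
    have h6 : ZSpan.fract b (z₀ - (ZSpan.floor b z : ℂ)) = z₀ - (ZSpan.floor b z : ℂ) :=
      ZSpan.fract_eq_self.2 h5
    have h7 : ZSpan.fract b (z₀ - (ZSpan.floor b z : ℂ)) = ZSpan.fract b z₀ := by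
      rw [sub_eq_add_neg]
      exact ZSpan.fract_add_ZSpan b z₀ (neg_mem (ZSpan.floor b z).2)
    have h8 : (ZSpan.floor b z : ℂ) = ZSpan.floor b z₀ := by
      rw [h6, ZSpan.fract_apply] at h7
      exact sub_right_injective h7
    apply h2
    rw [ZSpan.fract_apply, h8]
    exact h1
  · have h3 : z - (ZSpan.floor b z₀ : ℂ) ∈ tsupport f := subset_tsupport f h1
    have h5 : z - (ZSpan.floor b z₀ : ℂ) ∈ ZSpan.fundamentalDomain b :=
      interior_subset (hs h3)
    have h6 := ZSpan.fract_eq_self.2 h5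
    have h7 : ZSpan.fract b (z - (ZSpan.floor b z₀ : ℂ)) = ZSpan.fract b z := by
      rw [sub_eq_add_neg]
      exact ZSpan.fract_add_ZSpan b z (neg_mem (ZSpan.floor b z₀).2)
    rw [← h7, h6]

/-- TASK D1 -/
theorem periodize (b : Module.Basis (Fin 2) ℝ ℂ) (f : ℂ → ℂ) (hf : ContDiff ℝ ∞ f)
    (hc : HasCompactSupport f) (hs : tsupport f ⊆ interior (Cell b)) :
    ∃ g : Per b, ∀ z ∈ interior (Cell b), (g : ℂ → ℂ) =ᶠ[nhds z] f := by
  refine ⟨⟨fun z => f (ZSpan.fract b z), ?_, ?_⟩, ?_⟩
  · rw [contDiff_iff_contDiffAt]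
    intro z₀
    refine ContDiffAt.congr_of_eventuallyEq ?_ (d_local b f hc hs z₀)
    exact (hf.comp (contDiff_id.sub contDiff_const)).contDiffAt
  · intro i z
    change f (ZSpan.fract b (z + b i)) = f (ZSpan.fract b z)
    rw [ZSpan.fract_add_ZSpan b z (Submodule.subset_span ⟨i, rfl⟩)]
  · intro z hz
    filter_upwards [isOpen_interior.mem_nhds hz] with w hw
    rw [ZSpan.fract_eq_self.2 (interior_subset hw)]

/-! ### the null Lagrangian -/

/-- TASK D2 -/
theorem integral_null_lagrangian (p : ℂ → ℝ) (hp : ContDiff ℝ ∞ p) (hc : HasCompactSupport p)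
    (f : ℂ → ℝ) (hf : ContDiff ℝ ∞ f) :
    ∫ z, (fderiv ℝ p z Complex.I * fderiv ℝ f z 1 - fderiv ℝ p z 1 * fderiv ℝ f z Complex.I)
      = 0 := by
  have hdp : ∀ v : ℂ, ContDiff ℝ ∞ (fun z => fderiv ℝ p z v) := fun v =>
    (hp.fderiv_right (m := ∞) (by norm_num)).clm_apply contDiff_const
  have hdf : ∀ v : ℂ, ContDiff ℝ ∞ (fun z => fderiv ℝ f z v) := fun v =>
    (hf.fderiv_right (m := ∞) (by norm_num)).clm_apply contDiff_const
  have hcp : ∀ v : ℂ, HasCompactSupport (fun z => fderiv ℝ p z v) := fun v =>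
    hc.fderiv_apply ℝ v
  have key : ∀ v w : ℂ, ∫ z, fderiv ℝ p z v * fderiv ℝ f z w =
      - ∫ z, p z * fderiv ℝ (fun z => fderiv ℝ f z w) z v := by
    intro v w
    have h := integral_mul_fderiv_eq_neg_fderiv_mul_of_integrable (μ := (volume : Measure ℂ))
      (f := fun z => fderiv ℝ f z w) (g := p) (v := v) ?_ ?_ ?_ ?_ ?_
    · calc ∫ z, fderiv ℝ p z v * fderiv ℝ f z w = ∫ z, fderiv ℝ f z w * fderiv ℝ p z v := by
            simp_rw [mul_comm]
        _ = _ := by rw [h]; simp_rw [mul_comm]
    · refine Continuous.integrable_of_hasCompactSupport ?_ (hc.mul_left)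
      exact (((hdf w).continuous_fderiv (by norm_num)).clm_apply continuous_const).mul
        hp.continuous
    · refine Continuous.integrable_of_hasCompactSupport ?_ (hcp v).mul_left
      exact (hdf w).continuous.mul (hdp v).continuous
    · refine Continuous.integrable_of_hasCompactSupport ?_ hc.mul_left
      exact (hdf w).continuous.mul hp.continuous
    · intro x _
      exact (hdf w).differentiable (by norm_num) x
    · intro x _
      exact hp.differentiable (by norm_num) x
  have hint : ∀ v w : ℂ, Integrable (fun z => fderiv ℝ p z v * fderiv ℝ f z w) := by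
    intro v w
    refine Continuous.integrable_of_hasCompactSupport ?_ (hcp v).mul_right
    exact (hdp v).continuous.mul (hdf w).continuous
  rw [integral_sub (hint _ _) (hint _ _), key, key, sub_neg_eq_add, neg_add_eq_zero]
  refine integral_congr_ae (Filter.Eventually.of_forall fun z => ?_)
  simp only
  congr 1
  have hd2 : ∀ v : ℂ, ∀ w, fderiv ℝ (fun z => fderiv ℝ f z v) z w =
      fderiv ℝ (fderiv ℝ f) z w v := by
    intro v w
    have h1 : DifferentiableAt ℝ (fderiv ℝ f) z :=
      ((hf.fderiv_right (m := ∞) (by norm_num)).differentiable (by norm_num)) z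
    rw [fderiv_clm_apply h1 (differentiableAt_const v)]
    simp
  rw [hd2, hd2]
  have hsymm : IsSymmSndFDerivAt ℝ f z :=
    (hf.contDiffAt).isSymmSndFDerivAt (by
      simp only [minSmoothness_of_isRCLikeNormedField]
      exact WithTop.coe_le_coe.2 (le_top : (2 : ℕ∞) ≤ ⊤))
  exact hsymm _ _

/-! ### the cell integral of a derivative -/

theorem d_translate (b : Module.Basis (Fin 2) ℝ ℂ) (u : ℂ → ℂ) (hu : ∀ i z, u (z + b i) = u z)
    (a : ℂ) : ∫ z in Cell b, u (z + a) = ∫ z in Cell b, u z := by
  have h1 : ∫ z in Cell b, u (z + a) = ∫ z in a +ᵥ Cell b, u z := by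
    have hmp : MeasurePreserving (fun z : ℂ => z + a) volume volume :=
      measurePreserving_add_right volume a
    have he : MeasurableEmbedding (fun z : ℂ => z + a) := measurableEmbedding_addRight a
    have h2 : Cell b = (fun z : ℂ => z + a) ⁻¹' (a +ᵥ Cell b) := by
      ext z
      simp only [Set.mem_preimage, Set.mem_vadd_set, vadd_eq_add]
      constructor
      · intro h
        exact ⟨z, h, add_comm _ _⟩
      · rintro ⟨w, hw, h⟩
        have : w = z := by
          have : a + w = a + z := by rw [h, add_comm]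
          exact add_left_cancel this
        rwa [← this]
    conv_lhs => rw [h2]
    exact hmp.setIntegral_preimage_emb he u (a +ᵥ Cell b)
  rw [h1]
  have hd := ZSpan.isAddFundamentalDomain' b (volume : Measure ℂ)
  have hd' : IsAddFundamentalDomain (Submodule.span ℤ (Set.range b)).toAddSubgroup (a +ᵥ Cell b)
      (volume : Measure ℂ) := hd.vadd_of_comm a
  have : Countable (Submodule.span ℤ (Set.range b)).toAddSubgroup :=
    inferInstanceAs (Countable (Submodule.span ℤ (Set.range b)))
  refine hd'.setIntegral_eq hd ?_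
  intro g x
  rw [AddSubgroup.vadd_def, vadd_eq_add, add_comm]
  exact d_per_span hu g.2 x

/-- TASK D3 -/
theorem integral_cell_fderiv (b : Module.Basis (Fin 2) ℝ ℂ) (u : Per b) (v : ℂ) :
    ∫ z in Cell b, fderiv ℝ (u : ℂ → ℂ) z v = 0 := by
  obtain ⟨hu, hper⟩ := u.2
  have hbdd : Bornology.IsBounded (Cell b) := ZSpan.fundamentalDomain_isBounded b
  have hfin : volume (Cell b) < ⊤ := hbdd.measure_lt_top
  have hcont : Continuous (fderiv ℝ (u : ℂ → ℂ)) := hu.continuous_fderiv (by norm_num)
  -- a bound for the derivative near the cell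
  obtain ⟨C, hC⟩ : ∃ C : ℝ, ∀ z ∈ Cell b, ∀ t ∈ Metric.ball (0 : ℝ) 1,
      ‖fderiv ℝ (u : ℂ → ℂ) (z + t • v) v‖ ≤ C := by
    have hbdd2 : Bornology.IsBounded (Metric.cthickening ‖v‖ (Cell b)) := hbdd.cthickening
    have hK : IsCompact (Metric.cthickening ‖v‖ (Cell b)) :=
      Metric.isCompact_of_isClosed_isBounded Metric.isClosed_cthickening hbdd2
    obtain ⟨C, hC⟩ := hK.exists_bound_of_continuousOn
      (f := fun z => fderiv ℝ (u : ℂ → ℂ) z v) (hcont.clm_apply continuous_const).continuousOn
    refine ⟨C, fun z hz t ht => hC _ ?_⟩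
    refine Metric.mem_cthickening_of_dist_le _ z _ _ hz ?_
    rw [dist_eq_norm, add_sub_cancel_left, norm_smul]
    have h1 : ‖t‖ ≤ 1 := by
      rw [mem_ball_zero_iff] at ht
      exact ht.le
    calc ‖t‖ * ‖v‖ ≤ 1 * ‖v‖ := mul_le_mul_of_nonneg_right h1 (norm_nonneg _)
      _ = ‖v‖ := one_mul _
  have hmeas : MeasurableSet (Cell b) := ZSpan.fundamentalDomain_measurableSet b
  have hder := hasDerivAt_integral_of_dominated_loc_of_deriv_le
    (μ := (volume : Measure ℂ).restrict (Cell b))
    (F := fun (t : ℝ) (z : ℂ) => (u : ℂ → ℂ) (z + t • v))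
    (F' := fun (t : ℝ) (z : ℂ) => fderiv ℝ (u : ℂ → ℂ) (z + t • v) v)
    (x₀ := (0 : ℝ)) (s := Metric.ball (0 : ℝ) 1) (bound := fun _ => C)
    (Metric.ball_mem_nhds 0 one_pos) ?_ ?_ ?_ ?_ ?_ ?_
  · have h2 : (fun t : ℝ => ∫ z in Cell b, (u : ℂ → ℂ) (z + t • v)) =
        fun _ => ∫ z in Cell b, (u : ℂ → ℂ) z := by
      funext t
      exact d_translate b u hper (t • v)
    have h3 := hder.2
    rw [h2] at h3
    have h4 := h3.unique (hasDerivAt_const (0 : ℝ) _)
    simpa using h4
  · refine Filter.Eventually.of_forall fun t => ?_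
    exact (hu.continuous.comp (continuous_id.add continuous_const)).aestronglyMeasurable
  · simp only [zero_smul, add_zero]
    obtain ⟨C', hC'⟩ := (hbdd.isCompact_closure).exists_bound_of_continuousOn
      (f := (u : ℂ → ℂ)) hu.continuous.continuousOn
    refine Measure.integrableOn_of_bounded (M := C') hfin.ne
      hu.continuous.aestronglyMeasurable ?_
    filter_upwards [ae_restrict_mem hmeas] with z hz
    exact hC' z (subset_closure hz)
  · exact ((hcont.comp (continuous_id.add continuous_const)).clm_apply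
      continuous_const).aestronglyMeasurable
  · filter_upwards [ae_restrict_mem hmeas] with z hz t ht
    exact hC z hz t ht
  · exact integrableOn_const hfin.ne
  · filter_upwards with z t _
    have h1 : HasFDerivAt (u : ℂ → ℂ) (fderiv ℝ (u : ℂ → ℂ) (z + t • v)) (z + t • v) :=
      (hu.differentiable (by norm_num) _).hasFDerivAt
    have h2 : HasDerivAt (fun t : ℝ => z + t • v) v t := by
      have := ((hasDerivAt_id t).smul_const v).const_add z
      simpa using this
    exact h1.comp_hasDerivAt t h2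

end Pool.Agent.ShearComposite
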