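import Pool.Agent.ShearComposite.Base
import Pool.Agent.ShearComposite.Periodic

/-!
# Lower bound for the effective shear energy by duality (Airy functions)
-/

open MeasureTheory Metric
open scoped ContDiff

namespace Pool.Agent.ShearComposite

/-- the real linear functional `z ↦ Re (a z)` -/
noncomputable def e_L (a : ℂ) : ℂ →L[ℝ] ℝ := Complex.reCLM.comp (ContinuousLinearMap.mul ℝ ℂ a)

theorem e_L_apply (a z : ℂ) : e_L a z = (a * z).re := rfl

theorem e_fderiv_re (a : ℂ) (g : ℂ → ℂ) (hg : Differentiable ℝ g) (z w : ℂ) :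
    fderiv ℝ (fun z => (a * g z).re) z w = (a * fderiv ℝ g z w).re := by
  have h : (fun z => (a * g z).re) = (e_L a) ∘ g := rfl
  rw [h, fderiv_comp z (e_L a).differentiableAt (hg z), ContinuousLinearMap.fderiv]
  rfl

theorem e_fderiv_apply (g : ℂ → ℂ) (hg : ContDiff ℝ ∞ g) (z v w : ℂ) :
    fderiv ℝ (fun z => fderiv ℝ g z w) z v = fderiv ℝ (fderiv ℝ g) z v w := by
  have h1 : DifferentiableAt ℝ (fderiv ℝ g) z :=
    ((hg.fderiv_right (m := ∞) (by simp)).differentiable (by simp)) z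
  rw [fderiv_clm_apply h1 (differentiableAt_const w)]
  simp

theorem e_contDiff_fderiv (g : ℂ → ℂ) (hg : ContDiff ℝ ∞ g) (w : ℂ) :
    ContDiff ℝ ∞ (fun z => fderiv ℝ g z w) :=
  (hg.fderiv_right (m := ∞) (by simp)).clm_apply contDiff_const

theorem e_snd_re (a : ℂ) (g : ℂ → ℂ) (hg : ContDiff ℝ ∞ g) (z v w : ℂ) :
    fderiv ℝ (fun z => (a * fderiv ℝ g z w).re) z v = (a * fderiv ℝ (fderiv ℝ g) z v w).re := by
  rw [e_fderiv_re a _ ((e_contDiff_fderiv g hg w).differentiable (by simp)),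
    e_fderiv_apply g hg]

theorem e_snd_symm (g : ℂ → ℂ) (hg : ContDiff ℝ ∞ g) (z v w : ℂ) :
    fderiv ℝ (fderiv ℝ g) z v w = fderiv ℝ (fderiv ℝ g) z w v := by
  have h : IsSymmSndFDerivAt ℝ g z := hg.contDiffAt.isSymmSndFDerivAt
    (by simp only [minSmoothness_of_isRCLikeNormedField]; exact WithTop.coe_le_coe.2 (le_top (a := (2 : ℕ∞))))
  exact h v w

theorem e_snd_le (g : ℂ → ℂ) (z v w : ℂ) (hv : ‖v‖ = 1) (hw : ‖w‖ = 1) :
    ‖fderiv ℝ (fderiv ℝ g) z v w‖ ≤ ‖iteratedFDeriv ℝ 2 g z‖ := by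
  have h := (iteratedFDeriv ℝ 2 g z).le_opNorm ![v, w]
  rw [iteratedFDeriv_two_apply] at h
  simpa [Fin.prod_univ_two, hv, hw] using h

/-- the second derivative of `z ^ 2` -/
theorem e_snd_sq (z v w : ℂ) :
    fderiv ℝ (fderiv ℝ (fun z : ℂ => z ^ 2)) z v w = 2 * v * w := by
  rw [← e_fderiv_apply (fun z : ℂ => z ^ 2) (contDiff_id.pow 2)]
  have h : (fun z : ℂ => fderiv ℝ (fun z : ℂ => z ^ 2) z w) = fun z => 2 * w * z := by
    funext z
    have h1 := (hasDerivAt_pow 2 z).complexToReal_fderiv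
    rw [h1.fderiv]; simp; ring
  rw [h]
  have h2 := ((hasDerivAt_id z).const_mul (2 * w)).complexToReal_fderiv
  have h3 : fderiv ℝ (fun z : ℂ => 2 * w * z) z = _ := h2.fderiv
  rw [h3]; simp; ring

theorem e_void (g : ℂ → ℂ) (hg : ContDiff ℝ ∞ g) (z : ℂ)
    (h : iteratedFDeriv ℝ 2 (fun z => z ^ 2 + g z) z = 0) (v w : ℂ) :
    fderiv ℝ (fderiv ℝ g) z v w = - (2 * v * w) := by
  have h1 : iteratedFDeriv ℝ 2 (fun z => z ^ 2 + g z) z ![v, w] = 0 := by rw [h]; rfl
  rw [iteratedFDeriv_two_apply] at h1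
  have hs : ContDiff ℝ ∞ (fun z : ℂ => z ^ 2) := contDiff_id.pow 2
  have e : fderiv ℝ (fun z => z ^ 2 + g z) = fun z => fderiv ℝ (fun z : ℂ => z ^ 2) z
      + fderiv ℝ g z := by
    funext z
    exact fderiv_add (hs.differentiable (by simp) z) (hg.differentiable (by simp) z)
  rw [e] at h1
  have e2 : fderiv ℝ (fun z => fderiv ℝ (fun z : ℂ => z ^ 2) z + fderiv ℝ g z) z
      = fderiv ℝ (fderiv ℝ (fun z : ℂ => z ^ 2)) z + fderiv ℝ (fderiv ℝ g) z :=
    fderiv_add (((hs.fderiv_right (m := ∞) (by simp)).differentiable (by simp)) z)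
      (((hg.fderiv_right (m := ∞) (by simp)).differentiable (by simp)) z)
  rw [e2] at h1
  simp only [Matrix.cons_val_zero, Matrix.cons_val_one] at h1
  have h3 := e_snd_sq z v w
  have h4 : fderiv ℝ (fderiv ℝ (fun z : ℂ => z ^ 2)) z v w + fderiv ℝ (fderiv ℝ g) z v w = 0 := h1
  rw [h3] at h4
  linear_combination h4

/-- pointwise duality inequality -/
theorem e_pointwise (κ μ : ℝ) (hκ : 0 < κ) (hμ : 0 < μ) (X A : ℝ) (B P : ℂ) :
    8 * (A * X - (P * B).re) - 4 * A ^ 2 / κ - 4 * ‖P‖ ^ 2 / μ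
      ≤ 4 * κ * X ^ 2 + 4 * μ * ‖B‖ ^ 2 := by
  have h1 : 8 * A * X - 4 * A ^ 2 / κ ≤ 4 * κ * X ^ 2 := by
    have : 4 * κ * X ^ 2 - (8 * A * X - 4 * A ^ 2 / κ) = 4 / κ * (κ * X - A) ^ 2 := by
      field_simp; ring
    have h2 : 0 ≤ 4 / κ * (κ * X - A) ^ 2 := by positivity
    linarith
  have h3 : - 8 * (P * B).re - 4 * ‖P‖ ^ 2 / μ ≤ 4 * μ * ‖B‖ ^ 2 := by
    rw [Complex.sq_norm, Complex.sq_norm, Complex.normSq_apply, Complex.normSq_apply,
      Complex.mul_re]
    have : 4 * μ * (B.re * B.re + B.im * B.im) - (- 8 * (P.re * B.re - P.im * B.im)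
        - 4 * (P.re * P.re + P.im * P.im) / μ)
        = 4 / μ * ((μ * B.re + P.re) ^ 2 + (μ * B.im - P.im) ^ 2) := by
      field_simp; ring
    have h2 : 0 ≤ 4 / μ * ((μ * B.re + P.re) ^ 2 + (μ * B.im - P.im) ^ 2) := by positivity
    linarith
  linarith

/-- integration of a compactly supported function over the cell -/
theorem e_setIntegral (b : Module.Basis (Fin 2) ℝ ℂ) (h : ℂ → ℝ)
    (hs : ∀ z, z ∉ Cell b → h z = 0) : ∫ z in Cell b, h z = ∫ z, h z :=
  setIntegral_eq_integral_of_forall_compl_eq_zero hs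

theorem Weff_lower (κ μ : ℝ) (hκ : 0 < κ) (hμ : 0 < μ) (b : Module.Basis (Fin 2) ℝ ℂ) (Ω : Set ℂ)
    (hΩ : MeasurableSet Ω) (Ξ : ℂ → ℂ) (hΞ : ContDiff ℝ ∞ Ξ) (hc : HasCompactSupport Ξ)
    (hs : tsupport Ξ ⊆ interior (Cell b))
    (hD : ∀ z ∈ Cell b \ Ω, iteratedFDeriv ℝ 2 (fun z => z ^ 2 + Ξ z) z = 0) (β : ℂ) :
    4 * μ * ‖β‖ ^ 2 * (1 - (1 + μ / κ) * ((volume (Cell b)).toReal⁻¹ *
      ∫ z, ‖iteratedFDeriv ℝ 2 Ξ z‖ ^ 2)) ≤ Weff κ μ b Ω 0 β := by
  have hYm : MeasurableSet (Cell b) := ZSpan.fundamentalDomain_measurableSet b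
  have hYb : Bornology.IsBounded (Cell b) := ZSpan.fundamentalDomain_isBounded b
  have hYf : volume (Cell b) < ⊤ := hYb.measure_lt_top
  have hY0 : volume (Cell b) ≠ 0 := ZSpan.measure_fundamentalDomain_ne_zero b
  have hYpos : 0 < (volume (Cell b)).toReal := ENNReal.toReal_pos hY0 hYf.ne
  -- continuous functions are integrable on the cell
  have hint : ∀ h : ℂ → ℝ, Continuous h → IntegrableOn h (Cell b) := by
    intro h hh
    exact (hh.continuousOn.integrableOn_compact hYb.isCompact_closure).mono_set subset_closure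
  apply le_ciInf
  rintro ⟨u, hu, hper⟩
  set a : ℂ := - (μ : ℂ) * (starRingEnd ℂ) β with ha
  set D : ℂ → ℂ → ℂ → ℂ := fun z v w => fderiv ℝ (fderiv ℝ Ξ) z v w with hDdef
  set p₁ : ℂ → ℝ := fun z => (a * fderiv ℝ Ξ z 1).re with hp₁
  set p₂ : ℂ → ℝ := fun z => (a * fderiv ℝ Ξ z Complex.I).re with hp₂
  set S : ℂ → ℝ := fun z => (a * D z 1 1).re with hS
  set T : ℂ → ℝ := fun z => (a * D z Complex.I Complex.I).re with hT
  set R : ℂ → ℝ := fun z => (a * D z 1 Complex.I).re with hR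
  have hp₁s : ContDiff ℝ ∞ p₁ := (e_L a).contDiff.comp (e_contDiff_fderiv Ξ hΞ 1)
  have hp₂s : ContDiff ℝ ∞ p₂ := (e_L a).contDiff.comp (e_contDiff_fderiv Ξ hΞ Complex.I)
  have hDsupp : ∀ z, z ∉ Cell b → ∀ v w, D z v w = 0 := by
    intro z hz v w
    have h1 : z ∉ tsupport (fderiv ℝ (fderiv ℝ Ξ)) := fun h =>
      hz (interior_subset (hs ((tsupport_fderiv_subset ℝ) ((tsupport_fderiv_subset ℝ) h))))
    have h2 : fderiv ℝ (fderiv ℝ Ξ) z = 0 := image_eq_zero_of_notMem_tsupport h1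
    simp [hDdef, h2]
  have hpc : ∀ v, HasCompactSupport fun z => (a * fderiv ℝ Ξ z v).re := by
    intro v
    refine (hc.fderiv (𝕜 := ℝ)).mono ?_
    intro z hz
    simp only [Function.mem_support] at hz ⊢
    intro h
    apply hz
    rw [h]; simp
  have hp₁c : HasCompactSupport p₁ := hpc 1
  have hp₂c : HasCompactSupport p₂ := hpc Complex.I
  have hp₁1 : ∀ z, fderiv ℝ p₁ z 1 = S z := fun z => e_snd_re a Ξ hΞ z 1 1
  have hp₁I : ∀ z, fderiv ℝ p₁ z Complex.I = R z := fun z => by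
    rw [hp₁, e_snd_re a Ξ hΞ, e_snd_symm Ξ hΞ]
  have hp₂1 : ∀ z, fderiv ℝ p₂ z 1 = R z := fun z => e_snd_re a Ξ hΞ z 1 Complex.I
  have hp₂I : ∀ z, fderiv ℝ p₂ z Complex.I = T z := fun z =>
    e_snd_re a Ξ hΞ z Complex.I Complex.I
  have hDc : ∀ v w, Continuous fun z => D z v w := by
    intro v w
    have h1 : Continuous (fderiv ℝ (fderiv ℝ Ξ)) :=
      ((hΞ.fderiv_right (m := ∞) (by simp)).fderiv_right (m := ∞) (by simp)).continuous
    exact (h1.clm_apply continuous_const).clm_apply continuous_const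
  have hSc : Continuous S := (e_L a).continuous.comp (hDc 1 1)
  have hTc : Continuous T := (e_L a).continuous.comp (hDc Complex.I Complex.I)
  have hRc : Continuous R := (e_L a).continuous.comp (hDc 1 Complex.I)
  -- the derivatives of `u`
  have huc : ∀ v, Continuous fun z => fderiv ℝ u z v := fun v =>
    (e_contDiff_fderiv u hu v).continuous
  set f₁ : ℂ → ℝ := fun z => (u z).re + β.re * z.re + β.im * z.im with hf₁
  set f₂ : ℂ → ℝ := fun z => (u z).im + β.im * z.re - β.re * z.im with hf₂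
  have hf₁s : ContDiff ℝ ∞ f₁ :=
    ((Complex.reCLM.contDiff.comp hu).add (contDiff_const.mul Complex.reCLM.contDiff)).add
      (contDiff_const.mul Complex.imCLM.contDiff)
  have hf₂s : ContDiff ℝ ∞ f₂ :=
    ((Complex.imCLM.contDiff.comp hu).add (contDiff_const.mul Complex.reCLM.contDiff)).sub
      (contDiff_const.mul Complex.imCLM.contDiff)
  have hud : ∀ z, HasFDerivAt u (fderiv ℝ u z) z := fun z =>
    (hu.differentiable (by simp) z).hasFDerivAt
  have hf₁d : ∀ z v, fderiv ℝ f₁ z v = (fderiv ℝ u z v).re + β.re * v.re + β.im * v.im := by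
    intro z v
    have h1 : HasFDerivAt f₁ (Complex.reCLM.comp (fderiv ℝ u z) + β.re • Complex.reCLM
        + β.im • Complex.imCLM) z :=
      ((Complex.reCLM.hasFDerivAt.comp z (hud z)).add
        (Complex.reCLM.hasFDerivAt.const_mul β.re)).add (Complex.imCLM.hasFDerivAt.const_mul β.im)
    rw [h1.fderiv]; simp
  have hf₂d : ∀ z v, fderiv ℝ f₂ z v = (fderiv ℝ u z v).im + β.im * v.re - β.re * v.im := by
    intro z v
    have h1 : HasFDerivAt f₂ (Complex.imCLM.comp (fderiv ℝ u z) + β.im • Complex.reCLM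
        - β.re • Complex.imCLM) z :=
      ((Complex.imCLM.hasFDerivAt.comp z (hud z)).add
        (Complex.reCLM.hasFDerivAt.const_mul β.im)).sub (Complex.imCLM.hasFDerivAt.const_mul β.re)
    rw [h1.fderiv]; simp
  -- the integral identities
  have I1 : ∫ z, (T z * fderiv ℝ f₁ z 1 - R z * fderiv ℝ f₁ z Complex.I) = 0 := by
    have := integral_null_lagrangian p₂ hp₂s hp₂c f₁ hf₁s
    simpa only [hp₂I, hp₂1] using this
  have I2 : ∫ z, (R z * fderiv ℝ f₂ z 1 - S z * fderiv ℝ f₂ z Complex.I) = 0 := by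
    have := integral_null_lagrangian p₁ hp₁s hp₁c f₂ hf₂s
    simpa only [hp₁I, hp₁1] using this
  have hre1 : ∀ z v : ℂ, fderiv ℝ (fun z : ℂ => z.re) z v = v.re := fun z v => by
    have : (fun z : ℂ => z.re) = Complex.reCLM := rfl
    rw [this, ContinuousLinearMap.fderiv]; rfl
  have him1 : ∀ z v : ℂ, fderiv ℝ (fun z : ℂ => z.im) z v = v.im := fun z v => by
    have : (fun z : ℂ => z.im) = Complex.imCLM := rfl
    rw [this, ContinuousLinearMap.fderiv]; rfl
  have I3 : ∫ z, R z = 0 := by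
    have := integral_null_lagrangian p₁ hp₁s hp₁c (fun z => z.re) Complex.reCLM.contDiff
    simpa [hp₁I, hp₁1, hre1] using this
  have I4 : ∫ z, T z = 0 := by
    have := integral_null_lagrangian p₂ hp₂s hp₂c (fun z => z.re) Complex.reCLM.contDiff
    simpa [hp₂I, hp₂1, hre1] using this
  have I5 : ∫ z, S z = 0 := by
    have := integral_null_lagrangian p₁ hp₁s hp₁c (fun z => z.im) Complex.imCLM.contDiff
    simpa [hp₁I, hp₁1, him1, integral_neg] using this
  have hucI : ∀ v, IntegrableOn (fun z => fderiv ℝ u z v) (Cell b) := by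
    intro v
    exact ((huc v).continuousOn.integrableOn_compact hYb.isCompact_closure).mono_set subset_closure
  have Jre : ∀ v, ∫ z in Cell b, (fderiv ℝ u z v).re = 0 := by
    intro v
    have h1 := integral_cell_fderiv b ⟨u, hu, hper⟩ v
    have h2 : ∫ z in Cell b, (fderiv ℝ u z v).re = (∫ z in Cell b, fderiv ℝ u z v).re :=
      integral_re (hucI v)
    rw [h2, h1]; rfl
  have Jim : ∀ v, ∫ z in Cell b, (fderiv ℝ u z v).im = 0 := by
    intro v
    have h1 := integral_cell_fderiv b ⟨u, hu, hper⟩ v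
    have h2 : ∫ z in Cell b, (fderiv ℝ u z v).im = (∫ z in Cell b, fderiv ℝ u z v).im :=
      integral_im (hucI v)
    rw [h2, h1]; rfl
  have hrec : ∀ v, Continuous fun z => (fderiv ℝ u z v).re := fun v =>
    Complex.continuous_re.comp (huc v)
  have himc : ∀ v, Continuous fun z => (fderiv ℝ u z v).im := fun v =>
    Complex.continuous_im.comp (huc v)
  -- the dual integrand
  set F : ℂ → ℝ := fun z => 8 * ((S z + T z) / 4 * (dz (fderiv ℝ u z)).re
    - ((⟨a.re + (S z - T z) / 4, a.im - R z / 2⟩ : ℂ) * (β + dzb (fderiv ℝ u z))).re)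
    - 4 * ((S z + T z) / 4) ^ 2 / κ
    - 4 * ‖(⟨a.re + (S z - T z) / 4, a.im - R z / 2⟩ : ℂ)‖ ^ 2 / μ with hF
  set E : ℂ → ℝ := fun z => 4 * ((S z + T z) / 4) ^ 2 / κ
    + 4 / μ * (((S z - T z) / 4) ^ 2 + (R z / 2) ^ 2) with hE
  have hFE : ∀ z, F z = 2 * (T z * fderiv ℝ f₁ z 1 - R z * fderiv ℝ f₁ z Complex.I)
      - 2 * (R z * fderiv ℝ f₂ z 1 - S z * fderiv ℝ f₂ z Complex.I)
      + (- 8 * (a * β).re - 4 / μ * ‖a‖ ^ 2)
      + (- 4 * a.re) * (fderiv ℝ u z 1).re + 4 * a.re * (fderiv ℝ u z Complex.I).im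
      + 4 * a.im * (fderiv ℝ u z 1).im + 4 * a.im * (fderiv ℝ u z Complex.I).re
      - (2 / μ * a.re) * S z + (2 / μ * a.re) * T z + (4 / μ * a.im) * R z
      - E z := by
    intro z
    rw [hF, hE]
    simp only [hf₁d, hf₂d, dz, dzb, Complex.sq_norm, Complex.normSq_apply, Complex.mul_re,
      Complex.add_re, Complex.add_im, Complex.sub_re, Complex.I_re, Complex.I_im,
      Complex.one_re, Complex.one_im, Complex.mul_im, Complex.div_ofNat_re, Complex.div_ofNat_im]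
    field_simp
    ring
  have hfc₁ : ∀ v, Continuous fun z => fderiv ℝ f₁ z v := by
    intro v; simp only [hf₁d]
    exact ((hrec v).add continuous_const).add continuous_const
  have hfc₂ : ∀ v, Continuous fun z => fderiv ℝ f₂ z v := by
    intro v; simp only [hf₂d]
    exact ((himc v).add continuous_const).sub continuous_const
  have hk1c : Continuous fun z => T z * fderiv ℝ f₁ z 1 - R z * fderiv ℝ f₁ z Complex.I :=
    (hTc.mul (hfc₁ 1)).sub (hRc.mul (hfc₁ Complex.I))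
  have hk2c : Continuous fun z => R z * fderiv ℝ f₂ z 1 - S z * fderiv ℝ f₂ z Complex.I :=
    (hRc.mul (hfc₂ 1)).sub (hSc.mul (hfc₂ Complex.I))
  have hEc : Continuous E := by
    simp only [hE]; fun_prop
  have hSoff : ∀ z, z ∉ Cell b → S z = 0 := fun z hz => by simp [hS, hDsupp z hz]
  have hToff : ∀ z, z ∉ Cell b → T z = 0 := fun z hz => by simp [hT, hDsupp z hz]
  have hRoff : ∀ z, z ∉ Cell b → R z = 0 := fun z hz => by simp [hR, hDsupp z hz]
  have K1 : ∫ z in Cell b, (T z * fderiv ℝ f₁ z 1 - R z * fderiv ℝ f₁ z Complex.I) = 0 := by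
    rw [e_setIntegral b _ (fun z hz => by simp [hToff z hz, hRoff z hz]), I1]
  have K2 : ∫ z in Cell b, (R z * fderiv ℝ f₂ z 1 - S z * fderiv ℝ f₂ z Complex.I) = 0 := by
    rw [e_setIntegral b _ (fun z hz => by simp [hSoff z hz, hRoff z hz]), I2]
  have K3 : ∫ z in Cell b, R z = 0 := by rw [e_setIntegral b _ hRoff, I3]
  have K4 : ∫ z in Cell b, T z = 0 := by rw [e_setIntegral b _ hToff, I4]
  have K5 : ∫ z in Cell b, S z = 0 := by rw [e_setIntegral b _ hSoff, I5]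
  have hFint : ∫ z in Cell b, F z = (- 8 * (a * β).re - 4 / μ * ‖a‖ ^ 2)
      * (volume (Cell b)).toReal - ∫ z in Cell b, E z := by
    rw [integral_congr_ae (Filter.Eventually.of_forall hFE)]
    rw [integral_sub, integral_add, integral_add, integral_sub, integral_add, integral_add,
      integral_add, integral_add, integral_add, integral_sub, integral_const_mul,
      integral_const_mul, integral_const_mul, integral_const_mul, integral_const_mul,
      integral_const_mul, integral_const_mul, integral_const_mul, integral_const_mul, K1, K2, K3,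
      K4, K5, Jre, Jim, Jre, Jim, integral_const]
    · simp [Measure.real, mul_comm]
    all_goals exact hint _ (by fun_prop)
  -- the bound for the remainder
  set N : ℂ → ℝ := fun z => ‖iteratedFDeriv ℝ 2 Ξ z‖ with hN
  have hna : ‖a‖ = μ * ‖β‖ := by
    rw [ha, norm_mul, norm_neg, Complex.norm_real, Real.norm_of_nonneg hμ.le,
      RCLike.norm_conj]
  have hb : ∀ z v w : ℂ, ‖v‖ = 1 → ‖w‖ = 1 → |(a * D z v w).re| ≤ ‖a‖ * N z := by
    intro z v w hv hw
    calc |(a * D z v w).re| ≤ ‖a * D z v w‖ := Complex.abs_re_le_norm _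
      _ = ‖a‖ * ‖D z v w‖ := norm_mul _ _
      _ ≤ _ := mul_le_mul_of_nonneg_left (e_snd_le Ξ z v w hv hw) (norm_nonneg _)
  have hEle : ∀ z, E z ≤ 4 * μ * ‖β‖ ^ 2 * (1 + μ / κ) * N z ^ 2 := by
    intro z
    have h1 := abs_le.mp (hb z 1 1 (by simp) (by simp))
    have h2 := abs_le.mp (hb z Complex.I Complex.I (by simp) (by simp))
    have h3 := abs_le.mp (hb z 1 Complex.I (by simp) (by simp))
    have hM0 : 0 ≤ ‖a‖ * N z := by positivity
    have e1 : (S z + T z) ^ 2 ≤ 4 * (‖a‖ * N z) ^ 2 := by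
      have : |S z + T z| ≤ 2 * (‖a‖ * N z) := abs_le.mpr ⟨by simp only [hS, hT]; linarith,
        by simp only [hS, hT]; linarith⟩
      calc (S z + T z) ^ 2 = |S z + T z| ^ 2 := (sq_abs _).symm
        _ ≤ (2 * (‖a‖ * N z)) ^ 2 := by gcongr
        _ = _ := by ring
    have e2 : (S z - T z) ^ 2 ≤ 4 * (‖a‖ * N z) ^ 2 := by
      have : |S z - T z| ≤ 2 * (‖a‖ * N z) := abs_le.mpr ⟨by simp only [hS, hT]; linarith,
        by simp only [hS, hT]; linarith⟩
      calc (S z - T z) ^ 2 = |S z - T z| ^ 2 := (sq_abs _).symm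
        _ ≤ (2 * (‖a‖ * N z)) ^ 2 := by gcongr
        _ = _ := by ring
    have e3 : (R z) ^ 2 ≤ (‖a‖ * N z) ^ 2 := by
      have : |R z| ≤ ‖a‖ * N z := hb z 1 Complex.I (by simp) (by simp)
      calc (R z) ^ 2 = |R z| ^ 2 := (sq_abs _).symm
        _ ≤ (‖a‖ * N z) ^ 2 := by gcongr
    rw [hna] at e1 e2 e3
    calc E z = (S z + T z) ^ 2 / 4 / κ + ((S z - T z) ^ 2 / 4 + R z ^ 2) / μ := by
          simp only [hE]; field_simp; ring
      _ ≤ (4 * (μ * ‖β‖ * N z) ^ 2) / 4 / κ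
          + ((4 * (μ * ‖β‖ * N z) ^ 2) / 4 + (μ * ‖β‖ * N z) ^ 2) / μ := by gcongr
      _ = μ * ‖β‖ ^ 2 * N z ^ 2 * (2 + μ / κ) := by field_simp; ring
      _ ≤ 4 * μ * ‖β‖ ^ 2 * (1 + μ / κ) * N z ^ 2 := by
          have h5 : 0 ≤ μ * ‖β‖ ^ 2 * N z ^ 2 := by positivity
          have h6 : 0 < μ / κ := by positivity
          nlinarith
  have hNc : Continuous N := (hΞ.continuous_iteratedFDeriv (m := 2)
    (WithTop.coe_le_coe.2 (le_top (a := (2 : ℕ∞))))).norm
  have hNs : HasCompactSupport fun z => N z ^ 2 := by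
    refine (hc.iteratedFDeriv (𝕜 := ℝ) (n := 2)).mono ?_
    intro z hz
    simp only [Function.mem_support] at hz ⊢
    intro h
    apply hz
    simp [hN, h]
  have hNi : Integrable fun z => N z ^ 2 := (hNc.pow 2).integrable_of_hasCompactSupport hNs
  have hEint : ∫ z in Cell b, E z ≤ 4 * μ * ‖β‖ ^ 2 * (1 + μ / κ) * ∫ z, N z ^ 2 := by
    rw [← integral_const_mul]
    calc ∫ z in Cell b, E z ≤ ∫ z in Cell b, 4 * μ * ‖β‖ ^ 2 * (1 + μ / κ) * N z ^ 2 :=
          setIntegral_mono (hint _ hEc) (hNi.const_mul _).integrableOn hEle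
      _ ≤ ∫ z, 4 * μ * ‖β‖ ^ 2 * (1 + μ / κ) * N z ^ 2 :=
          setIntegral_le_integral (hNi.const_mul _)
            (Filter.Eventually.of_forall fun z => by positivity)
  -- the integrand vanishes in the void
  have hFvoid : ∀ z ∈ Cell b \ Ω, F z = 0 := by
    intro z hz
    have hv : ∀ v w, D z v w = - (2 * v * w) := e_void Ξ hΞ z (hD z hz)
    have s1 : S z = - 2 * a.re := by
      show (a * D z 1 1).re = _
      rw [hv, Complex.mul_re]; simp; ring
    have s2 : T z = 2 * a.re := by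
      show (a * D z Complex.I Complex.I).re = _
      rw [hv, Complex.mul_re]; simp; ring
    have s3 : R z = 2 * a.im := by
      show (a * D z 1 Complex.I).re = _
      rw [hv, Complex.mul_re]; simp; ring
    have s4 : (⟨a.re + (S z - T z) / 4, a.im - R z / 2⟩ : ℂ) = 0 := by
      apply Complex.ext
      · simp [s1, s2]; ring
      · simp [s3]
    simp only [hF, s4]
    simp [s1, s2]
  have hFc : Continuous F := by
    have : F = fun z => 2 * (T z * fderiv ℝ f₁ z 1 - R z * fderiv ℝ f₁ z Complex.I)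
      - 2 * (R z * fderiv ℝ f₂ z 1 - S z * fderiv ℝ f₂ z Complex.I)
      + (- 8 * (a * β).re - 4 / μ * ‖a‖ ^ 2)
      + (- 4 * a.re) * (fderiv ℝ u z 1).re + 4 * a.re * (fderiv ℝ u z Complex.I).im
      + 4 * a.im * (fderiv ℝ u z 1).im + 4 * a.im * (fderiv ℝ u z Complex.I).re
      - (2 / μ * a.re) * S z + (2 / μ * a.re) * T z + (4 / μ * a.im) * R z
      - E z := funext hFE
    rw [this]; fun_prop
  have hFsplit : ∫ z in Cell b, F z = ∫ z in Cell b ∩ Ω, F z := by
    rw [← integral_inter_add_sdiff hΩ (hint F hFc),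
      setIntegral_eq_zero_of_forall_eq_zero hFvoid, add_zero]
  have hdc : Continuous fun z => dens κ μ 0 β (fderiv ℝ u z) := by
    unfold dens dz dzb
    fun_prop
  have hle : ∫ z in Cell b ∩ Ω, F z ≤ ∫ z in Cell b ∩ Ω, dens κ μ 0 β (fderiv ℝ u z) := by
    apply setIntegral_mono ((hint F hFc).mono_set Set.inter_subset_left)
      ((hint _ hdc).mono_set Set.inter_subset_left)
    intro z
    have := e_pointwise κ μ hκ hμ (dz (fderiv ℝ u z)).re ((S z + T z) / 4)
      (β + dzb (fderiv ℝ u z)) ⟨a.re + (S z - T z) / 4, a.im - R z / 2⟩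
    simpa [dens, hF] using this
  have haβ : (a * β).re = - (μ * ‖β‖ ^ 2) := by
    rw [ha, Complex.sq_norm, Complex.normSq_apply]
    simp
    ring
  have hfin : 4 * μ * ‖β‖ ^ 2 * ((volume (Cell b)).toReal - (1 + μ / κ) * ∫ z, N z ^ 2)
      ≤ ∫ z in Cell b ∩ Ω, dens κ μ 0 β (fderiv ℝ u z) := by
    have h1 := hFint
    rw [haβ, hna] at h1
    have h2 : (-8 * -(μ * ‖β‖ ^ 2) - 4 / μ * (μ * ‖β‖) ^ 2) = 4 * μ * ‖β‖ ^ 2 := by
      field_simp; ring
    rw [h2] at h1
    have h3 : 4 * μ * ‖β‖ ^ 2 * ((volume (Cell b)).toReal - (1 + μ / κ) * ∫ z, N z ^ 2)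
      = 4 * μ * ‖β‖ ^ 2 * (volume (Cell b)).toReal
        - 4 * μ * ‖β‖ ^ 2 * (1 + μ / κ) * ∫ z, N z ^ 2 := by ring
    rw [h3]
    linarith
  calc 4 * μ * ‖β‖ ^ 2 * (1 - (1 + μ / κ) * ((volume (Cell b)).toReal⁻¹ * ∫ z, N z ^ 2))
      = (volume (Cell b)).toReal⁻¹
        * (4 * μ * ‖β‖ ^ 2 * ((volume (Cell b)).toReal - (1 + μ / κ) * ∫ z, N z ^ 2)) := by
        field_simp
    _ ≤ (volume (Cell b)).toReal⁻¹ * ∫ z in Cell b ∩ Ω, dens κ μ 0 β (fderiv ℝ u z) :=
        mul_le_mul_of_nonneg_left hfin (by positivity)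

end Pool.Agent.ShearComposite
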