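import Pool.Agent.ShearComposite.Base

set_option autoImplicit false

open MeasureTheory Metric

namespace Pool.Agent.ShearComposite

theorem c_finite_packing (A : Set ℂ) (hA : IsOpen A) (hfin : volume A ≠ ⊤) (ε : ENNReal)
    (hε : 0 < ε) :
    ∃ (J : Type) (_ : Fintype J) (c : J → ℂ) (r : J → ℝ), (∀ j, 0 < r j) ∧
      (∀ j, closedBall (c j) (r j) ⊆ A) ∧
      (∀ i j, i ≠ j → Disjoint (closedBall (c i) (r i)) (closedBall (c j) (r j))) ∧
      volume (A \ ⋃ j, closedBall (c j) (r j)) ≤ ε := by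
  classical
  have hR : ∀ x, ∃ R : ℝ, x ∈ A → 0 < R ∧ closedBall x R ⊆ A := by
    intro x
    by_cases hx : x ∈ A
    · obtain ⟨R, hR, hRA⟩ := Metric.nhds_basis_closedBall.mem_iff.mp (hA.mem_nhds hx)
      exact ⟨R, fun _ => ⟨hR, hRA⟩⟩
    · exact ⟨0, fun h => absurd h hx⟩
  choose R hR using hR
  obtain ⟨t, r, htc, htA, hr, hcov, hdisj⟩ :=
    Besicovitch.exists_disjoint_closedBall_covering_ae (volume : Measure ℂ)
      (fun _ => Set.univ) A (by
        intro x _ δ hδ
        refine ⟨δ / 2, Set.mem_univ _, ?_, ?_⟩ <;> linarith) R (fun x hx => (hR x hx).1)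
  have hrA : ∀ x ∈ t, closedBall x (r x) ⊆ A := by
    intro x hx
    have h1 := (hr x hx).2
    exact (closedBall_subset_closedBall h1.2.le).trans (hR x (htA hx)).2
  have htc' : Countable t := htc.to_subtype
  have hsum : ∑' x : t, volume (closedBall (x : ℂ) (r x)) ≠ ⊤ := by
    rw [← measure_iUnion (f := fun x : t => closedBall (x : ℂ) (r x))]
    · apply ne_top_of_le_ne_top hfin
      apply measure_mono
      exact Set.iUnion_subset fun x => hrA x x.2
    · intro x y hxy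
      exact hdisj x.2 y.2 (fun h => hxy (Subtype.ext h))
    · intro x
      exact measurableSet_closedBall
  have hlim := ENNReal.tendsto_tsum_compl_atTop_zero hsum
  obtain ⟨F, hF⟩ := ((ENNReal.tendsto_nhds_zero.mp hlim) ε hε).exists
  refine ⟨{x // x ∈ F}, inferInstance, fun x => ((x : t) : ℂ), fun x => r ((x : t) : ℂ), ?_, ?_,
    ?_, ?_⟩
  · intro x
    exact (hr _ (x : t).2).2.1
  · intro x
    exact hrA _ (x : t).2
  · intro x y hxy
    apply hdisj (x : t).2 (y : t).2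
    intro h
    exact hxy (Subtype.ext (Subtype.ext h))
  · have hsub : A \ ⋃ j : {x // x ∈ F}, closedBall ((j : t) : ℂ) (r ((j : t) : ℂ)) ⊆
        (A \ ⋃ x ∈ t, closedBall x (r x)) ∪
          ⋃ x : {x // x ∉ F}, closedBall ((x : t) : ℂ) (r ((x : t) : ℂ)) := by
      rintro z ⟨hzA, hz⟩
      by_cases hzt : z ∈ ⋃ x ∈ t, closedBall x (r x)
      · right
        simp only [Set.mem_iUnion] at hzt hz ⊢
        obtain ⟨x, hxt, hzx⟩ := hzt
        refine ⟨⟨⟨x, hxt⟩, ?_⟩, hzx⟩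
        intro hxF
        exact hz ⟨⟨⟨x, hxt⟩, hxF⟩, hzx⟩
      · left
        exact ⟨hzA, hzt⟩
    refine (measure_mono hsub).trans ((measure_union_le _ _).trans ?_)
    rw [hcov, zero_add]
    exact (measure_iUnion_le _).trans hF

noncomputable def cS (z : ℂ) : ℝ := hexBasis.repr z 0
noncomputable def cT (z : ℂ) : ℝ := hexBasis.repr z 1

theorem c_repr (z : ℂ) : z = (cS z : ℂ) + (cT z : ℂ) * hexEta := by
  have h := hexBasis.sum_repr z
  rw [Fin.sum_univ_two, hexBasis_zero, hexBasis_one, Complex.real_smul, Complex.real_smul,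
    mul_one] at h
  exact h.symm

theorem c_coords (x y : ℝ) : cS ((x : ℂ) + (y : ℂ) * hexEta) = x ∧
    cT ((x : ℂ) + (y : ℂ) * hexEta) = y := by
  have h : (x : ℂ) + (y : ℂ) * hexEta = x • hexBasis 0 + y • hexBasis 1 := by
    rw [hexBasis_zero, hexBasis_one, Complex.real_smul, Complex.real_smul, mul_one]
  have h2 : hexBasis.repr ((x : ℂ) + (y : ℂ) * hexEta) =
      x • Finsupp.single 0 1 + y • Finsupp.single 1 1 := by
    rw [h, map_add, map_smul, map_smul, Module.Basis.repr_self, Module.Basis.repr_self]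
  constructor
  · rw [cS, h2]
    simp
  · rw [cT, h2]
    simp

/-- the rotation factors and translations of the six maps -/
noncomputable def cU (k : Fin 3 × Bool) : ℂ := if k.2 then (hexEta ^ 2) ^ (k.1 : ℕ)
  else -(hexEta ^ 2) ^ (k.1 : ℕ)

noncomputable def cW (i : Fin 3) : ℂ := ![0, 1, hexEta] i

noncomputable def cV (k : Fin 3 × Bool) : ℂ := if k.2 then cW k.1 else 1 + hexEta - cW k.1

noncomputable def cG (k : Fin 3 × Bool) (z : ℂ) : ℂ := cU k * z + cV k

/-- the same maps in coordinates -/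
def cH (k : Fin 3 × Bool) (p : ℝ × ℝ) : ℝ × ℝ :=
  let q : ℝ × ℝ := ![p, (1 - p.1 - p.2, p.1), (p.2, 1 - p.1 - p.2)] k.1
  if k.2 then q else (1 - q.1, 1 - q.2)

theorem c_zeta3 : (hexEta ^ 2) ^ 3 = 1 := by
  have h := hexEta_sq
  have h2 : hexEta ^ 3 = -1 := by
    have : hexEta ^ 3 = hexEta * hexEta ^ 2 := by ring
    rw [this, h, mul_sub, ← pow_two, h]
    ring
  calc (hexEta ^ 2) ^ 3 = (hexEta ^ 3) ^ 2 := by ring
    _ = 1 := by rw [h2]; ring

theorem c_norm_eta : ‖hexEta‖ = 1 := by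
  have h3 : √3 * √3 = 3 := Real.mul_self_sqrt (by norm_num)
  have h : ‖hexEta‖ ^ 2 = 1 := by
    rw [← Complex.normSq_eq_norm_sq, Complex.normSq_apply]
    simp only [hexEta]
    nlinarith
  have h0 := norm_nonneg hexEta
  nlinarith

theorem c_norm_U (k : Fin 3 × Bool) : ‖cU k‖ = 1 := by
  unfold cU
  split_ifs <;> simp [c_norm_eta]

theorem c_G_coords (k : Fin 3 × Bool) (x y : ℝ) :
    cG k ((x : ℂ) + (y : ℂ) * hexEta) =
      ((cH k (x, y)).1 : ℂ) + ((cH k (x, y)).2 : ℂ) * hexEta := by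
  have h := hexEta_sq
  have h4 : (hexEta ^ 2) ^ 2 = -hexEta := by
    rw [h]
    linear_combination h
  obtain ⟨i, b⟩ := k
  have h3 : hexEta ^ 3 = -1 := by
    have : hexEta ^ 3 = hexEta * hexEta ^ 2 := by ring
    rw [this, h, mul_sub, ← pow_two, h]
    ring
  fin_cases i <;> cases b <;> simp [cG, cU, cV, cW, cH, h4] <;>
    first
      | ring1
      | linear_combination (-(x : ℂ)) * h - (y : ℂ) * h3
      | linear_combination (x : ℂ) * h + (y : ℂ) * h3
      | linear_combination (y : ℂ) * h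
      | linear_combination (-(y : ℂ)) * h

/-- the region in coordinates -/
def cP (p : ℝ × ℝ) : Prop := 0 < p.2 ∧ 0 < 1 - p.1 - p.2 ∧ p.2 < p.1 ∧ 1 - p.1 - p.2 < p.1

def cA : Set ℂ := {z | cP (cS z, cT z)}

def cN : Set ℂ := {z | cT z = 0 ∨ cS z = 0 ∨ cS z + cT z = 1 ∨ cS z = cT z ∨
  2 * cS z + cT z = 1 ∨ cS z + 2 * cT z = 1 ∨ 2 * cS z + cT z = 2 ∨ cS z + 2 * cT z = 2}

theorem c_H_range (k : Fin 3 × Bool) (p : ℝ × ℝ) (hp : cP p) :
    0 < (cH k p).1 ∧ (cH k p).1 < 1 ∧ 0 < (cH k p).2 ∧ (cH k p).2 < 1 := by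
  obtain ⟨x, y⟩ := p
  obtain ⟨h1, h2, h3, h4⟩ := hp
  simp only at h1 h2 h3 h4
  obtain ⟨i, b⟩ := k
  fin_cases i <;> cases b <;> simp [cH] <;> refine ⟨?_, ?_, ?_, ?_⟩ <;> linarith

theorem c_H_inj (k l : Fin 3 × Bool) (p q : ℝ × ℝ) (hp : cP p) (hq : cP q)
    (h : cH k p = cH l q) : k = l := by
  obtain ⟨x, y⟩ := p
  obtain ⟨x', y'⟩ := q
  obtain ⟨h1, h2, h3, h4⟩ := hp
  obtain ⟨h1', h2', h3', h4'⟩ := hq
  simp only at h1 h2 h3 h4 h1' h2' h3' h4'
  obtain ⟨i, b⟩ := k
  obtain ⟨j, b'⟩ := l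
  fin_cases i <;> fin_cases j <;> cases b <;> cases b' <;> simp [cH] at h ⊢ <;>
    (obtain ⟨e1, e2⟩ := h; linarith)

theorem c_H_cover (p : ℝ × ℝ) (h1 : 0 < p.1) (h2 : 0 < p.2) (h3 : p.1 < 1) (h4 : p.2 < 1)
    (h5 : p.1 + p.2 ≠ 1) (h6 : p.1 ≠ p.2) (h7 : 2 * p.1 + p.2 ≠ 1) (h8 : p.1 + 2 * p.2 ≠ 1)
    (h9 : 2 * p.1 + p.2 ≠ 2) (h10 : p.1 + 2 * p.2 ≠ 2) :
    ∃ k q, cP q ∧ cH k q = p := by
  obtain ⟨x, y⟩ := p
  simp only at h1 h2 h3 h4 h5 h6 h7 h8 h9 h10
  have key : ∀ x y : ℝ, 0 < x → 0 < y → x + y < 1 → x ≠ y → 2 * x + y ≠ 1 → x + 2 * y ≠ 1 →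
      ∃ (i : Fin 3) (q : ℝ × ℝ), cP q ∧ cH (i, true) q = (x, y) := by
    intro x y hx hy hxy e1 e2 e3
    rcases lt_or_gt_of_ne e1 with e1 | e1 <;> rcases lt_or_gt_of_ne e2 with e2 | e2 <;>
      rcases lt_or_gt_of_ne e3 with e3 | e3
    · -- b0 largest
      refine ⟨2, (1 - x - y, x), ⟨?_, ?_, ?_, ?_⟩, ?_⟩ <;> simp [cH] <;> try linarith
    · refine ⟨1, (y, 1 - x - y), ⟨?_, ?_, ?_, ?_⟩, ?_⟩ <;> simp [cH] <;> try linarith
    · exfalso; linarith
    · refine ⟨1, (y, 1 - x - y), ⟨?_, ?_, ?_, ?_⟩, ?_⟩ <;> simp [cH] <;> try linarith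
    · refine ⟨2, (1 - x - y, x), ⟨?_, ?_, ?_, ?_⟩, ?_⟩ <;> simp [cH] <;> try linarith
    · exfalso; linarith
    · refine ⟨0, (x, y), ⟨?_, ?_, ?_, ?_⟩, ?_⟩ <;> simp [cH] <;> try linarith
    · refine ⟨0, (x, y), ⟨?_, ?_, ?_, ?_⟩, ?_⟩ <;> simp [cH] <;> try linarith
  rcases lt_or_gt_of_ne h5 with h5 | h5
  · obtain ⟨i, q, hq, hqe⟩ := key x y h1 h2 h5 h6 h7 h8
    exact ⟨(i, true), q, hq, hqe⟩
  · obtain ⟨i, q, hq, hqe⟩ := key (1 - x) (1 - y) (by linarith) (by linarith) (by linarith)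
      (fun h => h6 (by linarith)) (fun h => h9 (by linarith)) (fun h => h10 (by linarith))
    refine ⟨(i, false), q, hq, ?_⟩
    have e1 : (cH (i, false) q) = (1 - (cH (i, true) q).1, 1 - (cH (i, true) q).2) := by
      simp [cH]
    rw [e1, hqe]
    simp


theorem c_level_null (f : ℂ →ₗ[ℝ] ℝ) (hf : f ≠ 0) (c : ℝ) : volume {z | f z = c} = 0 := by
  by_cases h : ∃ z0, f z0 = c
  · obtain ⟨z0, hz0⟩ := h
    have h1 : {z | f z = c} = (fun z => z + -z0) ⁻¹' (LinearMap.ker f : Set ℂ) := by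
      ext z
      simp only [Set.mem_ofPred_eq, Set.mem_preimage, SetLike.mem_coe, LinearMap.mem_ker, map_add,
        map_neg, hz0]
      constructor
      · intro h; rw [h]; ring
      · intro h; linarith
    rw [h1, measure_preimage_add_right]
    apply Measure.addHaar_submodule
    intro h2
    exact hf (LinearMap.ker_eq_top.mp h2)
  · push Not at h
    have h1 : {z | f z = c} = ∅ := by
      ext z
      simp [h z]
    rw [h1, measure_empty]

theorem c_level_null' (a b c : ℝ) (hab : a ≠ 0 ∨ b ≠ 0) :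
    volume {z | a * cS z + b * cT z = c} = 0 := by
  have h := c_level_null (a • hexBasis.coord 0 + b • hexBasis.coord 1) (by
    intro h0
    rcases hab with ha | hb
    · have h1 := congrArg (fun f => f (hexBasis 0)) h0
      simp [-hexBasis_zero] at h1
      exact ha h1
    · have h1 := congrArg (fun f => f (hexBasis 1)) h0
      simp [-hexBasis_one] at h1
      exact hb h1) c
  have h2 : {z | a * cS z + b * cT z = c} =
      {z | (a • hexBasis.coord 0 + b • hexBasis.coord 1) z = c} := rfl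
  rw [h2]
  exact h

theorem c_N_null : volume cN = 0 := by
  have hsub : cN ⊆ {z | 0 * cS z + 1 * cT z = 0} ∪ ({z | 1 * cS z + 0 * cT z = 0} ∪
    ({z | 1 * cS z + 1 * cT z = 1} ∪ ({z | 1 * cS z + (-1) * cT z = 0} ∪
    ({z | 2 * cS z + 1 * cT z = 1} ∪ ({z | 1 * cS z + 2 * cT z = 1} ∪
    ({z | 2 * cS z + 1 * cT z = 2} ∪ {z | 1 * cS z + 2 * cT z = 2})))))) := by
    intro z hz
    simp only [Set.mem_union, Set.mem_ofPred_eq]
    rcases hz with h | h | h | h | h | h | h | h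
    · left; linarith
    · right; left; linarith
    · right; right; left; linarith
    · right; right; right; left; linarith
    · right; right; right; right; left; linarith
    · right; right; right; right; right; left; linarith
    · right; right; right; right; right; right; left; linarith
    · right; right; right; right; right; right; right; linarith
  refine measure_mono_null hsub ?_
  simp only [measure_union_null_iff]
  refine ⟨?_, ?_, ?_, ?_, ?_, ?_, ?_, ?_⟩ <;> apply c_level_null' <;> norm_num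

theorem c_mem_cell (z : ℂ) : z ∈ Cell hexBasis ↔ (0 ≤ cS z ∧ cS z < 1) ∧ (0 ≤ cT z ∧ cT z < 1) := by
  rw [Cell, ZSpan.mem_fundamentalDomain, Fin.forall_fin_two]
  rfl

theorem c_cont_S : Continuous cS :=
  (hexBasis.coord 0).continuous_of_finiteDimensional

theorem c_cont_T : Continuous cT :=
  (hexBasis.coord 1).continuous_of_finiteDimensional

theorem c_A_open : IsOpen cA := by
  have h1 := c_cont_S
  have h2 := c_cont_T
  unfold cA cP
  simp only [Set.ofPred_and]
  refine ((isOpen_lt ?_ ?_).inter ((isOpen_lt ?_ ?_).inter ((isOpen_lt ?_ ?_).inter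
    (isOpen_lt ?_ ?_)))) <;> fun_prop

theorem c_square_open : IsOpen {z | 0 < cS z ∧ cS z < 1 ∧ 0 < cT z ∧ cT z < 1} := by
  have h1 := c_cont_S
  have h2 := c_cont_T
  simp only [Set.ofPred_and]
  refine ((isOpen_lt ?_ ?_).inter ((isOpen_lt ?_ ?_).inter ((isOpen_lt ?_ ?_).inter
    (isOpen_lt ?_ ?_)))) <;> fun_prop

theorem c_G_mem (k : Fin 3 × Bool) (z : ℂ) : cS (cG k z) = (cH k (cS z, cT z)).1 ∧
    cT (cG k z) = (cH k (cS z, cT z)).2 := by
  have h1 := c_G_coords k (cS z) (cT z)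
  rw [← c_repr z] at h1
  rw [h1]
  exact c_coords _ _

theorem c_G_range (k : Fin 3 × Bool) (z : ℂ) (hz : z ∈ cA) :
    cG k z ∈ {z | 0 < cS z ∧ cS z < 1 ∧ 0 < cT z ∧ cT z < 1} := by
  have h := c_H_range k _ hz
  obtain ⟨h1, h2⟩ := c_G_mem k z
  simp only [Set.mem_ofPred_eq, h1, h2]
  exact h

theorem c_G_inj (k l : Fin 3 × Bool) (z w : ℂ) (hz : z ∈ cA) (hw : w ∈ cA)
    (h : cG k z = cG l w) : k = l := by
  apply c_H_inj k l _ _ hz hw
  obtain ⟨h1, h2⟩ := c_G_mem k z
  obtain ⟨h3, h4⟩ := c_G_mem l w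
  apply Prod.ext
  · rw [← h1, ← h3, h]
  · rw [← h2, ← h4, h]

theorem c_G_cover (z : ℂ) (hz : z ∈ Cell hexBasis) (hN : z ∉ cN) : ∃ k, ∃ w ∈ cA, cG k w = z := by
  rw [c_mem_cell] at hz
  simp only [cN, Set.mem_ofPred_eq, not_or] at hN
  obtain ⟨n1, n2, n3, n4, n5, n6, n7, n8⟩ := hN
  obtain ⟨⟨z1, z2⟩, z3, z4⟩ := hz
  obtain ⟨k, q, hq, hqe⟩ := c_H_cover (cS z, cT z) (lt_of_le_of_ne z1 (Ne.symm n2))
    (lt_of_le_of_ne z3 (Ne.symm n1)) z2 z4 n3 n4 n5 n6 n7 n8
  refine ⟨k, (q.1 : ℂ) + (q.2 : ℂ) * hexEta, ?_, ?_⟩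
  · simp only [cA, Set.mem_ofPred_eq, (c_coords q.1 q.2).1, (c_coords q.1 q.2).2]
    exact hq
  · rw [c_G_coords, hqe]
    exact (c_repr z).symm

theorem c_G_image_ball (k : Fin 3 × Bool) (c : ℂ) (r : ℝ) :
    cG k '' closedBall c r = closedBall (cG k c) r := by
  have hU := c_norm_U k
  have hU0 : cU k ≠ 0 := by
    intro h
    rw [h] at hU
    simp at hU
  ext z
  constructor
  · rintro ⟨w, hw, rfl⟩
    rw [mem_closedBall, dist_eq_norm] at hw ⊢
    have : cG k w - cG k c = cU k * (w - c) := by simp only [cG]; ring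
    rw [this, norm_mul, hU, one_mul]
    exact hw
  · intro hz
    refine ⟨(cU k)⁻¹ * (z - cV k), ?_, ?_⟩
    · rw [mem_closedBall, dist_eq_norm] at hz ⊢
      have : (cU k)⁻¹ * (z - cV k) - c = (cU k)⁻¹ * (z - cG k c) := by
        simp only [cG]
        field_simp
        ring
      rw [this, norm_mul, norm_inv, hU, inv_one, one_mul]
      exact hz
    · simp only [cG]
      field_simp
      ring

theorem c_G_volume (k : Fin 3 × Bool) (s : Set ℂ) : volume (cG k '' s) = volume s := by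
  have hU := c_norm_U k
  let u : Circle := ⟨cU k, by simpa [Submonoid.unitSphere] using hU⟩
  have h1 : cG k '' s = (fun z => z + cV k) '' ((rotation u) '' s) := by
    rw [Set.image_image]
    rfl
  rw [h1, Set.image_add_right, measure_preimage_add_right]
  have h2 : (rotation u) '' s = (rotation u).symm ⁻¹' s := by
    exact (rotation u).toEquiv.image_eq_preimage_symm s
  rw [h2]
  have h3 : MeasurePreserving ((rotation u).symm.toHomeomorph.toMeasurableEquiv) volume volume :=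
    (rotation u).symm.measurePreserving
  exact h3.measure_preimage_equiv s

/-- TASK C -/
theorem packing (R : ℝ) (hR : 0 < R) (η₀ : ℝ) (hη₀ : 0 < η₀) :
    ∃ (ι : Type) (_ : Fintype ι) (a ρ : ι → ℂ) (σ : Equiv.Perm ι),
      (∀ i, ρ i ≠ 0) ∧
      (∀ i, closedBall (a i) (‖ρ i‖ * R) ⊆ interior (Cell hexBasis)) ∧
      (∀ i j, i ≠ j → Disjoint (closedBall (a i) (‖ρ i‖ * R)) (closedBall (a j) (‖ρ j‖ * R))) ∧
      volume (Cell hexBasis \ ⋃ i, closedBall (a i) (‖ρ i‖ * R)) ≤ ENNReal.ofReal η₀ ∧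
      (∀ i, ρ (σ i) = hexEta ^ 2 * ρ i) ∧
      (∀ i, ∃ m n : ℤ, a (σ i) = hexEta ^ 2 * a i + m + n * hexEta) := by
  classical
  have hAcell : cA ⊆ Cell hexBasis := by
    intro z hz
    rw [c_mem_cell]
    obtain ⟨h1, h2, h3, h4⟩ := hz
    simp only at h1 h2 h3 h4
    refine ⟨⟨?_, ?_⟩, ?_, ?_⟩ <;> linarith
  have hsqcell : {z | 0 < cS z ∧ cS z < 1 ∧ 0 < cT z ∧ cT z < 1} ⊆ interior (Cell hexBasis) := by
    apply interior_maximal _ c_square_open
    rintro z ⟨h1, h2, h3, h4⟩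
    rw [c_mem_cell]
    exact ⟨⟨h1.le, h2⟩, h3.le, h4⟩
  have hfin : volume cA ≠ ⊤ := by
    apply ne_top_of_le_ne_top _ (measure_mono hAcell)
    exact (ZSpan.fundamentalDomain_isBounded hexBasis).measure_lt_top.ne
  obtain ⟨J, hJ, c, r, hr, hcA, hdisj, hvol⟩ := c_finite_packing cA c_A_open hfin
    (ENNReal.ofReal (η₀ / 6)) (by rw [ENNReal.ofReal_pos]; positivity)
  have hnorm : ∀ (j : J) (k : Fin 3 × Bool), ‖cU k * ((r j / R : ℝ) : ℂ)‖ * R = r j := by
    intro j k
    rw [norm_mul, c_norm_U, one_mul, Complex.norm_real, Real.norm_of_nonneg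
      (div_nonneg (hr j).le hR.le), div_mul_cancel₀ _ hR.ne']
  have hball : ∀ (j : J) (k : Fin 3 × Bool),
      closedBall (cG k (c j)) (‖cU k * ((r j / R : ℝ) : ℂ)‖ * R) = cG k '' closedBall (c j) (r j) := by
    intro j k
    rw [hnorm, c_G_image_ball]
  refine ⟨J × (Fin 3 × Bool), inferInstance, fun x => cG x.2 (c x.1),
    fun x => cU x.2 * ((r x.1 / R : ℝ) : ℂ),
    Equiv.prodCongr (Equiv.refl _) (Equiv.prodCongr (Equiv.addRight 1) (Equiv.refl _)),
    ?_, ?_, ?_, ?_, ?_, ?_⟩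
  · rintro ⟨j, k⟩
    simp only
    apply mul_ne_zero
    · intro h
      have := c_norm_U k
      rw [h] at this
      simp at this
    · have := hr j
      exact_mod_cast (div_pos this hR).ne'
  · rintro ⟨j, k⟩
    simp only
    rw [hball]
    rintro z ⟨w, hw, rfl⟩
    exact hsqcell (c_G_range k w (hcA j hw))
  · rintro ⟨j, k⟩ ⟨j', k'⟩ hne
    simp only
    rw [hball, hball, Set.disjoint_left]
    rintro z ⟨w, hw, hwz⟩ ⟨w', hw', hwz'⟩
    have hk : k = k' := c_G_inj k k' w w' (hcA j hw) (hcA j' hw') (hwz.trans hwz'.symm)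
    subst hk
    have hU : cU k ≠ 0 := by
      intro h
      have := c_norm_U k
      rw [h] at this
      simp at this
    have hww : w = w' := by
      have h := hwz.trans hwz'.symm
      simp only [cG, add_left_inj] at h
      exact mul_left_cancel₀ hU h
    subst hww
    have hjj : j ≠ j' := fun h => hne (by rw [h])
    exact Set.disjoint_left.mp (hdisj j j' hjj) hw hw'
  · have hsub : Cell hexBasis \ ⋃ i : J × (Fin 3 × Bool), closedBall (cG i.2 (c i.1))
        (‖cU i.2 * ((r i.1 / R : ℝ) : ℂ)‖ * R) ⊆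
        cN ∪ ⋃ k : Fin 3 × Bool, cG k '' (cA \ ⋃ j, closedBall (c j) (r j)) := by
      rintro z ⟨hz, hzn⟩
      by_cases hN : z ∈ cN
      · left; exact hN
      · right
        obtain ⟨k, w, hw, rfl⟩ := c_G_cover z hz hN
        rw [Set.mem_iUnion]
        refine ⟨k, w, ⟨hw, ?_⟩, rfl⟩
        intro hwj
        rw [Set.mem_iUnion] at hwj
        obtain ⟨j, hj⟩ := hwj
        apply hzn
        rw [Set.mem_iUnion]
        refine ⟨(j, k), ?_⟩
        simp only
        rw [hball]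
        exact ⟨w, hj, rfl⟩
    refine (measure_mono hsub).trans ((measure_union_le _ _).trans ?_)
    rw [c_N_null, zero_add]
    refine (measure_iUnion_le _).trans ?_
    rw [tsum_fintype]
    simp only [c_G_volume]
    rw [Finset.sum_const, Finset.card_univ, nsmul_eq_mul]
    have hcard : Fintype.card (Fin 3 × Bool) = 6 := by simp
    rw [hcard]
    calc ((6 : ℕ) : ENNReal) * volume (cA \ ⋃ j, closedBall (c j) (r j))
        ≤ ((6 : ℕ) : ENNReal) * ENNReal.ofReal (η₀ / 6) := by gcongr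
      _ = ENNReal.ofReal η₀ := by
        rw [← ENNReal.ofReal_natCast, ← ENNReal.ofReal_mul (by positivity)]
        congr 1
        push_cast
        ring
  · rintro ⟨j, i, b⟩
    have h3 := c_zeta3
    simp only [Equiv.prodCongr_apply, Prod.map, Equiv.refl_apply, Equiv.coe_addRight]
    have : cU (i + 1, b) = hexEta ^ 2 * cU (i, b) := by
      fin_cases i <;> cases b <;> simp [cU]
      · ring
      · ring
      · rw [← h3]; ring
      · rw [← h3]; ring
    rw [this, mul_assoc]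
  · rintro ⟨j, i, b⟩
    have h := hexEta_sq
    have h3 := c_zeta3
    simp only [Equiv.prodCongr_apply, Prod.map, Equiv.refl_apply, Equiv.coe_addRight]
    have h33 : hexEta ^ 3 = -1 := by
      have : hexEta ^ 3 = hexEta * hexEta ^ 2 := by ring
      rw [this, h, mul_sub, ← pow_two, h]
      ring
    have h5 : (hexEta ^ 2) ^ 2 = -hexEta := by
      rw [h]
      linear_combination h
    have key : ∀ m n : ℤ, cG (i + 1, b) (c j) = hexEta ^ 2 * cG (i, b) (c j) + m + n * hexEta →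
      ∃ m n : ℤ, cG (i + 1, b) (c j) = hexEta ^ 2 * cG (i, b) (c j) + m + n * hexEta :=
      fun m n h => ⟨m, n, h⟩
    fin_cases i <;> cases b
    · apply key 2 0
      simp [cG, cU, cV, cW]
      linear_combination -h - h33
    · apply key 1 0
      simp [cG, cU, cV, cW]
    · apply key 2 0
      simp [cG, cU, cV, cW]
      linear_combination -h33
    · apply key 1 0
      simp [cG, cU, cV, cW]
      linear_combination -h
    · apply key 2 0
      simp [cG, cU, cV, cW]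
      linear_combination (c j) * h3 - h
    · apply key 1 0
      simp [cG, cU, cV, cW]
      linear_combination -(c j) * h3 - h33

end Pool.Agent.ShearComposite
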