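import Pool.Agent.ShearComposite.Base
import Pool.Agent.ShearComposite.Inf
import Pool.Agent.ShearComposite.Isotropy
import Pool.Agent.ShearComposite.Packing
import Pool.Agent.ShearComposite.Periodic
import Pool.Agent.ShearComposite.Lower

/-!
# Assembly of the composite from scaled copies of the device
-/

open MeasureTheory Metric
open scoped ContDiff

namespace Pool.Agent.ShearComposite

/-- what the device must provide -/
def DeviceExists : Prop := ∀ ε : ℝ, 0 < ε → ∃ (R : ℝ) (V : Set ℂ) (υ Ξ : ℂ → ℂ),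
  0 < R ∧ IsOpen V ∧ V ⊆ closedBall 0 R ∧ ContDiff ℝ ∞ υ ∧ ContDiff ℝ ∞ Ξ ∧
  tsupport υ ⊆ closedBall 0 R ∧ tsupport Ξ ⊆ closedBall 0 R ∧
  (∀ z ∈ V, iteratedFDeriv ℝ 2 (fun z => z ^ 2 + Ξ z) z = 0) ∧
  ∫ z, ‖iteratedFDeriv ℝ 2 Ξ z‖ ^ 2 ≤ ε * R ^ 2 ∧
  ∫ z in closedBall 0 R \ V, ((1 + (dz (fderiv ℝ υ z)).re) ^ 2 + ‖dzb (fderiv ℝ υ z)‖ ^ 2)
    ≤ ε * R ^ 2

/-- a real linear map in terms of its two coefficients -/
theorem f_decomp (L : ℂ →L[ℝ] ℂ) (h : ℂ) : L h = dz L * h + dzb L * (starRingEnd ℂ) h := by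
  have e : h = h.re • (1 : ℂ) + h.im • Complex.I := by
    apply Complex.ext <;> simp
  have e1 : L h = h.re * L 1 + h.im * L Complex.I := by
    conv_lhs => rw [e]
    rw [map_add, map_smul, map_smul]
    simp
  rw [e1]
  have e2 : (starRingEnd ℂ) h = h.re - h.im * Complex.I := by
    apply Complex.ext <;> simp
  have e3 : h = h.re + h.im * Complex.I := by
    apply Complex.ext <;> simp
  rw [e2]
  conv_rhs => rw [e3]
  simp only [dz, dzb, Complex.add_re, Complex.ofReal_re, Complex.mul_re, Complex.I_re, mul_zero,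
    Complex.ofReal_im, Complex.I_im, mul_one, sub_self, add_zero, Complex.add_im, Complex.mul_im,
    zero_add]
  linear_combination (h.im * L Complex.I) * Complex.I_sq

theorem f_dz_scale (ρ : ℂ) (hρ : ρ ≠ 0) (L L' : ℂ →L[ℝ] ℂ) (h : ∀ v, L' v = ρ * L (ρ⁻¹ * v)) :
    dz L' = dz L ∧ ‖dzb L'‖ = ‖dzb L‖ := by
  have hc : (starRingEnd ℂ) ρ ≠ 0 := by simpa using hρ
  have h1 := h 1
  have h2 := h Complex.I
  rw [f_decomp L] at h1 h2
  simp only [map_mul, map_inv₀, Complex.conj_I, mul_one] at h1 h2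
  have e1 : dz L' = dz L := by
    have : dz L' = (L' 1 - Complex.I * L' Complex.I) / 2 := rfl
    rw [this, h1, h2]
    field_simp
    linear_combination (-dz L * (starRingEnd ℂ) ρ + dzb L * ρ) * Complex.I_sq
  have e2 : dzb L' = dzb L * (ρ / (starRingEnd ℂ) ρ) := by
    have : dzb L' = (L' 1 + Complex.I * L' Complex.I) / 2 := rfl
    rw [this, h1, h2]
    field_simp
    linear_combination (dz L * (starRingEnd ℂ) ρ - dzb L * ρ) * Complex.I_sq
  refine ⟨e1, ?_⟩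
  rw [e2, norm_mul, norm_div, Complex.norm_conj, div_self (norm_ne_zero_iff.mpr hρ), mul_one]

/-- derivative of a scaled copy -/
theorem f_fderiv_copy (ρ a : ℂ) (f : ℂ → ℂ) (hf : ContDiff ℝ ∞ f) (z v : ℂ) :
    fderiv ℝ (fun z => ρ * f ((z - a) / ρ)) z v = ρ * fderiv ℝ f ((z - a) / ρ) (ρ⁻¹ * v) := by
  have hd : HasFDerivAt f (fderiv ℝ f ((z - a) / ρ)) ((z - a) / ρ) :=
    ((hf.differentiable (by simp)) _).hasFDerivAt
  have hg : HasFDerivAt (fun z : ℂ => (z - a) / ρ) (ContinuousLinearMap.mul ℝ ℂ ρ⁻¹) z := by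
    have h1 : HasFDerivAt (fun z : ℂ => z - a) (ContinuousLinearMap.id ℝ ℂ) z :=
      (hasFDerivAt_id z).sub_const a
    have h2 := (ContinuousLinearMap.mul ℝ ℂ ρ⁻¹).hasFDerivAt (x := z - a)
    have h3 := h2.comp z h1
    refine (h3.congr_of_eventuallyEq ?_).congr_fderiv ?_
    · filter_upwards with x
      simp [div_eq_inv_mul]
    · ext1 x; simp
  have hc := (hd.comp z hg).const_mul ρ
  have : HasFDerivAt (fun z => ρ * f ((z - a) / ρ))
      (ρ • (fderiv ℝ f ((z - a) / ρ)).comp (ContinuousLinearMap.mul ℝ ℂ ρ⁻¹)) z := by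
    exact hc
  rw [this.fderiv]
  simp

theorem f_two_le : (2 : WithTop ℕ∞) ≤ ∞ := WithTop.coe_le_coe.mpr le_top

theorem f_contDiff_copy (c ρ a : ℂ) (f : ℂ → ℂ) (hf : ContDiff ℝ ∞ f) :
    ContDiff ℝ ∞ (fun z => c * f ((z - a) / ρ)) := by
  apply contDiff_const.mul
  apply hf.comp
  exact (contDiff_id.sub contDiff_const).div_const ρ

/-- the second derivative of a scaled copy -/
theorem f_iter_copy (ρ a : ℂ) (f : ℂ → ℂ) (hf : ContDiff ℝ ∞ f) (z : ℂ) :
    iteratedFDeriv ℝ 2 (fun z => ρ ^ 2 * f ((z - a) / ρ)) z =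
      ρ ^ 2 • (iteratedFDeriv ℝ 2 f ((z - a) / ρ)).compContinuousLinearMap
        fun _ => ContinuousLinearMap.mul ℝ ℂ ρ⁻¹ := by
  have hf2 : ContDiff ℝ 2 f := hf.of_le f_two_le
  set ℓ : ℂ →L[ℝ] ℂ := ContinuousLinearMap.mul ℝ ℂ ρ⁻¹ with hℓ
  have e0 : (fun z => ρ ^ 2 * f ((z - a) / ρ)) = fun z => (ρ ^ 2 • (f ∘ ℓ)) (z - a) := by
    funext z
    simp [hℓ, div_eq_inv_mul]
  rw [e0, iteratedFDeriv_comp_sub]
  rw [iteratedFDeriv_const_smul_apply (hf2.comp ℓ.contDiff).contDiffAt]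
  rw [ContinuousLinearMap.iteratedFDeriv_comp_right ℓ hf2 _ le_rfl]
  congr 3
  simp [hℓ, div_eq_inv_mul]

theorem f_norm_iter_copy (ρ a : ℂ) (hρ : ρ ≠ 0) (f : ℂ → ℂ) (hf : ContDiff ℝ ∞ f) (z : ℂ) :
    ‖iteratedFDeriv ℝ 2 (fun z => ρ ^ 2 * f ((z - a) / ρ)) z‖ ≤
      ‖iteratedFDeriv ℝ 2 f ((z - a) / ρ)‖ := by
  rw [f_iter_copy ρ a f hf z, norm_smul]
  have h1 := ContinuousMultilinearMap.norm_compContinuousLinearMap_le
    (iteratedFDeriv ℝ 2 f ((z - a) / ρ)) (fun _ => ContinuousLinearMap.mul ℝ ℂ ρ⁻¹)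
  have h2 : ‖ContinuousLinearMap.mul ℝ ℂ ρ⁻¹‖ ≤ ‖ρ⁻¹‖ :=
    ContinuousLinearMap.opNorm_mul_apply_le ℝ ℂ ρ⁻¹
  have hρ' : 0 < ‖ρ‖ := norm_pos_iff.mpr hρ
  rw [Finset.prod_const, Finset.card_univ, Fintype.card_fin] at h1
  rw [norm_inv] at h2
  have h3 : ‖ContinuousLinearMap.mul ℝ ℂ ρ⁻¹‖ ^ 2 ≤ (‖ρ‖⁻¹) ^ 2 :=
    pow_le_pow_left₀ (norm_nonneg _) h2 2
  calc ‖ρ ^ 2‖ * ‖(iteratedFDeriv ℝ 2 f ((z - a) / ρ)).compContinuousLinearMap
          fun _ => ContinuousLinearMap.mul ℝ ℂ ρ⁻¹‖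
      ≤ ‖ρ‖ ^ 2 * (‖iteratedFDeriv ℝ 2 f ((z - a) / ρ)‖ * (‖ρ‖⁻¹) ^ 2) := by
        rw [norm_pow]
        gcongr
        exact h1.trans (by gcongr)
    _ = ‖iteratedFDeriv ℝ 2 f ((z - a) / ρ)‖ := by
        field_simp

/-- the second derivative of an affine function vanishes -/
theorem f_iter_affine (c d : ℂ) (z : ℂ) : iteratedFDeriv ℝ 2 (fun z : ℂ => c * z + d) z = 0 := by
  ext m
  rw [iteratedFDeriv_two_apply]
  have e : fderiv ℝ (fun z : ℂ => c * z + d) = fun _ => ContinuousLinearMap.mul ℝ ℂ c := by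
    funext z
    have h2 := ((ContinuousLinearMap.mul ℝ ℂ c).hasFDerivAt (x := z)).add_const d
    have h3 : HasFDerivAt (fun z : ℂ => c * z + d) (ContinuousLinearMap.mul ℝ ℂ c) z := h2
    exact h3.fderiv
  rw [e]
  simp

/-- the device property is inherited by a scaled copy -/
theorem f_device_copy (ρ a : ℂ) (hρ : ρ ≠ 0) (f : ℂ → ℂ) (hf : ContDiff ℝ ∞ f) (z : ℂ)
    (h : iteratedFDeriv ℝ 2 (fun z => z ^ 2 + f z) ((z - a) / ρ) = 0) :
    iteratedFDeriv ℝ 2 (fun z => z ^ 2 + ρ ^ 2 * f ((z - a) / ρ)) z = 0 := by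
  have hg : ContDiff ℝ ∞ (fun z => z ^ 2 + f z) := (contDiff_id.pow 2).add hf
  have e : (fun z => z ^ 2 + ρ ^ 2 * f ((z - a) / ρ)) =
      (fun z => ρ ^ 2 * (fun z => z ^ 2 + f z) ((z - a) / ρ)) +
        fun z => (2 * a) * z + (-a ^ 2) := by
    funext z
    simp only [Pi.add_apply]
    field_simp
    ring
  rw [e]
  have h1 : ContDiff ℝ ∞ (fun z => ρ ^ 2 * (fun z => z ^ 2 + f z) ((z - a) / ρ)) :=
    f_contDiff_copy (ρ ^ 2) ρ a _ hg
  have h2 : ContDiff ℝ ∞ (fun z : ℂ => (2 * a) * z + (-a ^ 2)) :=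
    (contDiff_const.mul contDiff_id).add contDiff_const
  rw [iteratedFDeriv_add_apply (h1.of_le f_two_le).contDiffAt
    (h2.of_le f_two_le).contDiffAt, f_iter_affine, f_iter_copy ρ a _ hg, h]
  have e0 : (0 : ContinuousMultilinearMap ℝ (fun _ : Fin 2 => ℂ) ℂ).compContinuousLinearMap
      (fun _ => ContinuousLinearMap.mul ℝ ℂ ρ⁻¹) = 0 := by
    ext m; simp
  rw [e0, smul_zero, add_zero]

/-- the integral over a scaled copy -/
theorem f_integral_copy (ρ a : ℂ) (hρ : ρ ≠ 0) (F : ℂ → ℝ) :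
    ∫ z, F ((z - a) / ρ) = ‖ρ‖ ^ 2 * ∫ z, F z := by
  have hρ' : 0 < ‖ρ‖ := norm_pos_iff.mpr hρ
  have e1 : ∫ z, F ((z - a) / ρ) = ∫ z, F (z / ρ) :=
    integral_sub_right_eq_self (fun z => F (z / ρ)) a
  -- unit part
  set u : ℂ := (ρ / ‖ρ‖)⁻¹ with hu
  have hu1 : ‖u‖ = 1 := by
    rw [hu, norm_inv, norm_div, Complex.norm_real, norm_norm, div_self hρ'.ne', inv_one]
  have e2 : ∀ z : ℂ, F (z / ρ) = (fun w => F (u * w)) (‖ρ‖⁻¹ • z) := by
    intro z
    simp only [hu]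
    congr 1
    have : (‖ρ‖ : ℂ) ≠ 0 := by exact_mod_cast hρ'.ne'
    rw [Complex.real_smul]
    push_cast
    field_simp
  rw [e1, integral_congr_ae (Filter.Eventually.of_forall e2),
    Measure.integral_comp_smul volume (fun w => F (u * w)) ‖ρ‖⁻¹]
  have e3 : ∫ w, F (u * w) = ∫ w, F w := by
    set r : ℂ ≃ₗᵢ[ℝ] ℂ := rotation ⟨u, by simp [Submonoid.unitSphere, hu1]⟩ with hr
    have hm : MeasurePreserving r := r.measurePreserving
    have := hm.integral_comp r.toHomeomorph.measurableEmbedding F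
    exact this
  rw [e3, Complex.finrank_real_complex, abs_of_pos (by positivity), smul_eq_mul]
  field_simp

/-- support of a scaled copy -/
theorem f_tsupport_copy (c ρ a : ℂ) (hρ : ρ ≠ 0) (f : ℂ → ℂ) (R : ℝ)
    (hf : tsupport f ⊆ closedBall 0 R) :
    tsupport (fun z => c * f ((z - a) / ρ)) ⊆ closedBall a (‖ρ‖ * R) := by
  apply closure_minimal _ isClosed_closedBall
  intro z hz
  rw [Function.mem_support] at hz
  have h1 : f ((z - a) / ρ) ≠ 0 := right_ne_zero_of_mul hz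
  have h2 : (z - a) / ρ ∈ closedBall (0 : ℂ) R := hf (subset_tsupport f h1)
  rw [mem_closedBall_zero_iff, norm_div, div_le_iff₀ (norm_pos_iff.mpr hρ)] at h2
  rw [mem_closedBall, dist_eq_norm]
  linarith

/-- sum of scaled copies -/
noncomputable def f_tot {ι : Type} [Fintype ι] (c a ρ : ι → ℂ) (f : ℂ → ℂ) (z : ℂ) : ℂ :=
  ∑ i, c i * f ((z - a i) / ρ i)

section Tot

variable {ι : Type} [Fintype ι] (c a ρ : ι → ℂ) (hρ : ∀ i, ρ i ≠ 0) (R : ℝ) (f : ℂ → ℂ)

theorem f_tot_contDiff (hf : ContDiff ℝ ∞ f) : ContDiff ℝ ∞ (f_tot c a ρ f) := by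
  unfold f_tot
  exact ContDiff.sum fun i _ => f_contDiff_copy (c i) (ρ i) (a i) f hf

omit [Fintype ι] in
include hρ in
theorem f_copy_zero (hs : tsupport f ⊆ closedBall 0 R) (j : ι) (z : ℂ)
    (hz : z ∉ closedBall (a j) (‖ρ j‖ * R)) :
    (fun z => c j * f ((z - a j) / ρ j)) =ᶠ[nhds z] 0 := by
  apply notMem_tsupport_iff_eventuallyEq.mp
  exact fun h => hz (f_tsupport_copy (c j) (ρ j) (a j) (hρ j) f R hs h)

include hρ in
theorem f_tot_eq_copy
    (hd : ∀ i j, i ≠ j → Disjoint (closedBall (a i) (‖ρ i‖ * R)) (closedBall (a j) (‖ρ j‖ * R)))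
    (hs : tsupport f ⊆ closedBall 0 R) (i : ι) (z : ℂ) (hz : z ∈ closedBall (a i) (‖ρ i‖ * R)) :
    f_tot c a ρ f =ᶠ[nhds z] fun z => c i * f ((z - a i) / ρ i) := by
  classical
  have h1 : ∀ j, ∀ᶠ x in nhds z, j ≠ i → c j * f ((x - a j) / ρ j) = 0 := by
    intro j
    by_cases hj : j = i
    · filter_upwards with x h
      exact absurd hj h
    · have := f_copy_zero c a ρ hρ R f hs j z
        (fun h => Set.disjoint_left.mp (hd i j (Ne.symm hj)) hz h)
      filter_upwards [this] with x hx _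
      exact hx
  rw [← Filter.eventually_all] at h1
  filter_upwards [h1] with x hx
  unfold f_tot
  exact Finset.sum_eq_single i (fun j _ hj => hx j hj) (by simp)

include hρ in
theorem f_tot_eq_zero (hs : tsupport f ⊆ closedBall 0 R) (z : ℂ)
    (hz : z ∉ ⋃ i, closedBall (a i) (‖ρ i‖ * R)) :
    f_tot c a ρ f =ᶠ[nhds z] 0 := by
  have h1 : ∀ j, ∀ᶠ x in nhds z, c j * f ((x - a j) / ρ j) = 0 := by
    intro j
    exact f_copy_zero c a ρ hρ R f hs j z (fun h => hz (Set.mem_iUnion.mpr ⟨j, h⟩))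
  rw [← Filter.eventually_all] at h1
  filter_upwards [h1] with x hx
  unfold f_tot
  exact Finset.sum_eq_zero (fun j _ => hx j)

include hρ in
theorem f_tot_tsupport (hs : tsupport f ⊆ closedBall 0 R) :
    tsupport (f_tot c a ρ f) ⊆ ⋃ i, closedBall (a i) (‖ρ i‖ * R) := by
  intro z hz
  by_contra h
  exact notMem_tsupport_iff_eventuallyEq.mpr (f_tot_eq_zero c a ρ hρ R f hs z h) hz

include hρ in
theorem f_tot_compact (hs : tsupport f ⊆ closedBall 0 R) : HasCompactSupport (f_tot c a ρ f) :=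
  (isCompact_iUnion fun i => isCompact_closedBall (a i) (‖ρ i‖ * R)).of_isClosed_subset
    (isClosed_tsupport _) (f_tot_tsupport c a ρ hρ R f hs)

end Tot

/-- integrability of a scaled copy -/
theorem f_integrable_copy (ρ a : ℂ) (hρ : ρ ≠ 0) (F : ℂ → ℝ) (hF : Integrable F) :
    Integrable (fun z => F ((z - a) / ρ)) := by
  have hρ' : 0 < ‖ρ‖ := norm_pos_iff.mpr hρ
  set u : ℂ := (ρ / ‖ρ‖)⁻¹ with hu
  have hu1 : ‖u‖ = 1 := by
    rw [hu, norm_inv, norm_div, Complex.norm_real, norm_norm, div_self hρ'.ne', inv_one]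
  set r : ℂ ≃ₗᵢ[ℝ] ℂ := rotation ⟨u, by simp [Submonoid.unitSphere, hu1]⟩ with hr
  have hm : MeasurePreserving r := r.measurePreserving
  have h1 : Integrable (F ∘ r) := hm.integrable_comp_of_integrable hF
  have h2 : Integrable (fun z => (F ∘ r) (‖ρ‖⁻¹ • z)) :=
    h1.comp_smul (inv_ne_zero hρ'.ne')
  have h3 := h2.comp_sub_right a
  refine h3.congr (Filter.Eventually.of_forall fun z => ?_)
  have : (‖ρ‖ : ℂ) ≠ 0 := by exact_mod_cast hρ'.ne'
  change F (u * (‖ρ‖⁻¹ • (z - a))) = F ((z - a) / ρ)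
  congr 1
  rw [Complex.real_smul, hu]
  push_cast
  field_simp

theorem f_dens_nonneg (κ μ : ℝ) (hκ : 0 < κ) (hμ : 0 < μ) (α : ℝ) (β : ℂ) (L : ℂ →L[ℝ] ℂ) :
    0 ≤ dens κ μ α β L := by
  unfold dens; positivity

theorem f_cell_frontier (b : Module.Basis (Fin 2) ℝ ℂ) : volume (Cell b \ interior (Cell b)) = 0 := by
  have hconv : Convex ℝ (Cell b) := by
    have : Cell b = ⋂ i, (fun z => b.repr z i) ⁻¹' (Set.Ico (0 : ℝ) 1) := by
      ext z
      simp [Cell, ZSpan.mem_fundamentalDomain]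
    rw [this]
    apply convex_iInter
    intro i
    exact (convex_Ico (𝕜 := ℝ) (0 : ℝ) 1).linear_preimage (b.coord i)
  apply measure_mono_null _ (hconv.addHaar_frontier volume)
  intro z hz
  exact ⟨subset_closure hz.1, hz.2⟩

theorem f_cell_finite (b : Module.Basis (Fin 2) ℝ ℂ) : volume (Cell b) < ⊤ :=
  (ZSpan.fundamentalDomain_isBounded b).measure_lt_top

theorem f_cell_pos (b : Module.Basis (Fin 2) ℝ ℂ) : 0 < (volume (Cell b)).toReal :=
  ENNReal.toReal_pos (ZSpan.measure_fundamentalDomain_ne_zero b) (f_cell_finite b).ne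

theorem f_cell_meas (b : Module.Basis (Fin 2) ℝ ℂ) : MeasurableSet (Cell b) :=
  ZSpan.fundamentalDomain_measurableSet b

section Est

variable {ι : Type} [Fintype ι] (a ρ : ι → ℂ) (hρ : ∀ i, ρ i ≠ 0) (R : ℝ) (hR : 0 < R)
  (b : Module.Basis (Fin 2) ℝ ℂ)
  (hB : ∀ i, closedBall (a i) (‖ρ i‖ * R) ⊆ interior (Cell b))
  (hd : ∀ i j, i ≠ j → Disjoint (closedBall (a i) (‖ρ i‖ * R)) (closedBall (a j) (‖ρ j‖ * R)))

include hR hB hd in
theorem f_sum_sq : (∑ i, ‖ρ i‖ ^ 2) * (R ^ 2 * Real.pi) ≤ (volume (Cell b)).toReal := by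
  have h1 : volume (⋃ i, closedBall (a i) (‖ρ i‖ * R)) =
      ∑ i, volume (closedBall (a i) (‖ρ i‖ * R)) := by
    rw [measure_iUnion (fun i j hij => hd i j hij) (fun i => measurableSet_closedBall),
      tsum_fintype]
  have h2 : volume (⋃ i, closedBall (a i) (‖ρ i‖ * R)) ≤ volume (Cell b) :=
    measure_mono (Set.iUnion_subset fun i => (hB i).trans interior_subset)
  have h3 : ∀ i, volume (closedBall (a i) (‖ρ i‖ * R)) =
      ENNReal.ofReal (‖ρ i‖ ^ 2 * (R ^ 2 * Real.pi)) := by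
    intro i
    rw [Complex.volume_closedBall]
    have e : (NNReal.pi : ENNReal) = ENNReal.ofReal Real.pi := by
      rw [← NNReal.coe_real_pi, ENNReal.ofReal_coe_nnreal]
    rw [e, ← ENNReal.ofReal_pow (by positivity), ← ENNReal.ofReal_mul (by positivity)]
    congr 1
    ring
  rw [h1] at h2
  simp_rw [h3] at h2
  rw [← ENNReal.ofReal_sum_of_nonneg (fun i _ => by positivity)] at h2
  rw [Finset.sum_mul]
  exact (ENNReal.ofReal_le_iff_le_toReal (f_cell_finite b).ne).mp h2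

include hρ hd in
theorem f_lower_int (Ξ : ℂ → ℂ) (hΞ : ContDiff ℝ ∞ Ξ) (hs : tsupport Ξ ⊆ closedBall 0 R) :
    ∫ z, ‖iteratedFDeriv ℝ 2 (f_tot (fun i => ρ i ^ 2) a ρ Ξ) z‖ ^ 2 ≤
      (∑ i, ‖ρ i‖ ^ 2) * ∫ z, ‖iteratedFDeriv ℝ 2 Ξ z‖ ^ 2 := by
  have hcs : HasCompactSupport Ξ :=
    (isCompact_closedBall (0 : ℂ) R).of_isClosed_subset (isClosed_tsupport _) hs
  have hcont : Continuous (fun z => ‖iteratedFDeriv ℝ 2 Ξ z‖ ^ 2) :=
    ((hΞ.continuous_iteratedFDeriv (m := 2) (by exact_mod_cast f_two_le)).norm).pow 2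
  have hint : Integrable (fun z => ‖iteratedFDeriv ℝ 2 Ξ z‖ ^ 2) := by
    apply hcont.integrable_of_hasCompactSupport
    exact (hcs.iteratedFDeriv (𝕜 := ℝ) 2).comp_left (g := fun m => ‖m‖ ^ 2) (by simp)
  have hpt : ∀ z, ‖iteratedFDeriv ℝ 2 (f_tot (fun i => ρ i ^ 2) a ρ Ξ) z‖ ^ 2 ≤
      ∑ i, ‖iteratedFDeriv ℝ 2 Ξ ((z - a i) / ρ i)‖ ^ 2 := by
    intro z
    by_cases hz : z ∈ ⋃ i, closedBall (a i) (‖ρ i‖ * R)
    · obtain ⟨i, hi⟩ := Set.mem_iUnion.mp hz
      have h1 := (f_tot_eq_copy (fun i => ρ i ^ 2) a ρ hρ R Ξ hd hs i z hi).iteratedFDeriv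
        (𝕜 := ℝ) 2
      rw [h1.eq_of_nhds]
      have h2 := f_norm_iter_copy (ρ i) (a i) (hρ i) Ξ hΞ z
      calc _ ≤ ‖iteratedFDeriv ℝ 2 Ξ ((z - a i) / ρ i)‖ ^ 2 :=
            pow_le_pow_left₀ (norm_nonneg _) h2 2
        _ ≤ _ := Finset.single_le_sum
            (f := fun i => ‖iteratedFDeriv ℝ 2 Ξ ((z - a i) / ρ i)‖ ^ 2)
            (fun j _ => by positivity) (Finset.mem_univ i)
    · have h1 := (f_tot_eq_zero (fun i => ρ i ^ 2) a ρ hρ R Ξ hs z hz).iteratedFDeriv (𝕜 := ℝ) 2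
      rw [h1.eq_of_nhds]
      have h0 : iteratedFDeriv ℝ 2 (0 : ℂ → ℂ) z = 0 := by
        have := congrFun (iteratedFDeriv_fun_zero (𝕜 := ℝ) (E := ℂ) (F := ℂ) (n := 2)) z
        exact this
      rw [h0, norm_zero]
      have : 0 ≤ ∑ i, ‖iteratedFDeriv ℝ 2 Ξ ((z - a i) / ρ i)‖ ^ 2 :=
        Finset.sum_nonneg fun j _ => by positivity
      simpa using this
  calc _ ≤ ∫ z, ∑ i, ‖iteratedFDeriv ℝ 2 Ξ ((z - a i) / ρ i)‖ ^ 2 := by
        apply integral_mono_of_nonneg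
        · exact Filter.Eventually.of_forall fun z => by positivity
        · exact integrable_finsetSum _ fun i _ =>
            f_integrable_copy (ρ i) (a i) (hρ i) _ hint
        · exact Filter.Eventually.of_forall hpt
    _ = ∑ i, ‖ρ i‖ ^ 2 * ∫ z, ‖iteratedFDeriv ℝ 2 Ξ z‖ ^ 2 := by
        rw [integral_finsetSum _ fun i _ => f_integrable_copy (ρ i) (a i) (hρ i) _ hint]
        exact Finset.sum_congr rfl fun i _ =>
          f_integral_copy (ρ i) (a i) (hρ i) (fun w => ‖iteratedFDeriv ℝ 2 Ξ w‖ ^ 2)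
    _ = _ := by rw [Finset.sum_mul]

include hρ hd in
theorem f_upper_int (κ μ : ℝ) (hκ : 0 < κ) (hμ : 0 < μ) (υ : ℂ → ℂ) (hυ : ContDiff ℝ ∞ υ)
    (hs : tsupport υ ⊆ closedBall 0 R) (V : Set ℂ) (hV : IsOpen V) (Ω : Set ℂ)
    (hΩ : MeasurableSet Ω)
    (hΩV : ∀ i z, (z - a i) / ρ i ∈ V → z ∉ Ω) (u : ℂ → ℂ)
    (hu : ∀ z ∈ interior (Cell b), u =ᶠ[nhds z] f_tot ρ a ρ υ) :
    ∫ z in Cell b ∩ Ω, dens κ μ 1 0 (fderiv ℝ u z) ≤
      4 * κ * (volume (Cell b \ ⋃ i, closedBall (a i) (‖ρ i‖ * R))).toReal +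
      (∑ i, ‖ρ i‖ ^ 2) * ∫ z in closedBall 0 R \ V, dens κ μ 1 0 (fderiv ℝ υ z) := by
  set D : ℂ → ℝ := fun z => dens κ μ 1 0 (fderiv ℝ υ z) with hD
  have hDc : Continuous D := by
    have h1 : Continuous (fderiv ℝ υ) := hυ.continuous_fderiv (by simp)
    have h2 : ∀ v : ℂ, Continuous (fun z => fderiv ℝ υ z v) := fun v => h1.clm_apply continuous_const
    simp only [hD, dens, dz, dzb]
    have e1 := h2 1
    have e2 := h2 Complex.I
    fun_prop
  have hBm : MeasurableSet (closedBall (0 : ℂ) R \ V) :=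
    measurableSet_closedBall.diff hV.measurableSet
  set G : ℂ → ℝ := (closedBall (0 : ℂ) R \ V).indicator D with hG
  have hGi : Integrable G := by
    rw [hG, integrable_indicator_iff hBm]
    exact (hDc.continuousOn.integrableOn_compact (isCompact_closedBall (0 : ℂ) R)).mono_set
      Set.sdiff_subset
  have hGint : ∫ z, G z = ∫ z in closedBall 0 R \ V, D z := by
    rw [hG, integral_indicator hBm]
  have hG0 : ∀ z, 0 ≤ G z := by
    intro z
    exact Set.indicator_nonneg (fun z _ => f_dens_nonneg κ μ hκ hμ _ _ _) z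
  set U : Set ℂ := ⋃ i, closedBall (a i) (‖ρ i‖ * R) with hU
  have hUm : MeasurableSet U := MeasurableSet.iUnion fun i => measurableSet_closedBall
  set g : ℂ → ℝ := fun z => (Cell b \ U).indicator (fun _ => 4 * κ) z +
    ∑ i, G ((z - a i) / ρ i) with hg
  have hYU : MeasurableSet (Cell b \ U) := (f_cell_meas b).diff hUm
  have hfin : volume (Cell b \ U) ≠ ⊤ :=
    ((measure_mono Set.sdiff_subset).trans_lt (f_cell_finite b)).ne
  have hi1 : Integrable ((Cell b \ U).indicator (fun _ : ℂ => 4 * κ)) := by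
    rw [integrable_indicator_iff hYU]
    exact integrableOn_const hfin
  have hi2 : Integrable (fun z => ∑ i, G ((z - a i) / ρ i)) :=
    integrable_finsetSum _ fun i _ => f_integrable_copy (ρ i) (a i) (hρ i) _ hGi
  have hgi : Integrable g := hi1.add hi2
  have hgint : ∫ z, g z = 4 * κ * (volume (Cell b \ U)).toReal +
      (∑ i, ‖ρ i‖ ^ 2) * ∫ z in closedBall 0 R \ V, D z := by
    rw [hg, integral_add hi1 hi2, integral_indicator hYU, setIntegral_const,
      integral_finsetSum _ fun i _ => f_integrable_copy (ρ i) (a i) (hρ i) _ hGi]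
    rw [Finset.sum_mul]
    congr 1
    · rw [smul_eq_mul, Measure.real]; ring
    · refine Finset.sum_congr rfl fun i _ => ?_
      rw [f_integral_copy (ρ i) (a i) (hρ i) G, hGint]
  rw [← hgint, ← integral_indicator ((f_cell_meas b).inter hΩ)]
  apply integral_mono_of_nonneg
  · exact Filter.Eventually.of_forall fun z =>
      Set.indicator_nonneg (fun z _ => f_dens_nonneg κ μ hκ hμ _ _ _) z
  · exact hgi
  · have hae : ∀ᵐ z, z ∉ Cell b \ interior (Cell b) :=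
      measure_eq_zero_iff_ae_notMem.mp (f_cell_frontier b)
    filter_upwards [hae] with z hz
    have hsum0 : 0 ≤ ∑ i, G ((z - a i) / ρ i) := Finset.sum_nonneg fun i _ => hG0 _
    have hind0 : 0 ≤ (Cell b \ U).indicator (fun _ => 4 * κ) z :=
      Set.indicator_nonneg (fun _ _ => by positivity) z
    by_cases hzY : z ∈ Cell b ∩ Ω
    · rw [Set.indicator_of_mem hzY]
      have hzi : z ∈ interior (Cell b) := by
        by_contra h
        exact hz ⟨hzY.1, h⟩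
      have hfu : fderiv ℝ u z = fderiv ℝ (f_tot ρ a ρ υ) z := (hu z hzi).fderiv_eq
      rw [hfu]
      by_cases hzU : z ∈ U
      · obtain ⟨i, hi⟩ := Set.mem_iUnion.mp hzU
        have h1 := (f_tot_eq_copy ρ a ρ hρ R υ hd hs i z hi).fderiv_eq (𝕜 := ℝ)
        rw [h1]
        have h2 := f_dz_scale (ρ i) (hρ i) (fderiv ℝ υ ((z - a i) / ρ i))
          (fderiv ℝ (fun z => ρ i * υ ((z - a i) / ρ i)) z)
          (fun v => f_fderiv_copy (ρ i) (a i) υ hυ z v)
        have h3 : dens κ μ 1 0 (fderiv ℝ (fun z => ρ i * υ ((z - a i) / ρ i)) z) =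
            D ((z - a i) / ρ i) := by
          simp only [hD, dens, zero_add]
          rw [h2.1, h2.2]
        rw [h3]
        have h4 : (z - a i) / ρ i ∈ closedBall (0 : ℂ) R \ V := by
          constructor
          · rw [mem_closedBall_zero_iff, norm_div, div_le_iff₀ (norm_pos_iff.mpr (hρ i))]
            rw [mem_closedBall, dist_eq_norm] at hi
            linarith
          · intro hV'
            exact hΩV i z hV' hzY.2
        have h5 : D ((z - a i) / ρ i) = G ((z - a i) / ρ i) := by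
          rw [hG, Set.indicator_of_mem h4]
        rw [h5]
        have h6 := Finset.single_le_sum (f := fun i => G ((z - a i) / ρ i))
            (fun j _ => hG0 _) (Finset.mem_univ i)
        simp only [hg]
        linarith [h6]
      · have h1 := (f_tot_eq_zero ρ a ρ hρ R υ hs z hzU).fderiv_eq (𝕜 := ℝ)
        have h0 : fderiv ℝ (0 : ℂ → ℂ) z = 0 := by
          simp
        rw [h1, h0]
        have h2 : dens κ μ 1 0 0 = 4 * κ := by
          simp [dens, dz, dzb]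
        rw [h2]
        have h3 : (Cell b \ U).indicator (fun _ => 4 * κ) z = 4 * κ :=
          Set.indicator_of_mem (show z ∈ Cell b \ U from ⟨hzY.1, hzU⟩) _
        simp only [hg, h3]
        linarith
    · rw [Set.indicator_of_notMem hzY]
      simp only [hg]
      linarith

end Est

theorem f_eta_cube : hexEta ^ 3 = -1 := by
  have h := hexEta_sq
  have : hexEta ^ 3 = hexEta ^ 2 * hexEta := by ring
  rw [this, h]
  linear_combination h

/-- the solid phase -/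
def f_solid {ι : Type} (a ρ : ι → ℂ) (V : Set ℂ) : Set ℂ :=
  {z | ∀ (i : ι) (m n : ℤ), (z + m + n * hexEta - a i) / ρ i ∉ V}

theorem f_solid_meas {ι : Type} (a ρ : ι → ℂ) (V : Set ℂ) (hV : IsOpen V) :
    MeasurableSet (f_solid a ρ V) := by
  have : f_solid a ρ V = ⋂ (i : ι) (m : ℤ) (n : ℤ),
      {z | (z + m + n * hexEta - a i) / ρ i ∈ Vᶜ} := by
    ext z; simp [f_solid]
  rw [this]
  apply IsClosed.measurableSet
  refine isClosed_iInter fun i => isClosed_iInter fun m => isClosed_iInter fun n => ?_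
  exact hV.isClosed_compl.preimage (by fun_prop)

theorem f_solid_per {ι : Type} (a ρ : ι → ℂ) (V : Set ℂ) (j : Fin 2) (z : ℂ) :
    z + hexBasis j ∈ f_solid a ρ V ↔ z ∈ f_solid a ρ V := by
  fin_cases j
  · simp only [Fin.zero_eta, Fin.isValue, hexBasis_zero]
    constructor
    · intro h i m n
      have := h i (m - 1) n
      push_cast at this
      convert this using 3
      ring
    · intro h i m n
      have := h i (m + 1) n
      push_cast at this
      convert this using 3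
      ring
  · simp only [Fin.mk_one, Fin.isValue, hexBasis_one]
    constructor
    · intro h i m n
      have := h i m (n - 1)
      push_cast at this
      convert this using 3
      ring
    · intro h i m n
      have := h i m (n + 1)
      push_cast at this
      convert this using 3
      ring

theorem f_solid_rot {ι : Type} (a ρ : ι → ℂ) (V : Set ℂ) (σ : Equiv.Perm ι)
    (hρ : ∀ i, ρ i ≠ 0)
    (h1 : ∀ i, ρ (σ i) = hexEta ^ 2 * ρ i)
    (h2 : ∀ i, ∃ m n : ℤ, a (σ i) = hexEta ^ 2 * a i + m + n * hexEta) (z : ℂ) :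
    hexEta ^ 2 * z ∈ f_solid a ρ V ↔ z ∈ f_solid a ρ V := by
  have hη : hexEta ≠ 0 := by
    intro h
    have := f_eta_cube
    rw [h] at this
    norm_num at this
  -- one direction
  have key : ∀ z, hexEta ^ 2 * z ∈ f_solid a ρ V → z ∈ f_solid a ρ V := by
    intro z hz i m n hV
    obtain ⟨m', n', h'⟩ := h2 i
    -- eta^2 (z + m + n eta) + m' + n' eta - a (sigma i)
    apply hz (σ i) (-m - n + m') (m + n')
    rw [h1, h']
    convert hV using 1
    push_cast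
    have hr := hρ i
    rw [div_eq_div_iff (mul_ne_zero (pow_ne_zero 2 hη) hr) hr]
    have hs := hexEta_sq
    have hc := f_eta_cube
    linear_combination (ρ i * n * (-1)) * hc + (-(ρ i * m)) * hs
  refine ⟨key z, fun h => ?_⟩
  have h6 : hexEta ^ 2 * (hexEta ^ 2 * (hexEta ^ 2 * z)) = z := by
    have : hexEta ^ 2 * (hexEta ^ 2 * (hexEta ^ 2 * z)) = (hexEta ^ 3) ^ 2 * z := by ring
    rw [this, f_eta_cube]; ring
  apply key
  apply key
  rwa [h6]

theorem f_solid_cell {ι : Type} (a ρ : ι → ℂ) (hρ : ∀ i, ρ i ≠ 0) (R : ℝ) (V : Set ℂ)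
    (hV : V ⊆ closedBall 0 R)
    (hB : ∀ i, closedBall (a i) (‖ρ i‖ * R) ⊆ interior (Cell hexBasis)) (z : ℂ)
    (hz : z ∈ Cell hexBasis \ f_solid a ρ V) : ∃ i, (z - a i) / ρ i ∈ V := by
  obtain ⟨hzc, hzs⟩ := hz
  simp only [f_solid, Set.mem_ofPred_eq, not_forall, not_not] at hzs
  obtain ⟨i, m, n, h⟩ := hzs
  refine ⟨i, ?_⟩
  have h1 : z + m + n * hexEta ∈ closedBall (a i) (‖ρ i‖ * R) := by
    have := hV h
    rw [mem_closedBall_zero_iff, norm_div, div_le_iff₀ (norm_pos_iff.mpr (hρ i))] at this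
    rw [mem_closedBall, dist_eq_norm]
    linarith
  have h2 : z + m + n * hexEta ∈ Cell hexBasis := interior_subset (hB i h1)
  have e : z + m + n * hexEta = z + (m : ℝ) • hexBasis 0 + (n : ℝ) • hexBasis 1 := by
    simp
  rw [e] at h2
  rw [Cell, ZSpan.mem_fundamentalDomain] at hzc h2
  have a0 := hzc 0
  have a1 := hzc 1
  have b0 := h2 0
  have b1 := h2 1
  simp only [map_add, map_smul, Module.Basis.repr_self, Finsupp.add_apply, Finsupp.smul_apply,
    Finsupp.single_apply, smul_eq_mul, Set.mem_Ico] at a0 a1 b0 b1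
  simp at a0 a1 b0 b1
  have hm : m = 0 := by
    have c1 : (-1 : ℝ) < m := by linarith [a0.2, b0.1]
    have c2 : (m : ℝ) < 1 := by linarith [a0.1, b0.2]
    have c3 : (-1 : ℤ) < m := by exact_mod_cast c1
    have c4 : m < (1 : ℤ) := by exact_mod_cast c2
    omega
  have hn : n = 0 := by
    have c1 : (-1 : ℝ) < n := by linarith [a1.2, b1.1]
    have c2 : (n : ℝ) < 1 := by linarith [a1.1, b1.2]
    have c3 : (-1 : ℤ) < n := by exact_mod_cast c1
    have c4 : n < (1 : ℤ) := by exact_mod_cast c2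
    omega
  subst hm hn
  simpa using h

theorem f_En_nonneg (κ μ : ℝ) (hκ : 0 < κ) (hμ : 0 < μ) (b : Module.Basis (Fin 2) ℝ ℂ)
    (Ω : Set ℂ) (v : ℝ × ℂ) (u : Per b) : 0 ≤ En κ μ b Ω v u := by
  unfold En
  apply mul_nonneg (by positivity)
  apply integral_nonneg
  intro z
  exact f_dens_nonneg κ μ hκ hμ _ _ _

theorem f_Weff_le (κ μ : ℝ) (hκ : 0 < κ) (hμ : 0 < μ) (b : Module.Basis (Fin 2) ℝ ℂ)
    (Ω : Set ℂ) (α : ℝ) (β : ℂ) (u : Per b) : Weff κ μ b Ω α β ≤ En κ μ b Ω (α, β) u :=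
  infQ_le (f := En κ μ b Ω) (f_En_nonneg κ μ hκ hμ b Ω) (α, β) u

theorem f_Weff_nonneg (κ μ : ℝ) (hκ : 0 < κ) (hμ : 0 < μ) (b : Module.Basis (Fin 2) ℝ ℂ)
    (Ω : Set ℂ) (α : ℝ) (β : ℂ) : 0 ≤ Weff κ μ b Ω α β :=
  infQ_nonneg (f := En κ μ b Ω) (f_En_nonneg κ μ hκ hμ b Ω) (α, β)

theorem f_Weff_shear_le (κ μ : ℝ) (hκ : 0 < κ) (hμ : 0 < μ) (b : Module.Basis (Fin 2) ℝ ℂ)
    (Ω : Set ℂ) : Weff κ μ b Ω 0 1 ≤ 4 * μ := by
  refine (f_Weff_le κ μ hκ hμ b Ω 0 1 0).trans ?_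
  have hd : ∀ z, dens κ μ 0 1 (fderiv ℝ ((0 : Per b) : ℂ → ℂ) z) = 4 * μ := by
    intro z
    simp [dens, dz, dzb]
  unfold En
  simp only [hd]
  rw [setIntegral_const, smul_eq_mul, Measure.real]
  have hY := f_cell_pos b
  have h1 : (volume (Cell b ∩ Ω)).toReal ≤ (volume (Cell b)).toReal :=
    ENNReal.toReal_mono (f_cell_finite b).ne (measure_mono Set.inter_subset_left)
  calc (volume (Cell b)).toReal⁻¹ * ((volume (Cell b ∩ Ω)).toReal * (4 * μ))
      ≤ (volume (Cell b)).toReal⁻¹ * ((volume (Cell b)).toReal * (4 * μ)) := by gcongr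
    _ = 4 * μ := by field_simp

/-- TASK F -/
theorem assembly (κ μ : ℝ) (hκ : 0 < κ) (hμ : 0 < μ) (hdev : DeviceExists) (ε : ℝ) (hε : 0 < ε) :
    ∃ (Ω : Set ℂ) (k m : ℝ), MeasurableSet Ω ∧
      (∀ i z, z + hexBasis i ∈ Ω ↔ z ∈ Ω) ∧ 0 ≤ k ∧ k ≤ ε ∧ μ - ε ≤ m ∧ m ≤ μ ∧
      ∀ α β, Weff κ μ hexBasis Ω α β = 4 * k * α ^ 2 + 4 * m * ‖β‖ ^ 2 := by
  set Y : ℝ := (volume (Cell hexBasis)).toReal with hY
  have hYpos : 0 < Y := f_cell_pos hexBasis
  set δ : ℝ := min (ε / (κ + μ)) (ε * κ / (μ * (κ + μ))) with hδ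
  have hδpos : 0 < δ := lt_min (by positivity) (by positivity)
  have hδ1 : δ * (κ + μ) ≤ ε := by
    have := min_le_left (ε / (κ + μ)) (ε * κ / (μ * (κ + μ)))
    rw [← hδ, le_div_iff₀ (by positivity)] at this
    exact this
  have hδ2 : δ * (μ * (κ + μ)) ≤ ε * κ := by
    have := min_le_right (ε / (κ + μ)) (ε * κ / (μ * (κ + μ)))
    rw [← hδ, le_div_iff₀ (by positivity)] at this
    exact this
  obtain ⟨R, V, υ, Ξ, hR, hV, hVR, hυ, hΞ, hsυ, hsΞ, hDV, hIΞ, hIυ⟩ := hdev δ hδpos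
  set η₀ : ℝ := ε * Y / (2 * κ) with hη₀
  have hη₀pos : 0 < η₀ := by positivity
  obtain ⟨ι, hι, a, ρ, σ, hρ, hB, hd, hvol, hσ1, hσ2⟩ := packing R hR η₀ hη₀pos
  set Ω : Set ℂ := f_solid a ρ V with hΩ
  have hΩm : MeasurableSet Ω := f_solid_meas a ρ V hV
  have hΩV : ∀ i z, (z - a i) / ρ i ∈ V → z ∉ Ω := by
    intro i z h hz
    have := hz i 0 0
    simp only [Int.cast_zero, add_zero, zero_mul] at this
    exact this h
  have hsum := f_sum_sq a ρ R hR hexBasis hB hd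
  rw [← hY] at hsum
  set P : ℝ := ∑ i, ‖ρ i‖ ^ 2 with hP
  have hP0 : 0 ≤ P := Finset.sum_nonneg fun i _ => by positivity
  have hπ := Real.pi_gt_three
  have hPR : P * R ^ 2 * 3 ≤ Y := by
    have : P * R ^ 2 * 3 ≤ P * R ^ 2 * Real.pi := by gcongr
    linarith
  -- the bulk bound
  have hbulk : Weff κ μ hexBasis Ω 1 0 ≤ 4 * ε := by
    obtain ⟨u, hu⟩ := periodize hexBasis (f_tot ρ a ρ υ) (f_tot_contDiff ρ a ρ υ hυ)
      (f_tot_compact ρ a ρ hρ R υ hsυ)
      ((f_tot_tsupport ρ a ρ hρ R υ hsυ).trans (Set.iUnion_subset hB))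
    have h1 := f_Weff_le κ μ hκ hμ hexBasis Ω 1 0 u
    have h2 := f_upper_int a ρ hρ R hexBasis hd κ μ hκ hμ υ hυ hsυ V hV Ω hΩm hΩV u hu
    have h3 : (volume (Cell hexBasis \ ⋃ i, closedBall (a i) (‖ρ i‖ * R))).toReal ≤ η₀ :=
      ENNReal.toReal_le_of_le_ofReal hη₀pos.le hvol
    have h4 : ∫ z in closedBall 0 R \ V, dens κ μ 1 0 (fderiv ℝ υ z) ≤
        4 * (κ + μ) * (δ * R ^ 2) := by
      refine le_trans ?_ (mul_le_mul_of_nonneg_left hIυ (by positivity))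
      rw [← integral_const_mul]
      apply integral_mono_of_nonneg
      · exact Filter.Eventually.of_forall fun z => f_dens_nonneg κ μ hκ hμ _ _ _
      · apply Integrable.const_mul
        have hc : Continuous fun z => (1 + (dz (fderiv ℝ υ z)).re) ^ 2 +
            ‖dzb (fderiv ℝ υ z)‖ ^ 2 := by
          have h1 : Continuous (fderiv ℝ υ) := hυ.continuous_fderiv (by simp)
          have h2 : ∀ v : ℂ, Continuous (fun z => fderiv ℝ υ z v) :=
            fun v => h1.clm_apply continuous_const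
          simp only [dz, dzb]
          have e1 := h2 1
          have e2 := h2 Complex.I
          fun_prop
        exact (hc.continuousOn.integrableOn_compact (isCompact_closedBall (0 : ℂ) R)).mono_set
          Set.sdiff_subset
      · refine Filter.Eventually.of_forall fun z => ?_
        simp only [dens, zero_add]
        have q1 : 0 ≤ (1 + (dz (fderiv ℝ υ z)).re) ^ 2 := by positivity
        have q2 : 0 ≤ ‖dzb (fderiv ℝ υ z)‖ ^ 2 := by positivity
        nlinarith [mul_nonneg hκ.le q2, mul_nonneg hμ.le q1]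
    have h5 : En κ μ hexBasis Ω (1, 0) u ≤ Y⁻¹ * (4 * κ * η₀ + P * (4 * (κ + μ) * (δ * R ^ 2))) := by
      unfold En
      gcongr
      exact h2.trans (by gcongr)
    have h6 : Y⁻¹ * (4 * κ * η₀ + P * (4 * (κ + μ) * (δ * R ^ 2))) ≤ 4 * ε := by
      rw [inv_mul_le_iff₀ hYpos, hη₀]
      have e1 : 4 * κ * (ε * Y / (2 * κ)) = 2 * ε * Y := by field_simp; ring
      rw [e1]
      have e2 : P * (4 * (κ + μ) * (δ * R ^ 2)) = 4 * (δ * (κ + μ)) * (P * R ^ 2) := by ring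
      rw [e2]
      have e3 : 4 * (δ * (κ + μ)) * (P * R ^ 2) ≤ 4 * ε * (P * R ^ 2) := by gcongr
      have e4 : 4 * ε * (P * R ^ 2) ≤ 4 * ε * (Y / 3) := by
        gcongr; linarith
      nlinarith
    linarith
  -- the shear bound
  have hshear : 4 * (μ - ε) ≤ Weff κ μ hexBasis Ω 0 1 := by
    have h1 := Weff_lower κ μ hκ hμ hexBasis Ω hΩm (f_tot (fun i => ρ i ^ 2) a ρ Ξ)
      (f_tot_contDiff _ a ρ Ξ hΞ) (f_tot_compact _ a ρ hρ R Ξ hsΞ)
      ((f_tot_tsupport _ a ρ hρ R Ξ hsΞ).trans (Set.iUnion_subset hB)) (by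
        intro z hz
        obtain ⟨i, hi⟩ := f_solid_cell a ρ hρ R V hVR hB z hz
        have hzB : z ∈ closedBall (a i) (‖ρ i‖ * R) := by
          have := hVR hi
          rw [mem_closedBall_zero_iff, norm_div, div_le_iff₀ (norm_pos_iff.mpr (hρ i))] at this
          rw [mem_closedBall, dist_eq_norm]
          linarith
        have he := f_tot_eq_copy (fun i => ρ i ^ 2) a ρ hρ R Ξ hd hsΞ i z hzB
        have he2 : (fun z => z ^ 2 + f_tot (fun i => ρ i ^ 2) a ρ Ξ z) =ᶠ[nhds z]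
            fun z => z ^ 2 + ρ i ^ 2 * Ξ ((z - a i) / ρ i) := by
          filter_upwards [he] with x hx
          rw [hx]
        rw [(he2.iteratedFDeriv (𝕜 := ℝ) 2).eq_of_nhds]
        exact f_device_copy (ρ i) (a i) (hρ i) Ξ hΞ z (hDV _ hi)) 1
    have h2 := f_lower_int a ρ hρ R hd Ξ hΞ hsΞ
    refine le_trans ?_ h1
    rw [norm_one, ← hY]
    have h3 : Y⁻¹ * ∫ z, ‖iteratedFDeriv ℝ 2 (f_tot (fun i => ρ i ^ 2) a ρ Ξ) z‖ ^ 2 ≤ δ := by
      rw [inv_mul_le_iff₀ hYpos]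
      refine h2.trans ?_
      rw [← hP]
      calc P * ∫ z, ‖iteratedFDeriv ℝ 2 Ξ z‖ ^ 2 ≤ P * (δ * R ^ 2) := by gcongr
        _ = δ * (P * R ^ 2) := by ring
        _ ≤ δ * Y := by
          gcongr
          have : 0 ≤ P * R ^ 2 := by positivity
          linarith
        _ = Y * δ := by ring
    have h4 : (1 + μ / κ) * (Y⁻¹ * ∫ z, ‖iteratedFDeriv ℝ 2 (f_tot (fun i => ρ i ^ 2) a ρ Ξ) z‖ ^ 2)
        ≤ (1 + μ / κ) * δ := by gcongr
    have h5 : μ * ((1 + μ / κ) * δ) ≤ ε := by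
      have e : μ * ((1 + μ / κ) * δ) = δ * (μ * (κ + μ)) / κ := by field_simp
      rw [e, div_le_iff₀ hκ]
      exact hδ2
    nlinarith
  refine ⟨Ω, Weff κ μ hexBasis Ω 1 0 / 4, Weff κ μ hexBasis Ω 0 1 / 4, hΩm,
    f_solid_per a ρ V, ?_, ?_, ?_, ?_, ?_⟩
  · have := f_Weff_nonneg κ μ hκ hμ hexBasis Ω 1 0
    positivity
  · linarith
  · linarith
  · have := f_Weff_shear_le κ μ hκ hμ hexBasis Ω
    linarith
  · intro α β
    rw [Weff_isotropic κ μ hκ hμ Ω hΩm (f_solid_per a ρ V)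
      (f_solid_rot a ρ V σ hρ hσ1 hσ2) α β]
    ring

end Pool.Agent.ShearComposite
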