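import Pool.Agent.ShearComposite.SoftDef

/-!
# Bounds for the jets of the soft half plane functions, and a logarithmic integral
-/

open MeasureTheory Metric
open scoped ContDiff

namespace Pool.Agent.ShearComposite

theorem j_S_contDiff : ContDiff ℝ ∞ S := by
  unfold S
  have h : ContDiff ℝ ∞ Real.smoothTransition := Real.smoothTransition.contDiff (n := ⊤)
  exact h.comp ((contDiff_id.add contDiff_const).div_const 2)

theorem j_S_one {t : ℝ} (ht : 1 ≤ t) : S t = 1 := by
  unfold S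
  exact Real.smoothTransition.one_of_one_le (by linarith)

theorem j_S_zero {t : ℝ} (ht : t ≤ -1) : S t = 0 := by
  unfold S
  exact Real.smoothTransition.zero_of_nonpos (by linarith)

theorem j_iter_of_eventually_const {E : Type} [NormedAddCommGroup E] [NormedSpace ℝ E]
    {f : E → ℝ} {x : E} {c : ℝ} (h : ∀ᶠ y in nhds x, f y = c) {i : ℕ} (hi : i ≠ 0) :
    iteratedFDeriv ℝ i f x = 0 := by
  have h1 : f =ᶠ[nhds x] fun _ => c := h
  have h2 := (h1.iteratedFDeriv ℝ i).eq_of_nhds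
  rw [h2, iteratedFDeriv_const_of_ne hi]
  rfl

theorem j_S_bound : ∃ C : ℝ, 1 ≤ C ∧ ∀ (t : ℝ) (i : ℕ), i ≤ 2 → ‖iteratedFDeriv ℝ i S t‖ ≤ C := by
  have key : ∀ i : ℕ, ∃ C : ℝ, ∀ t : ℝ, ‖iteratedFDeriv ℝ i S t‖ ≤ C := by
    intro i
    have hc : Continuous fun t => ‖iteratedFDeriv ℝ i S t‖ :=
      (j_S_contDiff.continuous_iteratedFDeriv (m := i) (by exact_mod_cast le_top)).norm
    obtain ⟨C, hC⟩ := (isCompact_Icc (a := (-2 : ℝ)) (b := 2)).bddAbove_image hc.continuousOn
    refine ⟨max C 1, fun t => ?_⟩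
    by_cases ht : t ∈ Set.Icc (-2 : ℝ) 2
    · exact le_max_of_le_left (hC ⟨t, ht, rfl⟩)
    · rcases Nat.eq_zero_or_pos i with rfl | hi
      · rw [norm_iteratedFDeriv_zero]
        apply le_max_of_le_right
        rw [Real.norm_eq_abs, abs_le]
        constructor
        · exact le_trans (by norm_num) (Real.smoothTransition.nonneg _)
        · exact Real.smoothTransition.le_one _
      · have h0 : iteratedFDeriv ℝ i S t = 0 := by
          rw [Set.mem_Icc, not_and_or, not_le, not_le] at ht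
          rcases ht with ht | ht
          · apply j_iter_of_eventually_const (c := 0) _ hi.ne'
            filter_upwards [Iio_mem_nhds ht] with y hy
            exact j_S_zero (by rw [Set.mem_Iio] at hy; linarith)
          · apply j_iter_of_eventually_const (c := 1) _ hi.ne'
            filter_upwards [Ioi_mem_nhds ht] with y hy
            exact j_S_one (by rw [Set.mem_Ioi] at hy; linarith)
        rw [h0, norm_zero]
        exact le_max_of_le_right zero_le_one
  choose C hC using key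
  refine ⟨max 1 (max (C 0) (max (C 1) (C 2))), le_max_left _ _, fun t i hi => ?_⟩
  interval_cases i
  · exact (hC 0 t).trans (le_trans (le_max_left _ _) (le_max_right _ _))
  · exact (hC 1 t).trans (le_trans (le_trans (le_max_left _ _) (le_max_right _ _))
      (le_max_right _ _))
  · exact (hC 2 t).trans (le_trans (le_trans (le_max_right _ _) (le_max_right _ _))
      (le_max_right _ _))

/-- the power function used for the scale -/
noncomputable def jphi (t : ℝ) : ℝ := t ^ (-(1 / 2) : ℝ)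

theorem j_phi_contDiffOn : ContDiffOn ℝ ∞ jphi (Set.Ioi 0) := by
  intro t ht
  exact (contDiffAt_id.rpow_const_of_ne (ne_of_gt ht)).contDiffWithinAt

theorem j_f2_contDiff (w r : ℝ) : ContDiff ℝ ∞ fun z : ℂ => (‖z‖ ^ 2 + w ^ 2) / r ^ 2 :=
  ((contDiff_norm_sq ℝ).add contDiff_const).div_const _

theorem j_f2_fderiv (w r : ℝ) : fderiv ℝ (fun z : ℂ => (‖z‖ ^ 2 + w ^ 2) / r ^ 2)
    = fun z : ℂ => (2 / r ^ 2) • innerSL ℝ z := by
  funext z
  have h1 : HasFDerivAt (fun z : ℂ => ‖z‖ ^ 2) (2 • innerSL ℝ z) z :=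
    (hasStrictFDerivAt_norm_sq z).hasFDerivAt
  have h2 : HasFDerivAt (fun z : ℂ => (r ^ 2)⁻¹ * (‖z‖ ^ 2 + w ^ 2))
      ((r ^ 2)⁻¹ • (2 • innerSL ℝ z)) z := (h1.add_const (w ^ 2)).const_mul _
  have h3 : (fun z : ℂ => (‖z‖ ^ 2 + w ^ 2) / r ^ 2)
      = fun z : ℂ => (r ^ 2)⁻¹ * (‖z‖ ^ 2 + w ^ 2) := by
    funext z; rw [div_eq_inv_mul]
  rw [h3, h2.fderiv]
  ext v
  simp only [smul_apply, smul_eq_mul, nsmul_eq_mul]
  push_cast
  ring

theorem j_f2_bound (w r : ℝ) (hr : 0 < r) (z : ℂ) (hz : ‖z‖ ≤ r) (i : ℕ) (h1 : 1 ≤ i)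
    (h2 : i ≤ 2) :
    ‖iteratedFDeriv ℝ i (fun z : ℂ => (‖z‖ ^ 2 + w ^ 2) / r ^ 2) z‖ ≤ (2 / r) ^ i := by
  interval_cases i
  · rw [norm_iteratedFDeriv_one, j_f2_fderiv, pow_one, norm_smul, innerSL_apply_norm,
      Real.norm_of_nonneg (by positivity)]
    calc 2 / r ^ 2 * ‖z‖ ≤ 2 / r ^ 2 * r := by gcongr
      _ = 2 / r := by field_simp
  · rw [← norm_iteratedFDeriv_fderiv, norm_iteratedFDeriv_one, j_f2_fderiv]
    have h : fderiv ℝ (fun z : ℂ => (2 / r ^ 2) • innerSL ℝ z) z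
        = (2 / r ^ 2) • (innerSL ℝ : ℂ →L[ℝ] ℂ →L[ℝ] ℝ) := by
      have h1 : HasFDerivAt (fun z : ℂ => (innerSL ℝ : ℂ →L[ℝ] ℂ →L[ℝ] ℝ) z)
        (innerSL ℝ : ℂ →L[ℝ] ℂ →L[ℝ] ℝ) z := (innerSL ℝ : ℂ →L[ℝ] ℂ →L[ℝ] ℝ).hasFDerivAt
      exact (h1.const_smul (2 / r ^ 2)).fderiv
    rw [h, norm_smul, Real.norm_of_nonneg (by positivity)]
    have h3 : ‖(innerSL ℝ : ℂ →L[ℝ] ℂ →L[ℝ] ℝ)‖ ≤ 1 := by
      apply ContinuousLinearMap.opNorm_le_bound _ zero_le_one
      intro x
      rw [innerSL_apply_norm, one_mul]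
    calc 2 / r ^ 2 * ‖(innerSL ℝ : ℂ →L[ℝ] ℂ →L[ℝ] ℝ)‖ ≤ 2 / r ^ 2 * 1 := by gcongr
      _ ≤ (2 / r) ^ 2 := by
        rw [div_pow, mul_one]; gcongr; norm_num

theorem j_rw_pos (w : ℝ) (hw : 0 < w) (z : ℂ) : 0 < rw w z := by
  unfold rw; positivity

theorem j_norm_le_rw (w : ℝ) (z : ℂ) : ‖z‖ ≤ rw w z := by
  unfold rw
  exact Real.le_sqrt_of_sq_le (by nlinarith [sq_nonneg w])

theorem j_rw_sq (w : ℝ) (z : ℂ) : rw w z ^ 2 = ‖z‖ ^ 2 + w ^ 2 := by
  unfold rw
  exact Real.sq_sqrt (by positivity)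

/-- the scale factor normalised at the point `z₀` -/
theorem j_g2_contDiff (w r : ℝ) (hw : 0 < w) (hr : 0 < r) :
    ContDiff ℝ ∞ fun z : ℂ => jphi ((‖z‖ ^ 2 + w ^ 2) / r ^ 2) := by
  rw [contDiff_iff_contDiffAt]
  intro z
  have h := (j_f2_contDiff w r).contDiffAt (x := z)
  exact h.rpow_const_of_ne (by positivity)

theorem j_g2_bound : ∃ C : ℝ, 1 ≤ C ∧ ∀ w : ℝ, 0 < w → ∀ (z : ℂ) (i : ℕ), i ≤ 2 →
    ‖iteratedFDeriv ℝ i (fun y : ℂ => jphi ((‖y‖ ^ 2 + w ^ 2) / rw w z ^ 2)) z‖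
      ≤ C * (2 / rw w z) ^ i := by
  set B : ℕ → ℝ := fun i => ‖iteratedFDerivWithin ℝ i jphi (Set.Ioi 0) 1‖ with hB
  set C : ℝ := max 1 (max (B 0) (max (B 1) (B 2))) with hC
  have hBC : ∀ i ≤ 2, B i ≤ C := by
    intro i hi
    interval_cases i
    · exact le_trans (le_max_left _ _) (le_max_right _ _)
    · exact (le_trans (le_trans (le_max_left _ _) (le_max_right _ _)) (le_max_right _ _))
    · exact (le_trans (le_trans (le_max_right _ _) (le_max_right _ _)) (le_max_right _ _))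
  have hC1 : 1 ≤ C := le_max_left _ _
  refine ⟨2 * C, by linarith, fun w hw z i hi => ?_⟩
  have hr := j_rw_pos w hw z
  have hone : (‖z‖ ^ 2 + w ^ 2) / rw w z ^ 2 = 1 := by
    rw [j_rw_sq]; exact div_self (by positivity)
  have h := norm_iteratedFDerivWithin_comp_le (𝕜 := ℝ) (g := jphi)
    (f := fun y : ℂ => (‖y‖ ^ 2 + w ^ 2) / rw w z ^ 2) (n := i) (s := Set.univ) (t := Set.Ioi 0)
    (x := z) (N := ∞) j_phi_contDiffOn (j_f2_contDiff w (rw w z)).contDiffOn
    (by exact_mod_cast le_top) (uniqueDiffOn_Ioi 0) uniqueDiffOn_univ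
    (fun y _ => by
      rw [Set.mem_Ioi]
      positivity) (Set.mem_univ z) (C := C) (D := 2 / rw w z)
    (fun j hj => by
      simp only [hone]
      exact hBC j (hj.trans hi))
    (fun j h1 h2 => by
      rw [iteratedFDerivWithin_univ]
      exact j_f2_bound w (rw w z) hr z (j_norm_le_rw w z) j h1 (h2.trans hi))
  rw [iteratedFDerivWithin_univ] at h
  have e : (jphi ∘ fun y : ℂ => (‖y‖ ^ 2 + w ^ 2) / rw w z ^ 2)
      = fun y : ℂ => jphi ((‖y‖ ^ 2 + w ^ 2) / rw w z ^ 2) := rfl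
  rw [e] at h
  refine h.trans ?_
  have hf : (i.factorial : ℝ) ≤ 2 := by
    interval_cases i <;> norm_num [Nat.factorial]
  gcongr

theorem j_u_bound (r : ℝ) (hr : 0 < r) (z : ℂ) (hz : ‖z‖ ≤ r) :
    ‖iteratedFDeriv ℝ 0 (fun y : ℂ => 64 * y.im / r) z‖ ≤ 64 ∧
    ‖iteratedFDeriv ℝ 1 (fun y : ℂ => 64 * y.im / r) z‖ ≤ 64 / r ∧
    ‖iteratedFDeriv ℝ 2 (fun y : ℂ => 64 * y.im / r) z‖ = 0 := by
  have hfd : fderiv ℝ (fun y : ℂ => 64 * y.im / r) = fun _ => (64 / r) • Complex.imCLM := by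
    funext y
    have h1 : HasFDerivAt (fun y : ℂ => (64 / r) * Complex.imCLM y) ((64 / r) • Complex.imCLM) y :=
      Complex.imCLM.hasFDerivAt.const_mul _
    have h2 : (fun y : ℂ => 64 * y.im / r) = fun y : ℂ => (64 / r) * Complex.imCLM y := by
      funext y
      simp only [Complex.imCLM_apply]
      ring
    rw [h2, h1.fderiv]
  refine ⟨?_, ?_, ?_⟩
  · rw [norm_iteratedFDeriv_zero, Real.norm_eq_abs, abs_div, abs_of_pos hr, div_le_iff₀ hr,
      abs_mul, abs_of_pos (by norm_num : (0 : ℝ) < 64)]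
    have := Complex.abs_im_le_norm z
    nlinarith
  · rw [norm_iteratedFDeriv_one, hfd]
    rw [norm_smul, Real.norm_of_nonneg (by positivity)]
    have h3 : ‖Complex.imCLM‖ ≤ 1 := by
      apply ContinuousLinearMap.opNorm_le_bound _ zero_le_one
      intro x
      rw [one_mul, Complex.imCLM_apply, Real.norm_eq_abs]
      exact Complex.abs_im_le_norm x
    calc 64 / r * ‖Complex.imCLM‖ ≤ 64 / r * 1 := by gcongr
      _ = 64 / r := mul_one _
  · rw [← norm_iteratedFDeriv_fderiv, norm_iteratedFDeriv_one, hfd]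
    simp

theorem j_u_contDiff (r : ℝ) : ContDiff ℝ ∞ fun y : ℂ => 64 * y.im / r :=
  (contDiff_const.mul Complex.imCLM.contDiff).div_const r

theorem j_softH_eq (w : ℝ) (hw : 0 < w) (z : ℂ) : (fun y : ℂ => 64 * y.im / rw w y)
    = fun y : ℂ => 64 * y.im / rw w z * jphi ((‖y‖ ^ 2 + w ^ 2) / rw w z ^ 2) := by
  funext y
  have h1 := j_rw_pos w hw y
  have h2 := j_rw_pos w hw z
  have h3 : jphi ((‖y‖ ^ 2 + w ^ 2) / rw w z ^ 2) = rw w z / rw w y := by
    rw [← j_rw_sq w y]
    unfold jphi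
    rw [Real.rpow_neg (by positivity), ← Real.sqrt_eq_rpow, ← div_pow,
      Real.sqrt_sq (by positivity), inv_div]
  rw [h3]
  field_simp

theorem j_arg_contDiff (w : ℝ) (hw : 0 < w) : ContDiff ℝ ∞ fun y : ℂ => 64 * y.im / rw w y := by
  rw [j_softH_eq w hw 0]
  exact (j_u_contDiff _).mul (j_g2_contDiff w _ hw (j_rw_pos w hw 0))

/-- TASK J -/
theorem softH_jet : ∃ C : ℝ, 0 < C ∧ ∀ w : ℝ, 0 < w → ContDiff ℝ ∞ (softH w) ∧
    ∀ (z : ℂ) (i : ℕ), i ≤ 2 → ‖iteratedFDeriv ℝ i (softH w) z‖ * rw w z ^ i ≤ C := by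
  obtain ⟨A, hA1, hA⟩ := j_S_bound
  obtain ⟨K, hK1, hK⟩ := j_g2_bound
  refine ⟨2 * A * (1024 * K) ^ 2, by positivity, fun w hw => ⟨?_, ?_⟩⟩
  · exact j_S_contDiff.comp (j_arg_contDiff w hw)
  · intro z i hi
    have hr := j_rw_pos w hw z
    have hz := j_norm_le_rw w z
    obtain ⟨u0, u1, u2⟩ := j_u_bound (rw w z) hr z hz
    have g0 := hK w hw z 0 (by norm_num)
    have g1 := hK w hw z 1 (by norm_num)
    have g2 := hK w hw z 2 (by norm_num)
    set r := rw w z with hrdef
    -- the derivatives of the argument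
    have hD : ∀ j : ℕ, 1 ≤ j → j ≤ i →
        ‖iteratedFDeriv ℝ j (fun y : ℂ => 64 * y.im / rw w y) z‖ ≤ (1024 * K / r) ^ j := by
      intro j h1 h2
      have h2' : j ≤ 2 := h2.trans hi
      have hmul := norm_iteratedFDeriv_mul_le (𝕜 := ℝ) (f := fun y : ℂ => 64 * y.im / r)
        (g := fun y : ℂ => jphi ((‖y‖ ^ 2 + w ^ 2) / r ^ 2)) (N := ∞) (j_u_contDiff r)
        (j_g2_contDiff w r hw hr) z (n := j) (by exact_mod_cast le_top)
      rw [j_softH_eq w hw z]
      refine hmul.trans ?_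
      interval_cases j
      · rw [Finset.sum_range_succ, Finset.sum_range_one]
        simp only [Nat.choose_zero_right, Nat.choose_self, Nat.cast_one, one_mul, Nat.sub_zero,
          Nat.sub_self]
        rw [pow_zero, mul_one] at g0
        rw [pow_one] at g1
        have b1 := mul_le_mul u0 g1 (norm_nonneg _) (by norm_num)
        have b2 := mul_le_mul u1 g0 (norm_nonneg _) (by positivity)
        refine (add_le_add b1 b2).trans ?_
        rw [pow_one]
        have e : 64 * (K * (2 / r)) + 64 / r * K = 192 * K / r := by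
          field_simp; ring
        rw [e]
        gcongr
        norm_num
      · rw [Finset.sum_range_succ, Finset.sum_range_succ, Finset.sum_range_one]
        simp only [Nat.choose_zero_right, Nat.choose_self, Nat.cast_one, one_mul, Nat.sub_zero,
          Nat.sub_self, u2, zero_mul, add_zero]
        rw [pow_one] at g1
        have b1 := mul_le_mul u0 g2 (norm_nonneg _) (by norm_num)
        have b2 := mul_le_mul u1 g1 (norm_nonneg _) (by positivity)
        have c1 : ((2 : ℕ).choose 1 : ℝ) = 2 := by norm_num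
        have c2 : 2 - 1 = 1 := rfl
        rw [c1, c2, mul_assoc]
        have b3 := mul_le_mul_of_nonneg_left b2 (zero_le_two (α := ℝ))
        refine (add_le_add b1 b3).trans ?_
        have e : 64 * (K * (2 / r) ^ 2) + 2 * (64 / r * (K * (2 / r))) = 512 * K / r ^ 2 := by
          field_simp; ring
        rw [e, div_pow]
        gcongr
        nlinarith
    have h := norm_iteratedFDeriv_comp_le (𝕜 := ℝ) (g := S)
      (f := fun y : ℂ => 64 * y.im / rw w y) (n := i) (N := ∞) j_S_contDiff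
      (j_arg_contDiff w hw) (by exact_mod_cast le_top) z (C := A) (D := 1024 * K / r)
      (fun j hj => hA _ j (hj.trans hi)) hD
    have e : (S ∘ fun y : ℂ => 64 * y.im / rw w y) = softH w := rfl
    rw [e] at h
    have hf : (i.factorial : ℝ) ≤ 2 := by
      interval_cases i <;> norm_num [Nat.factorial]
    calc ‖iteratedFDeriv ℝ i (softH w) z‖ * r ^ i
        ≤ ((i.factorial : ℝ) * A * (1024 * K / r) ^ i) * r ^ i := by gcongr
      _ = (i.factorial : ℝ) * A * (1024 * K) ^ i := by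
        rw [div_pow]; field_simp
      _ ≤ 2 * A * (1024 * K) ^ 2 := by
        have h3 : (1024 * K) ^ i ≤ (1024 * K) ^ 2 :=
          pow_le_pow_right₀ (by linarith) hi
        gcongr

/-! ## The logarithmic integral -/

theorem i_cont (a : ℂ) (w : ℝ) (hw : 0 < w) :
    Continuous fun z : ℂ => 1 / (‖z - a‖ ^ 2 + w ^ 2) := by
  apply Continuous.div continuous_const (by fun_prop)
  intro z
  positivity

theorem i_integrableOn (a : ℂ) (w : ℝ) (hw : 0 < w) (r : ℝ) :
    IntegrableOn (fun z : ℂ => 1 / (‖z - a‖ ^ 2 + w ^ 2)) (ball a r) :=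
  ((i_cont a w hw).continuousOn.integrableOn_compact (isCompact_closedBall a r)).mono_set
    ball_subset_closedBall

theorem i_vol (a : ℂ) (r : ℝ) (hr : 0 ≤ r) : (volume (ball a r)).toReal = Real.pi * r ^ 2 := by
  rw [Complex.volume_ball, ENNReal.toReal_mul, ENNReal.toReal_pow, ENNReal.toReal_ofReal hr]
  rw [mul_comm]
  rfl

/-- TASK I -/
theorem integral_inv_sq (a : ℂ) (w : ℝ) (hw : 0 < w) (J : ℕ) :
    ∫ z in ball a (2 ^ J * w), 1 / (‖z - a‖ ^ 2 + w ^ 2) ≤ Real.pi * (1 + 4 * J) := by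
  induction J with
  | zero =>
    rw [pow_zero, one_mul]
    have h1 : ∫ z in ball a w, 1 / (‖z - a‖ ^ 2 + w ^ 2) ≤ ∫ z in ball a w, 1 / w ^ 2 := by
      apply setIntegral_mono_on (i_integrableOn a w hw w) _ measurableSet_ball
      · intro z _
        gcongr
        nlinarith [sq_nonneg ‖z - a‖]
      · exact integrableOn_const (by
          exact (measure_ball_lt_top).ne)
    refine h1.trans ?_
    rw [setIntegral_const, smul_eq_mul, measureReal_def, i_vol a w hw.le]
    have : Real.pi * w ^ 2 * (1 / w ^ 2) = Real.pi := by field_simp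
    rw [this]
    simp
  | succ J ih =>
    set r := 2 ^ J * w with hr
    have hrpos : 0 < r := by positivity
    have hr2 : (2 : ℝ) ^ (J + 1) * w = 2 * r := by rw [hr, pow_succ]; ring
    rw [hr2]
    have hsub : ball a r ⊆ ball a (2 * r) := ball_subset_ball (by linarith)
    have hsplit : ball a (2 * r) = ball a r ∪ (ball a (2 * r) \ ball a r) := by
      rw [Set.union_sdiff_cancel hsub]
    rw [hsplit, setIntegral_union Set.disjoint_sdiff_right
      (measurableSet_ball.diff measurableSet_ball) (i_integrableOn a w hw r)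
      ((i_integrableOn a w hw (2 * r)).mono_set Set.sdiff_subset)]
    have h1 : ∫ z in ball a (2 * r) \ ball a r, 1 / (‖z - a‖ ^ 2 + w ^ 2)
        ≤ ∫ z in ball a (2 * r) \ ball a r, 1 / r ^ 2 := by
      apply setIntegral_mono_on ((i_integrableOn a w hw (2 * r)).mono_set Set.sdiff_subset) _
        (measurableSet_ball.diff measurableSet_ball)
      · intro z hz
        have h2 : r ≤ ‖z - a‖ := by
          have := hz.2
          rw [mem_ball, dist_eq_norm, not_lt] at this
          exact this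
        gcongr
        nlinarith [sq_nonneg w]
      · exact integrableOn_const (by
          exact ((measure_mono Set.sdiff_subset).trans_lt measure_ball_lt_top).ne)
    have h2 : ∫ z in ball a (2 * r) \ ball a r, 1 / r ^ 2 ≤ 4 * Real.pi := by
      rw [setIntegral_const, smul_eq_mul, measureReal_def]
      have h3 : (volume (ball a (2 * r) \ ball a r)).toReal ≤ Real.pi * (2 * r) ^ 2 := by
        rw [← i_vol a (2 * r) (by positivity)]
        exact ENNReal.toReal_mono measure_ball_lt_top.ne (measure_mono Set.sdiff_subset)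
      calc (volume (ball a (2 * r) \ ball a r)).toReal * (1 / r ^ 2)
          ≤ Real.pi * (2 * r) ^ 2 * (1 / r ^ 2) := by gcongr
        _ = 4 * Real.pi := by field_simp; ring
    push_cast
    linarith

end Pool.Agent.ShearComposite
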