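import Pool.Agent.ShearComposite.Chart
import Pool.Agent.ShearComposite.Jets

/-!
# The bound of the second derivative of the net in a chart
-/

open Complex ComplexConjugate
open scoped ContDiff

namespace Pool.Agent.ShearComposite

/-- the real linear map `z ↦ B z + C conj z` -/
noncomputable def linBC (B C : ℂ) : ℂ →L[ℝ] ℂ :=
  B • ContinuousLinearMap.id ℝ ℂ + C • (Complex.conjCLE : ℂ →L[ℝ] ℂ)

theorem linBC_apply (B C z : ℂ) : linBC B C z = B * z + C * conj z := by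
  simp [linBC]

theorem linBC_norm (B C : ℂ) : ‖linBC B C‖ ≤ ‖B‖ + ‖C‖ := by
  apply ContinuousLinearMap.opNorm_le_bound _ (by positivity)
  intro x
  rw [linBC_apply]
  refine (norm_add_le _ _).trans ?_
  rw [norm_mul, norm_mul, norm_conj, add_mul]

theorem aff_eq (A B C : ℂ) : aff A B C = fun z => linBC B C z + A := by
  ext z
  rw [aff, linBC_apply]; ring

theorem aff_contDiff (A B C : ℂ) : ContDiff ℝ ∞ (aff A B C) := by
  rw [aff_eq]
  exact (linBC B C).contDiff.add contDiff_const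

namespace Dat

variable (D : Dat)

theorem Near.contDiff {K : ℝ} {τ : ℂ → ℂ} (h : D.Near K τ) : ContDiff ℝ ∞ τ := by
  obtain ⟨A, B, C, rfl, -⟩ := h
  exact aff_contDiff A B C

theorem Near.nonneg {K : ℝ} {τ : ℂ → ℂ} (h : D.Near K τ) : 0 ≤ K := by
  obtain ⟨A, B, C, -, -, -, h4⟩ := h
  exact nonneg_of_mul_nonneg_left ((norm_nonneg _).trans h4) D.hs

theorem Near.sq_jet {K : ℝ} {τ : ℂ → ℂ} (h : D.Near K τ) {z : ℂ} (hz : ‖z - 1‖ ≤ 5 * D.s) :
    Jet (fun z => τ z - z ^ 2) z ((11 * K + 100) * D.s ^ 2) D.s := by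
  have hK := h.nonneg
  obtain ⟨A, B, C, rfl, h2, h3, h4⟩ := h
  have hs := D.hs
  have e : (fun z : ℂ => aff A B C z - z ^ 2)
      = fun z => (linBC (B - 2) C z + (A + 1)) - (z - 1) * (z - 1) := by
    ext z
    rw [linBC_apply, aff]; ring
  rw [e]
  have j1 : Jet (fun z => linBC (B - 2) C z + (A + 1)) z (11 * K * D.s ^ 2) D.s := by
    apply jet_clm
    · have e1 : linBC (B - 2) C z + (A + 1)
          = (A + B + C - 1) + (B - 2) * (z - 1) + C * conj (z - 1) := by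
        rw [linBC_apply, map_sub, map_one]; ring
      rw [e1]
      calc _ ≤ ‖A + B + C - 1‖ + ‖B - 2‖ * ‖z - 1‖ + ‖C‖ * ‖z - 1‖ := by
            refine (norm_add_le _ _).trans ?_
            rw [norm_mul, norm_conj]
            gcongr
            refine (norm_add_le _ _).trans ?_
            rw [norm_mul]
        _ ≤ K * D.s ^ 2 + (K * D.s) * (5 * D.s) + (K * D.s) * (5 * D.s) := by gcongr
        _ = 11 * K * D.s ^ 2 := by ring
    · calc ‖linBC (B - 2) C‖ * D.s ≤ (‖B - 2‖ + ‖C‖) * D.s := by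
            gcongr; exact linBC_norm _ _
        _ ≤ (K * D.s + K * D.s) * D.s := by gcongr
        _ ≤ 11 * K * D.s ^ 2 := by nlinarith [mul_nonneg hK (sq_nonneg D.s)]
  have j2 : Jet (fun z : ℂ => z - 1) z (5 * D.s) D.s := by
    have e2 : (fun z : ℂ => z - 1) = fun z => (ContinuousLinearMap.id ℝ ℂ) z + (-1) := by
      ext z; simp [sub_eq_add_neg]
    rw [e2]
    apply jet_clm
    · simpa [sub_eq_add_neg] using hz
    · have : ‖ContinuousLinearMap.id ℝ ℂ‖ ≤ 1 := ContinuousLinearMap.norm_id_le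
      nlinarith
  have c1 : ContDiff ℝ ∞ (fun z : ℂ => z - 1) := contDiff_id.sub contDiff_const
  have j3 := Jet.cmul c1 c1 j2 j2 hs.le
  have c2 : ContDiff ℝ ∞ (fun z => linBC (B - 2) C z + (A + 1)) :=
    (linBC (B - 2) C).contDiff.add contDiff_const
  have j4 := Jet.sub c2 (c1.mul c1) j1 j3 hs.le
  refine j4.mono ?_
  nlinarith

theorem near_diff_jet {K : ℝ} {τ₁ τ₂ : ℂ → ℂ} (h1 : D.Near K τ₁) (h2 : D.Near K τ₂) {a : ℂ}
    (ha : τ₁ a = τ₂ a) {z : ℂ} {ρ : ℝ} (hρ : ‖z - a‖ ≤ ρ) :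
    Jet (fun z => τ₁ z - τ₂ z) z (4 * K * D.s * ρ) ρ := by
  have hK := h1.nonneg
  obtain ⟨A, B, C, rfl, -, h3, h4⟩ := h1
  obtain ⟨A', B', C', rfl, -, h3', h4'⟩ := h2
  have hs := D.hs
  have hρ0 : 0 ≤ ρ := (norm_nonneg _).trans hρ
  have e : (fun z : ℂ => aff A B C z - aff A' B' C' z)
      = fun z => linBC (B - B') (C - C') z + (A - A') := by
    ext z
    rw [linBC_apply, aff, aff]; ring
  rw [e]
  have hn : ‖linBC (B - B') (C - C')‖ ≤ 4 * K * D.s := by
    refine (linBC_norm _ _).trans ?_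
    have e1 : B - B' = (B - 2) - (B' - 2) := by ring
    have n1 : ‖B - B'‖ ≤ K * D.s + K * D.s := by
      rw [e1]; exact (norm_sub_le _ _).trans (add_le_add h3 h3')
    have n2 : ‖C - C'‖ ≤ K * D.s + K * D.s := (norm_sub_le _ _).trans (add_le_add h4 h4')
    linarith
  have hval : linBC (B - B') (C - C') z + (A - A') = linBC (B - B') (C - C') (z - a) := by
    rw [map_sub]
    have h0 : linBC (B - B') (C - C') a + (A - A') = 0 := by
      rw [linBC_apply]
      rw [aff, aff] at ha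
      linear_combination ha
    linear_combination h0
  apply jet_clm
  · rw [hval]
    calc _ ≤ ‖linBC (B - B') (C - C')‖ * ‖z - a‖ := ContinuousLinearMap.le_opNorm _ _
      _ ≤ 4 * K * D.s * ρ := by gcongr
  · gcongr

/-! soft functions -/

theorem rw_pos (z : ℂ) : 0 < rw D.w z := j_rw_pos D.w D.hw z

theorem norm_le_rw (z : ℂ) : ‖z‖ ≤ rw D.w z := j_norm_le_rw D.w z

theorem rw_congr {w : ℝ} {z z' : ℂ} (h : ‖z‖ = ‖z'‖) : rw w z = rw w z' := by
  rw [rw, rw, h]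

theorem rw_le (z : ℂ) : rw D.w z ≤ ‖z‖ + D.w := by
  have h1 := norm_nonneg z
  have h2 := D.hw
  unfold rw
  rw [Real.sqrt_le_left (by positivity)]
  nlinarith

theorem norm_h2_arg (z : ℂ) : ‖-I * (D.qb * z - 1)‖ = ‖z - D.q‖ := by
  have e : D.qb * z - 1 = D.qb * (z - D.q) := by
    linear_combination D.q_mul_qb
  rw [e, norm_mul, norm_mul, norm_neg, norm_I, norm_qb, one_mul, one_mul]

theorem norm_h1_arg (z : ℂ) : ‖-I * (D.q * z - 1)‖ = ‖z - D.qb‖ := by
  have e : D.q * z - 1 = D.q * (z - D.qb) := by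
    linear_combination D.q_mul_qb
  rw [e, norm_mul, norm_mul, norm_neg, norm_I, norm_q, one_mul, one_mul]

theorem l_soft : ∃ C : ℝ, 0 < C ∧ ∀ (D : Dat), (ContDiff ℝ ∞ D.h1) ∧ (ContDiff ℝ ∞ D.h2) ∧
    (∀ b, ContDiff ℝ ∞ (D.sg b)) ∧ ∀ z : ℂ,
    Jet D.h1 z C (rw D.w (z - D.qb)) ∧ Jet D.h2 z C (rw D.w (z - D.q)) ∧
    ∀ b, Jet (D.sg b) z C (rw D.w (z - D.apex b)) := by
  obtain ⟨C, hC, h⟩ := softH_jet
  refine ⟨C, hC, fun D => ?_⟩
  obtain ⟨hs, hj⟩ := h D.w D.hw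
  have hJ : ∀ y, Jet (softH D.w) y C (rw D.w y) := fun y i hi => hj y i hi
  refine ⟨?_, ?_, ?_, ?_⟩
  · exact hs.comp (contDiff_const.mul ((contDiff_const.mul contDiff_id).sub contDiff_const))
  · exact hs.comp (contDiff_const.mul ((contDiff_const.mul contDiff_id).sub contDiff_const))
  · intro b
    exact hs.comp (contDiff_id.sub contDiff_const)
  · intro z
    refine ⟨?_, ?_, ?_⟩
    · have e : D.h1 = fun x => softH D.w (-I * D.q * x + I) := by
        ext x; rw [h1]; congr 1; ring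
      have e2 : -I * D.q * z + I = -I * (D.q * z - 1) := by ring
      rw [e]
      apply Jet.rotate (by rw [norm_mul, norm_neg, norm_I, norm_q, one_mul])
      rw [e2, ← rw_congr (D.norm_h1_arg z)]
      exact hJ _
    · have e : D.h2 = fun x => softH D.w (-I * D.qb * x + I) := by
        ext x; rw [h2]; congr 1; ring
      have e2 : -I * D.qb * z + I = -I * (D.qb * z - 1) := by ring
      rw [e]
      apply Jet.rotate (by rw [norm_mul, norm_neg, norm_I, norm_qb, one_mul])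
      rw [e2, ← rw_congr (D.norm_h2_arg z)]
      exact hJ _
    · intro b
      have e : D.sg b = fun x => softH D.w (1 * x + (- D.apex b)) := by
        ext x; rw [sg]; congr 1; ring
      have e2 : 1 * z + (- D.apex b) = z - D.apex b := by ring
      rw [e]
      apply Jet.rotate norm_one
      rw [e2]
      exact hJ _

theorem l_comp : ∃ C : ℝ, 0 < C ∧ ∀ (f : ℂ → ℝ) (z : ℂ) (M ρ : ℝ), ContDiff ℝ ∞ f → 1 ≤ M →
    0 < ρ → (∀ i, 1 ≤ i → i ≤ 2 → ‖iteratedFDeriv ℝ i f z‖ ≤ (M / ρ) ^ i) →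
    Jet (fun z => S (f z)) z (C * M ^ 2) ρ := by
  obtain ⟨A, hA1, hA⟩ := j_S_bound
  refine ⟨2 * A, by positivity, fun f z M ρ hf hM hρ hb i hi => ?_⟩
  have h := norm_iteratedFDeriv_comp_le (𝕜 := ℝ) (g := S) (f := f) (n := i) (N := ∞)
    j_S_contDiff hf (by exact_mod_cast le_top) z (C := A) (D := M / ρ)
    (fun j hj => hA _ j (hj.trans hi)) (fun j h1 h2 => hb j h1 (h2.trans hi))
  have e : (S ∘ f) = fun z => S (f z) := rfl
  rw [e] at h
  have hf : (i.factorial : ℝ) ≤ 2 := by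
    interval_cases i <;> norm_num [Nat.factorial]
  calc _ ≤ ((i.factorial : ℝ) * A * (M / ρ) ^ i) * ρ ^ i := by gcongr
    _ = (i.factorial : ℝ) * A * M ^ i := by rw [div_pow]; field_simp
    _ ≤ 2 * A * M ^ 2 := by
      have h3 : M ^ i ≤ M ^ 2 := pow_le_pow_right₀ hM hi
      gcongr

theorem l_ee : ∃ C : ℝ, 0 < C ∧ ∀ (D : Dat) (z : ℂ), ContDiff ℝ ∞ D.ee ∧ Jet D.ee z C D.s := by
  obtain ⟨C, hC, h⟩ := l_comp
  refine ⟨C * 4 ^ 2, by positivity, fun D z => ⟨?_, ?_⟩⟩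
  · exact j_S_contDiff.comp ((contDiff_const.mul Complex.imCLM.contDiff).div_const _)
  · have hs := D.hs
    have hn : ‖Complex.imCLM‖ ≤ 1 := by
      apply ContinuousLinearMap.opNorm_le_bound _ zero_le_one
      intro x
      rw [one_mul, Complex.imCLM_apply, Real.norm_eq_abs]
      exact Complex.abs_im_le_norm x
    have e : (fun z : ℂ => 4 * z.im / D.s) = fun z => ((4 / D.s) • Complex.imCLM) z + 0 := by
      ext z; simp; ring
    apply h (fun z => 4 * z.im / D.s) z 4 D.s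
      ((contDiff_const.mul Complex.imCLM.contDiff).div_const _) (by norm_num) hs
    intro i h1 h2
    have hj : Jet (fun z => ((4 / D.s) • Complex.imCLM) z + 0) z
        (|4 * z.im / D.s| + 4 / D.s) 1 := by
      apply jet_clm
      · have : ((4 / D.s) • Complex.imCLM) z + 0 = 4 * z.im / D.s := by simp; ring
        rw [this, Real.norm_eq_abs]
        have : 0 ≤ 4 / D.s := by positivity
        linarith
      · rw [norm_smul, Real.norm_of_nonneg (by positivity), mul_one]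
        have : 4 / D.s * ‖Complex.imCLM‖ ≤ 4 / D.s * 1 := by gcongr
        have := abs_nonneg (4 * z.im / D.s)
        linarith
    rw [e]
    interval_cases i
    · rw [← norm_iteratedFDeriv_fderiv, norm_iteratedFDeriv_zero, pow_one, fderiv_add_const,
        ContinuousLinearMap.fderiv, norm_smul, Real.norm_of_nonneg (by positivity)]
      calc 4 / D.s * ‖Complex.imCLM‖ ≤ 4 / D.s * 1 := by gcongr
        _ = 4 / D.s := mul_one _
    · have e1 : fderiv ℝ (fun z => ((4 / D.s) • Complex.imCLM) z + 0)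
          = fun _ => ((4 / D.s) • Complex.imCLM) := by
        ext1 x
        rw [fderiv_add_const, ContinuousLinearMap.fderiv]
      rw [← norm_iteratedFDeriv_fderiv, e1, iteratedFDeriv_const_of_ne (by norm_num)]
      simp
      positivity

set_option maxHeartbeats 1000000 in
theorem l_YY : ∃ C : ℝ, 0 < C ∧ ∀ (D : Dat), ContDiff ℝ ∞ D.YY ∧
    ∀ z : ℂ, ‖z‖ ≤ 2 → Jet D.YY z C D.s := by
  obtain ⟨C, hC, h⟩ := l_comp
  refine ⟨4 * (C * 8 ^ 2) * (C * 8 ^ 2), by positivity, fun D => ?_⟩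
  have hs := D.hs
  have hn : ContDiff ℝ ∞ fun z : ℂ => ‖z‖ ^ 2 := contDiff_norm_sq ℝ
  have c1 : ContDiff ℝ ∞ fun z : ℂ => 7 + 2 * (‖z‖ ^ 2 - 1) / D.s :=
    contDiff_const.add ((contDiff_const.mul (hn.sub contDiff_const)).div_const _)
  have c2 : ContDiff ℝ ∞ fun z : ℂ => 7 - 2 * (‖z‖ ^ 2 - 1) / D.s :=
    contDiff_const.sub ((contDiff_const.mul (hn.sub contDiff_const)).div_const _)
  have d1 : ContDiff ℝ ∞ fun z : ℂ => S (7 + 2 * (‖z‖ ^ 2 - 1) / D.s) := j_S_contDiff.comp c1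
  have d2 : ContDiff ℝ ∞ fun z : ℂ => S (7 - 2 * (‖z‖ ^ 2 - 1) / D.s) := j_S_contDiff.comp c2
  refine ⟨d1.mul d2, fun z hz => ?_⟩
  have key : ∀ (t a : ℝ), |t| = 8 / D.s → Jet (fun z : ℂ => S (a + t * ((‖z‖ ^ 2 + 0 ^ 2) / 2 ^ 2)))
      z (C * 8 ^ 2) D.s := by
    intro t a ht
    have c3 := j_f2_contDiff 0 2
    apply h _ z 8 D.s (contDiff_const.add (contDiff_const.mul c3)) (by norm_num) hs
    intro i h1 h2
    have hi : i ≠ 0 := by omega
    have hle : (i : WithTop ℕ∞) ≤ ∞ := by exact_mod_cast le_top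
    have e1 : iteratedFDeriv ℝ i (fun z : ℂ => a + t * ((‖z‖ ^ 2 + 0 ^ 2) / 2 ^ 2)) z
        = t • iteratedFDeriv ℝ i (fun z : ℂ => (‖z‖ ^ 2 + 0 ^ 2) / 2 ^ 2) z := by
      have e2 : iteratedFDeriv ℝ i ((fun _ : ℂ => a) +
          (t • fun z : ℂ => (‖z‖ ^ 2 + 0 ^ 2) / 2 ^ 2)) z
          = iteratedFDeriv ℝ i (fun _ : ℂ => a) z
            + iteratedFDeriv ℝ i (t • fun z : ℂ => (‖z‖ ^ 2 + 0 ^ 2) / 2 ^ 2) z :=
        iteratedFDeriv_add_apply contDiffAt_const ((c3.const_smul t).contDiffAt.of_le hle)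
      have e3 : iteratedFDeriv ℝ i (fun _ : ℂ => a) z = 0 := by
        rw [iteratedFDeriv_const_of_ne hi]; rfl
      have e4 : iteratedFDeriv ℝ i (t • fun z : ℂ => (‖z‖ ^ 2 + 0 ^ 2) / 2 ^ 2) z
          = t • iteratedFDeriv ℝ i (fun z : ℂ => (‖z‖ ^ 2 + 0 ^ 2) / 2 ^ 2) z :=
        iteratedFDeriv_const_smul_apply (c3.contDiffAt.of_le hle)
      rw [e3, e4, zero_add] at e2
      exact e2
    rw [e1, norm_smul, Real.norm_eq_abs, ht]
    have hb := j_f2_bound 0 2 (by norm_num) z hz i h1 h2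
    have hs' := D.hs'
    have h8 : 1 ≤ 8 / D.s := by
      rw [le_div_iff₀ hs]; linarith
    calc 8 / D.s * ‖iteratedFDeriv ℝ i (fun z : ℂ => (‖z‖ ^ 2 + 0 ^ 2) / 2 ^ 2) z‖
        ≤ 8 / D.s * (2 / 2) ^ i := by gcongr
      _ = (8 / D.s) ^ 1 := by norm_num
      _ ≤ (8 / D.s) ^ i := pow_le_pow_right₀ h8 h1
  have k1 := key (8 / D.s) (7 - 2 / D.s) (abs_of_pos (by positivity))
  have k2 := key (-(8 / D.s)) (7 + 2 / D.s) (by rw [abs_neg]; exact abs_of_pos (by positivity))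
  have e1 : (fun z : ℂ => S (7 - 2 / D.s + 8 / D.s * ((‖z‖ ^ 2 + 0 ^ 2) / 2 ^ 2)))
      = fun z : ℂ => S (7 + 2 * (‖z‖ ^ 2 - 1) / D.s) := by
    ext z; congr 1; field_simp; ring
  have e2 : (fun z : ℂ => S (7 + 2 / D.s + -(8 / D.s) * ((‖z‖ ^ 2 + 0 ^ 2) / 2 ^ 2)))
      = fun z : ℂ => S (7 - 2 * (‖z‖ ^ 2 - 1) / D.s) := by
    ext z; congr 1; field_simp; ring
  rw [e1] at k1
  rw [e2] at k2
  exact Jet.rmul d1 d2 k1 k2 hs.le

/-! geometry of the chart -/

theorem chart_norm {z : ℂ} (hz : z ∈ D.Chart) : ‖z - 1‖ ≤ 4 * D.s := by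
  obtain ⟨h1, h2⟩ := hz
  have e : z - 1 = ((z.re - 1 : ℝ) : ℂ) + ((z.im : ℝ) : ℂ) * I := by
    apply Complex.ext <;> simp
  rw [e]
  refine (norm_re_im_le _ _).trans ?_
  linarith

theorem chart_norm_le {z : ℂ} (hz : z ∈ D.Chart) : ‖z‖ ≤ 2 := by
  have h1 := D.chart_norm hz
  have h2 := D.hs'
  have e : z = (z - 1) + 1 := by ring
  rw [e]
  refine (norm_add_le _ _).trans ?_
  rw [norm_one]; linarith

theorem apex_re_im (b : Bool) : ‖D.apex b - 1‖ ≤ 11 / 10 * D.s ∧ |(D.apex b).im| ≤ D.s / 50 := by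
  have h1 := D.le_c
  have h2 := D.c_le
  have h3 := D.hs
  have h4 := D.hs'
  cases b
  · -- the apex `1 / ξ`
    have hx := D.xi_ne
    have hre := D.xi_re
    have him := D.xi_im
    have hn : 49 / 50 ≤ ‖D.xi‖ := by
      have := Complex.abs_re_le_norm D.xi
      have h5 := le_abs_self D.xi.re
      rw [hre] at h5 this
      nlinarith
    have hpos : 0 < ‖D.xi‖ := by linarith
    have hcs : D.c + D.s ≤ 101 / 100 := by linarith
    constructor
    · have e : D.apex false - 1 = (1 - D.xi) / D.xi := by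
        simp only [apex, cond_false]
        field_simp
      have e2 : (1 : ℂ) - D.xi = ((1 - (D.c - D.s) : ℝ) : ℂ)
          + ((D.s ^ 2 * (D.c + D.s) : ℝ) : ℂ) * I := by
        simp only [xi]; push_cast; ring
      have n1 : ‖(1 : ℂ) - D.xi‖ ≤ 21 / 20 * D.s := by
        rw [e2]
        refine (norm_re_im_le _ _).trans ?_
        rw [abs_of_nonneg (by linarith), abs_of_nonneg (by have := D.hc; positivity)]
        have : D.s ^ 2 * (D.c + D.s) ≤ D.s ^ 2 * (101 / 100) := by gcongr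
        nlinarith
      rw [e, norm_div, div_le_iff₀ hpos]
      nlinarith
    · have e : (D.apex false).im = D.s ^ 2 * (D.c + D.s) / ‖D.xi‖ ^ 2 := by
        simp only [apex, cond_false, one_div, inv_im, him, normSq_eq_norm_sq, neg_neg]
      have hc := D.hc
      rw [e, abs_of_nonneg (by positivity), div_le_iff₀ (by positivity)]
      have : D.s ^ 2 * (D.c + D.s) ≤ D.s ^ 2 * (101 / 100) := by gcongr
      have h6 : (49 / 50 : ℝ) ^ 2 ≤ ‖D.xi‖ ^ 2 := by gcongr
      nlinarith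
  · have hr : (D.r : ℂ) = ((D.c + D.s : ℝ) : ℂ) := by simp [r]
    have hge : 1 ≤ D.c + D.s := by nlinarith
    have e : D.apex true = ((1 / (D.c + D.s) : ℝ) : ℂ) := by
      simp only [apex, cond_true, hr]; push_cast; rfl
    constructor
    · have e2 : D.apex true - 1 = ((1 / (D.c + D.s) - 1 : ℝ) : ℂ) := by
        rw [e]; push_cast; ring
      rw [e2, norm_real, Real.norm_eq_abs, abs_le]
      have h5 : 1 / (D.c + D.s) ≤ 1 := by
        rw [div_le_one (by linarith)]; exact hge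
      have h6 : 1 - D.s ≤ 1 / (D.c + D.s) := by
        rw [le_div_iff₀ (by linarith)]; nlinarith
      constructor <;> linarith
    · rw [e, ofReal_im, abs_zero]; positivity

theorem rw_q_le {z : ℂ} (hz : z ∈ D.Chart) : rw D.w (z - D.q) ≤ 6 * D.s := by
  have h1 := D.chart_norm hz
  have h2 := D.norm_q_sub_one
  have h3 := D.rw_le (z - D.q)
  have h4 : ‖z - D.q‖ ≤ ‖z - 1‖ + ‖D.q - 1‖ := by
    have : z - D.q = (z - 1) - (D.q - 1) := by ring
    rw [this]; exact norm_sub_le _ _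
  have h5 := D.hw'
  have h6 := D.hs
  linarith

theorem rw_qb_le {z : ℂ} (hz : z ∈ D.Chart) : rw D.w (z - D.qb) ≤ 6 * D.s := by
  have h1 := D.chart_norm hz
  have h2 := D.norm_qb_sub_one
  have h3 := D.rw_le (z - D.qb)
  have h4 : ‖z - D.qb‖ ≤ ‖z - 1‖ + ‖D.qb - 1‖ := by
    have : z - D.qb = (z - 1) - (D.qb - 1) := by ring
    rw [this]; exact norm_sub_le _ _
  have h5 := D.hw'
  have h6 := D.hs
  linarith

theorem rw_apex_le {z : ℂ} (hz : z ∈ D.Chart) (b : Bool) : rw D.w (z - D.apex b) ≤ 6 * D.s := by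
  have h1 := D.chart_norm hz
  have h2 := (D.apex_re_im b).1
  have h3 := D.rw_le (z - D.apex b)
  have h4 : ‖z - D.apex b‖ ≤ ‖z - 1‖ + ‖D.apex b - 1‖ := by
    have : z - D.apex b = (z - 1) - (D.apex b - 1) := by ring
    rw [this]; exact norm_sub_le _ _
  have h5 := D.hw'
  have h6 := D.hs
  linarith

theorem ee_one {z : ℂ} (hz : D.s / 4 ≤ z.im) : D.ee z = 1 := by
  apply j_S_one
  rw [le_div_iff₀ D.hs]; linarith

theorem ee_zero {z : ℂ} (hz : z.im ≤ - (D.s / 4)) : D.ee z = 0 := by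
  apply j_S_zero
  rw [div_le_iff₀ D.hs]; linarith

theorem sg_one {z : ℂ} {b : Bool} (h : rw D.w (z - D.apex b) ≤ 64 * (z - D.apex b).im) :
    D.sg b z = 1 := by
  apply j_S_one
  rw [le_div_iff₀ (D.rw_pos _)]; linarith

theorem sg_zero {z : ℂ} {b : Bool} (h : rw D.w (z - D.apex b) ≤ - (64 * (z - D.apex b).im)) :
    D.sg b z = 0 := by
  apply j_S_zero
  rw [div_le_iff₀ (D.rw_pos _)]; linarith

theorem second_le {f : ℂ → ℂ} {z : ℂ} {A ρ : ℝ} (hρ : 0 < ρ) (h : Jet f z A ρ) :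
    ‖iteratedFDeriv ℝ 2 f z‖ ≤ A / ρ ^ 2 := by
  rw [le_div_iff₀ (by positivity)]
  exact h 2 le_rfl

theorem second_add {f g : ℂ → ℂ} {z : ℂ} {a b : ℝ} (hf : ContDiff ℝ ∞ f) (hg : ContDiff ℝ ∞ g)
    (h1 : ‖iteratedFDeriv ℝ 2 f z‖ ≤ a) (h2 : ‖iteratedFDeriv ℝ 2 g z‖ ≤ b) :
    ‖iteratedFDeriv ℝ 2 (fun x => f x + g x) z‖ ≤ a + b := by
  have hle : ∀ i : ℕ, (i : WithTop ℕ∞) ≤ ∞ := fun i => by exact_mod_cast le_top
  have e : iteratedFDeriv ℝ 2 (fun x => f x + g x) z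
      = iteratedFDeriv ℝ 2 f z + iteratedFDeriv ℝ 2 g z :=
    iteratedFDeriv_add_apply (hf.contDiffAt.of_le (hle 2)) (hg.contDiffAt.of_le (hle 2))
  rw [e]
  exact (norm_add_le _ _).trans (add_le_add h1 h2)

/-- the second derivative of `Y B (τ₁ - τ₂)` with `τ₁ - τ₂` vanishing at the node `a` -/
theorem crease_bound {K C : ℝ} {f g : ℂ → ℝ} {τ₁ τ₂ : ℂ → ℂ}
    (hf : ContDiff ℝ ∞ f) (hg : ContDiff ℝ ∞ g)
    (h1 : D.Near K τ₁) (h2 : D.Near K τ₂) {a : ℂ} (ha : τ₁ a = τ₂ a) {z : ℂ}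
    (hr : rw D.w (z - a) ≤ 6 * D.s) (jf : Jet f z C D.s) (jg : Jet g z C (rw D.w (z - a))) :
    ‖iteratedFDeriv ℝ 2 (fun x => f x • (g x • (τ₁ x - τ₂ x))) z‖
      ≤ (2304 * C ^ 2 * K) * (D.s / rw D.w (z - a)) := by
  have hpos := D.rw_pos (z - a)
  have hs := D.hs
  have hK := h1.nonneg
  have j1 := D.near_diff_jet h1 h2 ha (D.norm_le_rw (z - a))
  have c1 : ContDiff ℝ ∞ fun x => τ₁ x - τ₂ x := h1.contDiff.sub h2.contDiff
  have j2 := Jet.rsmul hg c1 jg j1 hpos.le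
  have j3 := jf.grow (M := 6) (by norm_num) hpos.le hr
  have j4 := Jet.rsmul hf (rsmul_contDiff hg c1) j3 j2 hpos.le
  refine (second_le hpos j4).trans (le_of_eq ?_)
  field_simp
  ring

theorem l_up {z : ℂ} (b : Bool) (hz : z ∈ D.Chart) (hi : D.s / 4 < z.im) :
    D.GG b =ᶠ[nhds z] fun x => D.YY x • (D.tau b x - x ^ 2)
      + D.YY x • ((cond b (D.h2 x) (1 - D.h2 x)) • (D.up b x - D.tau b x)) := by
  have hs := D.hs
  have h1 := D.rw_apex_le hz b
  have h2 := (abs_le.mp (D.apex_re_im b).2).2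
  have hc : ContinuousAt (fun x : ℂ => 64 * (x - D.apex b).im - rw D.w (x - D.apex b)) z := by
    unfold rw
    fun_prop
  have h3 : 0 < 64 * (z - D.apex b).im - rw D.w (z - D.apex b) := by
    rw [sub_im]; linarith
  filter_upwards [hc.eventually_const_lt h3,
    (Complex.continuous_im.continuousAt (x := z)).eventually_const_lt hi] with y hy1 hy2
  have e1 : D.ee y = 1 := D.ee_one hy2.le
  have e2 : D.sg b y = 1 := D.sg_one (by linarith)
  have e3 : D.AA y = D.h2 y := by rw [AA, e1]; ring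
  simp only [GG, PP, BB, e2, e3, one_smul]
  rw [← smul_add]
  congr 1
  have e4 : (D.dn b y - D.tau b y + (D.up b y - D.dn b y)) = D.up b y - D.tau b y := by ring
  rw [e4]
  ring

theorem l_dn {z : ℂ} (b : Bool) (hz : z ∈ D.Chart) (hi : z.im < - (D.s / 4)) :
    D.GG b =ᶠ[nhds z] fun x => D.YY x • (D.tau b x - x ^ 2)
      + D.YY x • ((cond b (D.h1 x) (1 - D.h1 x)) • (D.dn b x - D.tau b x)) := by
  have hs := D.hs
  have h1 := D.rw_apex_le hz b
  have h2 := (abs_le.mp (D.apex_re_im b).2).1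
  have hc : ContinuousAt (fun x : ℂ => -(64 * (x - D.apex b).im) - rw D.w (x - D.apex b)) z := by
    unfold rw
    fun_prop
  have h3 : 0 < -(64 * (z - D.apex b).im) - rw D.w (z - D.apex b) := by
    rw [sub_im]; linarith
  filter_upwards [hc.eventually_const_lt h3,
    (Complex.continuous_im.continuousAt (x := z)).eventually_lt_const hi] with y hy1 hy2
  have e1 : D.ee y = 0 := D.ee_zero hy2.le
  have e2 : D.sg b y = 0 := D.sg_zero (by linarith)
  have e3 : D.AA y = D.h1 y := by rw [AA, e1]; ring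
  simp only [GG, PP, BB, e2, e3, zero_smul, add_zero]
  rw [← smul_add]
  congr 1
  ring

theorem l_mid (b : Bool) (x : ℂ) : D.GG b x = (D.YY x • (D.tau b x - x ^ 2)
      + D.YY x • (D.BB b x • (D.dn b x - D.tau b x)))
      + D.YY x • ((D.BB b x * D.sg b x) • (D.up b x - D.dn b x)) := by
  simp only [GG, PP, real_smul, ofReal_mul]
  ring

theorem l_BB : ∃ C : ℝ, 0 < C ∧ ∀ (D : Dat) (b : Bool), ContDiff ℝ ∞ (D.BB b) ∧
    ∀ z : ℂ, |z.im| ≤ D.s / 4 → Jet (D.BB b) z C D.s := by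
  obtain ⟨C₁, hC₁, hsoft⟩ := l_soft
  obtain ⟨C₂, hC₂, hee⟩ := l_ee
  refine ⟨1 + (4 * (1 + C₂) * (4 * C₁) + 4 * C₂ * (4 * C₁)), by positivity, fun D b => ?_⟩
  obtain ⟨c1, c2, -, hj⟩ := hsoft D
  have c3 := (hee D 0).1
  have c4 : ContDiff ℝ ∞ fun x => 1 - D.ee x := contDiff_const.sub c3
  have c5 : ContDiff ℝ ∞ D.AA := (c4.mul c1).add (c3.mul c2)
  have hs := D.hs
  constructor
  · cases b
    · exact contDiff_const.sub c5
    · exact c5
  · intro z hz
    obtain ⟨j1, j2, -⟩ := hj z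
    have j3 := (hee D z).2
    obtain ⟨i1, i2⟩ := abs_le.mp hz
    have r1 : 3 / 4 * D.s ≤ rw D.w (z - D.qb) := by
      refine le_trans ?_ (D.norm_le_rw _)
      refine le_trans ?_ (Complex.abs_im_le_norm _)
      have : (z - D.qb).im = z.im + D.s := by simp [qb]
      rw [this]
      exact le_trans (by linarith) (le_abs_self _)
    have r2 : 3 / 4 * D.s ≤ rw D.w (z - D.q) := by
      refine le_trans ?_ (D.norm_le_rw _)
      refine le_trans ?_ (Complex.abs_im_le_norm _)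
      have : (z - D.q).im = z.im - D.s := by simp [q]
      rw [this]
      exact le_trans (by linarith) (neg_le_abs _)
    have j4 := j1.grow (M := 2) (ρ' := D.s) (by norm_num) hs.le (by linarith)
    have j5 := j2.grow (M := 2) (ρ' := D.s) (by norm_num) hs.le (by linarith)
    norm_num at j4 j5
    have j6 := Jet.one_sub c3 j3 hs.le
    have j8 : Jet D.AA z (4 * (1 + C₂) * (4 * C₁) + 4 * C₂ * (4 * C₁)) D.s :=
      Jet.add (rmul_contDiff c4 c1) (rmul_contDiff c3 c2) (Jet.rmul c4 c1 j6 j4 hs.le)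
        (Jet.rmul c3 c2 j3 j5 hs.le) hs.le
    cases b
    · exact Jet.one_sub c5 j8 hs.le
    · exact j8.mono (by linarith)

set_option maxHeartbeats 1000000 in
theorem GG_bound : ∃ C : ℝ, 0 < C ∧ ∀ (D : Dat) (b : Bool) (z : ℂ), z ∈ D.Chart →
    ‖iteratedFDeriv ℝ 2 (D.GG b) z‖ ≤
      C * (1 + D.s / rw D.w (z - D.q) + D.s / rw D.w (z - D.qb) + D.s / rw D.w (z - D.apex b)) := by
  obtain ⟨C₁, hC₁, hsoft⟩ := l_soft
  obtain ⟨C₃, hC₃, hYY⟩ := l_YY
  obtain ⟨C₄, hC₄, hBB⟩ := l_BB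
  set M : ℝ := C₃ + (1 + C₁) + 4 * (36 * C₄) * C₁ with hM
  set T₁ : ℝ := 4 * C₃ * 4819 with hT₁
  set T₂ : ℝ := 4 * C₃ * (4 * C₄ * 9638) with hT₂
  set X : ℝ := 2304 * M ^ 2 * 429 with hX
  refine ⟨T₁ + T₂ + X, by positivity, fun D b z hz => ?_⟩
  obtain ⟨c1, c2, c3, hj⟩ := hsoft D
  obtain ⟨j1, j2, j3⟩ := hj z
  obtain ⟨cY, hY⟩ := hYY D
  obtain ⟨cB, hB⟩ := hBB D b
  have hs := D.hs
  have jY := hY z (D.chart_norm_le hz)
  have hz5 : ‖z - 1‖ ≤ 5 * D.s := (D.chart_norm hz).trans (by linarith)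
  have nT : D.Near 429 (D.tau b) := Near.mono D (D.near_tau b) (by norm_num)
  have nU := D.near_up b
  have nD := D.near_dn b
  have p1 := D.rw_pos (z - D.q)
  have p2 := D.rw_pos (z - D.qb)
  have p3 := D.rw_pos (z - D.apex b)
  have q1 : 0 ≤ D.s / rw D.w (z - D.q) := by positivity
  have q2 : 0 ≤ D.s / rw D.w (z - D.qb) := by positivity
  have q3 : 0 ≤ D.s / rw D.w (z - D.apex b) := by positivity
  have hT1 : 0 ≤ T₁ := by positivity
  have hT2 : 0 ≤ T₂ := by positivity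
  have hX0 : 0 ≤ X := by positivity
  have hM3 : C₃ ≤ M := by
    rw [hM]
    have : 0 ≤ 4 * (36 * C₄) * C₁ := by positivity
    linarith
  have hM1 : 1 + C₁ ≤ M := by
    rw [hM]
    have : 0 ≤ 4 * (36 * C₄) * C₁ := by positivity
    linarith
  have hM4 : 4 * (36 * C₄) * C₁ ≤ M := by rw [hM]; linarith
  have csq : ContDiff ℝ ∞ fun x => D.tau b x - x ^ 2 := nT.contDiff.sub (contDiff_id.pow 2)
  have t1 : ‖iteratedFDeriv ℝ 2 (fun x => D.YY x • (D.tau b x - x ^ 2)) z‖ ≤ T₁ := by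
    have j := Jet.rsmul cY csq jY (nT.sq_jet D hz5) hs.le
    refine (second_le hs j).trans (le_of_eq ?_)
    rw [hT₁]; field_simp; ring
  rcases lt_or_ge (D.s / 4) z.im with hi | hi
  · rw [((D.l_up b hz hi).iteratedFDeriv ℝ 2).eq_of_nhds]
    have cg : ContDiff ℝ ∞ fun x => cond b (D.h2 x) (1 - D.h2 x) := by
      cases b
      · exact contDiff_const.sub c2
      · exact c2
    have jg : Jet (fun x => cond b (D.h2 x) (1 - D.h2 x)) z M (rw D.w (z - D.q)) := by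
      cases b
      · exact (Jet.one_sub c2 j2 p1.le).mono hM1
      · exact j2.mono (by linarith)
    have t2 := D.crease_bound cY cg nU nT (D.up_q b) (D.rw_q_le hz) (jY.mono hM3) jg
    have t3 := second_add (rsmul_contDiff cY csq)
      (rsmul_contDiff cY (rsmul_contDiff cg (nU.contDiff.sub nT.contDiff))) t1 t2
    refine t3.trans ?_
    nlinarith [mul_nonneg hT1 q1, mul_nonneg hT1 q2, mul_nonneg hT1 q3, mul_nonneg hT2 q1,
      mul_nonneg hT2 q2, mul_nonneg hT2 q3, mul_nonneg hX0 q2, mul_nonneg hX0 q3]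
  rcases lt_or_ge z.im (-(D.s / 4)) with hi' | hi'
  · rw [((D.l_dn b hz hi').iteratedFDeriv ℝ 2).eq_of_nhds]
    have cg : ContDiff ℝ ∞ fun x => cond b (D.h1 x) (1 - D.h1 x) := by
      cases b
      · exact contDiff_const.sub c1
      · exact c1
    have jg : Jet (fun x => cond b (D.h1 x) (1 - D.h1 x)) z M (rw D.w (z - D.qb)) := by
      cases b
      · exact (Jet.one_sub c1 j1 p2.le).mono hM1
      · exact j1.mono (by linarith)
    have t2 := D.crease_bound cY cg nD nT (D.dn_qb b) (D.rw_qb_le hz) (jY.mono hM3) jg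
    have t3 := second_add (rsmul_contDiff cY csq)
      (rsmul_contDiff cY (rsmul_contDiff cg (nD.contDiff.sub nT.contDiff))) t1 t2
    refine t3.trans ?_
    nlinarith [mul_nonneg hT1 q1, mul_nonneg hT1 q2, mul_nonneg hT1 q3, mul_nonneg hT2 q1,
      mul_nonneg hT2 q2, mul_nonneg hT2 q3, mul_nonneg hX0 q1, mul_nonneg hX0 q3]
  · have him : |z.im| ≤ D.s / 4 := abs_le.mpr ⟨hi', hi⟩
    have jB := hB z him
    rw [show D.GG b = _ from funext (D.l_mid b)]
    have cdt : ContDiff ℝ ∞ fun x => D.dn b x - D.tau b x := nD.contDiff.sub nT.contDiff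
    have cud : ContDiff ℝ ∞ fun x => D.up b x - D.dn b x := nU.contDiff.sub nD.contDiff
    have t2 : ‖iteratedFDeriv ℝ 2 (fun x => D.YY x • (D.BB b x • (D.dn b x - D.tau b x))) z‖
        ≤ T₂ := by
      have cdq : ContDiff ℝ ∞ fun x => D.dn b x - x ^ 2 := nD.contDiff.sub (contDiff_id.pow 2)
      have j4 := Jet.sub cdq csq (nD.sq_jet D hz5) (nT.sq_jet D hz5) hs.le
      have e : (fun x => (D.dn b x - x ^ 2) - (D.tau b x - x ^ 2))
          = fun x => D.dn b x - D.tau b x := by ext x; ring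
      rw [e] at j4
      have j5 := Jet.rsmul cY (rsmul_contDiff cB cdt) jY (Jet.rsmul cB cdt jB j4 hs.le) hs.le
      refine (second_le hs j5).trans (le_of_eq ?_)
      rw [hT₂]; field_simp; ring
    have jg : Jet (fun x => D.BB b x * D.sg b x) z M (rw D.w (z - D.apex b)) := by
      have j6 := jB.grow (M := 6) (by norm_num) p3.le (D.rw_apex_le hz b)
      norm_num at j6
      exact (Jet.rmul cB (c3 b) j6 (j3 b) p3.le).mono hM4
    have cBs := rmul_contDiff cB (c3 b)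
    have cY1 := rsmul_contDiff cY csq
    have cY2 := rsmul_contDiff cY (rsmul_contDiff cB cdt)
    have t3 := D.crease_bound cY cBs nU nD (D.up_apex b) (D.rw_apex_le hz b)
      (jY.mono hM3) jg
    have t4 := second_add (cY1.add cY2) (rsmul_contDiff cY (rsmul_contDiff cBs cud))
      (second_add cY1 cY2 t1 t2) t3
    refine t4.trans ?_
    nlinarith [mul_nonneg hT1 q1, mul_nonneg hT1 q2, mul_nonneg hT1 q3, mul_nonneg hT2 q1,
      mul_nonneg hT2 q2, mul_nonneg hT2 q3, mul_nonneg hX0 q1, mul_nonneg hX0 q2]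

end Dat

end Pool.Agent.ShearComposite
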