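import Pool.Agent.ShearComposite.ChartNet

/-!
# The mechanism in the chart
-/

open Complex ComplexConjugate MeasureTheory Metric
open scoped ContDiff

namespace Pool.Agent.ShearComposite

/-! ### the step function -/

theorem m_S_neg (t : ℝ) : S (-t) = 1 - S t := by
  unfold S
  have e : (-t + 1) / 2 = 1 - (t + 1) / 2 := by ring
  rw [e]
  set x := (t + 1) / 2
  have h := Real.smoothTransition.pos_denom x
  unfold Real.smoothTransition
  have e2 : 1 - (1 - x) = x := by ring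
  rw [e2]
  have h' : expNegInvGlue (1 - x) + expNegInvGlue x ≠ 0 := by
    rw [add_comm]; exact h.ne'
  have h'' := h.ne'
  field_simp
  ring

theorem m_S_lip : ∃ C : ℝ, 1 ≤ C ∧ ∀ a b : ℝ, |S a - S b| ≤ C * |a - b| := by
  obtain ⟨C, hC, h⟩ := j_S_bound
  refine ⟨C, hC, fun a b => ?_⟩
  have hd : Differentiable ℝ S := j_S_contDiff.differentiable (by simp)
  have := Convex.norm_image_sub_le_of_norm_fderiv_le (𝕜 := ℝ) (f := S) (s := Set.univ) (C := C)
    (x := b) (y := a) (fun x _ => hd x)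
    (fun x _ => by rw [← norm_iteratedFDeriv_one]; exact h x 1 (by norm_num)) convex_univ
    (Set.mem_univ _) (Set.mem_univ _)
  simpa [Real.norm_eq_abs] using this

theorem m_S_abs (t : ℝ) : |S t| ≤ 1 := by
  rw [abs_le]
  constructor
  · exact le_trans (by norm_num) (Real.smoothTransition.nonneg _)
  · exact Real.smoothTransition.le_one _

/-! ### local Lipschitz estimates -/

/-- Lipschitz estimate at a point -/
def MLip {F : Type} [NormedAddCommGroup F] (f : ℂ → F) (z : ℂ) (C : ℝ) : Prop :=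
  ∀ᶠ y in nhds z, ‖f y - f z‖ ≤ C * ‖y - z‖

theorem MLip.congr {f g : ℂ → ℂ} {z : ℂ} {C : ℝ} (h : MLip f z C) (hfg : g =ᶠ[nhds z] f) :
    MLip g z C := by
  have h0 := hfg.eq_of_nhds
  filter_upwards [h, hfg] with y h1 h2
  rw [h0, h2]; exact h1

theorem MLip.add {f g : ℂ → ℂ} {z : ℂ} {A B : ℝ} (h : MLip f z A) (h' : MLip g z B) :
    MLip (fun y => f y + g y) z (A + B) := by
  filter_upwards [h, h'] with y h1 h2
  have e : f y + g y - (f z + g z) = (f y - f z) + (g y - g z) := by ring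
  rw [e, add_mul]
  exact (norm_add_le _ _).trans (add_le_add h1 h2)

theorem MLip.mul {f : ℂ → ℂ} {z : ℂ} {A K : ℝ} (k : ℂ) (hk : ‖k‖ ≤ K) (h : MLip f z A) :
    MLip (fun y => k * f y) z (K * A) := by
  filter_upwards [h] with y h1
  rw [← mul_sub, norm_mul, mul_assoc]
  have : 0 ≤ K := (norm_nonneg _).trans hk
  exact mul_le_mul hk h1 (norm_nonneg _) this

theorem MLip.smul {φ : ℂ → ℝ} {f : ℂ → ℂ} {z : ℂ} {A B M : ℝ} (h0 : ∀ y, |φ y| ≤ 1)
    (h : MLip φ z A) (h' : MLip f z B) (hM : ‖f z‖ ≤ M) :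
    MLip (fun y => φ y • f y) z (B + A * M) := by
  filter_upwards [h, h'] with y h1 h2
  have e : φ y • f y - φ z • f z = φ y • (f y - f z) + (φ y - φ z) • f z := by
    simp only [smul_sub, sub_smul]; abel
  rw [e]
  refine (norm_add_le _ _).trans ?_
  rw [norm_smul, norm_smul, Real.norm_eq_abs (φ y)]
  have h3 : |φ y| * ‖f y - f z‖ ≤ 1 * (B * ‖y - z‖) :=
    mul_le_mul (h0 y) h2 (norm_nonneg _) zero_le_one
  have h4 : ‖φ y - φ z‖ * ‖f z‖ ≤ (A * ‖y - z‖) * M :=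
    mul_le_mul h1 hM (norm_nonneg _) ((norm_nonneg _).trans h1)
  linarith

theorem MLip.mono {f : ℂ → ℂ} {z : ℂ} {A B : ℝ} (h : MLip f z A) (hAB : A ≤ B) : MLip f z B := by
  filter_upwards [h] with y h1
  exact h1.trans (by gcongr)

theorem MLip.fderiv_le {f : ℂ → ℂ} {z : ℂ} {C : ℝ} (hC : 0 ≤ C) (h : MLip f z C) :
    ‖fderiv ℝ f z‖ ≤ C := by
  by_cases hd : DifferentiableAt ℝ f z
  · exact hd.hasFDerivAt.le_of_lip' hC h
  · rw [fderiv_zero_of_not_differentiableAt hd, norm_zero]; exact hC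

theorem m_en_le (L : ℂ →L[ℝ] ℂ) {C : ℝ} (h : ‖L‖ ≤ C) : en L ≤ 2 * C ^ 2 := by
  have h1 : ‖L 1‖ ≤ C := by
    refine (L.le_opNorm 1).trans ?_; simpa using h
  have h2 : ‖L I‖ ≤ C := by
    refine (L.le_opNorm I).trans ?_; simpa using h
  have hC : 0 ≤ C := (norm_nonneg _).trans h
  have h3 : ‖dz L‖ ≤ C := by
    unfold dz
    rw [norm_div]
    have : ‖L 1 - I * L I‖ ≤ C + C := by
      refine (norm_sub_le _ _).trans ?_
      rw [norm_mul, norm_I, one_mul]; exact add_le_add h1 h2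
    rw [div_le_iff₀ (by simp)]
    simpa [mul_two] using this
  have h4 : ‖dzb L‖ ≤ C := by
    unfold dzb
    rw [norm_div]
    have : ‖L 1 + I * L I‖ ≤ C + C := by
      refine (norm_add_le _ _).trans ?_
      rw [norm_mul, norm_I, one_mul]; exact add_le_add h1 h2
    rw [div_le_iff₀ (by simp)]
    simpa [mul_two] using this
  unfold en
  have h5 : |(dz L).re| ≤ C := (abs_re_le_norm _).trans h3
  have h6 : (dz L).re ^ 2 ≤ C ^ 2 := by
    rw [← sq_abs]; gcongr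
  have h7 : ‖dzb L‖ ^ 2 ≤ C ^ 2 := by gcongr
  linarith

/-- rigid motions have no energy -/
theorem m_en_affine {f : ℂ → ℂ} {z : ℂ} (A B : ℂ) (h : f =ᶠ[nhds z] fun y => A + B * y) :
    en (fderiv ℝ f z) = B.re ^ 2 := by
  have h1 : fderiv ℝ f z = ContinuousLinearMap.mul ℝ ℂ B := by
    rw [h.fderiv_eq]
    have : HasFDerivAt (fun y : ℂ => A + B * y) (ContinuousLinearMap.mul ℝ ℂ B) z := by
      have := (ContinuousLinearMap.mul ℝ ℂ B).hasFDerivAt (x := z)
      exact this.const_add A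
    exact this.fderiv
  have h2 : dz (ContinuousLinearMap.mul ℝ ℂ B) = B := by
    unfold dz
    simp only [ContinuousLinearMap.mul_apply']
    linear_combination (-B / 2) * I_sq
  have h3 : dzb (ContinuousLinearMap.mul ℝ ℂ B) = 0 := by
    unfold dzb
    simp only [ContinuousLinearMap.mul_apply']
    linear_combination (B / 2) * I_sq
  rw [h1, en, h2, h3]
  simp

namespace Dat

variable (D : Dat)

/-! ### elementary facts -/

theorem m_r_re : D.r = ((D.c + D.s : ℝ) : ℂ) := by simp [r]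

theorem m_one_le_r : 1 ≤ D.c + D.s := by
  have := D.le_c; have := D.hs; have := D.hs'
  nlinarith

/-- the real number `1 / (s² (c + s))` -/
noncomputable def mgam : ℝ := 1 / (D.s ^ 2 * (D.c + D.s))

theorem m_Gam : D.Gam = (D.mgam : ℂ) * I := by
  simp only [Gam, mgam, r]
  push_cast
  rw [div_mul_eq_mul_div, one_mul]

theorem m_gam_pos : 0 < D.mgam := by
  unfold mgam
  have := D.hs; have := D.hc
  positivity

theorem m_gam_le : D.mgam ≤ 1 / D.s ^ 2 := by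
  unfold mgam
  have h1 := D.hs; have := D.m_one_le_r
  have h2 : 0 < D.s ^ 2 := by positivity
  apply one_div_le_one_div_of_le h2
  nlinarith

theorem m_gam_r : D.mgam * (D.c + D.s) = 1 / D.s ^ 2 := by
  unfold mgam
  have h1 := D.hs; have := D.m_one_le_r
  field_simp

theorem m_norm_Gam : ‖D.Gam‖ ≤ 1 / D.s ^ 2 := by
  rw [m_Gam, norm_mul, norm_I, mul_one, norm_real, Real.norm_eq_abs, abs_of_pos D.m_gam_pos]
  exact D.m_gam_le

theorem m_q_im (z : ℂ) : (D.q * z).im = D.c * z.im + D.s * z.re := by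
  simp [q]

theorem m_qb_im (z : ℂ) : (D.qb * z).im = D.c * z.im - D.s * z.re := by
  simp [qb]; ring

theorem m_q_re (z : ℂ) : (D.q * z).re = D.c * z.re - D.s * z.im := by
  simp [q]

theorem m_qb_re (z : ℂ) : (D.qb * z).re = D.c * z.re + D.s * z.im := by
  simp [qb]

/-- coefficient of `z` of the mechanism -/
noncomputable def mU (b : Bool) : ℂ := cond b (D.Gam * D.r) (-(D.Gam * (D.c - D.s)))
/-- constant coefficient of the mechanism -/
noncomputable def mU0 (b : Bool) : ℂ := cond b (-D.Gam) D.Gam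
/-- coefficient of the jump -/
noncomputable def mJ (b : Bool) : ℂ := cond b (2 * D.c * D.Gam) (-(2 * D.c * D.Gam))

theorem m_UU (b : Bool) (z : ℂ) : D.UU b z = D.mU0 b + D.mU b * z := by
  cases b <;> simp only [UU, mU, mU0, cond_true, cond_false] <;> ring

theorem m_CC (b : Bool) (z : ℂ) : D.CC b z = D.UU b z + D.mJ b * D.jump z := rfl

theorem m_mU_re (b : Bool) : (D.mU b).re = 0 := by
  cases b
  · simp [mU, m_Gam]
  · simp [mU, m_Gam, r]

theorem m_mJ_re (b : Bool) : (D.mJ b).re = 0 := by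
  cases b <;> simp [mJ, m_Gam]

theorem m_norm_mU (b : Bool) : ‖D.mU b‖ ≤ 1 / D.s ^ 2 := by
  have h1 := D.hs
  have h2 := D.hc
  have h3 := D.hs'
  have h4 := D.le_c
  have h5 := D.c_le
  cases b
  · have e : D.mU false = -(D.Gam * ((D.c - D.s : ℝ) : ℂ)) := by simp [mU]
    rw [e, norm_neg, norm_mul, norm_real, Real.norm_eq_abs]
    have : |D.c - D.s| ≤ 1 := by rw [abs_le]; constructor <;> nlinarith
    have h := D.m_norm_Gam
    have h0 := norm_nonneg D.Gam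
    nlinarith [abs_nonneg (D.c - D.s)]
  · have e : D.mU true = ((D.mgam * (D.c + D.s) : ℝ) : ℂ) * I := by
      simp only [mU, cond_true, m_Gam, r]; push_cast; ring
    rw [e, norm_mul, norm_I, mul_one, norm_real, D.m_gam_r, Real.norm_eq_abs,
      abs_of_pos (by positivity)]

theorem m_norm_mJ (b : Bool) : ‖D.mJ b‖ ≤ 2 / D.s ^ 2 := by
  have h2 := D.hc
  have h5 := D.c_le
  have h : ‖2 * (D.c : ℂ) * D.Gam‖ ≤ 2 / D.s ^ 2 := by
    rw [norm_mul, norm_mul, norm_real, Real.norm_eq_abs, abs_of_pos h2]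
    have h := D.m_norm_Gam
    have h0 := norm_nonneg D.Gam
    have e : 2 / D.s ^ 2 = 2 * 1 * (1 / D.s ^ 2) := by ring
    rw [e]
    simp only [norm_ofNat]
    gcongr
  cases b
  · simpa [mJ] using h
  · simpa [mJ] using h

/-- the difference of the motions of neighbouring bodies -/
theorem m_diff_q (b : Bool) (z : ℂ) :
    D.q ^ 2 * D.UU (!b) (D.qb ^ 2 * z) = D.UU b z + D.mJ b * (D.q - z) := by
  have h := D.q_mul_qb
  have h2 : D.q ^ 2 + 1 = 2 * D.c * D.q := by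
    have e : D.q + D.qb = 2 * D.c := by simp only [q, qb]; ring
    linear_combination D.q * e - h
  have h3 : D.q ^ 2 * D.qb ^ 2 = 1 := by rw [← mul_pow, h, one_pow]
  have hr : D.r = D.c + D.s := rfl
  cases b
  · simp only [UU, mJ, Bool.not_false, cond_true, cond_false]
    linear_combination D.Gam * D.r * z * h3 - D.Gam * h2 + D.Gam * z * hr
  · simp only [UU, mJ, Bool.not_true, cond_true, cond_false]
    linear_combination -D.Gam * (D.c - D.s) * z * h3 + D.Gam * h2 - D.Gam * z * hr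

/-! ### facts in the chart -/

variable {D}

theorem m_chart {z : ℂ} (h : z ∈ D.Chart) :
    1 - 5 / 2 * D.s ≤ z.re ∧ z.re ≤ 1 + 5 / 2 * D.s ∧ -(3 / 2 * D.s) ≤ z.im ∧
      z.im ≤ 3 / 2 * D.s := by
  obtain ⟨h1, h2⟩ := h
  rw [abs_le] at h1 h2
  exact ⟨by linarith, by linarith, by linarith, by linarith⟩

variable (D)

theorem m_overlap {z : ℂ} (h : z ∈ D.Chart) (h' : D.qb ^ 2 * z ∈ D.Chart) :
    D.w ≤ (D.q * z).im ∧ (D.qb * (D.qb ^ 2 * z)).im ≤ - D.w := by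
  obtain ⟨h1, h2, h3, h4⟩ := m_chart h
  obtain ⟨k1, k2, k3, k4⟩ := m_chart h'
  have hs := D.hs
  have hs' := D.hs'
  have hc := D.le_c
  have hc' := D.c_le
  have hc0 := D.hc
  have hw := D.hw
  have hw' := D.hw'
  have e : (D.qb ^ 2 * z).im = (D.c ^ 2 - D.s ^ 2) * z.im - 2 * D.c * D.s * z.re := by
    simp only [qb]
    simp [pow_two]
    ring
  have hcs := D.hcs
  have hs2 : D.s ^ 2 ≤ 1 / 10000 := by nlinarith
  have hc9 : 9999 / 10000 ≤ D.c := by linarith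
  have hx : 39 / 40 ≤ z.re := by linarith
  have hcx : 97 / 100 ≤ D.c * z.re := by nlinarith
  have hcsx : 97 / 100 * D.s ≤ D.c * D.s * z.re := by nlinarith
  have hyy : 44 / 100 * D.s ≤ (D.c ^ 2 - D.s ^ 2) * z.im := by
    rw [e] at k3
    nlinarith
  have hg : 0 < D.c ^ 2 - D.s ^ 2 := by nlinarith
  have hg1 : D.c ^ 2 - D.s ^ 2 ≤ 1 := by nlinarith
  have hy : 0 ≤ z.im := by
    by_contra hneg
    push Not at hneg
    nlinarith
  constructor
  · rw [m_q_im]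
    nlinarith [mul_nonneg hc0.le hy]
  · rw [m_qb_im]
    have k5 : (D.qb ^ 2 * z).im ≤ - (44 / 100 * D.s) := by
      rw [e]
      have : (D.c ^ 2 - D.s ^ 2) * z.im ≤ z.im := by nlinarith
      nlinarith
    have : 39 / 40 ≤ (D.qb ^ 2 * z).re := by linarith
    nlinarith

theorem FU_overlap (D : Dat) (b : Bool) (z : ℂ) (h : z ∈ D.Chart) (h' : D.qb ^ 2 * z ∈ D.Chart) :
    D.FU b z = D.q ^ 2 * D.FU (!b) (D.qb ^ 2 * z) := by
  obtain ⟨h1, h2⟩ := D.m_overlap h h'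
  have hw := D.hw
  have h0 := D.q_mul_qb
  have h3 : D.q ^ 2 * D.qb ^ 2 = 1 := by rw [← mul_pow, h0, one_pow]
  have hn : ‖D.qb ^ 2 * z‖ = ‖z‖ := by rw [norm_mul, norm_pow, D.norm_qb]; simp
  have e1 : D.chi1 (D.qb ^ 2 * z) = D.chi1 z := by simp only [chi1, hn]
  have e2 : D.chi2 (D.qb ^ 2 * z) = D.chi2 z := by simp only [chi2, hn]
  have s1 : S (-(D.q * z).im / D.w) = 0 := by
    apply j_S_zero
    rw [div_le_iff₀ hw]; linarith
  have s2 : S ((D.qb * (D.qb ^ 2 * z)).im / D.w) = 0 := by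
    apply j_S_zero
    rw [div_le_iff₀ hw]; linarith
  have e4 : D.q * (D.qb ^ 2 * z) = D.qb * z := by linear_combination D.qb * z * h0
  have s3 : S (-(D.q * (D.qb ^ 2 * z)).im / D.w) = 1 - S ((D.qb * z).im / D.w) := by
    rw [e4, neg_div, m_S_neg]
  have key : D.CC b z = D.q ^ 2 * D.CC (!b) (D.qb ^ 2 * z) := by
    rw [m_CC, m_CC, jump, jump, s1, s2, s3]
    have hJ : D.mJ (!b) = - D.mJ b := by cases b <;> simp [mJ]
    have hd := D.m_diff_q b z
    rw [hJ]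
    simp only [zero_smul, real_smul]
    push_cast
    set t : ℂ := ((S ((D.qb * z).im / D.w) : ℝ) : ℂ)
    have h5 : D.q ^ 2 * (D.qb - D.qb ^ 2 * z) = D.q - z := by
      linear_combination D.q * h0 - z * h3
    linear_combination (-1 : ℂ) * hd + D.mJ b * (1 - t) * h5
  simp only [FU]
  rw [e1, e2, key]
  simp only [real_smul]
  linear_combination (-(D.chi2 z : ℂ) * z) * h3

/-! ### the apexes -/

theorem m_apex_true : D.apex true = ((1 / (D.c + D.s) : ℝ) : ℂ) := by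
  simp [apex, r]

theorem m_a1_eq : ‖D.apex true‖ ^ 2 * (1 + 2 * D.c * D.s) = 1 := by
  have h := D.m_one_le_r
  rw [m_apex_true, norm_real, Real.norm_eq_abs, sq_abs]
  have e : 1 + 2 * D.c * D.s = (D.c + D.s) ^ 2 := by linear_combination (-1 : ℝ) * D.hcs
  rw [e]
  have : D.c + D.s ≠ 0 := by linarith
  field_simp

theorem m_a1_bounds : 1 - 2 * D.s ≤ ‖D.apex true‖ ^ 2 ∧ ‖D.apex true‖ ^ 2 ≤ 1 - D.s := by
  have h := D.m_a1_eq
  have hs := D.hs
  have hs' := D.hs'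
  have hc := D.le_c
  have hc' := D.c_le
  have hc0 := D.hc
  have hcs : 0 < D.c * D.s := mul_pos hc0 hs
  have hc9 : 99 / 100 ≤ D.c := by nlinarith
  have hcs1 : D.c * D.s ≤ D.s := by nlinarith
  have hcs2 : 99 / 100 * D.s ≤ D.c * D.s := by nlinarith
  set a := ‖D.apex true‖ ^ 2
  have ha : 0 ≤ a := by positivity
  have ha1 : a ≤ 1 := by nlinarith
  constructor
  · nlinarith
  · by_contra hcon
    push Not at hcon
    nlinarith

theorem m_normSq_xi : Complex.normSq D.xi = 1 - 2 * D.c * D.s + D.s ^ 4 * (1 + 2 * D.c * D.s) := by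
  rw [Complex.normSq_apply, xi_re, xi_im]
  linear_combination (1 + D.s ^ 4) * D.hcs

theorem m_a2_eq : ‖D.apex false‖ ^ 2 * (1 - 2 * D.c * D.s + D.s ^ 4 * (1 + 2 * D.c * D.s)) = 1 := by
  have h0 : Complex.normSq D.xi ≠ 0 := by
    rw [Ne, Complex.normSq_eq_zero]; exact D.xi_ne
  rw [← m_normSq_xi, Complex.sq_norm, apex, cond_false, Complex.normSq_div, Complex.normSq_one]
  field_simp

theorem m_a2_bounds : 1 + D.s ≤ ‖D.apex false‖ ^ 2 ∧ ‖D.apex false‖ ^ 2 ≤ 1 + 5 / 2 * D.s := by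
  have h := D.m_a2_eq
  have hs := D.hs
  have hs' := D.hs'
  have hc := D.le_c
  have hc' := D.c_le
  have hc0 := D.hc
  have hcs : 0 < D.c * D.s := mul_pos hc0 hs
  have hc9 : 99 / 100 ≤ D.c := by nlinarith
  have hcs1 : D.c * D.s ≤ D.s := by nlinarith
  have hcs2 : 99 / 100 * D.s ≤ D.c * D.s := by nlinarith
  have h4 : 0 ≤ D.s ^ 4 * (1 + 2 * D.c * D.s) := by positivity
  have h4' : D.s ^ 4 * (1 + 2 * D.c * D.s) ≤ D.s / 100 := by
    have h5 : D.s ^ 4 = D.s * D.s ^ 3 := by ring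
    have h6 : D.s ^ 3 ≤ 1 / 1000 := by
      have : D.s ^ 3 ≤ (1 / 100) ^ 3 := by gcongr
      norm_num at this; linarith
    have h7 : 1 + 2 * D.c * D.s ≤ 2 := by nlinarith
    have h8 : 0 ≤ D.s ^ 3 := by positivity
    calc D.s ^ 4 * (1 + 2 * D.c * D.s) = D.s * (D.s ^ 3 * (1 + 2 * D.c * D.s)) := by ring
      _ ≤ D.s * (1 / 1000 * 2) := by gcongr
      _ ≤ D.s / 100 := by linarith
  set a := ‖D.apex false‖ ^ 2
  set e := D.s ^ 4 * (1 + 2 * D.c * D.s)
  have ha : 0 ≤ a := by positivity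
  have ha1 : a ≤ 2 := by nlinarith
  have hcs3 : D.c * D.s ≤ 1 / 100 := by linarith
  constructor
  · by_contra hcon
    push Not at hcon
    nlinarith
  · by_contra hcon
    push Not at hcon
    nlinarith

theorem m_apex_false_im : |(D.apex false).im| ≤ D.s / 20 := by
  have h := D.m_a2_bounds
  have hs := D.hs
  have hs' := D.hs'
  have hc := D.le_c
  have hc' := D.c_le
  have hc0 := D.hc
  have hN : ‖D.apex false‖ ^ 2 = (Complex.normSq D.xi)⁻¹ := by
    rw [Complex.sq_norm, apex, cond_false, Complex.normSq_div, Complex.normSq_one, one_div]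
  have e : (D.apex false).im = ‖D.apex false‖ ^ 2 * (D.s ^ 2 * (D.c + D.s)) := by
    rw [hN, apex, cond_false, one_div, Complex.inv_im, xi_im]
    ring
  rw [e, abs_of_nonneg (by positivity)]
  have h1 : ‖D.apex false‖ ^ 2 ≤ 2 := by linarith
  have h2 : D.s ^ 2 * (D.c + D.s) ≤ D.s / 100 * 2 := by
    have : D.s ^ 2 ≤ D.s / 100 := by nlinarith
    have h3 : D.c + D.s ≤ 2 := by linarith
    gcongr
  have h0 : 0 ≤ D.s ^ 2 * (D.c + D.s) := by positivity
  nlinarith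

theorem m_xi_ne_key : D.Gam * D.xi = 1 + D.Gam * (D.c - D.s) := by
  have hr := D.r_ne
  have hs : (D.s : ℂ) ≠ 0 := by exact_mod_cast D.hs.ne'
  have e : D.xi = D.c - D.s - D.s ^ 2 * D.r * I := rfl
  rw [e, Gam]
  field_simp
  linear_combination (-(D.s : ℂ) ^ 2 * D.r) * I_sq

theorem m_UU_true (z : ℂ) : D.mU0 true + D.mU true * z = D.mU true * (z - D.apex true) := by
  have hr := D.r_ne
  simp only [mU0, mU, apex, cond_true]
  field_simp
  ring

theorem m_UU_false (z : ℂ) :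
    -D.mU0 false + (1 - D.mU false) * z = (1 - D.mU false) * (z - D.apex false) := by
  have hx := D.xi_ne
  have k := D.m_xi_ne_key
  simp only [mU0, mU, apex, cond_false]
  field_simp
  linear_combination (-1 : ℂ) * k

/-! ### eventual values -/

theorem m_ev0 {f : ℂ → ℝ} (hf : Continuous f) {z : ℂ} (h : f z < -1) :
    ∀ᶠ y in nhds z, S (f y) = 0 := by
  have := hf.continuousAt.eventually_lt (continuousAt_const (y := (-1 : ℝ))) h
  filter_upwards [this] with y hy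
  exact j_S_zero hy.le

theorem m_ev1 {f : ℂ → ℝ} (hf : Continuous f) {z : ℂ} (h : 1 < f z) :
    ∀ᶠ y in nhds z, S (f y) = 1 := by
  have := (continuousAt_const (y := (1 : ℝ))).eventually_lt hf.continuousAt h
  filter_upwards [this] with y hy
  exact j_S_one hy.le

theorem m_cont_qb : Continuous fun y : ℂ => (D.qb * y).im / D.w := by fun_prop
theorem m_cont_q : Continuous fun y : ℂ => -(D.q * y).im / D.w := by fun_prop
theorem m_cont_rho (a : ℝ) : Continuous fun y : ℂ => (‖y‖ ^ 2 - a) / D.w := by fun_prop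

theorem m_lip_comp {C : ℝ} (hC1 : 1 ≤ C) (hC : ∀ a b : ℝ, |S a - S b| ≤ C * |a - b|)
    {f : ℂ → ℝ} {z : ℂ} {A : ℝ} (h : MLip f z A) : MLip (fun y => S (f y)) z (C * A) := by
  filter_upwards [h] with y h1
  rw [Real.norm_eq_abs] at h1 ⊢
  refine (hC _ _).trans ?_
  rw [mul_assoc]
  gcongr

theorem m_lip_qb (z : ℂ) : MLip (fun y : ℂ => (D.qb * y).im / D.w) z (1 / D.w) := by
  have hw := D.hw
  refine Filter.Eventually.of_forall fun y => ?_
  have e : (D.qb * y).im / D.w - (D.qb * z).im / D.w = (D.qb * (y - z)).im / D.w := by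
    rw [mul_sub, Complex.sub_im]; ring
  rw [e, norm_div, Real.norm_eq_abs, Real.norm_eq_abs, abs_of_pos hw, one_div,
    div_eq_inv_mul]
  gcongr
  refine (abs_im_le_norm _).trans ?_
  rw [norm_mul, D.norm_qb, one_mul]

theorem m_lip_q (z : ℂ) : MLip (fun y : ℂ => -(D.q * y).im / D.w) z (1 / D.w) := by
  have hw := D.hw
  refine Filter.Eventually.of_forall fun y => ?_
  have e : -(D.q * y).im / D.w - -(D.q * z).im / D.w = -((D.q * (y - z)).im / D.w) := by
    rw [mul_sub, Complex.sub_im]; ring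
  rw [e, norm_neg, norm_div, Real.norm_eq_abs, Real.norm_eq_abs, abs_of_pos hw, one_div,
    div_eq_inv_mul]
  gcongr
  refine (abs_im_le_norm _).trans ?_
  rw [norm_mul, D.norm_q, one_mul]

theorem m_lip_rho (a : ℝ) (z : ℂ) (hz : ‖z‖ ≤ 11 / 10) :
    MLip (fun y : ℂ => (‖y‖ ^ 2 - a) / D.w) z (3 / D.w) := by
  have hw := D.hw
  have h1 : ∀ᶠ y in nhds z, ‖y‖ < 3 / 2 := by
    apply continuous_norm.continuousAt.eventually_lt continuousAt_const
    linarith
  filter_upwards [h1] with y hy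
  have e : (‖y‖ ^ 2 - a) / D.w - (‖z‖ ^ 2 - a) / D.w = (‖y‖ + ‖z‖) * (‖y‖ - ‖z‖) / D.w := by ring
  rw [e, norm_div, norm_mul, Real.norm_eq_abs, Real.norm_eq_abs, Real.norm_eq_abs, abs_of_pos hw,
    div_mul_eq_mul_div]
  gcongr
  · rw [abs_of_nonneg (by positivity)]; linarith
  · exact abs_norm_sub_norm_le y z

theorem m_lip_affine (A B z : ℂ) {K : ℝ} (h : ‖B‖ ≤ K) : MLip (fun y => A + B * y) z K := by
  refine Filter.Eventually.of_forall fun y => ?_
  have e : A + B * y - (A + B * z) = B * (y - z) := by ring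
  rw [e, norm_mul]
  gcongr

theorem m_norm_le {z : ℂ} (h : z ∈ D.Chart) : ‖z‖ ≤ 11 / 10 := by
  obtain ⟨h1, h2, h3, h4⟩ := m_chart h
  have hs := D.hs
  have hs' := D.hs'
  refine (norm_le_abs_re_add_abs_im z).trans ?_
  have h5 : |z.re| ≤ 1 + 5 / 2 * D.s := by rw [abs_le]; constructor <;> linarith
  have h6 : |z.im| ≤ 3 / 2 * D.s := by rw [abs_le]; constructor <;> linarith
  linarith

/-! ### the direct bounds at the nodes -/

theorem m_direct_true {C : ℝ} (hC1 : 1 ≤ C) (hC : ∀ a b : ℝ, |S a - S b| ≤ C * |a - b|)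
    {z : ℂ} (h : z ∈ D.Chart) (h1 : |‖z‖ ^ 2 - ‖D.apex true‖ ^ 2| ≤ D.w)
    (h2 : ‖z - D.apex true‖ ≤ 4 * D.w) : MLip (D.FU true) z ((3 + 24 * C) / D.s ^ 2) := by
  have hw := D.hw
  have hw' := D.hw'
  have hs := D.hs
  have hs' := D.hs'
  have hc := D.le_c
  have hc' := D.c_le
  have hc0 := D.hc
  obtain ⟨a1, a1'⟩ := D.m_a1_bounds
  obtain ⟨a2, a2'⟩ := D.m_a2_bounds
  obtain ⟨x1, x2, x3, x4⟩ := m_chart h
  rw [abs_le] at h1
  have him : |z.im| ≤ 4 * D.w := by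
    have := (abs_im_le_norm (z - D.apex true)).trans h2
    rwa [Complex.sub_im, m_apex_true, ofReal_im, sub_zero] at this
  rw [abs_le] at him
  have hx : 97 / 100 ≤ z.re := by linarith
  have e1 : ∀ᶠ y in nhds z, S ((D.qb * y).im / D.w) = 0 := by
    apply m_ev0 D.m_cont_qb
    rw [div_lt_iff₀ hw, m_qb_im]; nlinarith
  have e2 : ∀ᶠ y in nhds z, S (-(D.q * y).im / D.w) = 0 := by
    apply m_ev0 D.m_cont_q
    rw [div_lt_iff₀ hw, m_q_im]; nlinarith
  have e3 : ∀ᶠ y in nhds z, D.chi2 y = 0 := by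
    apply m_ev0 (D.m_cont_rho _)
    rw [div_lt_iff₀ hw]; linarith
  have ev : D.FU true =ᶠ[nhds z] fun y => D.chi1 y • (D.mU0 true + D.mU true * y) := by
    filter_upwards [e1, e2, e3] with y k1 k2 k3
    simp only [FU, m_CC, jump, m_UU, k1, k2, k3, zero_smul, add_zero, mul_zero]
  refine MLip.congr ?_ ev
  have hV : ‖D.mU0 true + D.mU true * z‖ ≤ 1 / D.s ^ 2 * (4 * D.w) := by
    rw [m_UU_true, norm_mul]
    have := D.m_norm_mU true
    gcongr
  have hchi : MLip D.chi1 z (C * (3 / D.w)) :=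
    m_lip_comp hC1 hC (D.m_lip_rho _ z (D.m_norm_le h))
  have := MLip.smul (φ := D.chi1) (f := fun y => D.mU0 true + D.mU true * y)
    (fun y => m_S_abs _) hchi (m_lip_affine _ _ z (D.m_norm_mU true)) hV
  refine this.mono ?_
  have e : 1 / D.s ^ 2 + C * (3 / D.w) * (1 / D.s ^ 2 * (4 * D.w)) = (1 + 12 * C) / D.s ^ 2 := by
    field_simp; ring
  rw [e]
  gcongr <;> linarith

theorem m_direct_false {C : ℝ} (hC1 : 1 ≤ C) (hC : ∀ a b : ℝ, |S a - S b| ≤ C * |a - b|)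
    {z : ℂ} (h : z ∈ D.Chart) (h1 : |‖z‖ ^ 2 - ‖D.apex false‖ ^ 2| ≤ D.w)
    (h2 : ‖z - D.apex false‖ ≤ 4 * D.w) : MLip (D.FU false) z ((3 + 24 * C) / D.s ^ 2) := by
  have hw := D.hw
  have hw' := D.hw'
  have hs := D.hs
  have hs' := D.hs'
  have hc := D.le_c
  have hc' := D.c_le
  have hc0 := D.hc
  obtain ⟨a1, a1'⟩ := D.m_a1_bounds
  obtain ⟨a2, a2'⟩ := D.m_a2_bounds
  obtain ⟨x1, x2, x3, x4⟩ := m_chart h
  rw [abs_le] at h1
  have him : |z.im| ≤ 4 * D.w + D.s / 20 := by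
    have k := (abs_im_le_norm (z - D.apex false)).trans h2
    have k2 := D.m_apex_false_im
    rw [Complex.sub_im, abs_le] at k
    rw [abs_le] at k2 ⊢
    constructor <;> linarith
  rw [abs_le] at him
  have hx : 97 / 100 ≤ z.re := by linarith
  have e1 : ∀ᶠ y in nhds z, S ((D.qb * y).im / D.w) = 0 := by
    apply m_ev0 D.m_cont_qb
    rw [div_lt_iff₀ hw, m_qb_im]; nlinarith
  have e2 : ∀ᶠ y in nhds z, S (-(D.q * y).im / D.w) = 0 := by
    apply m_ev0 D.m_cont_q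
    rw [div_lt_iff₀ hw, m_q_im]; nlinarith
  have e3 : ∀ᶠ y in nhds z, D.chi1 y = 1 := by
    apply m_ev1 (D.m_cont_rho _)
    rw [lt_div_iff₀ hw]; linarith
  have ev : D.FU false =ᶠ[nhds z] fun y => (D.mU0 false + D.mU false * y)
      + D.chi2 y • (-D.mU0 false + (1 - D.mU false) * y) := by
    filter_upwards [e1, e2, e3] with y k1 k2 k3
    simp only [FU, m_CC, jump, m_UU, k1, k2, k3, zero_smul, add_zero, mul_zero, one_smul]
    congr 2
    ring
  refine MLip.congr ?_ ev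
  have hs2 : 1 ≤ 1 / D.s ^ 2 := by
    rw [le_div_iff₀ (by positivity)]; nlinarith
  have hB : ‖1 - D.mU false‖ ≤ 2 / D.s ^ 2 := by
    refine (norm_sub_le _ _).trans ?_
    have := D.m_norm_mU false
    rw [norm_one]
    have e : 2 / D.s ^ 2 = 1 / D.s ^ 2 + 1 / D.s ^ 2 := by ring
    rw [e]; linarith
  have hV : ‖-D.mU0 false + (1 - D.mU false) * z‖ ≤ 2 / D.s ^ 2 * (4 * D.w) := by
    rw [m_UU_false, norm_mul]
    gcongr
  have hchi : MLip D.chi2 z (C * (3 / D.w)) :=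
    m_lip_comp hC1 hC (D.m_lip_rho _ z (D.m_norm_le h))
  have := MLip.smul (φ := D.chi2) (f := fun y => -D.mU0 false + (1 - D.mU false) * y)
    (fun y => m_S_abs _) hchi (m_lip_affine _ _ z hB) hV
  have := (m_lip_affine (D.mU0 false) _ z (D.m_norm_mU false)).add this
  refine this.mono ?_
  have e : 1 / D.s ^ 2 + (2 / D.s ^ 2 + C * (3 / D.w) * (2 / D.s ^ 2 * (4 * D.w)))
      = (3 + 24 * C) / D.s ^ 2 := by
    field_simp; ring
  rw [e]

theorem m_direct_q {C : ℝ} (hC1 : 1 ≤ C) (hC : ∀ a b : ℝ, |S a - S b| ≤ C * |a - b|) (b : Bool)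
    {z : ℂ} (h : z ∈ D.Chart) (e1 : ∀ᶠ y in nhds z, D.chi1 y = 1)
    (e2 : ∀ᶠ y in nhds z, D.chi2 y = 0)
    (h2 : ‖z - D.q‖ ≤ 2 * D.w) : MLip (D.FU b) z ((3 + 24 * C) / D.s ^ 2) := by
  have hw := D.hw
  have hw' := D.hw'
  have hs := D.hs
  have hs' := D.hs'
  have hc0 := D.hc
  obtain ⟨x1, x2, x3, x4⟩ := m_chart h
  have him : |z.im - D.s| ≤ 2 * D.w := by
    have k := (abs_im_le_norm (z - D.q)).trans h2
    simpa [q] using k
  rw [abs_le] at him
  have hx : 97 / 100 ≤ z.re := by linarith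
  have hy : 0 ≤ z.im := by linarith
  have e3 : ∀ᶠ y in nhds z, S (-(D.q * y).im / D.w) = 0 := by
    apply m_ev0 D.m_cont_q
    rw [div_lt_iff₀ hw, m_q_im]; nlinarith [mul_nonneg hc0.le hy]
  have ev : D.FU b =ᶠ[nhds z] fun y => (D.mU0 b + D.mU b * y)
      + D.mJ b * (S ((D.qb * y).im / D.w) • (D.q + (-1) * y)) := by
    filter_upwards [e1, e2, e3] with y k1 k2 k3
    simp only [FU, m_CC, jump, m_UU, k1, k2, k3, zero_smul, add_zero, one_smul]
    congr 3
    ring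
  refine MLip.congr ?_ ev
  have hV : ‖D.q + (-1) * z‖ ≤ 2 * D.w := by
    have : D.q + (-1) * z = -(z - D.q) := by ring
    rw [this, norm_neg]; exact h2
  have h3 := MLip.smul (φ := fun y => S ((D.qb * y).im / D.w)) (f := fun y => D.q + (-1) * y)
    (fun y => m_S_abs _) (m_lip_comp hC1 hC (D.m_lip_qb z))
    (m_lip_affine D.q (-1) z (K := 1) (by simp)) hV
  have := (m_lip_affine (D.mU0 b) _ z (D.m_norm_mU b)).add (h3.mul (D.mJ b) (D.m_norm_mJ b))
  refine this.mono ?_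
  have e : 1 / D.s ^ 2 + 2 / D.s ^ 2 * (1 + C * (1 / D.w) * (2 * D.w))
      = (3 + 4 * C) / D.s ^ 2 := by
    field_simp; ring
  rw [e]
  gcongr; linarith

theorem m_direct_qb {C : ℝ} (hC1 : 1 ≤ C) (hC : ∀ a b : ℝ, |S a - S b| ≤ C * |a - b|) (b : Bool)
    {z : ℂ} (h : z ∈ D.Chart) (e1 : ∀ᶠ y in nhds z, D.chi1 y = 1)
    (e2 : ∀ᶠ y in nhds z, D.chi2 y = 0)
    (h2 : ‖z - D.qb‖ ≤ 2 * D.w) : MLip (D.FU b) z ((3 + 24 * C) / D.s ^ 2) := by
  have hw := D.hw
  have hw' := D.hw'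
  have hs := D.hs
  have hs' := D.hs'
  have hc0 := D.hc
  obtain ⟨x1, x2, x3, x4⟩ := m_chart h
  have him : |z.im + D.s| ≤ 2 * D.w := by
    have k := (abs_im_le_norm (z - D.qb)).trans h2
    simpa [qb] using k
  rw [abs_le] at him
  have hx : 97 / 100 ≤ z.re := by linarith
  have hy : z.im ≤ 0 := by linarith
  have e3 : ∀ᶠ y in nhds z, S ((D.qb * y).im / D.w) = 0 := by
    apply m_ev0 D.m_cont_qb
    rw [div_lt_iff₀ hw, m_qb_im]; nlinarith [mul_nonneg hc0.le (neg_nonneg.mpr hy)]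
  have ev : D.FU b =ᶠ[nhds z] fun y => (D.mU0 b + D.mU b * y)
      + D.mJ b * (S (-(D.q * y).im / D.w) • (D.qb + (-1) * y)) := by
    filter_upwards [e1, e2, e3] with y k1 k2 k3
    simp only [FU, m_CC, jump, m_UU, k1, k2, k3, zero_smul, add_zero, one_smul, zero_add]
    congr 3
    ring
  refine MLip.congr ?_ ev
  have hV : ‖D.qb + (-1) * z‖ ≤ 2 * D.w := by
    have : D.qb + (-1) * z = -(z - D.qb) := by ring
    rw [this, norm_neg]; exact h2
  have h3 := MLip.smul (φ := fun y => S (-(D.q * y).im / D.w)) (f := fun y => D.qb + (-1) * y)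
    (fun y => m_S_abs _) (m_lip_comp hC1 hC (D.m_lip_q z))
    (m_lip_affine D.qb (-1) z (K := 1) (by simp)) hV
  have := (m_lip_affine (D.mU0 b) _ z (D.m_norm_mU b)).add (h3.mul (D.mJ b) (D.m_norm_mJ b))
  refine this.mono ?_
  have e : 1 / D.s ^ 2 + 2 / D.s ^ 2 * (1 + C * (1 / D.w) * (2 * D.w))
      = (3 + 4 * C) / D.s ^ 2 := by
    field_simp; ring
  rw [e]
  gcongr; linarith

theorem m_rigid (b : Bool) {z : ℂ} (e1 : ∀ᶠ y in nhds z, D.chi1 y = 1)
    (e2 : ∀ᶠ y in nhds z, D.chi2 y = 0) (k1 : D.w < |(D.qb * z).im|)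
    (k2 : D.w < |(D.q * z).im|) : en (fderiv ℝ (D.FU b) z) = 0 := by
  have hw := D.hw
  have h1 : ∃ t : ℝ, ∀ᶠ y in nhds z, S ((D.qb * y).im / D.w) = t := by
    rcases lt_abs.mp k1 with h | h
    · refine ⟨1, m_ev1 D.m_cont_qb ?_⟩
      rw [lt_div_iff₀ hw]; linarith
    · refine ⟨0, m_ev0 D.m_cont_qb ?_⟩
      rw [div_lt_iff₀ hw]; linarith
  have h2 : ∃ t : ℝ, ∀ᶠ y in nhds z, S (-(D.q * y).im / D.w) = t := by
    rcases lt_abs.mp k2 with h | h
    · refine ⟨0, m_ev0 D.m_cont_q ?_⟩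
      rw [div_lt_iff₀ hw]; linarith
    · refine ⟨1, m_ev1 D.m_cont_q ?_⟩
      rw [lt_div_iff₀ hw]; linarith
  obtain ⟨t1, h1⟩ := h1
  obtain ⟨t2, h2⟩ := h2
  have ev : D.FU b =ᶠ[nhds z] fun y => (D.mU0 b + D.mJ b * (t1 * D.q + t2 * D.qb))
      + (D.mU b - D.mJ b * ((t1 + t2 : ℝ) : ℂ)) * y := by
    filter_upwards [e1, e2, h1, h2] with y j1 j2 j3 j4
    simp only [FU, m_CC, jump, m_UU, j1, j2, j3, j4, zero_smul, add_zero, one_smul, real_smul]
    push_cast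
    ring
  rw [m_en_affine _ _ ev]
  have h3 := D.m_mU_re b
  have h4 := D.m_mJ_re b
  rw [Complex.sub_re, h3, Complex.mul_re, h4, ofReal_im]
  simp

theorem FU_energy : ∃ C : ℝ, 0 < C ∧ ∀ (D : Dat) (b : Bool) (z : ℂ), z ∈ D.Chart →
    (D.NetFlat b z ∧ |‖z‖ ^ 2 - 1| < 3 * D.s) ∨
    en (fderiv ℝ (D.FU b) z) ≤ (if 1 ≤ ‖z‖ then 1 else 0)
      + C / D.s ^ 4 * ((if ‖z - D.q‖ ≤ 2 * D.w then 1 else 0)
        + (if ‖z - D.qb‖ ≤ 2 * D.w then 1 else 0)
        + (if ‖z - D.apex b‖ ≤ 4 * D.w then 1 else 0)) := by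
  obtain ⟨C, hC1, hC⟩ := m_S_lip
  refine ⟨2 * (3 + 24 * C) ^ 2, by positivity, fun D b z h => ?_⟩
  have hw := D.hw
  have hw' := D.hw'
  have hs := D.hs
  have hs' := D.hs'
  obtain ⟨a1, a1'⟩ := D.m_a1_bounds
  obtain ⟨a2, a2'⟩ := D.m_a2_bounds
  have hK : 0 ≤ 2 * (3 + 24 * C) ^ 2 / D.s ^ 4 := by positivity
  have bnd : MLip (D.FU b) z ((3 + 24 * C) / D.s ^ 2) →
      en (fderiv ℝ (D.FU b) z) ≤ 2 * (3 + 24 * C) ^ 2 / D.s ^ 4 := by
    intro hL
    have h1 := m_en_le _ (hL.fderiv_le (by positivity))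
    refine h1.trans (le_of_eq ?_)
    rw [div_pow]; ring
  have i0 : (0 : ℝ) ≤ (if 1 ≤ ‖z‖ then 1 else 0) := by split_ifs <;> norm_num
  have i1 : (0 : ℝ) ≤ (if ‖z - D.q‖ ≤ 2 * D.w then 1 else 0) := by split_ifs <;> norm_num
  have i2 : (0 : ℝ) ≤ (if ‖z - D.qb‖ ≤ 2 * D.w then 1 else 0) := by split_ifs <;> norm_num
  have i3 : (0 : ℝ) ≤ (if ‖z - D.apex b‖ ≤ 4 * D.w then 1 else 0) := by split_ifs <;> norm_num
  by_cases cA : ‖z‖ ^ 2 < ‖D.apex true‖ ^ 2 - D.w
  · right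
    have e1 : ∀ᶠ y in nhds z, D.chi1 y = 0 := by
      apply m_ev0 (D.m_cont_rho _)
      rw [div_lt_iff₀ hw]; linarith
    have e2 : ∀ᶠ y in nhds z, D.chi2 y = 0 := by
      apply m_ev0 (D.m_cont_rho _)
      rw [div_lt_iff₀ hw]; linarith
    have ev : D.FU b =ᶠ[nhds z] fun y => (0 : ℂ) + 0 * y := by
      filter_upwards [e1, e2] with y k1 k2
      simp only [FU, k1, k2, zero_smul, add_zero, zero_mul]
    rw [m_en_affine _ _ ev]
    simp only [Complex.zero_re, ne_eq, OfNat.ofNat_ne_zero, not_false_eq_true, zero_pow]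
    positivity
  by_cases cB : ‖D.apex false‖ ^ 2 + D.w < ‖z‖ ^ 2
  · right
    have e1 : ∀ᶠ y in nhds z, D.chi1 y = 1 := by
      apply m_ev1 (D.m_cont_rho _)
      rw [lt_div_iff₀ hw]; linarith
    have e2 : ∀ᶠ y in nhds z, D.chi2 y = 1 := by
      apply m_ev1 (D.m_cont_rho _)
      rw [lt_div_iff₀ hw]; linarith
    have ev : D.FU b =ᶠ[nhds z] fun y => (0 : ℂ) + 1 * y := by
      filter_upwards [e1, e2] with y k1 k2
      simp only [FU, k1, k2, one_smul]
      ring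
    rw [m_en_affine _ _ ev]
    have hz : 1 ≤ ‖z‖ := by
      by_contra hcon
      push Not at hcon
      have := norm_nonneg z
      nlinarith
    rw [if_pos hz]
    simp only [Complex.one_re, one_pow]
    have : 0 ≤ 2 * (3 + 24 * C) ^ 2 / D.s ^ 4 * ((if ‖z - D.q‖ ≤ 2 * D.w then 1 else 0)
        + (if ‖z - D.qb‖ ≤ 2 * D.w then 1 else 0)
        + (if ‖z - D.apex b‖ ≤ 4 * D.w then 1 else 0)) := by positivity
    linarith
  have hne : ∀ {x y t : ℝ}, 0 ≤ x → 0 ≤ y → 0 ≤ t → 0 ≤ 2 * (3 + 24 * C) ^ 2 / D.s ^ 4 →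
      ∀ {k : ℝ}, 1 ≤ x + y + t → en (fderiv ℝ (D.FU b) z) ≤ 2 * (3 + 24 * C) ^ 2 / D.s ^ 4 →
      0 ≤ k → en (fderiv ℝ (D.FU b) z) ≤ k + 2 * (3 + 24 * C) ^ 2 / D.s ^ 4 * (x + y + t) := by
    intro x y t _ _ _ h4 k h5 h6 h7
    nlinarith
  by_cases cT : |‖z‖ ^ 2 - ‖D.apex true‖ ^ 2| ≤ D.w
  · by_cases hb : b = true → 4 * D.w < ‖z - D.apex true‖
    · left
      refine ⟨netFlat_apex D b true z h cT hb, ?_⟩
      rw [abs_le] at cT
      rw [abs_lt]; constructor <;> linarith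
    · right
      push Not at hb
      obtain ⟨rfl, hb⟩ := hb
      refine hne i1 i2 i3 hK ?_ (bnd (D.m_direct_true hC1 hC h cT hb)) i0
      rw [if_pos hb]; linarith
  by_cases cF : |‖z‖ ^ 2 - ‖D.apex false‖ ^ 2| ≤ D.w
  · by_cases hb : b = false → 4 * D.w < ‖z - D.apex false‖
    · left
      refine ⟨netFlat_apex D b false z h cF hb, ?_⟩
      rw [abs_le] at cF
      rw [abs_lt]; constructor <;> linarith
    · right
      push Not at hb
      obtain ⟨rfl, hb⟩ := hb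
      refine hne i1 i2 i3 hK ?_ (bnd (D.m_direct_false hC1 hC h cF hb)) i0
      rw [if_pos hb]; linarith
  have cT' : ‖D.apex true‖ ^ 2 + D.w < ‖z‖ ^ 2 := by
    by_contra hcon
    apply cT
    rw [abs_le]; constructor <;> linarith
  have cF' : ‖z‖ ^ 2 < ‖D.apex false‖ ^ 2 - D.w := by
    by_contra hcon
    apply cF
    rw [abs_le]; constructor <;> linarith
  have flat : |‖z‖ ^ 2 - 1| < 3 * D.s := by
    rw [abs_lt]; constructor <;> linarith
  have e1 : ∀ᶠ y in nhds z, D.chi1 y = 1 := by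
    apply m_ev1 (D.m_cont_rho _)
    rw [lt_div_iff₀ hw]; linarith
  have e2 : ∀ᶠ y in nhds z, D.chi2 y = 0 := by
    apply m_ev0 (D.m_cont_rho _)
    rw [div_lt_iff₀ hw]; linarith
  by_cases cq : |(D.qb * z).im| ≤ D.w
  · by_cases hq : ‖z - D.q‖ ≤ 2 * D.w
    · right
      refine hne i1 i2 i3 hK ?_ (bnd (D.m_direct_q hC1 hC b h e1 e2 hq)) i0
      rw [if_pos hq]; linarith
    · left
      exact ⟨netFlat_q D b z h cq (not_le.mp hq), flat⟩
  by_cases cqb : |(D.q * z).im| ≤ D.w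
  · by_cases hq : ‖z - D.qb‖ ≤ 2 * D.w
    · right
      refine hne i1 i2 i3 hK ?_ (bnd (D.m_direct_qb hC1 hC b h e1 e2 hq)) i0
      rw [if_pos hq]; linarith
    · left
      exact ⟨netFlat_qb D b z h cqb (not_le.mp hq), flat⟩
  right
  rw [D.m_rigid b e1 e2 (not_le.mp cq) (not_le.mp cqb)]
  positivity

end Dat

end Pool.Agent.ShearComposite
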