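import Pool.Agent.ShearComposite.Chart
import Pool.Agent.ShearComposite.Jets

/-!
# The net in the chart: overlap and flatness
-/

open Complex ComplexConjugate
open scoped ContDiff

namespace Pool.Agent.ShearComposite

theorem k_rw_le {w : ℝ} (hw : 0 < w) (u : ℂ) : rw w u ≤ |u.re| + |u.im| + w := by
  unfold rw
  rw [Real.sqrt_le_left (by positivity)]
  have h := Complex.norm_le_abs_re_add_abs_im u
  have h0 := norm_nonneg u
  have h1 : ‖u‖ ^ 2 ≤ (|u.re| + |u.im|) ^ 2 := by gcongr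
  have h2 : 0 ≤ |u.re| + |u.im| := by positivity
  nlinarith

theorem k_rw_continuous (w : ℝ) : Continuous (rw w) := by
  unfold rw; fun_prop

theorem k_softH_one {w : ℝ} (hw : 0 < w) {u : ℂ} (h : rw w u ≤ 64 * u.im) : softH w u = 1 := by
  unfold softH
  apply j_S_one
  rw [le_div_iff₀ (j_rw_pos w hw u)]
  linarith

theorem k_softH_zero {w : ℝ} (hw : 0 < w) {u : ℂ} (h : rw w u ≤ -(64 * u.im)) :
    softH w u = 0 := by
  unfold softH
  apply j_S_zero
  rw [div_le_iff₀ (j_rw_pos w hw u)]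
  linarith

theorem k_softH_one_ev {w : ℝ} (hw : 0 < w) {f : ℂ → ℂ} (hf : Continuous f) {z : ℂ}
    (h : rw w (f z) < 64 * (f z).im) : ∀ᶠ y in nhds z, softH w (f y) = 1 := by
  have hc : Continuous fun y => rw w (f y) := (k_rw_continuous w).comp hf
  have hd : Continuous fun y => 64 * (f y).im := by fun_prop
  filter_upwards [(isOpen_lt hc hd).mem_nhds h] with y hy
  exact k_softH_one hw (le_of_lt hy)

theorem k_softH_zero_ev {w : ℝ} (hw : 0 < w) {f : ℂ → ℂ} (hf : Continuous f) {z : ℂ}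
    (h : rw w (f z) < -(64 * (f z).im)) : ∀ᶠ y in nhds z, softH w (f y) = 0 := by
  have hc : Continuous fun y => rw w (f y) := (k_rw_continuous w).comp hf
  have hd : Continuous fun y => -(64 * (f y).im) := by fun_prop
  filter_upwards [(isOpen_lt hc hd).mem_nhds h] with y hy
  exact k_softH_zero hw (le_of_lt hy)

/-- a soft indicator is locally constant far from the axis -/
theorem k_softH_ev {w : ℝ} (hw : 0 < w) {f : ℂ → ℂ} (hf : Continuous f) {z : ℂ}
    (h : rw w (f z) < 64 * |(f z).im|) :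
    (∀ᶠ y in nhds z, softH w (f y) = 0) ∨ ∀ᶠ y in nhds z, softH w (f y) = 1 := by
  rcases abs_cases (f z).im with ⟨h1, _⟩ | ⟨h1, _⟩
  · right
    exact k_softH_one_ev hw hf (by rwa [h1] at h)
  · left
    exact k_softH_zero_ev hw hf (by rw [h1] at h; linarith)

theorem k_aff_contDiff (A B C : ℂ) : ContDiff ℝ ∞ (aff A B C) := by
  have h : aff A B C = fun z => A + B * z + C * Complex.conjCLE z := by
    ext z; simp [aff]
  rw [h]
  exact (contDiff_const.add (contDiff_const.mul contDiff_id)).add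
    (contDiff_const.mul Complex.conjCLE.contDiff)

theorem k_aff_iter (A B C z : ℂ) : iteratedFDeriv ℝ 2 (aff A B C) z = 0 := by
  have h : aff A B C = fun z => (B • (ContinuousLinearMap.id ℝ ℂ)
      + C • (Complex.conjCLE : ℂ →L[ℝ] ℂ)) z + A := by
    ext z; simp [aff]; ring
  rw [h]
  set L := (B • (ContinuousLinearMap.id ℝ ℂ) + C • (Complex.conjCLE : ℂ →L[ℝ] ℂ)) with hL
  have e1 : fderiv ℝ (fun z => L z + A) = fun _ => L := by
    ext1 x
    rw [fderiv_add_const]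
    exact L.fderiv
  have h0 : ‖iteratedFDeriv ℝ 2 (fun z => L z + A) z‖ = 0 := by
    rw [← norm_iteratedFDeriv_fderiv, e1, iteratedFDeriv_const_of_ne (by norm_num)]
    simp
  exact norm_eq_zero.mp h0

namespace Dat

variable (D : Dat)

theorem k_flat_of {b : Bool} {z A B C : ℂ} (h : ∀ᶠ y in nhds z, D.PP b y = aff A B C y) :
    D.NetFlat b z := by
  unfold NetFlat
  filter_upwards [eventually_eventually_nhds.mpr h] with y hy
  have h1 : D.PP b =ᶠ[nhds y] aff A B C := hy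
  rw [(h1.iteratedFDeriv ℝ 2).eq_of_nhds, k_aff_iter]

theorem k_flat_tau {b : Bool} {z : ℂ} (h : ∀ᶠ y in nhds z, D.PP b y = D.tau b y) :
    D.NetFlat b z := by
  obtain ⟨A, B, C, h1, -⟩ := D.near_tau b
  exact D.k_flat_of (A := A) (B := B) (C := C) (by rw [← h1]; exact h)

theorem k_flat_up {b : Bool} {z : ℂ} (h : ∀ᶠ y in nhds z, D.PP b y = D.up b y) :
    D.NetFlat b z := by
  obtain ⟨A, B, C, h1, -⟩ := D.near_up b
  exact D.k_flat_of (A := A) (B := B) (C := C) (by rw [← h1]; exact h)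

theorem k_flat_dn {b : Bool} {z : ℂ} (h : ∀ᶠ y in nhds z, D.PP b y = D.dn b y) :
    D.NetFlat b z := by
  obtain ⟨A, B, C, h1, -⟩ := D.near_dn b
  exact D.k_flat_of (A := A) (B := B) (C := C) (by rw [← h1]; exact h)

/-! ### the apexes -/

theorem k_apexT_re : (D.apex true).re = 1 / (D.c + D.s) := by
  have h : D.apex true = ((1 / (D.c + D.s) : ℝ) : ℂ) := by
    simp [apex, r]
  rw [h, ofReal_re]

theorem k_apexT_im : (D.apex true).im = 0 := by
  have h : D.apex true = ((1 / (D.c + D.s) : ℝ) : ℂ) := by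
    simp [apex, r]
  rw [h, ofReal_im]

theorem k_apexF_re : (D.apex false).re
    = (D.c - D.s) / ((D.c - D.s) ^ 2 + (D.s ^ 2 * (D.c + D.s)) ^ 2) := by
  simp only [apex, cond_false, one_div, inv_re, normSq_apply, D.xi_re, D.xi_im]
  ring_nf

theorem k_apexF_im : (D.apex false).im
    = (D.s ^ 2 * (D.c + D.s)) / ((D.c - D.s) ^ 2 + (D.s ^ 2 * (D.c + D.s)) ^ 2) := by
  simp only [apex, cond_false, one_div, inv_im, normSq_apply, D.xi_re, D.xi_im]
  ring_nf

theorem k_sc : 0 < D.s ∧ D.s ≤ 1 / 100 ∧ D.s ^ 2 ≤ D.s / 100 ∧ 1 - D.s / 100 ≤ D.c ∧ D.c ≤ 1 ∧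
    0 < D.w ∧ D.w ≤ D.s / 100 := by
  have h1 := D.hs
  have h2 := D.hs'
  have h3 := D.le_c
  have h4 : D.s ^ 2 ≤ D.s / 100 := by nlinarith
  exact ⟨h1, h2, h4, by linarith, D.c_le, D.hw, D.hw'⟩

theorem k_apex_re (b : Bool) : 1 - 11 / 10 * D.s ≤ (D.apex b).re ∧
    (D.apex b).re ≤ 1 + 11 / 10 * D.s := by
  obtain ⟨h1, h2, h3, h4, h5, -, -⟩ := D.k_sc
  cases b
  · rw [k_apexF_re]
    have hp : 0 < D.c - D.s := by linarith
    have hN : (D.c - D.s) ^ 2 ≤ (D.c - D.s) ^ 2 + (D.s ^ 2 * (D.c + D.s)) ^ 2 := by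
      nlinarith [sq_nonneg (D.s ^ 2 * (D.c + D.s))]
    have hN0 : 0 < (D.c - D.s) ^ 2 + (D.s ^ 2 * (D.c + D.s)) ^ 2 := by positivity
    have hcs0 : 0 < D.c + D.s := add_pos D.hc D.hs
    have hsm : D.s ^ 2 * (D.c + D.s) ≤ D.s / 50 := by nlinarith
    have hsm0 : 0 ≤ D.s ^ 2 * (D.c + D.s) := by positivity
    have hsm2 : (D.s ^ 2 * (D.c + D.s)) ^ 2 ≤ D.s / 100 := by nlinarith
    constructor
    · rw [le_div_iff₀ hN0]
      nlinarith
    · rw [div_le_iff₀ hN0]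
      nlinarith
  · rw [k_apexT_re]
    have hp : 0 < D.c + D.s := by linarith
    constructor
    · rw [le_div_iff₀ hp]
      nlinarith
    · rw [div_le_iff₀ hp]
      nlinarith

theorem k_apex_im (b : Bool) : 0 ≤ (D.apex b).im ∧ (D.apex b).im ≤ D.s / 50 := by
  obtain ⟨h1, h2, h3, h4, h5, -, -⟩ := D.k_sc
  cases b
  · rw [k_apexF_im]
    have hp : 0 < D.c - D.s := by linarith
    have hN0 : 0 < (D.c - D.s) ^ 2 + (D.s ^ 2 * (D.c + D.s)) ^ 2 := by positivity
    have hcs0 : 0 < D.c + D.s := add_pos D.hc D.hs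
    refine ⟨by positivity, ?_⟩
    rw [div_le_iff₀ hN0]
    have hcs : (0.9 : ℝ) ≤ (D.c - D.s) ^ 2 := by nlinarith
    have hsm : D.s ^ 2 * (D.c + D.s) ≤ D.s / 100 * 1.01 := by
      have : D.c + D.s ≤ 1.01 := by linarith
      have : 0 < D.c + D.s := by linarith
      gcongr
    nlinarith [sq_nonneg (D.s ^ 2 * (D.c + D.s))]
  · rw [k_apexT_im]
    exact ⟨le_rfl, by positivity⟩

/-! ### coordinates -/

theorem k_chart {z : ℂ} (h : z ∈ D.Chart) : 1 - 5 / 2 * D.s ≤ z.re ∧ z.re ≤ 1 + 5 / 2 * D.s ∧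
    -(3 / 2 * D.s) ≤ z.im ∧ z.im ≤ 3 / 2 * D.s := by
  obtain ⟨h1, h2⟩ := h
  rw [abs_le] at h1 h2
  exact ⟨by linarith, by linarith, by linarith, by linarith⟩

theorem k_qb_re (z : ℂ) : (D.qb * z).re = D.c * z.re + D.s * z.im := by
  simp [qb]
theorem k_qb_im (z : ℂ) : (D.qb * z).im = D.c * z.im - D.s * z.re := by
  simp [qb]; ring
theorem k_q_re (z : ℂ) : (D.q * z).re = D.c * z.re - D.s * z.im := by
  simp [q]
theorem k_q_im (z : ℂ) : (D.q * z).im = D.c * z.im + D.s * z.re := by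
  simp [q]

/-- the soft indicator above the apex -/
theorem k_sg_rw {z : ℂ} (h : z ∈ D.Chart) (b : Bool) :
    rw D.w (z - D.apex b) ≤ 11 / 2 * D.s := by
  obtain ⟨h1, h2, h3, h4, h5, h6, h7⟩ := D.k_sc
  obtain ⟨x1, x2, y1, y2⟩ := D.k_chart h
  obtain ⟨a1, a2⟩ := D.k_apex_re b
  obtain ⟨a3, a4⟩ := D.k_apex_im b
  refine (k_rw_le h6 _).trans ?_
  have e1 : |(z - D.apex b).re| ≤ 36 / 10 * D.s := by
    rw [sub_re, abs_le]; constructor <;> linarith
  have e2 : |(z - D.apex b).im| ≤ 152 / 100 * D.s := by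
    rw [sub_im, abs_le]; constructor <;> linarith
  linarith

theorem k_sg_one {z : ℂ} (h : z ∈ D.Chart) (b : Bool) (hy : D.s / 4 ≤ z.im) : D.sg b z = 1 := by
  obtain ⟨h1, h2, h3, h4, h5, h6, h7⟩ := D.k_sc
  obtain ⟨a3, a4⟩ := D.k_apex_im b
  apply k_softH_one h6
  have := D.k_sg_rw h b
  rw [sub_im]
  linarith

theorem k_sg_zero {z : ℂ} (h : z ∈ D.Chart) (b : Bool) (hy : z.im ≤ -(D.s / 4)) :
    D.sg b z = 0 := by
  obtain ⟨h1, h2, h3, h4, h5, h6, h7⟩ := D.k_sc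
  obtain ⟨a3, a4⟩ := D.k_apex_im b
  apply k_softH_zero h6
  have := D.k_sg_rw h b
  rw [sub_im]
  linarith

theorem k_sg_one_ev {z : ℂ} (h : z ∈ D.Chart) (b : Bool) (hy : D.s / 4 ≤ z.im) :
    ∀ᶠ y in nhds z, D.sg b y = 1 := by
  obtain ⟨h1, h2, h3, h4, h5, h6, h7⟩ := D.k_sc
  obtain ⟨a3, a4⟩ := D.k_apex_im b
  refine k_softH_one_ev h6 (f := fun y => y - D.apex b) (by fun_prop) ?_
  have := D.k_sg_rw h b
  simp only [sub_im]
  linarith

theorem k_sg_zero_ev {z : ℂ} (h : z ∈ D.Chart) (b : Bool) (hy : z.im ≤ -(D.s / 4)) :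
    ∀ᶠ y in nhds z, D.sg b y = 0 := by
  obtain ⟨h1, h2, h3, h4, h5, h6, h7⟩ := D.k_sc
  obtain ⟨a3, a4⟩ := D.k_apex_im b
  refine k_softH_zero_ev h6 (f := fun y => y - D.apex b) (by fun_prop) ?_
  have := D.k_sg_rw h b
  simp only [sub_im]
  linarith

theorem k_ee_one {z : ℂ} (hy : D.s / 4 ≤ z.im) : D.ee z = 1 := by
  have h1 := D.hs
  apply j_S_one
  rw [le_div_iff₀ h1]
  linarith

theorem k_ee_zero {z : ℂ} (hy : z.im ≤ -(D.s / 4)) : D.ee z = 0 := by
  have h1 := D.hs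
  apply j_S_zero
  rw [div_le_iff₀ h1]
  linarith

theorem k_ee_one_ev {z : ℂ} (hy : D.s / 4 < z.im) : ∀ᶠ y in nhds z, D.ee y = 1 := by
  have hc : Continuous fun y : ℂ => y.im := Complex.continuous_im
  filter_upwards [(isOpen_lt continuous_const hc).mem_nhds hy] with y hy'
  exact D.k_ee_one (le_of_lt hy')

theorem k_ee_zero_ev {z : ℂ} (hy : z.im < -(D.s / 4)) : ∀ᶠ y in nhds z, D.ee y = 0 := by
  have hc : Continuous fun y : ℂ => y.im := Complex.continuous_im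
  filter_upwards [(isOpen_lt hc continuous_const).mem_nhds hy] with y hy'
  exact D.k_ee_zero (le_of_lt hy')

/-! ### the overlap -/

theorem k_overlap_im {z : ℂ} (h : z ∈ D.Chart) (h' : D.qb ^ 2 * z ∈ D.Chart) :
    D.s / 4 ≤ z.im ∧ (D.qb ^ 2 * z).im ≤ -(D.s / 4) := by
  obtain ⟨h1, h2, h3, h4, h5, h6, h7⟩ := D.k_sc
  obtain ⟨x1, x2, y1, y2⟩ := D.k_chart h
  obtain ⟨-, -, v1, -⟩ := D.k_chart h'
  have e : (D.qb ^ 2 * z).im = (D.c ^ 2 - D.s ^ 2) * z.im - 2 * D.c * D.s * z.re := by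
    rw [pow_two, mul_assoc, k_qb_im, k_qb_re, k_qb_im]; ring
  rw [e] at v1 ⊢
  have k1 : (19 / 10) * D.s ≤ 2 * D.c * D.s * z.re := by
    have : (95 / 100 : ℝ) ≤ D.c * z.re := by nlinarith
    nlinarith
  have g1 : D.c ^ 2 - D.s ^ 2 ≤ 1 := by nlinarith
  have g0 : 0 ≤ D.c ^ 2 - D.s ^ 2 := by nlinarith
  have k2 : (D.c ^ 2 - D.s ^ 2) * z.im ≤ 3 / 2 * D.s := by nlinarith
  constructor
  · by_contra hcon
    push Not at hcon
    have : (D.c ^ 2 - D.s ^ 2) * z.im ≤ D.s / 4 := by nlinarith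
    linarith
  · linarith

theorem k_h1_overlap (z : ℂ) : D.h1 (D.qb ^ 2 * z) = D.h2 z := by
  unfold h1 h2
  have : D.q * (D.qb ^ 2 * z) = D.qb * z := by linear_combination D.qb * z * D.q_mul_qb
  rw [this]

theorem GG_overlap (D : Dat) (b : Bool) (z : ℂ) (h : z ∈ D.Chart) (h' : D.qb ^ 2 * z ∈ D.Chart) :
    D.GG b z = D.q ^ 4 * D.GG (!b) (D.qb ^ 2 * z) := by
  obtain ⟨i1, i2⟩ := D.k_overlap_im h h'
  have hq := D.q_mul_qb
  have hn : ‖D.qb ^ 2 * z‖ = ‖z‖ := by rw [norm_mul, norm_pow, D.norm_qb]; ring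
  have hY : D.YY (D.qb ^ 2 * z) = D.YY z := by unfold YY; rw [hn]
  have hA : D.AA z = D.h2 z := by
    unfold AA; rw [D.k_ee_one i1]; ring
  have hA' : D.AA (D.qb ^ 2 * z) = D.h2 z := by
    unfold AA; rw [D.k_ee_zero i2, D.k_h1_overlap]; ring
  have hB : D.BB (!b) (D.qb ^ 2 * z) = 1 - D.BB b z := by
    cases b <;> simp [BB, hA, hA']
  have q4 : D.q ^ 4 * D.qb ^ 4 = 1 := by rw [← mul_pow, hq, one_pow]
  have hup : D.q ^ 4 * D.tau (!b) (D.qb ^ 2 * z) = D.up b z := rfl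
  have hdn : D.q ^ 4 * D.dn (!b) (D.qb ^ 2 * z) = D.tau b z := by
    unfold dn
    have e : D.q ^ 2 * (D.qb ^ 2 * z) = z := by
      linear_combination z * (D.q * D.qb + 1) * hq
    rw [e, Bool.not_not]
    linear_combination D.tau b z * q4
  have hz2 : D.q ^ 4 * (D.qb ^ 2 * z) ^ 2 = z ^ 2 := by
    linear_combination z ^ 2 * q4
  unfold GG PP
  rw [hY, hB, D.k_sg_one h b i1, D.k_sg_zero h' (!b) i2]
  simp only [Complex.real_smul, ofReal_one, ofReal_zero, ofReal_sub]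
  linear_combination (-(D.YY z : ℂ)) * hup - (D.YY z : ℂ) * (1 - D.BB b z) * (hdn - hup)
    + (D.YY z : ℂ) * hz2

/-! ### flatness -/

theorem k_im_rw (w : ℝ) {u : ℂ} (hw : 0 < w) (h : |u.re| ≤ w) (h2 : 2 * w < ‖u‖) :
    rw w u < 64 * |u.im| := by
  have h3 : ‖u‖ ^ 2 = u.re ^ 2 + u.im ^ 2 := by
    rw [← Complex.normSq_eq_norm_sq, normSq_apply]; ring
  have h4 : u.re ^ 2 ≤ w ^ 2 := by
    rw [← sq_abs u.re]; gcongr
  have h5 : 3 * w ^ 2 < u.im ^ 2 := by nlinarith [norm_nonneg u]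
  have h6 : rw w u ^ 2 < (64 * |u.im|) ^ 2 := by
    rw [j_rw_sq, mul_pow, sq_abs]; nlinarith
  exact lt_of_pow_lt_pow_left₀ 2 (by positivity) h6

theorem netFlat_q (D : Dat) (b : Bool) (z : ℂ) (h : z ∈ D.Chart) (h1 : |(D.qb * z).im| ≤ D.w)
    (h2 : 2 * D.w < ‖z - D.q‖) : D.NetFlat b z := by
  obtain ⟨s1, s2, s3, s4, s5, s6, s7⟩ := D.k_sc
  obtain ⟨x1, x2, y1, y2⟩ := D.k_chart h
  have hy : D.s / 4 < z.im := by
    rw [k_qb_im, abs_le] at h1
    have : (95 / 100 : ℝ) ≤ z.re := by linarith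
    by_contra hcon
    push Not at hcon
    have : D.c * z.im ≤ D.s / 4 := by nlinarith
    nlinarith
  have hrw : rw D.w (-I * (D.qb * z - 1)) < 64 * |(-I * (D.qb * z - 1)).im| := by
    apply k_im_rw D.w s6
    · simpa using h1
    · rw [norm_mul, norm_neg, norm_I, one_mul]
      have e : D.qb * z - 1 = D.qb * (z - D.q) := by linear_combination D.q_mul_qb
      rw [e, norm_mul, D.norm_qb, one_mul]
      exact h2
  have e1 := D.k_ee_one_ev hy
  have e2 := D.k_sg_one_ev h b hy.le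
  have e3 := k_softH_ev s6 (f := fun z => -I * (D.qb * z - 1)) (by fun_prop) hrw
  rcases e3 with e3 | e3
  · cases b
    · apply D.k_flat_up
      filter_upwards [e1, e2, e3] with y y1 y2 y3
      simp only [PP, BB, AA, y1, y2, Dat.h2, y3, cond_false]
      simp
    · apply D.k_flat_tau
      filter_upwards [e1, e2, e3] with y y1 y2 y3
      simp only [PP, BB, AA, y1, y2, Dat.h2, y3, cond_true]
      simp
  · cases b
    · apply D.k_flat_tau
      filter_upwards [e1, e2, e3] with y y1 y2 y3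
      simp only [PP, BB, AA, y1, y2, Dat.h2, y3, cond_false]
      simp
    · apply D.k_flat_up
      filter_upwards [e1, e2, e3] with y y1 y2 y3
      simp only [PP, BB, AA, y1, y2, Dat.h2, y3, cond_true]
      simp

theorem netFlat_qb (D : Dat) (b : Bool) (z : ℂ) (h : z ∈ D.Chart) (h1 : |(D.q * z).im| ≤ D.w)
    (h2 : 2 * D.w < ‖z - D.qb‖) : D.NetFlat b z := by
  obtain ⟨s1, s2, s3, s4, s5, s6, s7⟩ := D.k_sc
  obtain ⟨x1, x2, y1, y2⟩ := D.k_chart h
  have hy : z.im < -(D.s / 4) := by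
    rw [k_q_im, abs_le] at h1
    have : (95 / 100 : ℝ) ≤ z.re := by linarith
    by_contra hcon
    push Not at hcon
    have : -(D.s / 4) ≤ D.c * z.im := by nlinarith
    nlinarith
  have hrw : rw D.w (-I * (D.q * z - 1)) < 64 * |(-I * (D.q * z - 1)).im| := by
    apply k_im_rw D.w s6
    · simpa using h1
    · rw [norm_mul, norm_neg, norm_I, one_mul]
      have e : D.q * z - 1 = D.q * (z - D.qb) := by linear_combination D.q_mul_qb
      rw [e, norm_mul, D.norm_q, one_mul]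
      exact h2
  have e1 := D.k_ee_zero_ev hy
  have e2 := D.k_sg_zero_ev h b hy.le
  have e3 := k_softH_ev s6 (f := fun z => -I * (D.q * z - 1)) (by fun_prop) hrw
  rcases e3 with e3 | e3
  · cases b
    · apply D.k_flat_dn
      filter_upwards [e1, e2, e3] with y y1 y2 y3
      simp only [PP, BB, AA, y1, y2, Dat.h1, y3, cond_false]
      simp
    · apply D.k_flat_tau
      filter_upwards [e1, e2, e3] with y y1 y2 y3
      simp only [PP, BB, AA, y1, y2, Dat.h1, y3, cond_true]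
      simp
  · cases b
    · apply D.k_flat_tau
      filter_upwards [e1, e2, e3] with y y1 y2 y3
      simp only [PP, BB, AA, y1, y2, Dat.h1, y3, cond_false]
      simp
    · apply D.k_flat_dn
      filter_upwards [e1, e2, e3] with y y1 y2 y3
      simp only [PP, BB, AA, y1, y2, Dat.h1, y3, cond_true]
      simp

theorem k_norm_sq (z : ℂ) : ‖z‖ ^ 2 = z.re ^ 2 + z.im ^ 2 := by
  rw [← Complex.normSq_eq_norm_sq, normSq_apply]; ring

theorem k_apexT_norm : ‖D.apex true‖ ^ 2 ≤ 1 - 191 / 100 * D.s := by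
  obtain ⟨h1, h2, h3, h4, h5, -, -⟩ := D.k_sc
  rw [k_norm_sq, k_apexT_re, k_apexT_im]
  have hcs0 : 0 < D.c + D.s := add_pos D.hc D.hs
  have e : (1 / (D.c + D.s)) ^ 2 + (0 : ℝ) ^ 2 = 1 / (D.c + D.s) ^ 2 := by
    field_simp; ring
  rw [e, div_le_iff₀ (by positivity)]
  have k1 : (D.c + D.s) ^ 2 = 1 + 2 * D.c * D.s := by linear_combination D.hcs
  have k2 : 199 / 100 * D.s ≤ 2 * D.c * D.s := by nlinarith
  rw [k1]
  nlinarith

theorem k_apexF_norm : 1 + 191 / 100 * D.s ≤ ‖D.apex false‖ ^ 2 := by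
  obtain ⟨h1, h2, h3, h4, h5, -, -⟩ := D.k_sc
  have hcs0 : 0 < D.c + D.s := add_pos D.hc D.hs
  have hp : 0 < D.c - D.s := by linarith
  have e : ‖D.apex false‖ ^ 2 = 1 / ((D.c - D.s) ^ 2 + (D.s ^ 2 * (D.c + D.s)) ^ 2) := by
    rw [k_norm_sq, k_apexF_re, k_apexF_im]
    have hN0 : 0 < (D.c - D.s) ^ 2 + (D.s ^ 2 * (D.c + D.s)) ^ 2 := by positivity
    field_simp
  rw [e, le_div_iff₀ (by positivity)]
  have k1 : (D.c - D.s) ^ 2 = 1 - 2 * D.c * D.s := by linear_combination D.hcs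
  have k2 : 199 / 100 * D.s ≤ 2 * D.c * D.s := by nlinarith
  have k3 : D.s ^ 2 * (D.c + D.s) ≤ D.s / 50 := by nlinarith
  have k4 : 0 ≤ D.s ^ 2 * (D.c + D.s) := by positivity
  have k5 : (D.s ^ 2 * (D.c + D.s)) ^ 2 ≤ D.s / 1000 := by nlinarith
  rw [k1]
  nlinarith

theorem k_hinge_rw {z : ℂ} (h : z ∈ D.Chart) : rw D.w (-I * (D.qb * z - 1)) ≤ 6 * D.s ∧
    rw D.w (-I * (D.q * z - 1)) ≤ 6 * D.s := by
  obtain ⟨s1, s2, s3, s4, s5, s6, s7⟩ := D.k_sc
  obtain ⟨x1, x2, y1, y2⟩ := D.k_chart h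
  have a1 : (98 / 100 : ℝ) ≤ 1 - 5 / 2 * D.s + 1 / 100 := by linarith
  have b1 : |D.s * z.im| ≤ D.s / 10 := by
    rw [abs_mul, abs_of_pos s1]
    have : |z.im| ≤ 1 / 10 := abs_le.mpr ⟨by linarith, by linarith⟩
    nlinarith
  have b2 : |D.c * z.re - 1| ≤ 27 / 10 * D.s := by
    rw [abs_le]; constructor <;> nlinarith
  have b3 : |D.c * z.im| ≤ 3 / 2 * D.s := by
    rw [abs_mul, abs_of_pos D.hc]
    have : |z.im| ≤ 3 / 2 * D.s := abs_le.mpr ⟨by linarith, by linarith⟩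
    nlinarith [abs_nonneg z.im]
  have b4 : |D.s * z.re| ≤ 11 / 10 * D.s := by
    rw [abs_mul, abs_of_pos s1]
    have : |z.re| ≤ 11 / 10 := abs_le.mpr ⟨by linarith, by linarith⟩
    nlinarith
  rw [abs_le] at b1 b2 b3 b4
  constructor
  · refine (k_rw_le s6 _).trans ?_
    have e1 : (-I * (D.qb * z - 1)).re = (D.qb * z).im := by simp
    have e2 : (-I * (D.qb * z - 1)).im = -((D.qb * z).re - 1) := by simp
    rw [e1, e2, abs_neg, k_qb_re, k_qb_im]
    have t1 : |D.c * z.im - D.s * z.re| ≤ 26 / 10 * D.s := by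
      rw [abs_le]; constructor <;> linarith
    have t2 : |D.c * z.re + D.s * z.im - 1| ≤ 28 / 10 * D.s := by
      rw [abs_le]; constructor <;> linarith
    linarith
  · refine (k_rw_le s6 _).trans ?_
    have e1 : (-I * (D.q * z - 1)).re = (D.q * z).im := by simp
    have e2 : (-I * (D.q * z - 1)).im = -((D.q * z).re - 1) := by simp
    rw [e1, e2, abs_neg, k_q_re, k_q_im]
    have t1 : |D.c * z.im + D.s * z.re| ≤ 26 / 10 * D.s := by
      rw [abs_le]; constructor <;> linarith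
    have t2 : |D.c * z.re - D.s * z.im - 1| ≤ 28 / 10 * D.s := by
      rw [abs_le]; constructor <;> linarith
    linarith

theorem k_AA_one_ev {z : ℂ} (h : z ∈ D.Chart) (hz : ‖z‖ ^ 2 ≤ 1 - 19 / 10 * D.s) :
    ∀ᶠ y in nhds z, D.AA y = 1 := by
  obtain ⟨s1, s2, s3, s4, s5, s6, s7⟩ := D.k_sc
  obtain ⟨x1, x2, y1, y2⟩ := D.k_chart h
  obtain ⟨r1, r2⟩ := D.k_hinge_rw h
  rw [k_norm_sq] at hz
  have hx : z.re ≤ 1 - 9 / 10 * D.s := by
    by_contra hcon
    push Not at hcon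
    nlinarith [sq_nonneg z.im]
  have b1 : |D.s * z.im| ≤ D.s / 10 := by
    rw [abs_mul, abs_of_pos s1]
    have : |z.im| ≤ 1 / 10 := abs_le.mpr ⟨by linarith, by linarith⟩
    nlinarith
  rw [abs_le] at b1
  have hc : D.c * z.re ≤ z.re := by nlinarith
  have f1 : ∀ᶠ y in nhds z, D.h2 y = 1 := by
    refine k_softH_one_ev s6 (f := fun z => -I * (D.qb * z - 1)) (by fun_prop) ?_
    have e2 : (-I * (D.qb * z - 1)).im = -((D.qb * z).re - 1) := by simp
    rw [e2, k_qb_re]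
    linarith
  have f2 : ∀ᶠ y in nhds z, D.h1 y = 1 := by
    refine k_softH_one_ev s6 (f := fun z => -I * (D.q * z - 1)) (by fun_prop) ?_
    have e2 : (-I * (D.q * z - 1)).im = -((D.q * z).re - 1) := by simp
    rw [e2, k_q_re]
    linarith
  filter_upwards [f1, f2] with y g1 g2
  unfold AA
  rw [g1, g2]; ring

theorem k_AA_zero_ev {z : ℂ} (h : z ∈ D.Chart) (hz : 1 + 19 / 10 * D.s ≤ ‖z‖ ^ 2) :
    ∀ᶠ y in nhds z, D.AA y = 0 := by
  obtain ⟨s1, s2, s3, s4, s5, s6, s7⟩ := D.k_sc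
  obtain ⟨x1, x2, y1, y2⟩ := D.k_chart h
  obtain ⟨r1, r2⟩ := D.k_hinge_rw h
  rw [k_norm_sq] at hz
  have hyy : z.im ^ 2 ≤ 3 / 100 * D.s := by nlinarith
  have hx : 1 + 9 / 10 * D.s ≤ z.re := by
    by_contra hcon
    push Not at hcon
    nlinarith
  have b1 : |D.s * z.im| ≤ D.s / 10 := by
    rw [abs_mul, abs_of_pos s1]
    have : |z.im| ≤ 1 / 10 := abs_le.mpr ⟨by linarith, by linarith⟩
    nlinarith
  rw [abs_le] at b1
  have hc : 1 + 8 / 10 * D.s ≤ D.c * z.re := by nlinarith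
  have f1 : ∀ᶠ y in nhds z, D.h2 y = 0 := by
    refine k_softH_zero_ev s6 (f := fun z => -I * (D.qb * z - 1)) (by fun_prop) ?_
    have e2 : (-I * (D.qb * z - 1)).im = -((D.qb * z).re - 1) := by simp
    rw [e2, k_qb_re]
    linarith
  have f2 : ∀ᶠ y in nhds z, D.h1 y = 0 := by
    refine k_softH_zero_ev s6 (f := fun z => -I * (D.q * z - 1)) (by fun_prop) ?_
    have e2 : (-I * (D.q * z - 1)).im = -((D.q * z).re - 1) := by simp
    rw [e2, k_q_re]
    linarith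
  filter_upwards [f1, f2] with y g1 g2
  unfold AA
  rw [g1, g2]; ring

theorem k_sg_apex {z : ℂ} (h : z ∈ D.Chart) (b : Bool)
    (h1 : |‖z‖ ^ 2 - ‖D.apex b‖ ^ 2| ≤ D.w) (h2 : 4 * D.w < ‖z - D.apex b‖) :
    rw D.w (z - D.apex b) < 64 * |(z - D.apex b).im| := by
  obtain ⟨s1, s2, s3, s4, s5, s6, s7⟩ := D.k_sc
  obtain ⟨a1, a2⟩ := D.k_apex_re b
  obtain ⟨a3, a4⟩ := D.k_apex_im b
  have hn : ‖z - D.apex b‖ ≤ 11 / 2 * D.s := (j_norm_le_rw _ _).trans (D.k_sg_rw h b)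
  have hnn := norm_nonneg (z - D.apex b)
  have hre := Complex.abs_re_le_norm (z - D.apex b)
  have him := Complex.abs_im_le_norm (z - D.apex b)
  have hsq := k_norm_sq (z - D.apex b)
  have e : ‖z‖ ^ 2 - ‖D.apex b‖ ^ 2 = 2 * (D.apex b).re * (z - D.apex b).re
      + 2 * (D.apex b).im * (z - D.apex b).im + ‖z - D.apex b‖ ^ 2 := by
    rw [hsq, k_norm_sq z, k_norm_sq (D.apex b), sub_re, sub_im]; ring
  rw [e] at h1
  have hrw := j_rw_sq D.w (z - D.apex b)
  clear e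
  generalize rw D.w (z - D.apex b) = ρ at *
  generalize ‖z - D.apex b‖ = n at *
  generalize (z - D.apex b).re = a at *
  generalize (z - D.apex b).im = y at *
  generalize (D.apex b).re = α at *
  generalize (D.apex b).im = β at *
  rw [abs_le] at h1 hre him
  have k1 : n ^ 2 ≤ 55 / 1000 * n := by
    rw [pow_two]
    apply mul_le_mul_of_nonneg_right _ hnn
    linarith
  have k2 : |2 * β * y| ≤ n / 100 := by
    have hb : |y| ≤ n := abs_le.mpr him
    rw [abs_mul, abs_of_nonneg (by linarith : 0 ≤ 2 * β)]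
    have : 2 * β ≤ 1 / 100 := by linarith
    have h0 := abs_nonneg y
    calc 2 * β * |y| ≤ 1 / 100 * n := by gcongr
      _ = n / 100 := by ring
  rw [abs_le] at k2
  have k3 : |2 * α * a| ≤ 32 / 100 * n := by
    have hn2 := sq_nonneg n
    rw [abs_le]; constructor <;> linarith
  have k4 : |a| ≤ 2 / 10 * n := by
    rw [abs_mul, abs_of_nonneg (by linarith : 0 ≤ 2 * α)] at k3
    have h0 := abs_nonneg a
    have h1 : 196 / 100 * |a| ≤ 2 * α * |a| := by
      apply mul_le_mul_of_nonneg_right _ h0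
      linarith
    linarith
  have k5 : a ^ 2 ≤ 4 / 100 * n ^ 2 := by
    rw [← sq_abs a]
    calc |a| ^ 2 ≤ (2 / 10 * n) ^ 2 := by gcongr
      _ = 4 / 100 * n ^ 2 := by ring
  have hw2 : D.w ^ 2 ≤ n ^ 2 / 16 := by
    calc D.w ^ 2 ≤ (n / 4) ^ 2 := by
          gcongr
          linarith
      _ = n ^ 2 / 16 := by ring
  have k6 : 96 / 100 * n ^ 2 ≤ y ^ 2 := by linarith
  have hn0 : 0 < n ^ 2 := by
    have : 0 < n := by linarith
    positivity
  have h6 : ρ ^ 2 < (64 * |y|) ^ 2 := by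
    rw [hrw, mul_pow, sq_abs]
    linarith
  exact lt_of_pow_lt_pow_left₀ 2 (by positivity) h6

theorem netFlat_apex (D : Dat) (b b' : Bool) (z : ℂ) (h : z ∈ D.Chart)
    (h1 : |‖z‖ ^ 2 - ‖D.apex b'‖ ^ 2| ≤ D.w) (h2 : b = b' → 4 * D.w < ‖z - D.apex b'‖) :
    D.NetFlat b z := by
  obtain ⟨s1, s2, s3, s4, s5, s6, s7⟩ := D.k_sc
  have hsg : b = b' → (∀ᶠ y in nhds z, D.sg b y = 0) ∨ ∀ᶠ y in nhds z, D.sg b y = 1 := by
    rintro rfl
    exact k_softH_ev s6 (f := fun z => z - D.apex b) (by fun_prop) (D.k_sg_apex h b h1 (h2 rfl))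
  rw [abs_le] at h1
  cases b'
  · have hA := D.k_AA_zero_ev h (by have := D.k_apexF_norm; linarith)
    cases b
    · rcases hsg rfl with hs | hs
      · apply D.k_flat_dn
        filter_upwards [hA, hs] with y y1 y2
        simp only [PP, BB, y1, y2, cond_false]
        simp
      · apply D.k_flat_up
        filter_upwards [hA, hs] with y y1 y2
        simp only [PP, BB, y1, y2, cond_false]
        simp
    · apply D.k_flat_tau
      filter_upwards [hA] with y y1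
      simp only [PP, BB, y1, cond_true]
      simp
  · have hA := D.k_AA_one_ev h (by have := D.k_apexT_norm; linarith)
    cases b
    · apply D.k_flat_tau
      filter_upwards [hA] with y y1
      simp only [PP, BB, y1, cond_false]
      simp
    · rcases hsg rfl with hs | hs
      · apply D.k_flat_dn
        filter_upwards [hA, hs] with y y1 y2
        simp only [PP, BB, y1, y2, cond_true]
        simp
      · apply D.k_flat_up
        filter_upwards [hA, hs] with y y1 y2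
        simp only [PP, BB, y1, y2, cond_true]
        simp

end Dat
end Pool.Agent.ShearComposite
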