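import Pool.Agent.ShearComposite.DatOf
import Pool.Agent.ShearComposite.ChartNet
import Pool.Agent.ShearComposite.ChartMech

/-!
# The global net and the global mechanism
-/

open Complex ComplexConjugate MeasureTheory Metric
open scoped ContDiff

namespace Pool.Agent.ShearComposite

/-! ### smoothness -/

theorem g_aff (A B C : ℂ) : ContDiff ℝ ∞ (aff A B C) := by
  have h1 : ContDiff ℝ ∞ (fun z : ℂ => B * z) := contDiff_const.mul contDiff_id
  have h2 : ContDiff ℝ ∞ (fun z : ℂ => C * conj z) :=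
    contDiff_const.mul Complex.conjCLE.contDiff
  exact (contDiff_const.add h1).add h2

theorem g_softH {w : ℝ} (hw : 0 < w) : ContDiff ℝ ∞ (softH w) := by
  obtain ⟨C, _, h⟩ := softH_jet
  exact (h w hw).1

namespace Dat

variable (D : Dat)

theorem g_tau (b : Bool) : ContDiff ℝ ∞ (D.tau b) := by
  cases b
  · exact g_aff _ _ _
  · exact g_aff _ _ _

theorem g_mul (a : ℂ) : ContDiff ℝ ∞ (fun z : ℂ => a * z) := contDiff_const.mul contDiff_id

theorem g_up (b : Bool) : ContDiff ℝ ∞ (D.up b) :=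
  contDiff_const.mul ((D.g_tau (!b)).comp (g_mul _))

theorem g_dn (b : Bool) : ContDiff ℝ ∞ (D.dn b) :=
  contDiff_const.mul ((D.g_tau (!b)).comp (g_mul _))

theorem g_h2 : ContDiff ℝ ∞ D.h2 :=
  (g_softH D.hw).comp (contDiff_const.mul ((g_mul _).sub contDiff_const))

theorem g_h1 : ContDiff ℝ ∞ D.h1 :=
  (g_softH D.hw).comp (contDiff_const.mul ((g_mul _).sub contDiff_const))

theorem g_im : ContDiff ℝ ∞ (fun z : ℂ => z.im) := Complex.imCLM.contDiff

theorem g_ee : ContDiff ℝ ∞ D.ee :=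
  j_S_contDiff.comp ((contDiff_const.mul g_im).div_const _)

theorem g_AA : ContDiff ℝ ∞ D.AA :=
  ((contDiff_const.sub D.g_ee).mul D.g_h1).add (D.g_ee.mul D.g_h2)

theorem g_sg (b : Bool) : ContDiff ℝ ∞ (D.sg b) :=
  (g_softH D.hw).comp (contDiff_id.sub contDiff_const)

theorem g_BB (b : Bool) : ContDiff ℝ ∞ (D.BB b) := by
  cases b
  · exact contDiff_const.sub D.g_AA
  · exact D.g_AA

theorem g_PP (b : Bool) : ContDiff ℝ ∞ (D.PP b) :=
  (D.g_tau b).add ((D.g_BB b).smul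
    (((D.g_dn b).sub (D.g_tau b)).add ((D.g_sg b).smul ((D.g_up b).sub (D.g_dn b)))))

theorem g_normsq : ContDiff ℝ ∞ (fun z : ℂ => ‖z‖ ^ 2) := contDiff_norm_sq ℝ

theorem g_YY : ContDiff ℝ ∞ D.YY := by
  have h : ContDiff ℝ ∞ (fun z : ℂ => 2 * (‖z‖ ^ 2 - 1) / D.s) :=
    (contDiff_const.mul (g_normsq.sub contDiff_const)).div_const _
  exact (j_S_contDiff.comp (contDiff_const.add h)).mul
    (j_S_contDiff.comp (contDiff_const.sub h))

theorem g_GG (b : Bool) : ContDiff ℝ ∞ (D.GG b) :=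
  D.g_YY.smul ((D.g_PP b).sub (contDiff_id.pow 2))

theorem g_UU (b : Bool) : ContDiff ℝ ∞ (D.UU b) := by
  cases b
  · exact contDiff_const.mul (contDiff_const.sub (g_mul _))
  · exact contDiff_const.mul ((g_mul _).sub contDiff_const)

theorem g_jump : ContDiff ℝ ∞ D.jump := by
  have h1 : ContDiff ℝ ∞ (fun z : ℂ => (D.qb * z).im / D.w) := (g_im.comp (g_mul _)).div_const _
  have h2 : ContDiff ℝ ∞ (fun z : ℂ => -(D.q * z).im / D.w) :=
    (g_im.comp (g_mul _)).neg.div_const _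
  exact ((j_S_contDiff.comp h1).smul (contDiff_const.sub contDiff_id)).add
    ((j_S_contDiff.comp h2).smul (contDiff_const.sub contDiff_id))

theorem g_CC (b : Bool) : ContDiff ℝ ∞ (D.CC b) :=
  (D.g_UU b).add (contDiff_const.mul D.g_jump)

theorem g_chi1 : ContDiff ℝ ∞ D.chi1 :=
  j_S_contDiff.comp ((g_normsq.sub contDiff_const).div_const _)

theorem g_chi2 : ContDiff ℝ ∞ D.chi2 :=
  j_S_contDiff.comp ((g_normsq.sub contDiff_const).div_const _)

theorem g_FU (b : Bool) : ContDiff ℝ ∞ (D.FU b) :=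
  (D.g_chi1.smul (D.g_CC b)).add (D.g_chi2.smul (contDiff_id.sub (D.g_CC b)))

/-! ### values far from the unit circle -/

theorem g_YY_zero {z : ℂ} (h : 4 * D.s ≤ |‖z‖ ^ 2 - 1|) : D.YY z = 0 := by
  have hs := D.hs
  unfold YY
  rcases le_abs.1 h with h | h
  · rw [j_S_zero (t := 7 - 2 * (‖z‖ ^ 2 - 1) / D.s), mul_zero]
    have : 8 ≤ 2 * (‖z‖ ^ 2 - 1) / D.s := by rw [le_div_iff₀ hs]; linarith
    linarith
  · rw [j_S_zero (t := 7 + 2 * (‖z‖ ^ 2 - 1) / D.s), zero_mul]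
    have : 2 * (‖z‖ ^ 2 - 1) / D.s ≤ -8 := by rw [div_le_iff₀ hs]; linarith
    linarith

theorem g_GG_zero (b : Bool) {z : ℂ} (h : 4 * D.s ≤ |‖z‖ ^ 2 - 1|) : D.GG b z = 0 := by
  unfold GG
  rw [D.g_YY_zero h, zero_smul]

theorem g_apexT : ‖D.apex true‖ ^ 2 * (D.c + D.s) ^ 2 = 1 := by
  have h0 : (0 : ℝ) < D.c + D.s := add_pos D.hc D.hs
  have h1 : ‖D.apex true‖ = 1 / (D.c + D.s) := by
    simp only [apex, cond_true, norm_div, norm_one, r]
    rw [← ofReal_add, norm_real, Real.norm_eq_abs, abs_of_pos h0]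
  rw [h1]
  field_simp

theorem g_apexF : ‖D.apex false‖ ^ 2 * ((D.c - D.s) ^ 2 + (D.s ^ 2 * (D.c + D.s)) ^ 2) = 1 := by
  have h1 : ‖D.xi‖ ^ 2 = (D.c - D.s) ^ 2 + (D.s ^ 2 * (D.c + D.s)) ^ 2 := by
    rw [← normSq_eq_norm_sq, normSq_apply, D.xi_re, D.xi_im]
    ring
  have h2 : ‖D.xi‖ ≠ 0 := norm_ne_zero_iff.2 D.xi_ne
  rw [← h1]
  simp only [apex, cond_false, norm_div, norm_one]
  field_simp

theorem g_FU_out (b : Bool) {z : ℂ} (h : 1 + 3 * D.s ≤ ‖z‖ ^ 2) : D.FU b z = z := by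
  have hs := D.hs
  have hs' := D.hs'
  have hw := D.hw
  have hw' := D.hw'
  have hc := D.c_le
  have hc' := D.le_c
  have hT := D.g_apexT
  have hF := D.g_apexF
  have h1 : D.chi1 z = 1 := by
    unfold chi1
    apply j_S_one
    rw [le_div_iff₀ hw, one_mul]
    have h2 : ‖D.apex true‖ ^ 2 ≤ 1 := by
      have h3 : 1 ≤ (D.c + D.s) ^ 2 := by nlinarith
      nlinarith [sq_nonneg ‖D.apex true‖]
    linarith
  have h2 : D.chi2 z = 1 := by
    unfold chi2
    apply j_S_one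
    rw [le_div_iff₀ hw, one_mul]
    have h3 : ‖D.apex false‖ ^ 2 ≤ 1 + 5 / 2 * D.s := by
      have h4 : (1 - D.s - D.s ^ 2) ^ 2 ≤ (D.c - D.s) ^ 2 := by
        apply pow_le_pow_left₀
        · nlinarith
        · linarith
      have h5 : 1 ≤ (1 + 5 / 2 * D.s) * (1 - D.s - D.s ^ 2) ^ 2 := by
        have e : (1 + 5 / 2 * D.s) * (1 - D.s - D.s ^ 2) ^ 2 =
          1 + D.s * (1 / 2 - 6 * D.s - 1 / 2 * D.s ^ 2 + 6 * D.s ^ 3 + 5 / 2 * D.s ^ 4) := by ring
        rw [e]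
        have : 0 ≤ 1 / 2 - 6 * D.s - 1 / 2 * D.s ^ 2 + 6 * D.s ^ 3 + 5 / 2 * D.s ^ 4 := by
          have a1 : 0 ≤ D.s ^ 3 := by positivity
          have a2 : 0 ≤ D.s ^ 4 := by positivity
          nlinarith
        nlinarith
      have h6 : (1 - D.s - D.s ^ 2) ^ 2 ≤ (D.c - D.s) ^ 2 + (D.s ^ 2 * (D.c + D.s)) ^ 2 := by
        nlinarith [sq_nonneg (D.s ^ 2 * (D.c + D.s))]
      have h7 : 0 < (1 - D.s - D.s ^ 2) ^ 2 := by
        have : 0 < 1 - D.s - D.s ^ 2 := by nlinarith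
        positivity
      have h8 : ‖D.apex false‖ ^ 2 * (1 - D.s - D.s ^ 2) ^ 2 ≤ 1 :=
        (mul_le_mul_of_nonneg_left h6 (sq_nonneg _)).trans hF.le
      have h9 : ‖D.apex false‖ ^ 2 * (1 - D.s - D.s ^ 2) ^ 2 ≤
          (1 + 5 / 2 * D.s) * (1 - D.s - D.s ^ 2) ^ 2 := h8.trans h5
      exact le_of_mul_le_mul_right h9 h7
    linarith
  unfold FU
  rw [h1, h2, one_smul, one_smul]
  ring

theorem g_FU_in (b : Bool) {z : ℂ} (h : ‖z‖ ^ 2 ≤ 1 - 3 * D.s) : D.FU b z = 0 := by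
  have hs := D.hs
  have hs' := D.hs'
  have hw := D.hw
  have hw' := D.hw'
  have hc := D.c_le
  have hc' := D.le_c
  have hcs := D.hcs
  have hT := D.g_apexT
  have hF := D.g_apexF
  have h1 : D.chi1 z = 0 := by
    unfold chi1
    apply j_S_zero
    rw [div_le_iff₀ hw]
    have h2 : 1 - 2 * D.s ≤ ‖D.apex true‖ ^ 2 := by
      have h3 : (D.c + D.s) ^ 2 ≤ 1 + 2 * D.s := by nlinarith
      have h4 : 0 ≤ ‖D.apex true‖ ^ 2 := sq_nonneg _
      have h5 : 1 ≤ ‖D.apex true‖ ^ 2 * (1 + 2 * D.s) :=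
        hT.symm.le.trans (mul_le_mul_of_nonneg_left h3 h4)
      have h6 : (1 - 2 * D.s) * (1 + 2 * D.s) ≤ 1 := by nlinarith
      exact le_of_mul_le_mul_right (h6.trans h5) (by linarith)
    linarith
  have h2 : D.chi2 z = 0 := by
    unfold chi2
    apply j_S_zero
    rw [div_le_iff₀ hw]
    have h3 : 1 ≤ ‖D.apex false‖ ^ 2 := by
      have h4 : (D.c - D.s) ^ 2 + (D.s ^ 2 * (D.c + D.s)) ^ 2 ≤ 1 := by
        have a1 : (D.c + D.s) ^ 2 ≤ 2 := by nlinarith
        have a2 : (D.s ^ 2 * (D.c + D.s)) ^ 2 ≤ D.s ^ 4 * 2 := by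
          rw [mul_pow, ← pow_mul]
          exact mul_le_mul_of_nonneg_left a1 (by positivity)
        have a3 : D.s ^ 4 * 2 ≤ D.s := by
          have : D.s ^ 4 = D.s * D.s ^ 3 := by ring
          have a4 : D.s ^ 3 ≤ 1 / 2 := by
            calc D.s ^ 3 ≤ (1 / 100) ^ 3 := pow_le_pow_left₀ hs.le hs' 3
              _ ≤ 1 / 2 := by norm_num
          nlinarith
        nlinarith
      have h5 : ‖D.apex false‖ ^ 2 * ((D.c - D.s) ^ 2 + (D.s ^ 2 * (D.c + D.s)) ^ 2) ≤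
          ‖D.apex false‖ ^ 2 * 1 := mul_le_mul_of_nonneg_left h4 (sq_nonneg _)
      linarith
    linarith
  unfold FU
  rw [h1, h2, zero_smul, zero_smul, add_zero]

end Dat

/-! ### sectors and charts -/

theorem g_s_bounds (m : ℕ) (hm : 9 ≤ m) :
    999 / 1000 * (dlt m / 2) ≤ (datOf m hm).s ∧ (datOf m hm).s ≤ dlt m / 2 := by
  have h1 := dlt_pos m
  have h2 := dlt_le hm
  change 999 / 1000 * (dlt m / 2) ≤ Real.sin (dlt m / 2) ∧ Real.sin (dlt m / 2) ≤ dlt m / 2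
  refine ⟨?_, Real.sin_le (by linarith)⟩
  have h3 := Real.sin_gt_sub_cube (x := dlt m / 2) (by linarith)
  have h4 : (dlt m / 2) ^ 3 / 6 ≤ 1 / 1000 * (dlt m / 2) := by
    have h5 : (dlt m / 2) ^ 2 ≤ (1 / 150) ^ 2 := pow_le_pow_left₀ (by linarith) (by linarith) 2
    have h6 : (dlt m / 2) ^ 3 = (dlt m / 2) * (dlt m / 2) ^ 2 := by ring
    rw [h6]
    nlinarith
  linarith

theorem g_chart_of_arg (m : ℕ) (hm : 9 ≤ m) (z : ℂ) (hz : |arg z| ≤ 3 / 5 * dlt m)
    (h : |‖z‖ ^ 2 - 1| ≤ 4 * (datOf m hm).s) : z ∈ (datOf m hm).Chart := by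
  obtain ⟨hs1, hs2⟩ := g_s_bounds m hm
  have hs := (datOf m hm).hs
  have hs' := (datOf m hm).hs'
  set s := (datOf m hm).s with hsdef
  have hd := dlt_pos m
  rw [abs_le] at h
  have hn := norm_nonneg z
  have hr1 : ‖z‖ ≤ 1 + 2 * s := by
    apply le_of_sq_le_sq _ (by linarith)
    nlinarith [h.2]
  have hr2 : 1 - 2 * s - 4 * s ^ 2 ≤ ‖z‖ := by
    apply le_of_sq_le_sq _ hn
    have e : (1 - 2 * s - 4 * s ^ 2) ^ 2 = 1 - 4 * s - 4 * s ^ 2 * (1 - 4 * s - 4 * s ^ 2) := by ring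
    rw [e]
    have : 0 ≤ 4 * s ^ 2 * (1 - 4 * s - 4 * s ^ 2) := by
      apply mul_nonneg (by positivity)
      nlinarith
    linarith [h.1]
  have hargs : |arg z| ≤ 1202 / 1000 * s := by
    refine hz.trans ?_
    linarith
  have hre : z.re = ‖z‖ * Real.cos (arg z) := (Complex.norm_mul_cos_arg z).symm
  have him : z.im = ‖z‖ * Real.sin (arg z) := (Complex.norm_mul_sin_arg z).symm
  have hcos1 : Real.cos (arg z) ≤ 1 := Real.cos_le_one _
  have hcos2 : 1 - (arg z) ^ 2 / 2 ≤ Real.cos (arg z) := Real.one_sub_sq_div_two_le_cos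
  have hsin : |Real.sin (arg z)| ≤ |arg z| := Real.abs_sin_le_abs
  have harg2 : (arg z) ^ 2 ≤ (1202 / 1000 * s) ^ 2 := by
    rw [← sq_abs]
    exact pow_le_pow_left₀ (abs_nonneg _) hargs 2
  constructor
  · rw [abs_le]
    constructor
    · rw [hre]
      have h1 : ‖z‖ * (1 - (arg z) ^ 2 / 2) ≤ ‖z‖ * Real.cos (arg z) :=
        mul_le_mul_of_nonneg_left hcos2 hn
      have h2 : ‖z‖ * ((arg z) ^ 2 / 2) ≤ (1 + 2 * s) * ((1202 / 1000 * s) ^ 2 / 2) := by
        gcongr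
      have h3 : (1 + 2 * s) * ((1202 / 1000 * s) ^ 2 / 2) ≤ s ^ 2 := by
        have : (1 + 2 * s) * (1202 / 1000) ^ 2 / 2 ≤ 1 := by linarith
        nlinarith [sq_nonneg s]
      nlinarith
    · rw [hre]
      have h1 : ‖z‖ * Real.cos (arg z) ≤ ‖z‖ * 1 := mul_le_mul_of_nonneg_left hcos1 hn
      linarith
  · rw [him, abs_mul, abs_of_nonneg hn]
    calc ‖z‖ * |Real.sin (arg z)| ≤ (1 + 2 * s) * (1202 / 1000 * s) := by
          apply mul_le_mul hr1 (hsin.trans hargs) (abs_nonneg _) (by linarith)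
      _ ≤ 3 / 2 * s := by nlinarith

/-- in a sector, the points with `| |z|² - 1 | ≤ 4 s` lie in the chart (after rotation) -/
theorem sector_chart (m : ℕ) (hm : 9 ≤ m) (k : ℤ) (z : ℂ) (hz : z ∈ Sector (dlt m) k)
    (h : |‖z‖ ^ 2 - 1| ≤ 4 * (datOf m hm).s) :
    Complex.exp (-(k * dlt m) * Complex.I) * z ∈ (datOf m hm).Chart := by
  apply g_chart_of_arg
  · exact hz.2.le
  · have : ‖Complex.exp (-((k : ℂ) * (dlt m : ℂ)) * Complex.I) * z‖ = ‖z‖ := by
      rw [norm_mul]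
      have h1 : -((k : ℂ) * (dlt m : ℂ)) * Complex.I = ((-(k * dlt m) : ℝ) : ℂ) * Complex.I := by
        push_cast; ring
      rw [h1, Complex.norm_exp_ofReal_mul_I, one_mul]
    rw [this]
    exact h

theorem g_q_sq (m : ℕ) (hm : 9 ≤ m) : (datOf m hm).q ^ 2 = Complex.exp (dlt m * Complex.I) := by
  have h : (datOf m hm).q = Complex.exp ((dlt m / 2 : ℝ) * Complex.I) := by
    rw [Complex.exp_mul_I]
    simp only [Dat.q]
    rw [← Complex.ofReal_cos, ← Complex.ofReal_sin]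
    rfl
  rw [h, ← Complex.exp_nat_mul]
  congr 1
  push_cast
  ring

theorem g_qb_sq (m : ℕ) (hm : 9 ≤ m) :
    (datOf m hm).qb ^ 2 = Complex.exp (-(dlt m : ℂ) * Complex.I) := by
  have h := (datOf m hm).q_mul_qb
  have h1 := g_q_sq m hm
  have h2 : (datOf m hm).q ^ 2 * (datOf m hm).qb ^ 2 = 1 := by rw [← mul_pow, h, one_pow]
  rw [h1] at h2
  have h3 : Complex.exp (dlt m * Complex.I) * Complex.exp (-(dlt m : ℂ) * Complex.I) = 1 := by
    rw [← Complex.exp_add]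
    simp
  exact mul_left_cancel₀ (Complex.exp_ne_zero _) (h2.trans h3.symm)

theorem g_norm_exp (m : ℕ) (k : ℤ) : ‖Complex.exp ((k : ℂ) * (dlt m : ℂ) * Complex.I)‖ = 1 := by
  have h1 : (k : ℂ) * (dlt m : ℂ) * Complex.I = ((k * dlt m : ℝ) : ℂ) * Complex.I := by
    push_cast; ring
  rw [h1, Complex.norm_exp_ofReal_mul_I]

theorem g_sector_exists {δ : ℝ} (hδ0 : 0 < δ) (hδ1 : δ ≤ 1) (z : ℂ) (hz : 1 / 2 < ‖z‖) :
    ∃ k : ℤ, z ∈ Sector δ k := by
  have hpi := Real.pi_gt_three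
  have hz0 : z ≠ 0 := by
    rw [← norm_pos_iff]
    linarith
  have hr := abs_sub_round (Complex.arg z / δ)
  set k := round (Complex.arg z / δ) with hk
  rw [abs_le] at hr
  have h1 : -(1 / 2) * δ ≤ Complex.arg z - k * δ := by
    have := mul_le_mul_of_nonneg_right hr.1 hδ0.le
    rw [sub_mul, div_mul_cancel₀ _ hδ0.ne'] at this
    linarith
  have h2 : Complex.arg z - k * δ ≤ 1 / 2 * δ := by
    have := mul_le_mul_of_nonneg_right hr.2 hδ0.le
    rw [sub_mul, div_mul_cancel₀ _ hδ0.ne'] at this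
    linarith
  refine ⟨k, hz, ?_⟩
  have hcast : (-((k : ℂ) * (δ : ℂ)) * Complex.I) = -((k * δ : ℝ) : ℂ) * Complex.I := by
    push_cast
    ring
  rw [hcast, h_arg_eq (k * δ) (Complex.arg z - k * δ) z hz0 (by linarith) (by linarith) 0
    (by simp)]
  rw [abs_lt]
  constructor <;> linarith

/-- gluing of fields given in the charts -/
theorem g_main (m : ℕ) (hm : 9 ≤ m) (n : ℕ) (t : ℝ) (ht : t ≤ 4 * (datOf m hm).s)
    (H : Bool → ℂ → ℂ) (E : ℂ → ℂ)
    (hH : ∀ b, ContDiff ℝ ∞ (H b))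
    (hov : ∀ b z, z ∈ (datOf m hm).Chart → (datOf m hm).qb ^ 2 * z ∈ (datOf m hm).Chart →
      H b z = (datOf m hm).q ^ (2 * n) * H (!b) ((datOf m hm).qb ^ 2 * z))
    (hE : ∀ b (u z : ℂ), ‖u‖ = 1 → t ≤ |‖z‖ ^ 2 - 1| → u ^ n * H b (u⁻¹ * z) = E z)
    (hE0 : ∀ z, ‖z‖ ≤ 3 / 5 → E z = 0) :
    ∃ Ξ : ℂ → ℂ, ContDiff ℝ ∞ Ξ ∧ (∀ z, t ≤ |‖z‖ ^ 2 - 1| → Ξ z = E z) ∧
    ∀ (k : ℤ), ∀ z ∈ Sector (dlt m) k, Ξ z = Complex.exp (k * dlt m * Complex.I) ^ n *
      H (decide (Even k)) (Complex.exp (-(k * dlt m) * Complex.I) * z) := by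
  have hd := dlt_pos m
  have hd' := dlt_le hm
  have hpi := Real.pi_gt_three
  have hs := (datOf m hm).hs
  have hs' := (datOf m hm).hs'
  set D := datOf m hm with hD
  set F : ℤ → ℂ → ℂ := fun k z => Complex.exp (k * dlt m * Complex.I) ^ n *
      H (decide (Even k)) (Complex.exp (-(k * dlt m) * Complex.I) * z) with hF
  have hinv : ∀ k : ℤ, Complex.exp (-((k : ℂ) * (dlt m : ℂ)) * Complex.I) =
      (Complex.exp ((k : ℂ) * (dlt m : ℂ) * Complex.I))⁻¹ := by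
    intro k
    rw [← Complex.exp_neg]
    congr 1
    ring
  have hFE : ∀ (k : ℤ) (z : ℂ), t ≤ |‖z‖ ^ 2 - 1| → F k z = E z := by
    intro k z h
    simp only [hF]
    rw [hinv]
    exact hE _ _ _ (g_norm_exp m k) h
  have hFs : ∀ k, ContDiff ℝ ∞ (F k) := by
    intro k
    exact contDiff_const.mul ((hH _).comp (contDiff_const.mul contDiff_id))
  have hper : ∀ k : ℤ, F (k + (2 ^ m : ℕ)) = F k := by
    intro k
    have h1 : Complex.exp (((k + (2 ^ m : ℕ) : ℤ) : ℂ) * (dlt m : ℂ) * Complex.I) =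
        Complex.exp ((k : ℂ) * (dlt m : ℂ) * Complex.I) := by
      have e : ((k + (2 ^ m : ℕ) : ℤ) : ℂ) * (dlt m : ℂ) * Complex.I =
          (k : ℂ) * (dlt m : ℂ) * Complex.I + 2 * Real.pi * Complex.I := by
        have h2 := dlt_mul m
        have h3 : (((2 ^ m : ℕ) : ℝ) : ℂ) * (dlt m : ℂ) = 2 * (Real.pi : ℂ) := by
          exact_mod_cast h2
        push_cast at h3 ⊢
        linear_combination Complex.I * h3
      rw [e, Complex.exp_periodic]
    have h4 : (decide (Even (k + ((2 ^ m : ℕ) : ℤ)))) = decide (Even k) := by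
      have h5 : Even (((2 ^ m : ℕ) : ℤ)) := by
        have : Even (2 ^ m : ℕ) := by
          rw [Nat.even_pow]
          exact ⟨even_two, by omega⟩
        exact_mod_cast this
      have h6 : Even (k + ((2 ^ m : ℕ) : ℤ)) ↔ Even k := by
        rw [Int.even_add]
        exact ⟨fun h => h.2 h5, fun h => ⟨fun _ => h5, fun _ => h⟩⟩
      rw [decide_eq_decide]
      exact h6
    ext z
    simp only [hF]
    rw [hinv, hinv, h1, h4]
  have hovF : ∀ (k : ℤ) (z : ℂ), 1 / 2 < ‖z‖ →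
      2 / 5 * dlt m ≤ Complex.arg (Complex.exp (-(k * dlt m) * Complex.I) * z) →
      Complex.arg (Complex.exp (-(k * dlt m) * Complex.I) * z) ≤ 3 / 5 * dlt m →
      F k z = F (k + 1) z := by
    intro k z hz h1 h2
    rcases le_total t |‖z‖ ^ 2 - 1| with hc | hc
    · rw [hFE k z hc, hFE (k + 1) z hc]
    set z' := Complex.exp (-((k : ℂ) * (dlt m : ℂ)) * Complex.I) * z with hz'
    have hnz' : ‖z'‖ = ‖z‖ := by
      rw [hz', norm_mul, hinv, norm_inv, g_norm_exp, inv_one, one_mul]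
    have hz'0 : z' ≠ 0 := by
      rw [← norm_pos_iff, hnz']
      linarith
    have hchart : z' ∈ D.Chart := by
      apply g_chart_of_arg
      · rw [abs_le]
        constructor <;> linarith
      · rw [hnz']
        exact hc.trans ht
    have harg2 : Complex.arg (D.qb ^ 2 * z') = Complex.arg z' - dlt m := by
      rw [hD, g_qb_sq]
      exact h_arg_eq (dlt m) (Complex.arg z' - dlt m) z' hz'0 (by linarith) (by linarith) 0 (by simp)
    have hn2 : ‖D.qb ^ 2 * z'‖ = ‖z‖ := by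
      rw [norm_mul, norm_pow, D.norm_qb, one_pow, one_mul, hnz']
    have hchart2 : D.qb ^ 2 * z' ∈ D.Chart := by
      apply g_chart_of_arg
      · rw [harg2, abs_le]
        constructor <;> linarith
      · rw [hn2]
        exact hc.trans ht
    have h3 := hov (decide (Even k)) z' hchart hchart2
    have h4 : (!decide (Even k)) = decide (Even (k + 1)) := by
      rw [← decide_not, decide_eq_decide]
      rw [Int.even_add_one]
    have h5 : Complex.exp (-(((k + 1 : ℤ) : ℂ) * (dlt m : ℂ)) * Complex.I) * z =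
        D.qb ^ 2 * z' := by
      rw [hD, g_qb_sq, hz', ← mul_assoc, ← Complex.exp_add]
      congr 2
      push_cast
      ring
    have h6 : Complex.exp (((k + 1 : ℤ) : ℂ) * (dlt m : ℂ) * Complex.I) ^ n =
        Complex.exp ((k : ℂ) * (dlt m : ℂ) * Complex.I) ^ n * D.q ^ (2 * n) := by
      rw [pow_mul, hD, g_q_sq, ← mul_pow, ← Complex.exp_add]
      congr 2
      push_cast
      ring
    simp only [hF]
    rw [h5, h6, ← hz', h3, h4]
    ring
  have hN8 : 8 ≤ 2 ^ m := by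
    calc 8 = 2 ^ 3 := by norm_num
      _ ≤ 2 ^ m := Nat.pow_le_pow_right (by norm_num) (by omega)
  obtain ⟨G, hG1, hG2, -⟩ := patch (2 ^ m) hN8 (dlt m) (dlt_mul m) F hFs hper hovF
  have hsec : ∀ z : ℂ, 1 / 2 < ‖z‖ → ∃ k : ℤ, z ∈ Sector (dlt m) k :=
    fun z hz => g_sector_exists hd (by linarith) z hz
  have hGE : ∀ z : ℂ, 1 / 2 < ‖z‖ → t ≤ |‖z‖ ^ 2 - 1| → G z = E z := by
    intro z hz h
    obtain ⟨k, hk⟩ := hsec z hz
    rw [hG1 k hk, hFE k z h]
  have hinner : ∀ z : ℂ, ‖z‖ ≤ 3 / 5 → t ≤ |‖z‖ ^ 2 - 1| := by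
    intro z hz
    rw [abs_sub_comm]
    refine le_trans ?_ (le_abs_self _)
    have := norm_nonneg z
    nlinarith
  refine ⟨fun z => if 1 / 2 < ‖z‖ then G z else 0, ?_, ?_, ?_⟩
  · rw [contDiff_iff_contDiffAt]
    intro z
    by_cases hz : 1 / 2 < ‖z‖
    · obtain ⟨k, hk⟩ := hsec z hz
      refine (hFs k).contDiffAt.congr_of_eventuallyEq ?_
      filter_upwards [(hG2 k).mem_nhds hk] with y hy
      rw [if_pos hy.1]
      exact hG1 k hy
    · push Not at hz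
      refine (contDiffAt_const (c := (0 : ℂ))).congr_of_eventuallyEq ?_
      have : ∀ᶠ y in nhds z, ‖y‖ < 3 / 5 :=
        (continuous_norm.continuousAt).eventually_lt_const (by linarith)
      filter_upwards [this] with y hy
      split_ifs with h
      · rw [hGE y h (hinner y hy.le), hE0 y hy.le]
      · rfl
  · intro z h
    change (if 1 / 2 < ‖z‖ then G z else 0) = E z
    split_ifs with hz
    · exact hGE z hz h
    · push Not at hz
      rw [hE0 z (by linarith)]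
  · intro k z hz
    change (if 1 / 2 < ‖z‖ then G z else 0) = _
    rw [if_pos hz.1]
    exact hG1 k hz

theorem global_net (m : ℕ) (hm : 9 ≤ m) : ∃ Ξ : ℂ → ℂ, ContDiff ℝ ∞ Ξ ∧
    (∀ z, 4 * (datOf m hm).s ≤ |‖z‖ ^ 2 - 1| → Ξ z = 0) ∧
    ∀ (k : ℤ), ∀ z ∈ Sector (dlt m) k, Ξ z = Complex.exp (2 * (k * dlt m) * Complex.I) *
      (datOf m hm).GG (decide (Even k)) (Complex.exp (-(k * dlt m) * Complex.I) * z) := by
  obtain ⟨Ξ, h1, h2, h3⟩ := g_main m hm 2 (4 * (datOf m hm).s) le_rfl (datOf m hm).GG (fun _ => 0)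
    (datOf m hm).g_GG (fun b z h h' => (datOf m hm).GG_overlap b z h h')
    (by
      intro b u z hu hz
      rw [(datOf m hm).g_GG_zero b, mul_zero]
      rw [norm_mul, norm_inv, hu, inv_one, one_mul]
      exact hz)
    (fun _ _ => rfl)
  refine ⟨Ξ, h1, h2, fun k z hz => ?_⟩
  rw [h3 k z hz, ← Complex.exp_nat_mul]
  congr 2
  push_cast
  ring

theorem global_mech (m : ℕ) (hm : 9 ≤ m) : ∃ u : ℂ → ℂ, ContDiff ℝ ∞ u ∧
    (∀ z, ‖z‖ ^ 2 ≤ 1 - 3 * (datOf m hm).s → u z = 0) ∧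
    (∀ z, 1 + 3 * (datOf m hm).s ≤ ‖z‖ ^ 2 → u z = z) ∧
    ∀ (k : ℤ), ∀ z ∈ Sector (dlt m) k, u z = Complex.exp ((k * dlt m) * Complex.I) *
      (datOf m hm).FU (decide (Even k)) (Complex.exp (-(k * dlt m) * Complex.I) * z) := by
  have hs := (datOf m hm).hs
  obtain ⟨Ξ, h1, h2, h3⟩ := g_main m hm 1 (3 * (datOf m hm).s) (by linarith) (datOf m hm).FU
    (fun z => if ‖z‖ < 1 then 0 else z)
    (datOf m hm).g_FU (fun b z h h' => by
      rw [mul_one]
      exact (datOf m hm).FU_overlap b z h h')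
    (by
      intro b u z hu hz
      have hu0 : u ≠ 0 := by
        rw [← norm_pos_iff, hu]
        norm_num
      have hn : ‖u⁻¹ * z‖ = ‖z‖ := by rw [norm_mul, norm_inv, hu, inv_one, one_mul]
      rw [pow_one]
      rcases le_abs.1 hz with h | h
      · rw [(datOf m hm).g_FU_out b (by rw [hn]; linarith)]
        have h4 : ¬ ‖z‖ < 1 := by
          intro h5
          have := norm_nonneg z
          nlinarith
        rw [if_neg h4, mul_inv_cancel_left₀ hu0]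
      · rw [(datOf m hm).g_FU_in b (by rw [hn]; linarith)]
        have h4 : ‖z‖ < 1 := by
          by_contra h5
          push Not at h5
          nlinarith
        rw [if_pos h4, mul_zero])
    (by
      intro z hz
      rw [if_pos (by linarith)])
  refine ⟨Ξ, h1, ?_, ?_, fun k z hz => ?_⟩
  · intro z hz
    rw [h2 z (by
      rw [abs_sub_comm]
      exact le_trans (by linarith) (le_abs_self _))]
    have h4 : ‖z‖ < 1 := by
      by_contra h5
      push Not at h5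
      nlinarith
    change (if ‖z‖ < 1 then (0 : ℂ) else z) = 0
    rw [if_pos h4]
  · intro z hz
    rw [h2 z (le_trans (by linarith) (le_abs_self _))]
    have h4 : ¬ ‖z‖ < 1 := by
      intro h5
      have := norm_nonneg z
      nlinarith
    change (if ‖z‖ < 1 then (0 : ℂ) else z) = z
    rw [if_neg h4]
  · rw [h3 k z hz, pow_one]

end Pool.Agent.ShearComposite
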