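import Pool.Agent.ShearComposite.DatOf
import Pool.Agent.ShearComposite.ChartBound
import Pool.Agent.ShearComposite.Global

/-!
# The `L²` bound of the second derivative of the net
-/

open Complex ComplexConjugate MeasureTheory Metric
open scoped ContDiff

namespace Pool.Agent.ShearComposite

/-- the nodes of the chart are close to `1` -/
theorem p_node_near (D : Dat) (b : Bool) : ‖D.apex b - 1‖ ≤ 11 / 10 * D.s := by
  have hs := D.hs
  have hs' := D.hs'
  have h1 := D.c_le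
  have h2 := D.le_c
  have hss : D.s ^ 2 ≤ D.s / 100 := by nlinarith
  cases b
  · -- 1 / xi
    have hx := D.xi_ne
    have e : D.apex false - 1 = (1 - D.xi) / D.xi := by
      simp only [Dat.apex, cond_false]; field_simp
    have hlow : 98 / 100 ≤ ‖D.xi‖ := by
      have : |D.xi.re| ≤ ‖D.xi‖ := Complex.abs_re_le_norm _
      rw [D.xi_re] at this
      have h3 := le_abs_self (D.c - D.s)
      nlinarith
    have hup : ‖1 - D.xi‖ ≤ 103 / 100 * D.s := by
      refine (Complex.norm_le_abs_re_add_abs_im _).trans ?_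
      have e1 : (1 - D.xi).re = 1 - (D.c - D.s) := by rw [Complex.sub_re, D.xi_re]; simp
      have e2 : (1 - D.xi).im = D.s ^ 2 * (D.c + D.s) := by rw [Complex.sub_im, D.xi_im]; simp
      rw [e1, e2, abs_of_nonneg (by linarith), abs_of_nonneg (by have := D.hc; positivity)]
      have : D.s ^ 2 * (D.c + D.s) ≤ D.s ^ 2 * (101 / 100) := by gcongr; linarith
      nlinarith
    rw [e, norm_div, div_le_iff₀ (by linarith)]
    nlinarith
  · have hr := D.r_ne
    have e : D.apex true - 1 = (1 - D.r) / D.r := by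
      simp only [Dat.apex, cond_true]; field_simp
    have er : D.r = ((D.c + D.s : ℝ) : ℂ) := by simp [Dat.r]
    have e1 : ‖D.r‖ = D.c + D.s := by
      rw [er, Complex.norm_real, Real.norm_eq_abs, abs_of_pos (by have := D.hc; positivity)]
    have e2 : ‖1 - D.r‖ = |1 - (D.c + D.s)| := by
      rw [er, ← Complex.ofReal_one, ← Complex.ofReal_sub, Complex.norm_real, Real.norm_eq_abs]
    have e3 : |1 - (D.c + D.s)| ≤ D.s := by
      rw [abs_le]; constructor <;> nlinarith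
    rw [e, norm_div, e1, e2, div_le_iff₀ (by linarith [D.hc])]
    nlinarith

/-- the nodes of the chart -/
noncomputable def p_nd (D : Dat) (b : Bool) : Fin 3 → ℂ := ![D.q, D.qb, D.apex b]

theorem p_nd_near (D : Dat) (b : Bool) (i : Fin 3) : ‖p_nd D b i - 1‖ ≤ 11 / 10 * D.s := by
  fin_cases i
  · exact D.norm_q_sub_one
  · exact D.norm_qb_sub_one
  · exact p_node_near D b

theorem p_chart_near (D : Dat) (b : Bool) (i : Fin 3) (z : ℂ) (hz : z ∈ D.Chart) :
    ‖z - p_nd D b i‖ ≤ 51 / 10 * D.s := by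
  have h1 : ‖z - 1‖ ≤ 4 * D.s := by
    refine (Complex.norm_le_abs_re_add_abs_im _).trans ?_
    have e1 : (z - 1).re = z.re - 1 := by simp
    have e2 : (z - 1).im = z.im := by simp
    rw [e1, e2]
    linarith [hz.1, hz.2]
  have e : z - p_nd D b i = (z - 1) - (p_nd D b i - 1) := by ring
  rw [e]
  refine (norm_sub_le _ _).trans ?_
  linarith [p_nd_near D b i]

/-- the square of the bound in the chart -/
theorem p_sq_bound (D : Dat) (b : Bool) (z : ℂ) (hz : z ∈ D.Chart) (C X : ℝ) (hC : 0 < C)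
    (hX0 : 0 ≤ X)
    (hX : X ≤ C * (1 + D.s / rw D.w (z - D.q) + D.s / rw D.w (z - D.qb)
      + D.s / rw D.w (z - D.apex b))) :
    X ^ 2 ≤ 200 * C ^ 2 * ∑ i : Fin 3, D.s ^ 2 * (1 / (‖z - p_nd D b i‖ ^ 2 + D.w ^ 2)) := by
  have hs := D.hs
  have hw := D.hw
  have hw' := D.hw'
  have key : ∀ i : Fin 3, (D.s / rw D.w (z - p_nd D b i)) ^ 2 =
      D.s ^ 2 * (1 / (‖z - p_nd D b i‖ ^ 2 + D.w ^ 2)) := by
    intro i
    rw [div_pow, j_rw_sq, mul_one_div]
  have k0 := key 0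
  have k1 := key 1
  have k2 := key 2
  rw [Fin.sum_univ_three, ← k0, ← k1, ← k2]
  have hone : (1 : ℝ) ≤ 27 * (D.s / rw D.w (z - p_nd D b 0)) ^ 2 := by
    rw [k0]
    have h1 := p_chart_near D b 0 z hz
    have h2 : ‖z - p_nd D b 0‖ ^ 2 + D.w ^ 2 ≤ 27 * D.s ^ 2 := by
      have h3 : ‖z - p_nd D b 0‖ ^ 2 ≤ (51 / 10 * D.s) ^ 2 := by gcongr
      have h4 : D.w ^ 2 ≤ (D.s / 100) ^ 2 := by gcongr
      nlinarith [sq_nonneg D.s]
    rw [mul_one_div, mul_div_assoc', le_div_iff₀ (by positivity)]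
    linarith
  have hx0 : 0 ≤ D.s / rw D.w (z - p_nd D b 0) := div_nonneg hs.le (j_rw_pos _ hw _).le
  have hx1 : 0 ≤ D.s / rw D.w (z - p_nd D b 1) := div_nonneg hs.le (j_rw_pos _ hw _).le
  have hx2 : 0 ≤ D.s / rw D.w (z - p_nd D b 2) := div_nonneg hs.le (j_rw_pos _ hw _).le
  change X ≤ C * (1 + D.s / rw D.w (z - p_nd D b 0) + D.s / rw D.w (z - p_nd D b 1)
      + D.s / rw D.w (z - p_nd D b 2)) at hX
  set x := D.s / rw D.w (z - p_nd D b 0)
  set y := D.s / rw D.w (z - p_nd D b 1)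
  set t := D.s / rw D.w (z - p_nd D b 2)
  calc X ^ 2 ≤ (C * (1 + x + y + t)) ^ 2 := by gcongr
    _ = C ^ 2 * (1 + x + y + t) ^ 2 := by ring
    _ ≤ C ^ 2 * (4 * (1 + x ^ 2 + y ^ 2 + t ^ 2)) := by
      refine mul_le_mul_of_nonneg_left ?_ (by positivity)
      nlinarith [sq_nonneg (1 - x), sq_nonneg (1 - y), sq_nonneg (1 - t), sq_nonneg (x - y),
        sq_nonneg (x - t), sq_nonneg (y - t)]
    _ ≤ C ^ 2 * (200 * (x ^ 2 + y ^ 2 + t ^ 2)) := by
      refine mul_le_mul_of_nonneg_left ?_ (by positivity)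
      nlinarith [sq_nonneg y, sq_nonneg t]
    _ = 200 * C ^ 2 * (x ^ 2 + y ^ 2 + t ^ 2) := by ring

/-- the second derivative is invariant under rotations -/
theorem p_rot (G : ℂ → ℂ) (u a : ℂ) (hu : ‖u‖ = 1) (ha : ‖a‖ = 1) (z : ℂ) :
    ‖iteratedFDeriv ℝ 2 (fun y => u * G (a * y)) z‖ = ‖iteratedFDeriv ℝ 2 G (a * z)‖ := by
  have ha' : a ∈ Submonoid.unitSphere ℂ := by simpa [Submonoid.unitSphere] using ha
  have hu' : u ∈ Submonoid.unitSphere ℂ := by simpa [Submonoid.unitSphere] using hu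
  let g : ℂ ≃ₗᵢ[ℝ] ℂ := rotation (⟨a, ha'⟩ : Circle)
  have hg : ∀ x, g x = a * x := fun x => rotation_apply _ _
  let g' : ℂ ≃ₗᵢ[ℝ] ℂ := rotation (⟨u, hu'⟩ : Circle)
  have hg' : ∀ x, g' x = u * x := fun x => rotation_apply _ _
  have e : (fun y => u * G (a * y)) = g' ∘ (G ∘ g) := by
    ext x; simp [hg, hg']
  rw [e, LinearIsometryEquiv.norm_iteratedFDeriv_comp_left,
    LinearIsometryEquiv.norm_iteratedFDeriv_comp_right, hg]

theorem p_exp_norm (x : ℝ) : ‖Complex.exp ((x : ℂ) * Complex.I)‖ = 1 :=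
  Complex.norm_exp_ofReal_mul_I x

/-- the exponential depends on the residue class only -/
theorem p_exp_mod (m : ℕ) (k : ℤ) :
    Complex.exp (-((k % (2 ^ m : ℕ) : ℤ) * dlt m) * Complex.I)
      = Complex.exp (-(k * dlt m) * Complex.I) := by
  rw [Complex.exp_eq_exp_iff_exists_int]
  refine ⟨k / (2 ^ m : ℕ), ?_⟩
  have h1 : (k : ℂ) = ((2 ^ m : ℕ) : ℤ) * ((k / (2 ^ m : ℕ) : ℤ) : ℂ) +
      ((k % (2 ^ m : ℕ) : ℤ) : ℂ) := by
    rw [← Int.cast_mul, ← Int.cast_add, Int.mul_ediv_add_emod]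
  have h2 : (((2 ^ m : ℕ) : ℤ) : ℂ) * (dlt m : ℂ) = 2 * Real.pi := by
    have := dlt_mul m
    exact_mod_cast this
  linear_combination Complex.I * ((dlt m : ℝ) : ℂ) * h1 + Complex.I * ((k / (2 ^ m : ℕ) : ℤ) : ℂ) * h2

/-- every point lies in the inner part of a sector -/
theorem p_cover_int (δ : ℝ) (hδ0 : 0 < δ) (hδ1 : δ ≤ Real.pi) (z : ℂ) (hz0 : z ≠ 0) :
    ∃ k : ℤ, |Complex.arg (Complex.exp (-(k * δ) * Complex.I) * z)| ≤ δ / 2 := by
  have hpi := Real.pi_pos
  refine ⟨round (Complex.arg z / δ), ?_⟩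
  set k := round (Complex.arg z / δ) with hk
  have hr := abs_sub_round (Complex.arg z / δ)
  rw [← hk, abs_le] at hr
  have h1 : -(1 / 2) * δ ≤ Complex.arg z - k * δ := by
    have := mul_le_mul_of_nonneg_right hr.1 hδ0.le
    rw [sub_mul, div_mul_cancel₀ _ hδ0.ne'] at this
    linarith
  have h2 : Complex.arg z - k * δ ≤ 1 / 2 * δ := by
    have := mul_le_mul_of_nonneg_right hr.2 hδ0.le
    rw [sub_mul, div_mul_cancel₀ _ hδ0.ne'] at this
    linarith
  have hcast : (-((k : ℂ) * (δ : ℂ)) * Complex.I) = -((k * δ : ℝ) : ℂ) * Complex.I := by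
    push_cast
    ring
  rw [hcast, h_arg_eq (k * δ) (Complex.arg z - k * δ) z hz0 (by linarith) (by linarith) 0
    (by simp)]
  rw [abs_le]
  constructor <;> linarith

/-- the sectors cover, with index in `0 ≤ k < 2 ^ m` -/
theorem p_cover (m : ℕ) (hm : 9 ≤ m) : (∀ k : ℤ, IsOpen (Sector (dlt m) k)) ∧
    ∀ z : ℂ, 1 / 2 < ‖z‖ → ∃ k : ℕ, k < 2 ^ m ∧ z ∈ Sector (dlt m) (k : ℤ) := by
  have h8 : 8 ≤ 2 ^ m := by
    calc 8 = 2 ^ 3 := by norm_num
      _ ≤ 2 ^ m := Nat.pow_le_pow_right (by norm_num) (by omega)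
  obtain ⟨G, -, h1, -⟩ := patch (2 ^ m) h8 (dlt m) (dlt_mul m) (fun _ _ => 0)
    (fun _ => contDiff_const) (fun _ => rfl) (fun _ _ _ _ _ => rfl)
  refine ⟨h1, fun z hz => ?_⟩
  have hz0 : z ≠ 0 := by
    rintro rfl
    rw [norm_zero] at hz
    norm_num at hz
  have hd := dlt_le hm
  have hpi := Real.pi_gt_three
  obtain ⟨k, hk⟩ := p_cover_int (dlt m) (dlt_pos m) (by linarith) z hz0
  have hpos : (0 : ℤ) < (2 ^ m : ℕ) := by positivity
  have hk0 := Int.emod_nonneg k hpos.ne'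
  have hk1 := Int.emod_lt_of_pos k hpos
  refine ⟨(k % (2 ^ m : ℕ)).toNat, ?_, hz, ?_⟩
  · omega
  · rw [Int.toNat_of_nonneg hk0, p_exp_mod]
    have := dlt_pos m
    linarith

/-- TASK P1 -/
theorem net_L2 : ∃ C : ℝ, 0 < C ∧ ∀ (m : ℕ) (hm : 9 ≤ m) (Ξ : ℂ → ℂ), ContDiff ℝ ∞ Ξ →
    (∀ z, 4 * (datOf m hm).s ≤ |‖z‖ ^ 2 - 1| → Ξ z = 0) →
    (∀ (k : ℤ), ∀ z ∈ Sector (dlt m) k, Ξ z = Complex.exp (2 * (k * dlt m) * Complex.I) *
      (datOf m hm).GG (decide (Even k)) (Complex.exp (-(k * dlt m) * Complex.I) * z)) →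
    ∫ z, ‖iteratedFDeriv ℝ 2 Ξ z‖ ^ 2 ≤ C * (m + 1) / 2 ^ m := by
  obtain ⟨C, hC, hG⟩ := Dat.GG_bound
  refine ⟨200 * C ^ 2 * (3 * (Real.pi ^ 2 * (Real.pi * 13))), by positivity, ?_⟩
  intro m hm Ξ hΞ h0 hsec
  obtain ⟨hopen, hcov⟩ := p_cover m hm
  set D := datOf m hm with hD
  have hs := D.hs
  have hs' := D.hs'
  have hw := D.hw
  have hpi := Real.pi_pos
  have hs4 : D.s = 4 ^ m * D.w := by
    change Real.sin (dlt m / 2) = 4 ^ m * (Real.sin (dlt m / 2) / 4 ^ m)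
    field_simp
  have hsle : D.s ≤ Real.pi / 2 ^ m := by
    have h1 := dlt_pos m
    have h3 := Real.sin_le (x := dlt m / 2) (by linarith)
    have h4 : dlt m / 2 = Real.pi / 2 ^ m := by unfold dlt; ring
    rw [h4] at h3
    change Real.sin (dlt m / 2) ≤ _
    rw [h4]
    exact h3
  have hball : 8 * D.s = 2 ^ (2 * m + 3) * D.w := by
    rw [hs4, pow_add, pow_mul]; ring
  -- the nodes
  let nu : ℕ → Fin 3 → ℂ := fun k i =>
    Complex.exp ((((k : ℤ) : ℝ) * dlt m : ℝ) * Complex.I) * p_nd D (decide (Even (k : ℤ))) i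
  let f : ℂ → ℂ → ℝ := fun a => (ball a (2 ^ (2 * m + 3) * D.w)).indicator
    (fun z => 1 / (‖z - a‖ ^ 2 + D.w ^ 2))
  have hf0 : ∀ a z, 0 ≤ f a z := by
    intro a z
    apply Set.indicator_nonneg
    intro y _
    positivity
  have hfi : ∀ a, Integrable (f a) := by
    intro a
    rw [integrable_indicator_iff measurableSet_ball]
    exact i_integrableOn a D.w hw _
  have hint : ∀ a, ∫ z, f a z ≤ Real.pi * (1 + 4 * ((2 * m + 3 : ℕ) : ℝ)) := by
    intro a
    rw [integral_indicator measurableSet_ball]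
    exact integral_inv_sq a D.w hw _
  have hpt : ∀ z, ‖iteratedFDeriv ℝ 2 Ξ z‖ ^ 2 ≤
      ∑ k ∈ Finset.range (2 ^ m), ∑ i : Fin 3, 200 * C ^ 2 * D.s ^ 2 * f (nu k i) z := by
    intro z
    by_cases hz : |‖z‖ ^ 2 - 1| ≤ 4 * D.s
    · have hz2 : 1 / 2 < ‖z‖ := by
        rw [abs_le] at hz
        by_contra hcon
        push Not at hcon
        nlinarith [norm_nonneg z]
      obtain ⟨k, hk, hkz⟩ := hcov z hz2
      have hch := sector_chart m hm k z hkz hz
      rw [← hD] at hch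
      set b := decide (Even (k : ℤ)) with hb
      set a := Complex.exp (-((k : ℤ) * dlt m) * Complex.I) with ha
      set a' := Complex.exp ((((k : ℤ) : ℝ) * dlt m : ℝ) * Complex.I) with ha'
      have haa : a * a' = 1 := by
        rw [ha, ha', ← Complex.exp_add, ← Complex.exp_zero]
        congr 1
        push_cast
        ring
      have hna' : ‖a'‖ = 1 := p_exp_norm _
      have hna : ‖a‖ = 1 := by
        have : ‖a‖ * ‖a'‖ = 1 := by rw [← norm_mul, haa, norm_one]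
        rwa [hna', mul_one] at this
      have heq : ‖iteratedFDeriv ℝ 2 Ξ z‖ = ‖iteratedFDeriv ℝ 2 (D.GG b) (a * z)‖ := by
        have hev : Ξ =ᶠ[nhds z] fun y => Complex.exp (2 * ((k : ℤ) * dlt m) * Complex.I) *
            D.GG b (a * y) := by
          filter_upwards [(hopen k).mem_nhds hkz] with y hy
          exact hsec k y hy
        rw [(hev.iteratedFDeriv ℝ 2).self_of_nhds]
        apply p_rot _ _ _ _ hna
        have : (2 * ((k : ℤ) * dlt m) * Complex.I : ℂ) =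
            ((2 * (((k : ℤ) : ℝ) * dlt m) : ℝ) : ℂ) * Complex.I := by push_cast; ring
        rw [this]
        exact p_exp_norm _
      have hb1 := p_sq_bound D b (a * z) hch C _ hC (norm_nonneg _) (hG D b (a * z) hch)
      rw [heq]
      refine hb1.trans ?_
      have hmem : k ∈ Finset.range (2 ^ m) := Finset.mem_range.2 hk
      refine le_trans ?_ (Finset.single_le_sum (f := fun k => ∑ i : Fin 3,
        200 * C ^ 2 * D.s ^ 2 * f (nu k i) z) (fun j _ => Finset.sum_nonneg fun i _ =>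
          mul_nonneg (by positivity) (hf0 _ _)) hmem)
      rw [Finset.mul_sum]
      apply Finset.sum_le_sum
      intro i _
      have e1 : ‖a * z - p_nd D b i‖ = ‖z - nu k i‖ := by
        have : a * z - p_nd D b i = a * (z - nu k i) := by
          change a * z - p_nd D b i = a * (z - a' * p_nd D b i)
          linear_combination p_nd D b i * haa
        rw [this, norm_mul, hna, one_mul]
      have e2 : z ∈ ball (nu k i) (2 ^ (2 * m + 3) * D.w) := by
        rw [mem_ball, dist_eq_norm, ← e1, ← hball]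
        have := p_chart_near D b i (a * z) hch
        linarith
      have e3 : f (nu k i) z = 1 / (‖z - nu k i‖ ^ 2 + D.w ^ 2) := Set.indicator_of_mem e2 _
      apply le_of_eq
      rw [e3, e1]
      ring
    · have hz' : iteratedFDeriv ℝ 2 Ξ z = 0 := by
        have hev : Ξ =ᶠ[nhds z] fun _ => 0 := by
          have hc : ContinuousAt (fun y : ℂ => |‖y‖ ^ 2 - 1|) z := by fun_prop
          filter_upwards [hc.eventually_const_lt (not_le.1 hz)] with y hy
          exact h0 y hy.le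
        rw [(hev.iteratedFDeriv ℝ 2).self_of_nhds]
        simp
      rw [hz', norm_zero]
      have : 0 ≤ ∑ k ∈ Finset.range (2 ^ m), ∑ i : Fin 3, 200 * C ^ 2 * D.s ^ 2 * f (nu k i) z :=
        Finset.sum_nonneg fun k _ => Finset.sum_nonneg fun i _ =>
          mul_nonneg (by positivity) (hf0 _ _)
      simpa using this
  have hI : ∫ z, ‖iteratedFDeriv ℝ 2 Ξ z‖ ^ 2 ≤
      ∫ z, ∑ k ∈ Finset.range (2 ^ m), ∑ i : Fin 3, 200 * C ^ 2 * D.s ^ 2 * f (nu k i) z := by
    apply integral_mono_of_nonneg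
    · exact Filter.Eventually.of_forall fun z => by positivity
    · apply integrable_finsetSum
      intro k _
      apply integrable_finsetSum
      intro i _
      exact (hfi _).const_mul _
    · exact Filter.Eventually.of_forall hpt
  refine hI.trans ?_
  rw [integral_finsetSum _ (fun k _ => integrable_finsetSum _ fun i _ => (hfi _).const_mul _)]
  have hsum : ∀ k ∈ Finset.range (2 ^ m),
      ∫ z, ∑ i : Fin 3, 200 * C ^ 2 * D.s ^ 2 * f (nu k i) z ≤
      3 * (200 * C ^ 2 * D.s ^ 2 * (Real.pi * (1 + 4 * ((2 * m + 3 : ℕ) : ℝ)))) := by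
    intro k _
    rw [integral_finsetSum _ (fun i _ => (hfi _).const_mul _)]
    calc ∑ i : Fin 3, ∫ z, 200 * C ^ 2 * D.s ^ 2 * f (nu k i) z
        ≤ ∑ _i : Fin 3, 200 * C ^ 2 * D.s ^ 2 * (Real.pi * (1 + 4 * ((2 * m + 3 : ℕ) : ℝ))) := by
          apply Finset.sum_le_sum
          intro i _
          rw [integral_const_mul]
          exact mul_le_mul_of_nonneg_left (hint _) (by positivity)
      _ = _ := by rw [Finset.sum_const, Finset.card_univ, Fintype.card_fin]; ring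
  refine (Finset.sum_le_sum hsum).trans ?_
  rw [Finset.sum_const, Finset.card_range, nsmul_eq_mul]
  push_cast
  have h2m : (0 : ℝ) < 2 ^ m := by positivity
  have hs2 : (2 : ℝ) ^ m * D.s ^ 2 ≤ Real.pi ^ 2 / 2 ^ m := by
    calc (2 : ℝ) ^ m * D.s ^ 2 ≤ 2 ^ m * (Real.pi / 2 ^ m) ^ 2 := by gcongr
      _ = Real.pi ^ 2 / 2 ^ m := by field_simp
  calc (2 : ℝ) ^ m * (3 * (200 * C ^ 2 * D.s ^ 2 * (Real.pi * (1 + 4 * (2 * m + 3)))))
      = 200 * C ^ 2 * (3 * ((2 ^ m * D.s ^ 2) * (Real.pi * (8 * m + 13)))) := by ring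
    _ ≤ 200 * C ^ 2 * (3 * ((Real.pi ^ 2 / 2 ^ m) * (Real.pi * (13 * (m + 1))))) := by
      gcongr
      have : (0 : ℝ) ≤ m := by positivity
      linarith
    _ = 200 * C ^ 2 * (3 * (Real.pi ^ 2 * (Real.pi * 13))) * (m + 1) / 2 ^ m := by ring

end Pool.Agent.ShearComposite
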