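import Pool.Agent.ShearComposite.Assembly
import Pool.Agent.ShearComposite.NetL2

/-!
# The device
-/

open Complex ComplexConjugate MeasureTheory Metric
open scoped ContDiff

namespace Pool.Agent.ShearComposite

/-- a real linear map in terms of its two coefficients -/
theorem p_clm (L : ℂ →L[ℝ] ℂ) (v : ℂ) : L v = dz L * v + dzb L * conj v := by
  have h : L v = v.re * L 1 + v.im * L I := by
    have e0 : v = v.re • (1 : ℂ) + v.im • I := by
      simp only [real_smul, mul_one]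
      exact (re_add_im v).symm
    conv_lhs => rw [e0]
    rw [map_add, map_smul, map_smul, real_smul, real_smul]
  have e1 : (v : ℂ) = v.re + v.im * I := (re_add_im v).symm
  have e2 : conj v = v.re - v.im * I := by
    conv_lhs => rw [e1]
    rw [map_add, map_mul, conj_ofReal, conj_ofReal, conj_I]
    ring
  rw [h, e2]
  conv_rhs => rw [e1]
  simp only [dz, dzb, add_re, mul_re, ofReal_re, ofReal_im, I_re, I_im, add_im, mul_im]
  simp only [mul_zero, mul_one, sub_zero, zero_add, add_zero]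
  linear_combination (v.im : ℂ) * L I * I_sq

theorem p_dz_of (L : ℂ →L[ℝ] ℂ) (A B : ℂ) (h : ∀ v, L v = A * v + B * conj v) :
    dz L = A ∧ dzb L = B := by
  have h1 := h 1
  have h2 := h I
  rw [(starRingEnd ℂ).map_one] at h1
  rw [conj_I] at h2
  constructor
  · rw [dz, h1, h2]
    linear_combination (- (A - B) / 2) * I_sq
  · rw [dzb, h1, h2]
    linear_combination ((A - B) / 2) * I_sq

/-- rotation invariance of the energy -/
theorem p_en_rot (L L' : ℂ →L[ℝ] ℂ) (a b : ℂ) (hab : a * b = 1) (ha : ‖a‖ = 1)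
    (h : ∀ v, L' v = a * L (b * v)) : en L' = en L := by
  have hb : ‖b‖ = 1 := by
    have := congrArg norm hab
    rw [norm_mul, ha, one_mul, norm_one] at this
    exact this
  have h1 : ∀ v, L' v = dz L * v + (a * dzb L * conj b) * conj v := by
    intro v
    rw [h, p_clm L, map_mul]
    linear_combination (dz L * v) * hab
  obtain ⟨e1, e2⟩ := p_dz_of L' _ _ h1
  rw [en, en, e1, e2, norm_mul, norm_mul, ha, norm_conj, hb, one_mul, mul_one]

theorem p_en_id : en (ContinuousLinearMap.id ℝ ℂ) = 1 := by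
  obtain ⟨e1, e2⟩ := p_dz_of (ContinuousLinearMap.id ℝ ℂ) 1 0 (by intro v; simp)
  rw [en, e1, e2]
  simp

theorem p_en_zero : en 0 = 0 := by
  simp [en, dz, dzb]

theorem p_en_nonneg (L : ℂ →L[ℝ] ℂ) : 0 ≤ en L := by
  unfold en; positivity

theorem p_dens_sub (u : ℂ → ℂ) (z : ℂ) (hu : DifferentiableAt ℝ u z) :
    (1 + (dz (fderiv ℝ (fun y => u y - y) z)).re) ^ 2 + ‖dzb (fderiv ℝ (fun y => u y - y) z)‖ ^ 2
      = en (fderiv ℝ u z) := by
  have e : fderiv ℝ (fun y => u y - y) z = fderiv ℝ u z - ContinuousLinearMap.id ℝ ℂ := by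
    exact (hu.hasFDerivAt.sub (hasFDerivAt_id z)).fderiv
  obtain ⟨e1, e2⟩ := p_dz_of (fderiv ℝ u z - ContinuousLinearMap.id ℝ ℂ)
    (dz (fderiv ℝ u z) - 1) (dzb (fderiv ℝ u z)) (by
      intro v
      rw [sub_apply, p_clm (fderiv ℝ u z) v]
      simp only [ContinuousLinearMap.coe_id', id_eq]
      ring)
  rw [e, e1, e2, en, sub_re, one_re]
  ring

/-- the energy of a rotated field -/
theorem p_en_transfer (u F : ℂ → ℂ) (a b z : ℂ) (hab : a * b = 1) (ha : ‖a‖ = 1)
    (hu : ContDiff ℝ ∞ u) (U : Set ℂ) (hU : IsOpen U) (hz : z ∈ U)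
    (h : ∀ y ∈ U, u y = a * F (b * y)) :
    en (fderiv ℝ F (b * z)) = en (fderiv ℝ u z) := by
  have haz : a * (b * z) = z := by rw [← mul_assoc, hab, one_mul]
  have hb : ‖b‖ = 1 := by
    have := congrArg norm hab
    rw [norm_mul, ha, one_mul, norm_one] at this
    exact this
  have h1 : F =ᶠ[nhds (b * z)] fun y => b * u (a * y) := by
    have hc : Continuous fun y : ℂ => a * y := by fun_prop
    have : ∀ᶠ y in nhds (b * z), a * y ∈ U :=
      hc.continuousAt.eventually_mem (hU.mem_nhds (by rw [haz]; exact hz))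
    filter_upwards [this] with y hy
    rw [h _ hy, ← mul_assoc, ← mul_assoc, mul_comm b a, hab, one_mul, one_mul]
  have hud : DifferentiableAt ℝ u (a * (b * z)) := hu.differentiable (by simp) _
  have h2 : HasFDerivAt (fun y => b * u (a * y))
      ((ContinuousLinearMap.mul ℝ ℂ b).comp
        ((fderiv ℝ u (a * (b * z))).comp (ContinuousLinearMap.mul ℝ ℂ a))) (b * z) := by
    have h3 : HasFDerivAt (fun y : ℂ => a * y) (ContinuousLinearMap.mul ℝ ℂ a) (b * z) :=
      (ContinuousLinearMap.mul ℝ ℂ a).hasFDerivAt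
    have h4 : HasFDerivAt (fun y : ℂ => b * y) (ContinuousLinearMap.mul ℝ ℂ b) (u (a * (b * z))) :=
      (ContinuousLinearMap.mul ℝ ℂ b).hasFDerivAt
    exact h4.comp (b * z) (hud.hasFDerivAt.comp (b * z) h3)
  rw [h1.fderiv_eq, h2.fderiv, haz]
  exact p_en_rot _ _ b a (by rw [mul_comm]; exact hab) hb (fun v => rfl)

/-- flatness is invariant under rotations -/
theorem p_flat_transfer (P : ℂ → ℂ) (b c z : ℂ) (hb : ‖b‖ = 1) (hc : ‖c‖ = 1)
    (h : ∀ᶠ y in nhds (b * z), iteratedFDeriv ℝ 2 P y = 0) (f : ℂ → ℂ)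
    (hf : ∀ᶠ y in nhds z, f y = c * P (b * y)) :
    ∀ᶠ y in nhds z, iteratedFDeriv ℝ 2 f y = 0 := by
  have hcont : Continuous fun y : ℂ => b * y := by fun_prop
  have h1 : ∀ᶠ y in nhds z, iteratedFDeriv ℝ 2 P (b * y) = 0 :=
    hcont.continuousAt.eventually h
  filter_upwards [h1, hf.eventually_nhds] with y hy hfy
  have h2 : f =ᶠ[nhds y] fun y => c * P (b * y) := hfy
  have h3 := (h2.iteratedFDeriv ℝ 2).eq_of_nhds
  let B : Circle := ⟨b, by simp [Submonoid.unitSphere, hb]⟩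
  let C : Circle := ⟨c, by simp [Submonoid.unitSphere, hc]⟩
  have h4 : (fun y => c * P (b * y)) = rotation C ∘ (P ∘ rotation B) := rfl
  rw [h3, h4, ← norm_eq_zero, LinearIsometryEquiv.norm_iteratedFDeriv_comp_left,
    LinearIsometryEquiv.norm_iteratedFDeriv_comp_right]
  change ‖iteratedFDeriv ℝ 2 P (b * y)‖ = 0
  rw [hy, norm_zero]

/-! ### sectors -/

theorem p_sectors (m : ℕ) (hm : 9 ≤ m) : (∀ k, IsOpen (Sector (dlt m) k)) ∧
    ∀ z : ℂ, 1 / 2 < ‖z‖ → ∃ k : ℕ, k < 2 ^ m ∧ z ∈ Sector (dlt m) k := by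
  have hN : 8 ≤ 2 ^ m := by
    calc 8 = 2 ^ 3 := by norm_num
      _ ≤ 2 ^ m := Nat.pow_le_pow_right (by norm_num) (by omega)
  obtain ⟨G, -, h1, -⟩ := patch (2 ^ m) hN (dlt m) (dlt_mul m) (fun _ _ => 0)
    (fun _ => contDiff_const) (fun _ => rfl) (fun _ _ _ _ _ => rfl)
  refine ⟨h1, fun z hz => ?_⟩
  have hd := dlt_pos m
  have hd2 := dlt_le hm
  have hpi := Real.pi_gt_three
  have hz0 : z ≠ 0 := by
    intro h
    rw [h, norm_zero] at hz
    linarith
  have hpos : (0 : ℤ) < ((2 ^ m : ℕ) : ℤ) := by positivity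
  set k0 : ℤ := round (arg z / dlt m) with hk0
  have hk1 := Int.emod_nonneg k0 hpos.ne'
  have hk2 := Int.emod_lt_of_pos k0 hpos
  obtain ⟨j, hj⟩ := Int.eq_ofNat_of_zero_le hk1
  have hr := abs_sub_round (arg z / dlt m)
  rw [← hk0, abs_le] at hr
  have hθ1 : arg z - k0 * dlt m ≤ dlt m / 2 := by
    have : (arg z / dlt m - k0) * dlt m ≤ 1 / 2 * dlt m := by gcongr; exact hr.2
    rw [sub_mul, div_mul_cancel₀ _ hd.ne'] at this
    linarith
  have hθ2 : -(dlt m / 2) ≤ arg z - k0 * dlt m := by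
    have : -(1 / 2) * dlt m ≤ (arg z / dlt m - k0) * dlt m := by gcongr; exact hr.1
    rw [sub_mul, div_mul_cancel₀ _ hd.ne'] at this
    linarith
  have e1 : (k0 : ℝ) = (j : ℝ) + ((2 ^ m : ℕ) : ℝ) * ((k0 / ((2 ^ m : ℕ) : ℤ) : ℤ) : ℝ) := by
    have := Int.emod_add_mul_ediv k0 ((2 ^ m : ℕ) : ℤ)
    rw [hj] at this
    have h3 := congrArg (fun t : ℤ => (t : ℝ)) this.symm
    simp only [Int.cast_add, Int.cast_mul, Int.cast_natCast] at h3
    exact h3
  have harg := h_arg_eq ((j : ℝ) * dlt m) (arg z - k0 * dlt m) z hz0 (by linarith) (by linarith)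
    (k0 / ((2 ^ m : ℕ) : ℤ)) (by
      have h3 := dlt_mul m
      rw [e1]
      linear_combination ((k0 / ((2 ^ m : ℕ) : ℤ) : ℤ) : ℝ) * h3)
  refine ⟨j, by omega, hz, ?_⟩
  have e2 : (-(((j : ℤ) : ℂ) * (dlt m : ℂ)) * Complex.I) =
      -(((j : ℝ) * dlt m : ℝ) : ℂ) * Complex.I := by
    push_cast
    ring
  rw [e2, harg, abs_lt]
  constructor <;> linarith

/-! ### the pointwise bound -/

/-- the outer radius -/
noncomputable def p_R (m : ℕ) (hm : 9 ≤ m) : ℝ := √(1 + 4 * (datOf m hm).s)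

theorem p_R_sq (m : ℕ) (hm : 9 ≤ m) : p_R m hm ^ 2 = 1 + 4 * (datOf m hm).s := by
  have := (datOf m hm).hs
  exact Real.sq_sqrt (by linarith)

theorem p_R_pos (m : ℕ) (hm : 9 ≤ m) : 0 < p_R m hm := by
  have := (datOf m hm).hs
  exact Real.sqrt_pos.2 (by linarith)

/-- the rotation by `k` bodies -/
noncomputable def p_E (m : ℕ) (k : ℤ) : ℂ := Complex.exp ((k * dlt m) * Complex.I)

theorem p_E_mul (m : ℕ) (k : ℤ) : p_E m k * Complex.exp (-(k * dlt m) * Complex.I) = 1 := by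
  rw [p_E, ← Complex.exp_add, ← Complex.exp_zero]
  congr 1
  ring

theorem p_E_norm (m : ℕ) (k : ℤ) : ‖p_E m k‖ = 1 := by
  have : ((k : ℂ) * (dlt m : ℂ)) = ((k * dlt m : ℝ) : ℂ) := by push_cast; ring
  rw [p_E, this, Complex.norm_exp_ofReal_mul_I]

theorem p_E_norm' (m : ℕ) (k : ℤ) : ‖Complex.exp (-(k * dlt m) * Complex.I)‖ = 1 := by
  have := congrArg norm (p_E_mul m k)
  rw [norm_mul, p_E_norm, one_mul, norm_one] at this
  exact this

theorem p_E_sq (m : ℕ) (k : ℤ) : Complex.exp (2 * (k * dlt m) * Complex.I) = p_E m k ^ 2 := by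
  rw [p_E, sq, ← Complex.exp_add]
  congr 1
  ring

/-- the void -/
def p_V (m : ℕ) (hm : 9 ≤ m) (Ξ : ℂ → ℂ) : Set ℂ :=
  interior {z | iteratedFDeriv ℝ 2 (fun z => z ^ 2 + Ξ z) z = 0} ∩ ball 0 (p_R m hm)

/-- the bound of the energy contributed by the body `k` -/
noncomputable def p_T (m : ℕ) (hm : 9 ≤ m) (k : ℤ) (z : ℂ) : ℝ :=
  (closedBall (p_E m k * (datOf m hm).q) (2 * (datOf m hm).w)).indicator (fun _ => 1) z +
  (closedBall (p_E m k * (datOf m hm).qb) (2 * (datOf m hm).w)).indicator (fun _ => 1) z +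
  (closedBall (p_E m k * (datOf m hm).apex (decide (Even k))) (4 * (datOf m hm).w)).indicator
    (fun _ => 1) z

/-- the bound of the energy -/
noncomputable def p_Bd (m : ℕ) (hm : 9 ≤ m) (C : ℝ) (z : ℂ) : ℝ :=
  (closedBall (0 : ℂ) (p_R m hm) \ ball 0 1).indicator (fun _ => 1) z +
    C / (datOf m hm).s ^ 4 * ∑ k ∈ Finset.range (2 ^ m), p_T m hm k z

theorem p_T_nonneg (m : ℕ) (hm : 9 ≤ m) (k : ℤ) (z : ℂ) : 0 ≤ p_T m hm k z := by
  unfold p_T
  have h : ∀ A : Set ℂ, 0 ≤ A.indicator (fun _ => (1 : ℝ)) z :=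
    fun A => Set.indicator_nonneg (fun _ _ => zero_le_one) z
  exact add_nonneg (add_nonneg (h _) (h _)) (h _)

theorem p_rest_nonneg (m : ℕ) (hm : 9 ≤ m) (C : ℝ) (hC : 0 < C) (z : ℂ) :
    0 ≤ C / (datOf m hm).s ^ 4 * ∑ k ∈ Finset.range (2 ^ m), p_T m hm k z := by
  have := (datOf m hm).hs
  have h := Finset.sum_nonneg (s := Finset.range (2 ^ m))
    (f := fun k : ℕ => p_T m hm k z) (fun k _ => p_T_nonneg m hm k z)
  positivity

theorem p_Bd_nonneg (m : ℕ) (hm : 9 ≤ m) (C : ℝ) (hC : 0 < C) (z : ℂ) :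
    0 ≤ p_Bd m hm C z := by
  have h2 : 0 ≤ (closedBall (0 : ℂ) (p_R m hm) \ ball 0 1).indicator (fun _ => (1 : ℝ)) z :=
    Set.indicator_nonneg (fun _ _ => zero_le_one) z
  exact add_nonneg h2 (p_rest_nonneg m hm C hC z)

theorem p_YY (D : Dat) (z : ℂ) (h : |‖z‖ ^ 2 - 1| ≤ 3 * D.s) : D.YY z = 1 := by
  have hs := D.hs
  rw [abs_le] at h
  have h1 : -6 ≤ 2 * (‖z‖ ^ 2 - 1) / D.s := by
    rw [le_div_iff₀ hs]; linarith
  have h2 : 2 * (‖z‖ ^ 2 - 1) / D.s ≤ 6 := by
    rw [div_le_iff₀ hs]; linarith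
  rw [Dat.YY, j_S_one (by linarith), j_S_one (by linarith), one_mul]

theorem p_ind (m : ℕ) (k : ℤ) (z a : ℂ) (ρ : ℝ) :
    (closedBall (p_E m k * a) ρ).indicator (fun _ => (1 : ℝ)) z =
      if ‖Complex.exp (-(k * dlt m) * Complex.I) * z - a‖ ≤ ρ then 1 else 0 := by
  classical
  have h1 : ‖Complex.exp (-(k * dlt m) * Complex.I) * z - a‖ = ‖z - p_E m k * a‖ := by
    have e : z - p_E m k * a = p_E m k * (Complex.exp (-(k * dlt m) * Complex.I) * z - a) := by
      linear_combination (-z) * p_E_mul m k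
    rw [e, norm_mul, p_E_norm, one_mul]
  rw [h1, Set.indicator_apply]
  simp only [mem_closedBall, dist_eq_norm]

theorem p_point (m : ℕ) (hm : 9 ≤ m) (C : ℝ) (hC : 0 < C)
    (hFU : ∀ (b : Bool) (z : ℂ), z ∈ (datOf m hm).Chart →
      ((datOf m hm).NetFlat b z ∧ |‖z‖ ^ 2 - 1| < 3 * (datOf m hm).s) ∨
      en (fderiv ℝ ((datOf m hm).FU b) z) ≤ (if 1 ≤ ‖z‖ then 1 else 0)
        + C / (datOf m hm).s ^ 4 * ((if ‖z - (datOf m hm).q‖ ≤ 2 * (datOf m hm).w then 1 else 0)
          + (if ‖z - (datOf m hm).qb‖ ≤ 2 * (datOf m hm).w then 1 else 0)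
          + (if ‖z - (datOf m hm).apex b‖ ≤ 4 * (datOf m hm).w then 1 else 0)))
    (u Ξ : ℂ → ℂ) (hu : ContDiff ℝ ∞ u)
    (hu0 : ∀ z, ‖z‖ ^ 2 ≤ 1 - 3 * (datOf m hm).s → u z = 0)
    (hu1 : ∀ z, 1 + 3 * (datOf m hm).s ≤ ‖z‖ ^ 2 → u z = z)
    (hu2 : ∀ (k : ℤ), ∀ z ∈ Sector (dlt m) k, u z = Complex.exp ((k * dlt m) * Complex.I) *
      (datOf m hm).FU (decide (Even k)) (Complex.exp (-(k * dlt m) * Complex.I) * z))
    (hΞ : ∀ (k : ℤ), ∀ z ∈ Sector (dlt m) k, Ξ z = Complex.exp (2 * (k * dlt m) * Complex.I) *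
      (datOf m hm).GG (decide (Even k)) (Complex.exp (-(k * dlt m) * Complex.I) * z))
    (z : ℂ) (hz : z ∈ closedBall (0 : ℂ) (p_R m hm)) (hzV : z ∉ p_V m hm Ξ) :
    en (fderiv ℝ u z) ≤ p_Bd m hm C z := by
  set D := datOf m hm with hD
  have hs := D.hs
  have hs' := D.hs'
  have hcn : Continuous fun y : ℂ => ‖y‖ ^ 2 := by fun_prop
  rcases lt_or_ge (‖z‖ ^ 2) (1 - 3 * D.s) with h1 | h1
  · have h2 : u =ᶠ[nhds z] fun _ => 0 := by
      have : ∀ᶠ y in nhds z, ‖y‖ ^ 2 < 1 - 3 * D.s :=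
        hcn.continuousAt.eventually_lt continuousAt_const h1
      filter_upwards [this] with y hy
      exact hu0 y hy.le
    rw [h2.fderiv_eq, fderiv_fun_const]
    change en 0 ≤ _
    rw [p_en_zero]
    exact p_Bd_nonneg m hm C hC z
  rcases lt_or_ge (1 + 3 * D.s) (‖z‖ ^ 2) with h2 | h2
  · have h3 : u =ᶠ[nhds z] fun y => y := by
      have : ∀ᶠ y in nhds z, 1 + 3 * D.s < ‖y‖ ^ 2 :=
        continuousAt_const.eventually_lt hcn.continuousAt h2
      filter_upwards [this] with y hy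
      exact hu1 y hy.le
    rw [h3.fderiv_eq, fderiv_fun_id, p_en_id]
    have h4 : z ∈ closedBall (0 : ℂ) (p_R m hm) \ ball 0 1 := by
      refine ⟨hz, fun h => ?_⟩
      rw [mem_ball_zero_iff] at h
      nlinarith [norm_nonneg z]
    rw [p_Bd, Set.indicator_of_mem h4]
    have := p_rest_nonneg m hm C hC z
    linarith
  have habs : |‖z‖ ^ 2 - 1| ≤ 3 * D.s := by
    rw [abs_le]; constructor <;> linarith
  have hnz : 1 / 2 < ‖z‖ := by nlinarith [norm_nonneg z]
  obtain ⟨hopen, hcov⟩ := p_sectors m hm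
  obtain ⟨k, hk, hzk⟩ := hcov z hnz
  set a' := Complex.exp (-((k : ℤ) * dlt m) * Complex.I) with ha'
  have haa := p_E_mul m k
  have hna := p_E_norm m k
  have hna' := p_E_norm' m k
  rw [← ha'] at haa hna'
  have hzc : a' * z ∈ D.Chart :=
    sector_chart m hm k z hzk (habs.trans (by linarith))
  have hnz' : ‖a' * z‖ = ‖z‖ := by rw [norm_mul, hna', one_mul]
  rcases hFU (decide (Even (k : ℤ))) (a' * z) hzc with ⟨h3, h4⟩ | h3
  · exfalso
    apply hzV
    refine ⟨?_, ?_⟩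
    · rw [mem_interior_iff_mem_nhds]
      refine p_flat_transfer (D.PP (decide (Even (k : ℤ)))) a' (p_E m k ^ 2) z hna'
        (by rw [norm_pow, hna, one_pow]) h3 _ ?_
      rw [hnz'] at h4
      have hcn2 : Continuous fun y : ℂ => |‖y‖ ^ 2 - 1| := by fun_prop
      have h5 : ∀ᶠ y in nhds z, |‖y‖ ^ 2 - 1| < 3 * D.s :=
        hcn2.continuousAt.eventually_lt continuousAt_const h4
      filter_upwards [(hopen k).mem_nhds hzk, h5] with y hy1 hy2
      have h6 : D.YY (a' * y) = 1 := by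
        apply p_YY
        rw [norm_mul, hna', one_mul]
        exact hy2.le
      rw [hΞ k y hy1, p_E_sq, ← ha', Dat.GG, h6, one_smul]
      linear_combination (- y ^ 2 * (p_E m k * a' + 1)) * haa
    · rw [mem_ball_zero_iff]
      have h5 := p_R_sq m hm
      have h6 := p_R_pos m hm
      nlinarith [norm_nonneg z]
  · have h4 := p_en_transfer u (D.FU (decide (Even (k : ℤ)))) (p_E m k) a' z haa hna hu
      (Sector (dlt m) k) (hopen k) hzk (fun y hy => hu2 k y hy)
    rw [h4, hnz'] at h3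
    refine h3.trans ?_
    rw [p_Bd]
    refine add_le_add ?_ ?_
    · split_ifs with h5
      · rw [Set.indicator_of_mem]
        refine ⟨hz, fun h => ?_⟩
        rw [mem_ball_zero_iff] at h
        linarith
      · exact Set.indicator_nonneg (fun _ _ => zero_le_one) z
    · have h5 : p_T m hm k z ≤ ∑ k ∈ Finset.range (2 ^ m), p_T m hm k z :=
        Finset.single_le_sum (f := fun k : ℕ => p_T m hm k z)
          (fun k _ => p_T_nonneg m hm k z) (Finset.mem_range.2 hk)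
      refine mul_le_mul_of_nonneg_left (le_trans (le_of_eq ?_) h5) (by positivity)
      rw [p_T, p_ind, p_ind, p_ind]

/-! ### integration -/

theorem p_ind_integrable (A : Set ℂ) (hA : MeasurableSet A) (r : ℝ) (h : A ⊆ closedBall 0 r) :
    Integrable (A.indicator (fun _ => (1 : ℝ))) := by
  refine IntegrableOn.integrable_indicator ?_ hA
  refine integrableOn_const ?_
  exact ((measure_mono h).trans_lt measure_closedBall_lt_top).ne

theorem p_vol_closedBall (a : ℂ) (r : ℝ) (hr : 0 ≤ r) :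
    volume.real (closedBall a r) = Real.pi * r ^ 2 := by
  rw [measureReal_def, Complex.volume_closedBall, ENNReal.toReal_mul, ENNReal.toReal_pow,
    ENNReal.toReal_ofReal hr, mul_comm]
  rfl

theorem p_ball_integral (a : ℂ) (r : ℝ) (hr : 0 ≤ r) :
    Integrable ((closedBall a r).indicator (fun _ => (1 : ℝ))) ∧
      ∫ z, (closedBall a r).indicator (fun _ => (1 : ℝ)) z = Real.pi * r ^ 2 := by
  refine ⟨p_ind_integrable _ measurableSet_closedBall (r + dist a 0)
    (closedBall_subset_closedBall' le_rfl), ?_⟩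
  rw [integral_indicator_const _ measurableSet_closedBall, p_vol_closedBall a r hr, smul_eq_mul,
    mul_one]

theorem p_T_integral (m : ℕ) (hm : 9 ≤ m) (k : ℤ) :
    Integrable (p_T m hm k) ∧ ∫ z, p_T m hm k z = 24 * Real.pi * (datOf m hm).w ^ 2 := by
  have hw := (datOf m hm).hw
  obtain ⟨i1, e1⟩ := p_ball_integral (p_E m k * (datOf m hm).q) (2 * (datOf m hm).w)
    (by positivity)
  obtain ⟨i2, e2⟩ := p_ball_integral (p_E m k * (datOf m hm).qb) (2 * (datOf m hm).w)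
    (by positivity)
  obtain ⟨i3, e3⟩ := p_ball_integral (p_E m k * (datOf m hm).apex (decide (Even k)))
    (4 * (datOf m hm).w) (by positivity)
  refine ⟨(i1.add i2).add i3, ?_⟩
  have h1 : ∫ z, p_T m hm k z = ((∫ z, (closedBall (p_E m k * (datOf m hm).q)
      (2 * (datOf m hm).w)).indicator (fun _ => (1 : ℝ)) z) + (∫ z, (closedBall (p_E m k *
      (datOf m hm).qb) (2 * (datOf m hm).w)).indicator (fun _ => (1 : ℝ)) z)) +
      (∫ z, (closedBall (p_E m k * (datOf m hm).apex (decide (Even k)))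
      (4 * (datOf m hm).w)).indicator (fun _ => (1 : ℝ)) z) := by
    rw [← integral_add i1 i2]
    exact integral_add (i1.add i2) i3
  rw [h1, e1, e2, e3]
  ring

theorem p_Bd_integral (m : ℕ) (hm : 9 ≤ m) (C : ℝ) :
    Integrable (p_Bd m hm C) ∧ ∫ z, p_Bd m hm C z = 4 * Real.pi * (datOf m hm).s +
      C / (datOf m hm).s ^ 4 * (2 ^ m * (24 * Real.pi * (datOf m hm).w ^ 2)) := by
  have hR := p_R_sq m hm
  have hRp := p_R_pos m hm
  have hs := (datOf m hm).hs
  have i1 : Integrable ((closedBall (0 : ℂ) (p_R m hm) \ ball 0 1).indicator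
      (fun _ => (1 : ℝ))) :=
    p_ind_integrable _ (measurableSet_closedBall.diff measurableSet_ball) (p_R m hm)
      Set.sdiff_subset
  have e1 : ∫ z, (closedBall (0 : ℂ) (p_R m hm) \ ball 0 1).indicator (fun _ => (1 : ℝ)) z =
      4 * Real.pi * (datOf m hm).s := by
    rw [integral_indicator_const _ (measurableSet_closedBall.diff measurableSet_ball),
      smul_eq_mul, mul_one, measureReal_sdiff (ball_subset_closedBall.trans
        (closedBall_subset_closedBall (by nlinarith))) measurableSet_ball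
        measure_closedBall_lt_top.ne, p_vol_closedBall _ _ hRp.le, hR,
      measureReal_def, i_vol 0 1 zero_le_one]
    ring
  have i2 : Integrable (fun z => ∑ k ∈ Finset.range (2 ^ m), p_T m hm k z) :=
    integrable_finsetSum _ fun k _ => (p_T_integral m hm k).1
  have e2 : ∫ z, ∑ k ∈ Finset.range (2 ^ m), p_T m hm k z =
      2 ^ m * (24 * Real.pi * (datOf m hm).w ^ 2) := by
    have h0 := integral_finsetSum (μ := (volume : Measure ℂ)) (Finset.range (2 ^ m))
      (f := fun k : ℕ => p_T m hm k) fun k _ => (p_T_integral m hm k).1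
    rw [h0, Finset.sum_congr rfl fun (k : ℕ) _ => (p_T_integral m hm k).2, Finset.sum_const,
      Finset.card_range, nsmul_eq_mul]
    push_cast
    ring
  have i3 := i2.const_mul (C / (datOf m hm).s ^ 4)
  refine ⟨i1.add i3, ?_⟩
  have h1 : ∫ z, p_Bd m hm C z = (∫ z, (closedBall (0 : ℂ) (p_R m hm) \ ball 0 1).indicator
      (fun _ => (1 : ℝ)) z) + ∫ z, C / (datOf m hm).s ^ 4 *
        ∑ k ∈ Finset.range (2 ^ m), p_T m hm k z := by
    exact integral_add i1 i3
  rw [h1, e1, integral_const_mul, e2]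

theorem p_arith (m : ℕ) (hm : 9 ≤ m) (C : ℝ) (hC : 0 < C) :
    4 * Real.pi * (datOf m hm).s +
      C / (datOf m hm).s ^ 4 * (2 ^ m * (24 * Real.pi * (datOf m hm).w ^ 2)) ≤
      (4 * Real.pi ^ 2 + 6 * Real.pi * C) / 2 ^ m := by
  have hpi := Real.pi_pos
  have hs := (datOf m hm).hs
  have hd := dlt_pos m
  have hdle := dlt_le hm
  have e0 : dlt m / 2 = Real.pi / 2 ^ m := by
    unfold dlt; ring
  have hs1 : (datOf m hm).s ≤ Real.pi / 2 ^ m := by
    change Real.sin (dlt m / 2) ≤ _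
    rw [e0]
    exact Real.sin_le (by positivity)
  have hs2 : 2 / 2 ^ m ≤ (datOf m hm).s := by
    change _ ≤ Real.sin (dlt m / 2)
    have h1 := Real.mul_le_sin (x := dlt m / 2) (by positivity)
      (by have := Real.pi_gt_three; linarith)
    refine le_trans (le_of_eq ?_) h1
    rw [e0]
    field_simp
  have hw : (datOf m hm).w = (datOf m hm).s / 4 ^ m := rfl
  set s := (datOf m hm).s with hsdef
  have h3 : C / s ^ 4 * (2 ^ m * (24 * Real.pi * (s / 4 ^ m) ^ 2)) =
      24 * Real.pi * C * (1 / s ^ 2) / 8 ^ m := by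
    have e4 : (4 : ℝ) ^ m = 2 ^ m * 2 ^ m := by rw [← mul_pow]; norm_num
    have e8 : (8 : ℝ) ^ m = 2 ^ m * 2 ^ m * 2 ^ m := by rw [← mul_pow, ← mul_pow]; norm_num
    rw [e4, e8]
    field_simp
  have h4 : 1 / s ^ 2 ≤ 4 ^ m / 4 := by
    rw [div_le_div_iff₀ (by positivity) (by norm_num)]
    have h5 : (2 / 2 ^ m) ^ 2 ≤ s ^ 2 := by gcongr
    have e4 : (4 : ℝ) ^ m = 2 ^ m * 2 ^ m := by rw [← mul_pow]; norm_num
    have h6 : (4 : ℝ) ^ m * (2 / 2 ^ m) ^ 2 = 4 := by
      rw [e4]; field_simp; norm_num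
    calc (1 : ℝ) * 4 = 4 ^ m * (2 / 2 ^ m) ^ 2 := by rw [h6]; norm_num
      _ ≤ 4 ^ m * s ^ 2 := by gcongr
  rw [hw, h3]
  have h7 : 24 * Real.pi * C * (1 / s ^ 2) / 8 ^ m ≤ 6 * Real.pi * C / 2 ^ m := by
    calc 24 * Real.pi * C * (1 / s ^ 2) / 8 ^ m ≤ 24 * Real.pi * C * (4 ^ m / 4) / 8 ^ m := by
          gcongr
      _ = 6 * Real.pi * C / 2 ^ m := by
          have e4 : (4 : ℝ) ^ m = 2 ^ m * 2 ^ m := by rw [← mul_pow]; norm_num
          have e8 : (8 : ℝ) ^ m = 2 ^ m * 2 ^ m * 2 ^ m := by rw [← mul_pow, ← mul_pow]; norm_num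
          rw [e4, e8]
          field_simp
          norm_num
  have h8 : 4 * Real.pi * s ≤ 4 * Real.pi ^ 2 / 2 ^ m := by
    calc 4 * Real.pi * s ≤ 4 * Real.pi * (Real.pi / 2 ^ m) := by gcongr
      _ = 4 * Real.pi ^ 2 / 2 ^ m := by ring
  rw [add_div]
  exact add_le_add h8 h7

theorem p_choose (K ε : ℝ) (hK : 0 < K) (hε : 0 < ε) :
    ∃ m : ℕ, 9 ≤ m ∧ K * (m + 1) / 2 ^ m ≤ ε := by
  have h1 := tendsto_pow_const_div_const_pow_of_one_lt 1 (one_lt_two : (1 : ℝ) < 2)
  have h2 : ∀ᶠ n : ℕ in Filter.atTop, (n : ℝ) ^ 1 / 2 ^ n < ε / (2 * K) :=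
    h1.eventually_lt_const (by positivity)
  obtain ⟨N, hN⟩ := Filter.eventually_atTop.1 h2
  refine ⟨max N 9, le_max_right _ _, ?_⟩
  have h3 := hN (max N 9 + 1) (le_trans (le_max_left _ _) (Nat.le_succ _))
  generalize max N 9 = m at *
  rw [pow_one, pow_succ, lt_div_iff₀ (by positivity)] at h3
  have h4 : K * (m + 1) / 2 ^ m = ((m + 1 : ℕ) : ℝ) / (2 ^ m * 2) * (2 * K) := by
    push_cast
    field_simp
  rw [h4]
  exact h3.le

/-- TASK P2 -/
theorem device : DeviceExists := by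
  intro ε hε
  obtain ⟨C, hC, hFU⟩ := Dat.FU_energy
  obtain ⟨C1, hC1, hnet⟩ := net_L2
  obtain ⟨m, hm, hmε⟩ := p_choose (C1 + (4 * Real.pi ^ 2 + 6 * Real.pi * C)) ε (by positivity) hε
  obtain ⟨Ξ, hΞs, hΞ0, hΞ1⟩ := global_net m hm
  obtain ⟨u, hus, hu0, hu1, hu2⟩ := global_mech m hm
  have hs := (datOf m hm).hs
  have hR := p_R_sq m hm
  have hRp := p_R_pos m hm
  have hR1 : 1 ≤ p_R m hm ^ 2 := by rw [hR]; linarith
  have hεR : ε ≤ ε * p_R m hm ^ 2 := by nlinarith
  have hsmall1 : C1 * (m + 1) / 2 ^ m ≤ ε := by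
    refine le_trans ?_ hmε
    gcongr
    have : 0 < 4 * Real.pi ^ 2 + 6 * Real.pi * C := by positivity
    linarith
  have hsmall2 : (4 * Real.pi ^ 2 + 6 * Real.pi * C) / 2 ^ m ≤ ε := by
    refine le_trans ?_ hmε
    gcongr
    have h1 : (0 : ℝ) ≤ m := Nat.cast_nonneg m
    have h2 : 0 < 4 * Real.pi ^ 2 + 6 * Real.pi * C := by positivity
    nlinarith
  refine ⟨p_R m hm, p_V m hm Ξ, fun z => u z - z, Ξ, hRp, isOpen_interior.inter isOpen_ball,
    fun z hz => ball_subset_closedBall hz.2, hus.sub contDiff_id, hΞs, ?_, ?_, ?_, ?_, ?_⟩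
  · refine closure_minimal ?_ isClosed_closedBall
    intro z hz
    rw [mem_closedBall_zero_iff]
    by_contra h
    push Not at h
    apply hz
    have h1 : 1 + 3 * (datOf m hm).s ≤ ‖z‖ ^ 2 := by nlinarith
    change u z - z = 0
    rw [hu1 z h1, sub_self]
  · refine closure_minimal ?_ isClosed_closedBall
    intro z hz
    rw [mem_closedBall_zero_iff]
    by_contra h
    push Not at h
    apply hz
    apply hΞ0
    rw [le_abs]
    left
    nlinarith
  · intro z hz
    have h1 : z ∈ {z | iteratedFDeriv ℝ 2 (fun z => z ^ 2 + Ξ z) z = 0} := interior_subset hz.1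
    exact h1
  · exact (hnet m hm Ξ hΞs hΞ0 hΞ1).trans (hsmall1.trans hεR)
  · obtain ⟨iB, eB⟩ := p_Bd_integral m hm C
    have hud : ∀ z, DifferentiableAt ℝ u z := fun z => hus.differentiable (by simp) z
    have hmeas : MeasurableSet (closedBall (0 : ℂ) (p_R m hm) \ p_V m hm Ξ) :=
      measurableSet_closedBall.diff (isOpen_interior.inter isOpen_ball).measurableSet
    calc _ ≤ ∫ z in closedBall (0 : ℂ) (p_R m hm) \ p_V m hm Ξ, p_Bd m hm C z := by
          refine integral_mono_of_nonneg (Filter.Eventually.of_forall fun z => by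
            simp only [Pi.zero_apply]; positivity) iB.integrableOn ?_
          refine ae_restrict_of_forall_mem hmeas fun z hz => ?_
          simp only
          rw [p_dens_sub u z (hud z)]
          exact p_point m hm C hC (fun b z hz => hFU (datOf m hm) b z hz) u Ξ hus hu0 hu1 hu2 hΞ1 z
            hz.1 hz.2
      _ ≤ ∫ z, p_Bd m hm C z :=
          setIntegral_le_integral iB (Filter.Eventually.of_forall fun z =>
            p_Bd_nonneg m hm C hC z)
      _ ≤ ε := by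
          rw [eB]
          exact (p_arith m hm C hC).trans hsmall2
      _ ≤ _ := hεR

end Pool.Agent.ShearComposite
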