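import Mathlib

/-!
# Composites of an isotropic elastic phase and void, in any dimension
-/

open MeasureTheory
open scoped ContDiff

namespace Pool.Agent.ShearComposite

/-- Euclidean space of dimension `d`. -/
abbrev Sp (d : ℕ) : Type := EuclideanSpace ℝ (Fin d)

/-- The stress `κ (tr ε) I + 2 μ (ε - (1/d) (tr ε) I)` of the isotropic material with bulk modulus
`κ` and shear modulus `μ` at the strain `ε`. -/
noncomputable def stress {d : ℕ} (κ μ : ℝ) (ε : Matrix (Fin d) (Fin d) ℝ) :
    Matrix (Fin d) (Fin d) ℝ :=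
  (κ * ε.trace) • (1 : Matrix (Fin d) (Fin d) ℝ)
    + (2 * μ) • (ε - (1 / (d : ℝ) * ε.trace) • (1 : Matrix (Fin d) (Fin d) ℝ))

/-- The quadratic form `ε : C ε` of the isotropic material with moduli `κ, μ`. -/
noncomputable def density {d : ℕ} (κ μ : ℝ) (ε : Matrix (Fin d) (Fin d) ℝ) : ℝ :=
  ∑ i, ∑ j, ε i j * stress κ μ ε i j

/-- The symmetrised gradient `e(u) = (∇u + (∇u)ᵀ)/2` of a displacement `u`. -/
noncomputable def strain {d : ℕ} (u : Sp d → Sp d) (x : Sp d) : Matrix (Fin d) (Fin d) ℝ :=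
  Matrix.of fun i j => (fderiv ℝ u x (EuclideanSpace.single j 1) i
    + fderiv ℝ u x (EuclideanSpace.single i 1) j) / 2

/-- The smooth displacements which are periodic with respect to the vectors of the basis `b`. -/
def PerDisp {d : ℕ} (b : Module.Basis (Fin d) ℝ (Sp d)) : Set (Sp d → Sp d) :=
  {u | ContDiff ℝ ∞ u ∧ ∀ i x, u (x + b i) = u x}

/-- The effective energy `ε₀ : C_* ε₀`: the infimum over periodic displacements `u` of the average
over the unit cell `Y` (the half-open parallelepiped spanned by `b`) of the energy density of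
`ε₀ + e(u)` in the part `Ω` of the cell filled by the elastic phase with moduli `κ, μ`. -/
noncomputable def effEnergy {d : ℕ} (κ μ : ℝ) (b : Module.Basis (Fin d) ℝ (Sp d)) (Ω : Set (Sp d))
    (ε₀ : Matrix (Fin d) (Fin d) ℝ) : ℝ :=
  ⨅ u : PerDisp b, (volume (ZSpan.fundamentalDomain b)).toReal⁻¹ *
    ∫ x in ZSpan.fundamentalDomain b ∩ Ω, density κ μ (ε₀ + strain (u : Sp d → Sp d) x)

/-- A composite: a measurable set `Ω` (the elastic phase; the complement is void) which is periodic
with respect to the vectors of the basis `b`. -/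
def IsComposite {d : ℕ} (b : Module.Basis (Fin d) ℝ (Sp d)) (Ω : Set (Sp d)) : Prop :=
  MeasurableSet Ω ∧ ∀ i x, x + b i ∈ Ω ↔ x ∈ Ω

/-- The set `A_d` of the pairs `(κ_*, μ_*)` of effective moduli of isotropic composites of the
isotropic phase with moduli `κ, μ` and void. -/
def attainable (d : ℕ) (κ μ : ℝ) : Set (ℝ × ℝ) :=
  {p | ∃ (b : Module.Basis (Fin d) ℝ (Sp d)) (Ω : Set (Sp d)), IsComposite b Ω ∧
    ∀ ε₀ : Matrix (Fin d) (Fin d) ℝ, ε₀.IsSymm → effEnergy κ μ b Ω ε₀ = density p.1 p.2 ε₀}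

end Pool.Agent.ShearComposite
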