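import Pool.Agent.ShearComposite.Base
import Pool.Agent.ShearComposite.Defs

/-!
# Transfer of the complex formulation to Euclidean space
-/

open MeasureTheory Metric
open scoped ContDiff

namespace Pool.Agent.ShearComposite

/-- the isometry between the complex plane and Euclidean space -/
noncomputable def a_Phi : ℂ ≃ₗᵢ[ℝ] Sp 2 := Complex.orthonormalBasisOneI.repr

theorem a_Phi_apply_zero (z : ℂ) : a_Phi z 0 = z.re := by
  simp [a_Phi, Complex.orthonormalBasisOneI_repr_apply]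

theorem a_Phi_apply_one (z : ℂ) : a_Phi z 1 = z.im := by
  simp [a_Phi, Complex.orthonormalBasisOneI_repr_apply]

theorem a_Phi_symm_re (x : Sp 2) : (a_Phi.symm x).re = x 0 := by
  rw [← a_Phi_apply_zero, LinearIsometryEquiv.apply_symm_apply]

theorem a_Phi_symm_im (x : Sp 2) : (a_Phi.symm x).im = x 1 := by
  rw [← a_Phi_apply_one, LinearIsometryEquiv.apply_symm_apply]

theorem a_Phi_one : a_Phi 1 = EuclideanSpace.single 0 1 := by
  ext i
  fin_cases i
  · simp [a_Phi_apply_zero]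
  · simp [a_Phi_apply_one]

theorem a_Phi_I : a_Phi Complex.I = EuclideanSpace.single 1 1 := by
  ext i
  fin_cases i
  · simp [a_Phi_apply_zero]
  · simp [a_Phi_apply_one]

/-- the transported basis -/
noncomputable def a_basis (b : Module.Basis (Fin 2) ℝ ℂ) : Module.Basis (Fin 2) ℝ (Sp 2) :=
  b.map a_Phi.toLinearEquiv

theorem a_basis_apply (b : Module.Basis (Fin 2) ℝ ℂ) (i : Fin 2) : a_basis b i = a_Phi (b i) := by
  simp [a_basis]

theorem a_mem_fd (b : Module.Basis (Fin 2) ℝ ℂ) :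
    ZSpan.fundamentalDomain (a_basis b) = a_Phi.symm ⁻¹' (Cell b) := by
  ext x
  rw [Set.mem_preimage, Cell, ZSpan.mem_fundamentalDomain, ZSpan.mem_fundamentalDomain]
  rfl

/-- density in terms of the complex parameters -/
theorem a_density (κ μ : ℝ) (ε : Matrix (Fin 2) (Fin 2) ℝ) (hs : ε 0 1 = ε 1 0) :
    density κ μ ε = 4 * κ * ((ε 0 0 + ε 1 1) / 2) ^ 2 +
      4 * μ * ‖(⟨(ε 0 0 - ε 1 1) / 2, (ε 0 1 + ε 1 0) / 2⟩ : ℂ)‖ ^ 2 := by
  rw [← Complex.normSq_eq_norm_sq, Complex.normSq_apply]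
  simp only [density, stress, Fin.sum_univ_two, Matrix.add_apply, Matrix.smul_apply,
    Matrix.sub_apply, Matrix.trace, Matrix.diag_apply, smul_eq_mul,
    Matrix.one_apply, Fin.isValue]
  simp only [hs]
  norm_num
  ring

theorem a_fderiv (u : Sp 2 → Sp 2) (hu : ContDiff ℝ ∞ u) (z : ℂ) (w : ℂ) :
    fderiv ℝ (fun z => a_Phi.symm (u (a_Phi z))) z w =
      a_Phi.symm (fderiv ℝ u (a_Phi z) (a_Phi w)) := by
  have h1 : HasFDerivAt u (fderiv ℝ u (a_Phi z)) (a_Phi z) :=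
    (hu.differentiable (by simp)).differentiableAt.hasFDerivAt
  have h2 : HasFDerivAt (fun z => a_Phi z) (a_Phi.toContinuousLinearEquiv : ℂ →L[ℝ] Sp 2) z :=
    (a_Phi.toContinuousLinearEquiv : ℂ →L[ℝ] Sp 2).hasFDerivAt
  have h3 := h1.comp z h2
  have h4 := ((a_Phi.symm.toContinuousLinearEquiv : Sp 2 →L[ℝ] ℂ).hasFDerivAt
    (x := u (a_Phi z))).comp z h3
  have h5 : HasFDerivAt (fun z => a_Phi.symm (u (a_Phi z)))
    ((a_Phi.symm.toContinuousLinearEquiv : Sp 2 →L[ℝ] ℂ).comp ((fderiv ℝ u (a_Phi z)).comp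
      (a_Phi.toContinuousLinearEquiv : ℂ →L[ℝ] Sp 2))) z := h4
  rw [h5.fderiv]
  rfl

theorem a_dens (κ μ : ℝ) (u : Sp 2 → Sp 2) (hu : ContDiff ℝ ∞ u) (ε : Matrix (Fin 2) (Fin 2) ℝ)
    (hs : ε 0 1 = ε 1 0) (x : Sp 2) :
    density κ μ (ε + strain u x) = dens κ μ ((ε 0 0 + ε 1 1) / 2)
      ⟨(ε 0 0 - ε 1 1) / 2, (ε 0 1 + ε 1 0) / 2⟩
      (fderiv ℝ (fun z => a_Phi.symm (u (a_Phi z))) (a_Phi.symm x)) := by
  set L := fderiv ℝ u x with hL
  have hsym : (ε + strain u x) 0 1 = (ε + strain u x) 1 0 := by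
    simp only [Matrix.add_apply, strain, Matrix.of_apply, hs]
    ring
  rw [a_density κ μ _ hsym]
  have e1 : fderiv ℝ (fun z => a_Phi.symm (u (a_Phi z))) (a_Phi.symm x) 1 =
      a_Phi.symm (L (EuclideanSpace.single 0 1)) := by
    rw [a_fderiv u hu, LinearIsometryEquiv.apply_symm_apply, a_Phi_one]
  have e2 : fderiv ℝ (fun z => a_Phi.symm (u (a_Phi z))) (a_Phi.symm x) Complex.I =
      a_Phi.symm (L (EuclideanSpace.single 1 1)) := by
    rw [a_fderiv u hu, LinearIsometryEquiv.apply_symm_apply, a_Phi_I]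
  unfold dens dz dzb
  rw [e1, e2]
  have r1 : ((a_Phi.symm (L (EuclideanSpace.single 0 1)) -
      Complex.I * a_Phi.symm (L (EuclideanSpace.single 1 1))) / 2).re =
      (L (EuclideanSpace.single 0 1) 0 + L (EuclideanSpace.single 1 1) 1) / 2 := by
    rw [show (2 : ℂ) = ((2 : ℝ) : ℂ) by norm_num, Complex.div_ofReal_re]
    simp [a_Phi_symm_re, a_Phi_symm_im]
  have r2 : (⟨(ε 0 0 - ε 1 1) / 2, (ε 0 1 + ε 1 0) / 2⟩ : ℂ) +
      (a_Phi.symm (L (EuclideanSpace.single 0 1)) +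
      Complex.I * a_Phi.symm (L (EuclideanSpace.single 1 1))) / 2 =
      ⟨((ε + strain u x) 0 0 - (ε + strain u x) 1 1) / 2,
        ((ε + strain u x) 0 1 + (ε + strain u x) 1 0) / 2⟩ := by
    apply Complex.ext
    · rw [Complex.add_re, show (2 : ℂ) = ((2 : ℝ) : ℂ) by norm_num, Complex.div_ofReal_re]
      simp only [Complex.add_re, Complex.mul_re, Complex.I_re, Complex.I_im, a_Phi_symm_re,
        a_Phi_symm_im, Matrix.add_apply, strain, Matrix.of_apply, ← hL]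
      ring
    · rw [Complex.add_im, show (2 : ℂ) = ((2 : ℝ) : ℂ) by norm_num, Complex.div_ofReal_im]
      simp only [Complex.add_im, Complex.mul_im, Complex.I_re, Complex.I_im, a_Phi_symm_re,
        a_Phi_symm_im, Matrix.add_apply, strain, Matrix.of_apply, ← hL]
      ring
  rw [r1, r2]
  congr 2
  simp only [Matrix.add_apply, strain, Matrix.of_apply, ← hL]
  ring

/-- the correspondence of periodic displacements -/
noncomputable def a_equiv (b : Module.Basis (Fin 2) ℝ ℂ) : PerDisp (a_basis b) ≃ Per b where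
  toFun u := ⟨fun z => a_Phi.symm ((u : Sp 2 → Sp 2) (a_Phi z)), by
    obtain ⟨u, h1, h2⟩ := u
    refine ⟨a_Phi.symm.contDiff.comp (h1.comp a_Phi.contDiff), ?_⟩
    intro i z
    simp only [map_add]
    rw [← a_basis_apply, h2]⟩
  invFun v := ⟨fun x => a_Phi ((v : ℂ → ℂ) (a_Phi.symm x)), by
    obtain ⟨v, h1, h2⟩ := v
    refine ⟨a_Phi.contDiff.comp (h1.comp a_Phi.symm.contDiff), ?_⟩
    intro i x
    simp only [map_add]
    rw [a_basis_apply, LinearIsometryEquiv.symm_apply_apply, h2]⟩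
  left_inv u := by
    apply Subtype.ext
    funext x
    simp
  right_inv v := by
    apply Subtype.ext
    funext z
    simp

theorem a_effEnergy (κ μ : ℝ) (b : Module.Basis (Fin 2) ℝ ℂ) (Ω : Set ℂ) (hΩ : MeasurableSet Ω)
    (ε : Matrix (Fin 2) (Fin 2) ℝ) (hs : ε 0 1 = ε 1 0) :
    effEnergy κ μ (a_basis b) (a_Phi.symm ⁻¹' Ω) ε =
      Weff κ μ b Ω ((ε 0 0 + ε 1 1) / 2) ⟨(ε 0 0 - ε 1 1) / 2, (ε 0 1 + ε 1 0) / 2⟩ := by
  unfold effEnergy Weff
  apply Equiv.iInf_congr (a_equiv b)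
  intro u
  have hmp : MeasurePreserving (a_Phi.symm : Sp 2 → ℂ) volume volume :=
    a_Phi.symm.measurePreserving
  have hemb : MeasurableEmbedding (a_Phi.symm : Sp 2 → ℂ) :=
    a_Phi.symm.toHomeomorph.measurableEmbedding
  have hcell : MeasurableSet (Cell b) := ZSpan.fundamentalDomain_measurableSet b
  unfold En
  rw [a_mem_fd]
  congr 1
  · rw [hmp.measure_preimage hcell.nullMeasurableSet]
  · rw [← Set.preimage_inter]
    rw [← hmp.setIntegral_preimage_emb hemb]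
    apply setIntegral_congr_fun (hemb.measurable (hcell.inter hΩ))
    intro x _
    exact (a_dens κ μ u u.2.1 ε hs x).symm

/-- TASK A -/
theorem transfer (κ μ : ℝ) (hκ : 0 < κ) (hμ : 0 < μ)
    (H : ∀ ε : ℝ, 0 < ε → ∃ (Ω : Set ℂ) (k m : ℝ), MeasurableSet Ω ∧
      (∀ i z, z + hexBasis i ∈ Ω ↔ z ∈ Ω) ∧ 0 ≤ k ∧ k ≤ ε ∧ μ - ε ≤ m ∧ m ≤ μ ∧
      ∀ α β, Weff κ μ hexBasis Ω α β = 4 * k * α ^ 2 + 4 * m * ‖β‖ ^ 2) :
    ((0 : ℝ), μ) ∈ closure (attainable 2 κ μ) := by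
  rw [Metric.mem_closure_iff]
  intro ε hε
  obtain ⟨Ω, k, m, hΩ, hper, hk0, hk, hm0, hm, hW⟩ := H (ε / 2) (by linarith)
  refine ⟨(k, m), ⟨a_basis hexBasis, a_Phi.symm ⁻¹' Ω, ⟨?_, ?_⟩, ?_⟩, ?_⟩
  · exact a_Phi.symm.continuous.measurable hΩ
  · intro i x
    rw [Set.mem_preimage, Set.mem_preimage, map_add, a_basis_apply,
      LinearIsometryEquiv.symm_apply_apply]
    exact hper i _
  · intro ε₀ hs
    have hs' : ε₀ 0 1 = ε₀ 1 0 := hs.apply 1 0
    rw [a_effEnergy κ μ hexBasis Ω hΩ ε₀ hs', hW, a_density k m ε₀ hs']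
  · rw [Prod.dist_eq, max_lt_iff, Real.dist_eq, Real.dist_eq]
    constructor
    · rw [zero_sub, abs_neg, abs_of_nonneg hk0]; linarith
    · rw [abs_of_nonneg (by linarith)]; linarith

end Pool.Agent.ShearComposite
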