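import Mathlib

/-!
# Plane composites of an isotropic elastic phase and void: the complex formulation
-/

open MeasureTheory
open scoped ContDiff

namespace Pool.Agent.ShearComposite

/-- The coefficient of `z` of a real linear map `L z = a z + b conj z`. -/
noncomputable def dz (L : ℂ →L[ℝ] ℂ) : ℂ := (L 1 - Complex.I * L Complex.I) / 2

/-- The coefficient of `conj z` of a real linear map `L z = a z + b conj z`. -/
noncomputable def dzb (L : ℂ →L[ℝ] ℂ) : ℂ := (L 1 + Complex.I * L Complex.I) / 2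

/-- The energy density at the displacement gradient `L` plus the macroscopic strain `(α, β)`. -/
noncomputable def dens (κ μ α : ℝ) (β : ℂ) (L : ℂ →L[ℝ] ℂ) : ℝ :=
  4 * κ * (α + (dz L).re) ^ 2 + 4 * μ * ‖β + dzb L‖ ^ 2

/-- Smooth displacements which are periodic with respect to the lattice spanned by `b`. -/
def Per (b : Module.Basis (Fin 2) ℝ ℂ) : Submodule ℝ (ℂ → ℂ) where
  carrier := {u | ContDiff ℝ ∞ u ∧ ∀ i z, u (z + b i) = u z}
  add_mem' := by
    rintro u v ⟨hu, hu'⟩ ⟨hv, hv'⟩
    exact ⟨hu.add hv, fun i z => by simp [hu', hv']⟩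
  zero_mem' := ⟨contDiff_const, fun _ _ => rfl⟩
  smul_mem' := by
    rintro t u ⟨hu, hu'⟩
    exact ⟨hu.const_smul t, fun i z => by simp [hu']⟩

/-- The unit cell. -/
def Cell (b : Module.Basis (Fin 2) ℝ ℂ) : Set ℂ := ZSpan.fundamentalDomain b

/-- The total energy in the unit cell. -/
noncomputable def En (κ μ : ℝ) (b : Module.Basis (Fin 2) ℝ ℂ) (Ω : Set ℂ) (v : ℝ × ℂ)
    (u : Per b) : ℝ :=
  (volume (Cell b)).toReal⁻¹ * ∫ z in Cell b ∩ Ω, dens κ μ v.1 v.2 (fderiv ℝ (u : ℂ → ℂ) z)

/-- The effective energy at the macroscopic strain `(α, β)`. -/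
noncomputable def Weff (κ μ : ℝ) (b : Module.Basis (Fin 2) ℝ ℂ) (Ω : Set ℂ) (α : ℝ) (β : ℂ) : ℝ :=
  ⨅ u : Per b, En κ μ b Ω (α, β) u

/-- the sixth root of unity spanning the hexagonal lattice together with `1` -/
noncomputable def hexEta : ℂ := ⟨1 / 2, √3 / 2⟩

theorem hexEta_sq : hexEta ^ 2 = hexEta - 1 := by
  have h3 : √3 * √3 = 3 := Real.mul_self_sqrt (by norm_num)
  apply Complex.ext
  · simp [hexEta, pow_two]; nlinarith
  · simp [hexEta, pow_two]; ring

theorem hex_linearIndependent : LinearIndependent ℝ ![(1 : ℂ), hexEta] := by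
  rw [LinearIndependent.pair_iff]
  intro s t h
  have hi := congrArg Complex.im h
  have hr := congrArg Complex.re h
  simp [hexEta] at hi hr
  subst hi
  simpa using hr

/-- the basis `1, η` of the hexagonal lattice -/
noncomputable def hexBasis : Module.Basis (Fin 2) ℝ ℂ :=
  basisOfLinearIndependentOfCardEqFinrank hex_linearIndependent (by simp)

@[simp] theorem hexBasis_zero : hexBasis 0 = 1 := by simp [hexBasis]
@[simp] theorem hexBasis_one : hexBasis 1 = hexEta := by simp [hexBasis]

end Pool.Agent.ShearComposite
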