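import Mathlib

/-!
# Scaled bounds of the derivatives of order at most two
-/

open scoped ContDiff

namespace Pool.Agent.ShearComposite

section

variable {F : Type*} [NormedAddCommGroup F] [NormedSpace ℝ F]

/-- the derivatives of order `i ≤ 2` of `f` at `z` are at most `A / ρ ^ i` -/
def Jet (f : ℂ → F) (z : ℂ) (A ρ : ℝ) : Prop :=
  ∀ i ≤ 2, ‖iteratedFDeriv ℝ i f z‖ * ρ ^ i ≤ A

theorem jet_mk {f : ℂ → F} {z : ℂ} {A ρ : ℝ} (h0 : ‖f z‖ ≤ A) (h1 : ‖fderiv ℝ f z‖ * ρ ≤ A)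
    (h2 : ‖fderiv ℝ (fderiv ℝ f) z‖ * ρ ^ 2 ≤ A) : Jet f z A ρ := by
  intro i hi
  interval_cases i
  · simpa using h0
  · rw [← norm_iteratedFDeriv_fderiv, norm_iteratedFDeriv_zero, pow_one]; exact h1
  · rw [← norm_iteratedFDeriv_fderiv, ← norm_iteratedFDeriv_fderiv, norm_iteratedFDeriv_zero]
    exact h2

theorem Jet.zero_le {f : ℂ → F} {z : ℂ} {A ρ : ℝ} (h : Jet f z A ρ) : 0 ≤ A := by
  have := h 0 (by norm_num)
  simp at this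
  exact (norm_nonneg _).trans this

theorem Jet.mono {f : ℂ → F} {z : ℂ} {A B ρ : ℝ} (h : Jet f z A ρ) (hAB : A ≤ B) : Jet f z B ρ :=
  fun i hi => (h i hi).trans hAB

theorem Jet.shrink {f : ℂ → F} {z : ℂ} {A ρ ρ' : ℝ} (h : Jet f z A ρ) (h0 : 0 ≤ ρ')
    (hρ : ρ' ≤ ρ) : Jet f z A ρ' := by
  intro i hi
  refine le_trans ?_ (h i hi)
  gcongr

/-- enlarging the radius by a factor at most `M` -/
theorem Jet.grow {f : ℂ → F} {z : ℂ} {A ρ ρ' M : ℝ} (h : Jet f z A ρ) (hM : 1 ≤ M)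
    (h1 : 0 ≤ ρ') (hρ : ρ' ≤ M * ρ) : Jet f z (M ^ 2 * A) ρ' := by
  intro i hi
  have hA := h.zero_le
  calc ‖iteratedFDeriv ℝ i f z‖ * ρ' ^ i ≤ ‖iteratedFDeriv ℝ i f z‖ * (M * ρ) ^ i := by gcongr
    _ = M ^ i * (‖iteratedFDeriv ℝ i f z‖ * ρ ^ i) := by rw [mul_pow]; ring
    _ ≤ M ^ i * A := by gcongr; exact h i hi
    _ ≤ M ^ 2 * A := by gcongr

theorem Jet.congr {f g : ℂ → F} {z : ℂ} {A ρ : ℝ} (h : Jet f z A ρ) (hfg : g =ᶠ[nhds z] f) :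
    Jet g z A ρ := by
  intro i hi
  rw [(Filter.EventuallyEq.iteratedFDeriv ℝ hfg i).eq_of_nhds]
  exact h i hi

theorem Jet.add {f g : ℂ → F} {z : ℂ} {A B ρ : ℝ} (hf : ContDiff ℝ ∞ f) (hg : ContDiff ℝ ∞ g)
    (h : Jet f z A ρ) (h' : Jet g z B ρ) (hρ : 0 ≤ ρ) :
    Jet (fun x => f x + g x) z (A + B) ρ := by
  intro i hi
  have hle : (i : WithTop ℕ∞) ≤ ∞ := by exact_mod_cast le_top
  have e : iteratedFDeriv ℝ i (fun x => f x + g x) z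
      = iteratedFDeriv ℝ i f z + iteratedFDeriv ℝ i g z :=
    iteratedFDeriv_add_apply (hf.contDiffAt.of_le hle) (hg.contDiffAt.of_le hle)
  rw [e]
  calc _ ≤ (‖iteratedFDeriv ℝ i f z‖ + ‖iteratedFDeriv ℝ i g z‖) * ρ ^ i := by
        gcongr; exact norm_add_le _ _
    _ = ‖iteratedFDeriv ℝ i f z‖ * ρ ^ i + ‖iteratedFDeriv ℝ i g z‖ * ρ ^ i := by ring
    _ ≤ A + B := add_le_add (h i hi) (h' i hi)

theorem Jet.neg {f : ℂ → F} {z : ℂ} {A ρ : ℝ} (h : Jet f z A ρ) :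
    Jet (fun x => - f x) z A ρ := by
  intro i hi
  have e : iteratedFDeriv ℝ i (fun x => - f x) z = - iteratedFDeriv ℝ i f z :=
    iteratedFDeriv_neg_apply
  rw [e, norm_neg]
  exact h i hi

theorem Jet.sub {f g : ℂ → F} {z : ℂ} {A B ρ : ℝ} (hf : ContDiff ℝ ∞ f) (hg : ContDiff ℝ ∞ g)
    (h : Jet f z A ρ) (h' : Jet g z B ρ) (hρ : 0 ≤ ρ) :
    Jet (fun x => f x - g x) z (A + B) ρ := by
  have := Jet.add hf hg.neg h h'.neg hρ
  simpa [sub_eq_add_neg] using this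

theorem jet_const (a : F) (z : ℂ) (ρ : ℝ) : Jet (fun _ => a) z ‖a‖ ρ := by
  intro i _
  rcases Nat.eq_zero_or_pos i with rfl | hi
  · simp
  · rw [iteratedFDeriv_const_of_ne (Nat.pos_iff_ne_zero.mp hi)]
    simp

theorem Jet.smul {𝕜 : Type*} [NormedField 𝕜] [NormedAlgebra ℝ 𝕜] [NormedSpace 𝕜 F]
    [IsScalarTower ℝ 𝕜 F] {f : ℂ → 𝕜} {g : ℂ → F} {z : ℂ} {A B ρ : ℝ} (hf : ContDiff ℝ ∞ f)
    (hg : ContDiff ℝ ∞ g) (h : Jet f z A ρ) (h' : Jet g z B ρ) (hρ : 0 ≤ ρ) :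
    Jet (fun x => f x • g x) z (4 * A * B) ρ := by
  intro i hi
  have hA := h.zero_le
  have hB := h'.zero_le
  have hle : (i : WithTop ℕ∞) ≤ ∞ := by exact_mod_cast le_top
  have key := norm_iteratedFDeriv_smul_le (𝕜 := ℝ) hf hg z hle
  calc ‖iteratedFDeriv ℝ i (fun x => f x • g x) z‖ * ρ ^ i
      ≤ (∑ j ∈ Finset.range (i + 1), (i.choose j : ℝ) * ‖iteratedFDeriv ℝ j f z‖
          * ‖iteratedFDeriv ℝ (i - j) g z‖) * ρ ^ i := by gcongr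
    _ = ∑ j ∈ Finset.range (i + 1), (i.choose j : ℝ) * ((‖iteratedFDeriv ℝ j f z‖ * ρ ^ j)
          * (‖iteratedFDeriv ℝ (i - j) g z‖ * ρ ^ (i - j))) := by
        rw [Finset.sum_mul]
        apply Finset.sum_congr rfl
        intro j hj
        have : j ≤ i := Nat.lt_succ_iff.mp (Finset.mem_range.mp hj)
        have e : ρ ^ i = ρ ^ j * ρ ^ (i - j) := by rw [← pow_add, Nat.add_sub_cancel' this]
        rw [e]; ring
    _ ≤ ∑ j ∈ Finset.range (i + 1), (i.choose j : ℝ) * (A * B) := by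
        apply Finset.sum_le_sum
        intro j hj
        have hj' : j ≤ i := Nat.lt_succ_iff.mp (Finset.mem_range.mp hj)
        gcongr
        · exact h j (hj'.trans hi)
        · exact h' (i - j) ((Nat.sub_le _ _).trans hi)
    _ = 2 ^ i * (A * B) := by
        rw [← Finset.sum_mul]
        norm_cast
        rw [Nat.sum_range_choose]
    _ ≤ 2 ^ 2 * (A * B) := by gcongr; norm_num
    _ = 4 * A * B := by ring

theorem Jet.rmul {f g : ℂ → ℝ} {z : ℂ} {A B ρ : ℝ} (hf : ContDiff ℝ ∞ f)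
    (hg : ContDiff ℝ ∞ g) (h : Jet f z A ρ) (h' : Jet g z B ρ) (hρ : 0 ≤ ρ) :
    Jet (fun x => f x * g x) z (4 * A * B) ρ :=
  Jet.smul (𝕜 := ℝ) (F := ℝ) hf hg h h' hρ

theorem Jet.rsmul {f : ℂ → ℝ} {g : ℂ → ℂ} {z : ℂ} {A B ρ : ℝ} (hf : ContDiff ℝ ∞ f)
    (hg : ContDiff ℝ ∞ g) (h : Jet f z A ρ) (h' : Jet g z B ρ) (hρ : 0 ≤ ρ) :
    Jet (fun x => f x • g x) z (4 * A * B) ρ :=
  Jet.smul (𝕜 := ℝ) (F := ℂ) hf hg h h' hρ

theorem Jet.cmul {f g : ℂ → ℂ} {z : ℂ} {A B ρ : ℝ} (hf : ContDiff ℝ ∞ f)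
    (hg : ContDiff ℝ ∞ g) (h : Jet f z A ρ) (h' : Jet g z B ρ) (hρ : 0 ≤ ρ) :
    Jet (fun x => f x * g x) z (4 * A * B) ρ :=
  Jet.smul (𝕜 := ℂ) (F := ℂ) hf hg h h' hρ

theorem rsmul_contDiff {f : ℂ → ℝ} {g : ℂ → ℂ} (hf : ContDiff ℝ ∞ f) (hg : ContDiff ℝ ∞ g) :
    ContDiff ℝ ∞ fun x => f x • g x := hf.smul hg

theorem rmul_contDiff {f g : ℂ → ℝ} (hf : ContDiff ℝ ∞ f) (hg : ContDiff ℝ ∞ g) :
    ContDiff ℝ ∞ fun x => f x * g x := hf.mul hg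

theorem Jet.one_sub {f : ℂ → ℝ} {z : ℂ} {A ρ : ℝ} (hf : ContDiff ℝ ∞ f) (h : Jet f z A ρ)
    (hρ : 0 ≤ ρ) : Jet (fun x => 1 - f x) z (1 + A) ρ := by
  have h1 := Jet.sub (contDiff_const (c := (1 : ℝ))) hf (jet_const (1 : ℝ) z ρ) h hρ
  rwa [norm_one] at h1

/-- jets of real affine maps -/
theorem jet_clm (L : ℂ →L[ℝ] F) (b : F) {z : ℂ} {A ρ : ℝ} (h0 : ‖L z + b‖ ≤ A)
    (h1 : ‖L‖ * ρ ≤ A) : Jet (fun z => L z + b) z A ρ := by
  have hA : 0 ≤ A := (norm_nonneg _).trans h0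
  have e1 : fderiv ℝ (fun z => L z + b) = fun _ => L := by
    ext1 x
    rw [fderiv_add_const]
    exact L.fderiv
  intro i hi
  interval_cases i
  · simpa using h0
  · rw [← norm_iteratedFDeriv_fderiv, norm_iteratedFDeriv_zero, pow_one, e1]; exact h1
  · rw [← norm_iteratedFDeriv_fderiv, e1, iteratedFDeriv_const_of_ne (by norm_num)]
    simpa using hA

/-- invariance under rotations and translations -/
theorem Jet.rotate {f : ℂ → F} {a b z : ℂ} {A ρ : ℝ} (ha : ‖a‖ = 1)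
    (h : Jet f (a * z + b) A ρ) : Jet (fun x => f (a * x + b)) z A ρ := by
  intro i hi
  have ha' : a ∈ Submonoid.unitSphere ℂ := by simpa [Submonoid.unitSphere] using ha
  let g : ℂ ≃ₗᵢ[ℝ] ℂ := rotation (⟨a, ha'⟩ : Circle)
  have hg : ∀ x, g x = a * x := fun x => rotation_apply _ _
  have e : (fun x => f (a * x + b)) = (fun y => f (y + b)) ∘ g := by
    ext x; simp [hg]
  rw [e, LinearIsometryEquiv.norm_iteratedFDeriv_comp_right, iteratedFDeriv_comp_add_right, hg]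
  exact h i hi

end

end Pool.Agent.ShearComposite
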