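import Pool.Agent.ShearComposite.Params
import Pool.Agent.ShearComposite.JetBase

/-!
# The faces of the Airy net
-/

open Complex ComplexConjugate
open scoped ContDiff

namespace Pool.Agent.ShearComposite

namespace Dat

variable (D : Dat)

/-- own face: `true` for the even bodies -/
noncomputable def tau (b : Bool) : ℂ → ℂ := cond b D.tE D.tO
/-- next face -/
noncomputable def up (b : Bool) (z : ℂ) : ℂ := D.q ^ 4 * D.tau (!b) (D.qb ^ 2 * z)
/-- previous face -/
noncomputable def dn (b : Bool) (z : ℂ) : ℂ := D.qb ^ 4 * D.tau (!b) (D.q ^ 2 * z)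
/-- the apex -/
noncomputable def apex (b : Bool) : ℂ := cond b (1 / D.r) (1 / D.xi)

theorem r_ne : D.r ≠ 0 := by
  have : (0 : ℝ) < D.c + D.s := add_pos D.hc D.hs
  rw [r]
  exact_mod_cast this.ne'

theorem xi_re : D.xi.re = D.c - D.s := by
  simp [xi, ← ofReal_pow, ← ofReal_add, ← ofReal_mul]

theorem xi_im : D.xi.im = - (D.s ^ 2 * (D.c + D.s)) := by
  simp [xi, ← ofReal_pow, ← ofReal_add, ← ofReal_mul]

theorem xi_ne : D.xi ≠ 0 := by
  intro h
  have := D.xi_re
  rw [h] at this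
  have h1 := D.le_c
  have h2 := D.hs'
  have h3 := D.hs
  simp at this
  nlinarith

theorem up_q (b : Bool) : D.up b D.q = D.tau b D.q := by
  have h := D.q_mul_qb
  have e : D.qb ^ 2 * D.q = D.qb := by linear_combination D.qb * h
  cases b
  · simp only [up, tau, e, Bool.not_false, cond_true, cond_false]
    have k := D.key4
    linear_combination D.q ^ 2 * k + (D.q * D.qb + 1) * D.tO D.q * h
  · simp only [up, tau, e, Bool.not_true, cond_true, cond_false]
    have k := D.key3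
    linear_combination D.q ^ 2 * k + (D.q * D.qb + 1) * D.tE D.q * h

theorem dn_qb (b : Bool) : D.dn b D.qb = D.tau b D.qb := by
  have h := D.q_mul_qb
  have e : D.q ^ 2 * D.qb = D.q := by linear_combination D.q * h
  cases b
  · simp only [dn, tau, e, Bool.not_false, cond_true, cond_false]
    have k := D.key3
    linear_combination - D.qb ^ 2 * k + (D.q * D.qb + 1) * D.tO D.qb * h
  · simp only [dn, tau, e, Bool.not_true, cond_true, cond_false]
    have k := D.key4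
    linear_combination - D.qb ^ 2 * k + (D.q * D.qb + 1) * D.tE D.qb * h

theorem q_sq_add : D.q ^ 2 + D.qb ^ 2 = 2 * D.g := by
  simp only [q, qb, g]
  linear_combination 2 * (D.s : ℂ) ^ 2 * I_sq

theorem conj_r : conj D.r = D.r := by simp [r]

theorem up_apex (b : Bool) : D.up b (D.apex b) = D.dn b (D.apex b) := by
  have h := D.q_mul_qb
  have hg := D.q_sq_add
  have hr := D.r_ne
  have hx := D.xi_ne
  have main : D.q ^ 4 * (-1 + 2 * D.g * D.qb ^ 2) = D.qb ^ 4 * (-1 + 2 * D.g * D.q ^ 2) := by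
    linear_combination (2 * D.g * (D.q * D.qb + 1) * (D.q ^ 2 - D.qb ^ 2)) * h
      - (D.q ^ 2 - D.qb ^ 2) * hg
  cases b
  · simp only [up, dn, apex, tau, tE, aff, Bool.not_false, cond_true, cond_false, zero_mul,
      add_zero]
    have e1 : 2 * D.r ^ 2 * D.g * D.xi * (D.qb ^ 2 * (1 / D.xi)) = 2 * D.r ^ 2 * D.g * D.qb ^ 2 := by
      field_simp
    have e2 : 2 * D.r ^ 2 * D.g * D.xi * (D.q ^ 2 * (1 / D.xi)) = 2 * D.r ^ 2 * D.g * D.q ^ 2 := by
      field_simp
    rw [e1, e2]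
    linear_combination D.r ^ 2 * main
  · simp only [up, dn, apex, tau, tO, aff, Bool.not_true, cond_true, cond_false]
    simp only [map_mul, map_div₀, map_pow, map_one, conj_q, conj_qb, conj_r]
    have e1 : -D.W - D.K * D.g + (2 * D.W * D.g * D.r + D.K * D.r / 2) * (D.qb ^ 2 * (1 / D.r)) +
        D.K * D.r / 2 * (D.q ^ 2 * (1 / D.r)) = D.W * (-1 + 2 * D.g * D.qb ^ 2) := by
      field_simp
      linear_combination D.K * hg
    have e2 : -D.W - D.K * D.g + (2 * D.W * D.g * D.r + D.K * D.r / 2) * (D.q ^ 2 * (1 / D.r)) +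
        D.K * D.r / 2 * (D.qb ^ 2 * (1 / D.r)) = D.W * (-1 + 2 * D.g * D.q ^ 2) := by
      field_simp
      linear_combination D.K * hg
    rw [e1, e2]
    linear_combination D.W * main

/-- `τ` agrees with `z²` to second order at `1`, up to `K₀` -/
def Near (K₀ : ℝ) (τ : ℂ → ℂ) : Prop :=
  ∃ A B C : ℂ, τ = aff A B C ∧ ‖A + B + C - 1‖ ≤ K₀ * D.s ^ 2 ∧ ‖B - 2‖ ≤ K₀ * D.s ∧
    ‖C‖ ≤ K₀ * D.s

theorem near_tau (b : Bool) : D.Near 60 (D.tau b) := by
  have h1 := D.hs
  cases b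
  · refine ⟨_, _, _, rfl, ?_, ?_, ?_⟩
    · exact D.bound_O1
    · exact D.bound_BO
    · exact D.bound_CO
  · refine ⟨_, _, _, rfl, ?_, ?_, ?_⟩
    · exact D.bound_E1
    · exact D.bound_BE
    · rw [norm_zero]; positivity

theorem Near.mono {K₁ K₂ : ℝ} {τ : ℂ → ℂ} (h : D.Near K₁ τ) (hK : K₁ ≤ K₂) : D.Near K₂ τ := by
  obtain ⟨A, B, C, h1, h2, h3, h4⟩ := h
  have hs := D.hs
  exact ⟨A, B, C, h1, h2.trans (by gcongr), h3.trans (by gcongr), h4.trans (by gcongr)⟩

theorem near_rot {K₀ : ℝ} {τ : ℂ → ℂ} (h : D.Near K₀ τ) (u v : ℂ) (huv : u * v = 1)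
    (hcv : conj v = u) (hu1 : ‖u‖ = 1)
    (hu : ‖u - 1‖ ≤ 3 * D.s) (hv : ‖v - 1‖ ≤ 3 * D.s) :
    D.Near (7 * K₀ + 9) (fun z => u ^ 2 * τ (v * z)) := by
  obtain ⟨A, B, C, rfl, h2, h3, h4⟩ := h
  have hs := D.hs
  have hK : 0 ≤ K₀ := by
    have := (norm_nonneg _).trans h4
    exact nonneg_of_mul_nonneg_left this hs
  have hv1 : ‖v‖ = 1 := by rw [← hu1, ← hcv, norm_conj]
  refine ⟨u ^ 2 * A, u * B, u ^ 3 * C, ?_, ?_, ?_, ?_⟩
  · ext z
    simp only [aff, map_mul, hcv]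
    linear_combination u * B * z * huv
  · have e : u ^ 2 * A + u * B + u ^ 3 * C - 1
        = u ^ 2 * ((A + B + C - 1) + (B - 2) * (v - 1) + C * (u - 1) - (v - 1) ^ 2) := by
      linear_combination (- u * B + u * v + 1) * huv
    rw [e, norm_mul, norm_pow, hu1, one_pow, one_mul]
    calc _ ≤ ‖A + B + C - 1‖ + ‖B - 2‖ * ‖v - 1‖ + ‖C‖ * ‖u - 1‖ + ‖v - 1‖ ^ 2 := by
          refine (norm_sub_le _ _).trans ?_
          rw [norm_pow]
          gcongr
          refine (norm_add_le _ _).trans ?_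
          rw [norm_mul]
          gcongr
          refine (norm_add_le _ _).trans ?_
          rw [norm_mul]
      _ ≤ K₀ * D.s ^ 2 + (K₀ * D.s) * (3 * D.s) + (K₀ * D.s) * (3 * D.s) + (3 * D.s) ^ 2 := by
          gcongr
      _ = (7 * K₀ + 9) * D.s ^ 2 := by ring
  · have e : u * B - 2 = u * (B - 2) + 2 * (u - 1) := by ring
    rw [e]
    calc _ ≤ ‖B - 2‖ + 2 * ‖u - 1‖ := by
          refine (norm_add_le _ _).trans ?_
          rw [norm_mul, norm_mul, hu1, one_mul]; simp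
      _ ≤ K₀ * D.s + 2 * (3 * D.s) := by gcongr
      _ ≤ (7 * K₀ + 9) * D.s := by nlinarith
  · rw [norm_mul, norm_pow, hu1, one_pow, one_mul]
    refine h4.trans ?_
    gcongr; linarith

theorem norm_q_sub_one : ‖D.q - 1‖ ≤ 11 / 10 * D.s := by
  have e : D.q - 1 = ((D.c - 1 : ℝ) : ℂ) + ((D.s : ℝ) : ℂ) * I := by
    simp only [q]; push_cast; ring
  rw [e]
  refine (norm_re_im_le _ _).trans ?_
  have h1 := D.le_c
  have h2 := D.c_le
  have h3 := D.hs
  have h4 := D.hs'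
  rw [abs_of_nonpos (by linarith), abs_of_pos h3]
  nlinarith

theorem norm_qb_sub_one : ‖D.qb - 1‖ ≤ 11 / 10 * D.s := by
  rw [← D.conj_q]
  have : conj D.q - 1 = conj (D.q - 1) := by simp
  rw [this, norm_conj]
  exact D.norm_q_sub_one

theorem norm_sq_sub_one {a : ℂ} (ha : ‖a‖ = 1) (h : ‖a - 1‖ ≤ 11 / 10 * D.s) :
    ‖a ^ 2 - 1‖ ≤ 3 * D.s := by
  have e : a ^ 2 - 1 = (a - 1) * (a + 1) := by ring
  have h2 : ‖a + 1‖ ≤ 2 := by
    refine (norm_add_le _ _).trans ?_
    rw [ha, norm_one]; norm_num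
  rw [e, norm_mul]
  have := D.hs
  calc _ ≤ 11 / 10 * D.s * 2 := by gcongr
    _ ≤ 3 * D.s := by linarith

theorem near_up (b : Bool) : D.Near 429 (D.up b) := by
  have h := near_rot D (D.near_tau (!b)) (D.q ^ 2) (D.qb ^ 2)
    (by rw [← mul_pow, D.q_mul_qb, one_pow]) (by rw [map_pow, conj_qb])
    (by rw [norm_pow, norm_q, one_pow])
    (D.norm_sq_sub_one D.norm_q D.norm_q_sub_one) (D.norm_sq_sub_one D.norm_qb D.norm_qb_sub_one)
  norm_num at h
  have e : (fun z => (D.q ^ 2) ^ 2 * D.tau (!b) (D.qb ^ 2 * z)) = D.up b := by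
    ext z; simp only [up]; ring
  rw [← e]; exact h

theorem near_dn (b : Bool) : D.Near 429 (D.dn b) := by
  have h := near_rot D (D.near_tau (!b)) (D.qb ^ 2) (D.q ^ 2)
    (by rw [← mul_pow, mul_comm, D.q_mul_qb, one_pow]) (by rw [map_pow, conj_q])
    (by rw [norm_pow, norm_qb, one_pow])
    (D.norm_sq_sub_one D.norm_qb D.norm_qb_sub_one) (D.norm_sq_sub_one D.norm_q D.norm_q_sub_one)
  norm_num at h
  have e : (fun z => (D.qb ^ 2) ^ 2 * D.tau (!b) (D.q ^ 2 * z)) = D.dn b := by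
    ext z; simp only [dn]; ring
  rw [← e]; exact h

end Dat

end Pool.Agent.ShearComposite
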