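import Pool.Agent.ShearComposite.Base
import Pool.Agent.ShearComposite.Faces

/-!
# The chart of one body
-/

open Complex ComplexConjugate
open scoped ContDiff

namespace Pool.Agent.ShearComposite

namespace Dat

variable (D : Dat)

/-- the region of one body, in local coordinates -/
def Chart : Set ℂ := {z | |z.re - 1| ≤ 5 / 2 * D.s ∧ |z.im| ≤ 3 / 2 * D.s}

/-- soft inside indicator at the upper hinge `q` -/
noncomputable def h2 (z : ℂ) : ℝ := softH D.w (-I * (D.qb * z - 1))
/-- soft inside indicator at the lower hinge `qb` -/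
noncomputable def h1 (z : ℂ) : ℝ := softH D.w (-I * (D.q * z - 1))
/-- soft indicator of the upper half -/
noncomputable def ee (z : ℂ) : ℝ := S (4 * z.im / D.s)
/-- soft inside indicator -/
noncomputable def AA (z : ℂ) : ℝ := (1 - D.ee z) * D.h1 z + D.ee z * D.h2 z
/-- soft indicator of the part above the pillar -/
noncomputable def sg (b : Bool) (z : ℂ) : ℝ := softH D.w (z - D.apex b)
/-- soft indicator of the side of the pillar -/
noncomputable def BB (b : Bool) (z : ℂ) : ℝ := cond b (D.AA z) (1 - D.AA z)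
/-- the net in the chart -/
noncomputable def PP (b : Bool) (z : ℂ) : ℂ :=
  D.tau b z + D.BB b z • ((D.dn b z - D.tau b z) + D.sg b z • (D.up b z - D.dn b z))
/-- radial cut off -/
noncomputable def YY (z : ℂ) : ℝ :=
  S (7 + 2 * (‖z‖ ^ 2 - 1) / D.s) * S (7 - 2 * (‖z‖ ^ 2 - 1) / D.s)
/-- the correction of the Airy function `z²` in the chart -/
noncomputable def GG (b : Bool) (z : ℂ) : ℂ := D.YY z • (D.PP b z - z ^ 2)

/-- the net is affine near `z` -/
def NetFlat (b : Bool) (z : ℂ) : Prop := ∀ᶠ y in nhds z, iteratedFDeriv ℝ 2 (D.PP b) y = 0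

/-- `i ω / r` -/
noncomputable def Gam : ℂ := I / (D.s ^ 2 * D.r)
/-- the mechanism in the body -/
noncomputable def UU (b : Bool) (z : ℂ) : ℂ :=
  cond b (D.Gam * (D.r * z - 1)) (D.Gam * (1 - (D.c - D.s) * z))
/-- transitions to the neighbouring bodies -/
noncomputable def jump (z : ℂ) : ℂ :=
  S ((D.qb * z).im / D.w) • (D.q - z) + S (-(D.q * z).im / D.w) • (D.qb - z)
/-- the displacement of the chain -/
noncomputable def CC (b : Bool) (z : ℂ) : ℂ :=
  D.UU b z + cond b (2 * D.c * D.Gam) (-(2 * D.c * D.Gam)) * D.jump z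
noncomputable def chi1 (z : ℂ) : ℝ := S ((‖z‖ ^ 2 - ‖D.apex true‖ ^ 2) / D.w)
noncomputable def chi2 (z : ℂ) : ℝ := S ((‖z‖ ^ 2 - ‖D.apex false‖ ^ 2) / D.w)
/-- the displacement in the chart -/
noncomputable def FU (b : Bool) (z : ℂ) : ℂ :=
  D.chi1 z • D.CC b z + D.chi2 z • (z - D.CC b z)

end Dat

/-- energy of a displacement gradient (without material constants) -/
noncomputable def en (L : ℂ →L[ℝ] ℂ) : ℝ := (dz L).re ^ 2 + ‖dzb L‖ ^ 2

end Pool.Agent.ShearComposite
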