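import Pool.Agent.ShearComposite.Base

open MeasureTheory Metric
open scoped ContDiff

namespace Pool.Agent.ShearComposite

/-- the angular sector number `k` -/
def Sector (δ : ℝ) (k : ℤ) : Set ℂ :=
  {z | 1 / 2 < ‖z‖ ∧ |Complex.arg (Complex.exp (-(k * δ) * Complex.I) * z)| < 3 / 5 * δ}

lemma h_arg_exists (φ : ℝ) (z : ℂ) (hz : z ≠ 0) :
    ∃ m : ℤ, Complex.arg (Complex.exp (-(φ : ℂ) * Complex.I) * z) - (Complex.arg z - φ) =
      2 * Real.pi * m := by
  rw [← Real.Angle.angle_eq_iff_two_pi_dvd_sub,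
    Complex.arg_mul_coe_angle (Complex.exp_ne_zero _) hz, Complex.arg_exp,
    Real.Angle.coe_toIocMod, Real.Angle.coe_sub]
  have : (-(φ : ℂ) * Complex.I).im = -φ := by simp
  rw [this, Real.Angle.coe_neg]
  abel

lemma h_arg_eq (φ θ : ℝ) (z : ℂ) (hz : z ≠ 0) (h1 : -Real.pi < θ) (h2 : θ ≤ Real.pi) (m : ℤ)
    (hm : Complex.arg z - φ - θ = 2 * Real.pi * m) :
    Complex.arg (Complex.exp (-(φ : ℂ) * Complex.I) * z) = θ := by
  obtain ⟨m', hm'⟩ := h_arg_exists φ z hz
  have h3 := Complex.neg_pi_lt_arg (Complex.exp (-(φ : ℂ) * Complex.I) * z)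
  have h4 := Complex.arg_le_pi (Complex.exp (-(φ : ℂ) * Complex.I) * z)
  set w := Complex.arg (Complex.exp (-(φ : ℂ) * Complex.I) * z) with hw
  have hpi := Real.pi_pos
  have h5 : w - θ = 2 * Real.pi * ((m + m' : ℤ) : ℝ) := by
    push_cast
    linarith
  have h6 : ((m + m' : ℤ) : ℝ) < 1 := by
    by_contra hcon
    push Not at hcon
    nlinarith
  have h7 : (-1 : ℝ) < ((m + m' : ℤ) : ℝ) := by
    by_contra hcon
    push Not at hcon
    nlinarith
  have h8 : m + m' = 0 := by
    have h6' : m + m' < 1 := by exact_mod_cast h6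
    have h7' : -1 < m + m' := by exact_mod_cast h7
    omega
  rw [h8] at h5
  push_cast at h5
  linarith

lemma h_per {N : ℕ} {F : ℤ → ℂ → ℂ} (hper : ∀ k, F (k + N) = F k) (k m : ℤ) :
    F (k + m * N) = F k := by
  induction m using Int.induction_on with
  | zero => simp
  | succ n ih =>
    have : k + (n + 1) * N = (k + n * N) + N := by ring
    rw [this, hper, ih]
  | pred n ih =>
    have h := hper (k + (-n - 1) * N)
    rw [← h, ← ih]
    congr 1
    ring

/-- TASK H -/
theorem patch (N : ℕ) (hN : 8 ≤ N) (δ : ℝ) (hδ : N * δ = 2 * Real.pi) (F : ℤ → ℂ → ℂ)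
    (hF : ∀ k, ContDiff ℝ ∞ (F k)) (hper : ∀ k, F (k + N) = F k)
    (hov : ∀ (k : ℤ) (z : ℂ), 1 / 2 < ‖z‖ →
      2 / 5 * δ ≤ Complex.arg (Complex.exp (-(k * δ) * Complex.I) * z) →
      Complex.arg (Complex.exp (-(k * δ) * Complex.I) * z) ≤ 3 / 5 * δ → F k z = F (k + 1) z) :
    ∃ G : ℂ → ℂ, (∀ k, Set.EqOn G (F k) (Sector δ k)) ∧ (∀ k, IsOpen (Sector δ k)) ∧
      (∀ z, 1 / 2 < ‖z‖ → ∃ k, |Complex.arg (Complex.exp (-(k * δ) * Complex.I) * z)| ≤ δ / 2) := by
  have hpi := Real.pi_pos
  have hN' : (8 : ℝ) ≤ N := by exact_mod_cast hN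
  have hδ0 : 0 < δ := by
    by_contra hcon
    push Not at hcon
    nlinarith
  have hδ1 : δ ≤ Real.pi / 4 := by nlinarith
  have hcast : ∀ k : ℤ, (-((k : ℂ) * (δ : ℂ)) * Complex.I) =
      -((k * δ : ℝ) : ℂ) * Complex.I := by
    intro k
    push_cast
    ring
  have hne : ∀ z : ℂ, 1 / 2 < ‖z‖ → z ≠ 0 := by
    rintro z hz rfl
    rw [norm_zero] at hz
    norm_num at hz
  refine ⟨fun z => F (round (Complex.arg z / δ)) z, ?_, ?_, ?_⟩
  · intro k z hz
    obtain ⟨hz1, hz2⟩ := hz
    rw [abs_lt] at hz2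
    have hz0 := hne z hz1
    obtain ⟨m, hm⟩ := h_arg_exists (k * δ) z hz0
    rw [← hcast] at hm
    set θ := Complex.arg (Complex.exp (-((k : ℂ) * (δ : ℂ)) * Complex.I) * z) with hθ
    -- `arg z = (k - m N) δ + θ`
    have h1 : Complex.arg z / δ = ((k - m * N : ℤ) : ℝ) + θ / δ := by
      have : Complex.arg z = ((k - m * N : ℤ) : ℝ) * δ + θ := by
        push_cast
        have h2 : (m : ℝ) * N * δ = 2 * Real.pi * m := by rw [mul_assoc, hδ]; ring
        have h3 : ((k : ℝ) - m * N) * δ = k * δ - m * N * δ := by ring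
        rw [h3, h2]
        linarith
      rw [this, add_div, mul_div_assoc, div_self hδ0.ne', mul_one]
    have hround : round (Complex.arg z / δ) = (k - m * N) + round (θ / δ) := by
      rw [h1, round_intCast_add]
    have ht1 : -(3 / 5) < θ / δ := by
      rw [lt_div_iff₀ hδ0]; linarith [hz2.1]
    have ht2 : θ / δ < 3 / 5 := by
      rw [div_lt_iff₀ hδ0]; linarith [hz2.2]
    change F (round (Complex.arg z / δ)) z = F k z
    have hFk : ∀ j : ℤ, F (k - m * N + j) = F (k + j) := by
      intro j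
      have := h_per hper (k + j) (-m)
      rw [← this]
      congr 1
      ring
    rw [hround, hFk]
    have hr := abs_sub_round (θ / δ)
    rw [abs_le] at hr
    have hr1 : (round (θ / δ) : ℝ) < 2 := by linarith [hr.1]
    have hr2 : (-2 : ℝ) < (round (θ / δ) : ℝ) := by linarith [hr.2]
    have hr1' : round (θ / δ) < 2 := by exact_mod_cast hr1
    have hr2' : -2 < round (θ / δ) := by exact_mod_cast hr2
    have hcases : round (θ / δ) = -1 ∨ round (θ / δ) = 0 ∨ round (θ / δ) = 1 := by omega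
    rcases hcases with hc | hc | hc
    · rw [hc] at hr
      push_cast at hr
      have h4 : θ ≤ -(1 / 2) * δ := by
        rw [← div_le_iff₀ hδ0]; linarith [hr.2]
      -- the argument relative to the sector `k - 1`
      have h5 : Complex.arg (Complex.exp (-(((k - 1 : ℤ) : ℂ) * (δ : ℂ)) * Complex.I) * z) =
          θ + δ := by
        rw [hcast]
        refine h_arg_eq _ _ z hz0 (by linarith [hz2.1]) (by linarith) (-m) ?_
        push_cast
        linarith
      have h6 := hov (k - 1) z hz1 (by rw [h5]; linarith [hz2.1]) (by rw [h5]; linarith)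
      rw [hc]
      rw [show k - 1 + 1 = k from by ring] at h6
      exact h6
    · rw [hc, add_zero]
    · rw [hc] at hr
      push_cast at hr
      have h4 : 1 / 2 * δ ≤ θ := by
        rw [← le_div_iff₀ hδ0]; linarith [hr.1]
      rw [hc]
      exact (hov k z hz1 (by linarith) (by linarith [hz2.2])).symm
  · intro k
    rw [isOpen_iff_mem_nhds]
    intro z hz
    obtain ⟨hz1, hz2⟩ := hz
    have hz0 := hne z hz1
    have h1 : Complex.exp (-((k : ℂ) * (δ : ℂ)) * Complex.I) * z ∈ Complex.slitPlane := by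
      rw [Complex.mem_slitPlane_iff_arg]
      refine ⟨fun h => ?_, mul_ne_zero (Complex.exp_ne_zero _) hz0⟩
      rw [h, abs_of_pos hpi] at hz2
      linarith
    have h2 : ContinuousAt (fun z : ℂ =>
        |Complex.arg (Complex.exp (-((k : ℂ) * (δ : ℂ)) * Complex.I) * z)|) z := by
      have h3 : ContinuousAt Complex.arg (Complex.exp (-((k : ℂ) * (δ : ℂ)) * Complex.I) * z) :=
        Complex.continuousAt_arg h1
      have h4 : ContinuousAt (fun z : ℂ =>
          Complex.exp (-((k : ℂ) * (δ : ℂ)) * Complex.I) * z) z := by fun_prop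
      have h5 : ContinuousAt (fun z : ℂ =>
          Complex.arg (Complex.exp (-((k : ℂ) * (δ : ℂ)) * Complex.I) * z)) z :=
        ContinuousAt.comp (f := fun z : ℂ =>
          Complex.exp (-((k : ℂ) * (δ : ℂ)) * Complex.I) * z) h3 h4
      exact h5.abs
    have h3 := h2.eventually_lt_const hz2
    have h4 : ∀ᶠ y in nhds z, 1 / 2 < ‖y‖ :=
      (continuous_norm.continuousAt).eventually_const_lt hz1
    filter_upwards [h3, h4] with y hy1 hy2
    exact ⟨hy2, hy1⟩
  · intro z hz
    have hz0 := hne z hz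
    refine ⟨round (Complex.arg z / δ), ?_⟩
    set k := round (Complex.arg z / δ) with hk
    have hr := abs_sub_round (Complex.arg z / δ)
    rw [← hk, abs_le] at hr
    have h1 : -(1 / 2) * δ ≤ Complex.arg z - k * δ := by
      have := mul_le_mul_of_nonneg_right hr.1 hδ0.le
      rw [sub_mul, div_mul_cancel₀ _ hδ0.ne'] at this
      linarith
    have h2 : Complex.arg z - k * δ ≤ 1 / 2 * δ := by
      have := mul_le_mul_of_nonneg_right hr.2 hδ0.le
      rw [sub_mul, div_mul_cancel₀ _ hδ0.ne'] at this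
      linarith
    rw [hcast, h_arg_eq (k * δ) (Complex.arg z - k * δ) z hz0 (by linarith) (by linarith) 0
      (by simp)]
    rw [abs_le]
    constructor <;> linarith

end Pool.Agent.ShearComposite
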