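import Pool.Agent.ShearComposite.Chart
import Pool.Agent.ShearComposite.Jets
import Pool.Agent.ShearComposite.Patch

/-!
# The parameters of the device with `2 ^ m` bodies
-/

namespace Pool.Agent.ShearComposite

/-- the angle `2 π / 2 ^ m` -/
noncomputable def dlt (m : ℕ) : ℝ := 2 * Real.pi / 2 ^ m

theorem dlt_pos (m : ℕ) : 0 < dlt m := by unfold dlt; positivity

theorem dlt_mul (m : ℕ) : ((2 ^ m : ℕ) : ℝ) * dlt m = 2 * Real.pi := by
  unfold dlt; push_cast; field_simp

theorem dlt_le {m : ℕ} (hm : 9 ≤ m) : dlt m ≤ 1 / 75 := by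
  unfold dlt
  have h1 : (512 : ℝ) ≤ 2 ^ m := by
    calc (512 : ℝ) = 2 ^ 9 := by norm_num
      _ ≤ 2 ^ m := pow_le_pow_right₀ (by norm_num) hm
  have h2 := Real.pi_lt_d2
  rw [div_le_iff₀ (by positivity)]
  nlinarith

/-- the parameters for `2 ^ m` bodies -/
noncomputable def datOf (m : ℕ) (hm : 9 ≤ m) : Dat where
  c := Real.cos (dlt m / 2)
  s := Real.sin (dlt m / 2)
  w := Real.sin (dlt m / 2) / 4 ^ m
  hcs := by simp
  hc := by
    have h1 := dlt_pos m
    have h2 := dlt_le hm
    have h3 := Real.pi_gt_three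
    exact Real.cos_pos_of_mem_Ioo ⟨by linarith, by linarith⟩
  hs := by
    have h1 := dlt_pos m
    have h2 := dlt_le hm
    have h3 := Real.pi_gt_three
    exact Real.sin_pos_of_pos_of_lt_pi (by linarith) (by linarith)
  hs' := by
    have h1 := dlt_pos m
    have h2 := dlt_le hm
    have h3 := Real.sin_le (x := dlt m / 2) (by linarith)
    linarith
  hw := by
    have h1 := dlt_pos m
    have h2 := dlt_le hm
    have h3 := Real.pi_gt_three
    have := Real.sin_pos_of_pos_of_lt_pi (x := dlt m / 2) (by linarith) (by linarith)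
    positivity
  hw' := by
    have h1 := dlt_pos m
    have h2 := dlt_le hm
    have h3 := Real.pi_gt_three
    have := Real.sin_pos_of_pos_of_lt_pi (x := dlt m / 2) (by linarith) (by linarith)
    have h4 : (100 : ℝ) ≤ 4 ^ m := by
      calc (100 : ℝ) ≤ 4 ^ 9 := by norm_num
        _ ≤ 4 ^ m := pow_le_pow_right₀ (by norm_num) hm
    gcongr

end Pool.Agent.ShearComposite
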