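import Pool.Agent.ShearComposite.SoftDef

/-!
# Parameters of the device and the algebraic identities of the statics
-/

open Complex ComplexConjugate

namespace Pool.Agent.ShearComposite

/-- a real affine function of a complex variable -/
noncomputable def aff (A B C z : ℂ) : ℂ := A + B * z + C * conj z

/-- parameters of the device -/
structure Dat where
  c : ℝ
  s : ℝ
  w : ℝ
  hcs : c ^ 2 + s ^ 2 = 1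
  hc : 0 < c
  hs : 0 < s
  hs' : s ≤ 1 / 100
  hw : 0 < w
  hw' : w ≤ s / 100

theorem norm_re_im_le (a b : ℝ) : ‖(a : ℂ) + (b : ℂ) * I‖ ≤ |a| + |b| := by
  refine (norm_add_le _ _).trans ?_
  simp

theorem pow_facts {c s : ℝ} (hs : 0 < s) (hs' : s ≤ 1 / 100) (hc : c ≤ 1) (hc' : 1 - s ^ 2 ≤ c)
    (k : ℕ) : 0 ≤ s ^ k ∧ s ^ (k + 1) ≤ s ^ k / 100 ∧ c * s ^ k ≤ s ^ k
      ∧ s ^ k - s ^ (k + 2) ≤ c * s ^ k := by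
  have h0 : 0 ≤ s ^ k := by positivity
  refine ⟨h0, ?_, ?_, ?_⟩
  · rw [pow_succ]; nlinarith
  · nlinarith
  · have : s ^ k - s ^ (k + 2) = (1 - s ^ 2) * s ^ k := by ring
    rw [this]; gcongr

namespace Dat

variable (D : Dat)

noncomputable def q : ℂ := D.c + D.s * I
noncomputable def qb : ℂ := D.c - D.s * I
noncomputable def r : ℂ := D.c + D.s
noncomputable def xi : ℂ := D.c - D.s - D.s ^ 2 * (D.c + D.s) * I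
noncomputable def g : ℂ := D.c ^ 2 - D.s ^ 2
noncomputable def W : ℂ := D.r * ((4 * D.c ^ 2 - 1) * D.xi - 2 * D.c)
noncomputable def K : ℂ :=
  D.s * (8 * D.c * D.g + I * D.r * (4 * D.c * D.r * D.g - 4 * D.c ^ 2 + 1))

noncomputable def tE : ℂ → ℂ := aff (-D.r ^ 2) (2 * D.r ^ 2 * D.g * D.xi) 0
noncomputable def tO : ℂ → ℂ :=
  aff (-D.W - D.K * D.g) (2 * D.W * D.g * D.r + D.K * D.r / 2) (D.K * D.r / 2)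

theorem c_le : D.c ≤ 1 := by nlinarith [D.hcs, D.hs, D.hc, sq_nonneg D.s]

theorem le_c : 1 - D.s ^ 2 ≤ D.c := by nlinarith [D.hcs, D.hs, D.hc, D.c_le]

theorem hcsC : (D.c : ℂ) ^ 2 + (D.s : ℂ) ^ 2 = 1 := by exact_mod_cast D.hcs

theorem conj_q : conj D.q = D.qb := by
  simp only [q, qb, map_add, map_mul, conj_ofReal, conj_I]; ring

theorem conj_qb : conj D.qb = D.q := by
  simp only [q, qb, map_sub, map_mul, conj_ofReal, conj_I]; ring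

theorem q_mul_qb : D.q * D.qb = 1 := by
  simp only [q, qb]
  linear_combination D.hcsC - (D.s : ℂ) ^ 2 * I_sq

theorem norm_q : ‖D.q‖ = 1 := by
  have h := D.q_mul_qb
  rw [← D.conj_q, mul_conj] at h
  have h2 : normSq D.q = 1 := by exact_mod_cast h
  rw [normSq_eq_norm_sq] at h2
  nlinarith [norm_nonneg D.q]

theorem norm_qb : ‖D.qb‖ = 1 := by rw [← D.conj_q, norm_conj, D.norm_q]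

theorem key3 : D.q ^ 2 * D.tO D.qb = D.qb ^ 2 * D.tE D.q := by
  have h := D.hcsC
  simp only [tO, tE, aff, D.conj_q, D.conj_qb]
  simp only [W, K, q, qb, r, xi, g]
  generalize (D.c : ℂ) = c at *
  generalize (D.s : ℂ) = s at *
  linear_combination (-8 * c ^ 8 * s ^ 2 * I + 8 * c ^ 8 - 24 * c ^ 7 * s ^ 3 * I + 8 * c ^ 7 * s ^ 3 + 8 * c ^ 7
      * s * I + 8 * c ^ 7 * s - 16 * c ^ 6 * s ^ 4 * I + 24 * c ^ 6 * s ^ 4 + 8 * c ^ 6 * s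
      ^ 2 * I - 16 * c ^ 6 * s ^ 2 + 16 * c ^ 5 * s ^ 5 * I + 16 * c ^ 5 * s ^ 5 - 16 * c ^
      5 * s ^ 3 * I - 16 * c ^ 5 * s ^ 3 + 4 * c ^ 5 * s * I - 4 * c ^ 5 * s + 24 * c ^ 4 *
      s ^ 6 * I - 16 * c ^ 4 * s ^ 6 - 16 * c ^ 4 * s ^ 4 * I + 8 * c ^ 4 * s ^ 4 - 8 * c ^
      4 * s ^ 2 - 4 * c ^ 4 + 8 * c ^ 3 * s ^ 7 * I - 24 * c ^ 3 * s ^ 7 + 8 * c ^ 3 * s ^ 5
      * I + 8 * c ^ 3 * s ^ 5 - 8 * c ^ 3 * s ^ 3 * I - 4 * c ^ 3 * s * I - 4 * c ^ 3 * s -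
      8 * c ^ 2 * s ^ 8 + 8 * c ^ 2 * s ^ 6 * I + 8 * c ^ 2 * s ^ 4 + 4 * c ^ 2 * s ^ 2 + 4
      * c * s ^ 5 * I + 4 * c * s ^ 5 + 4 * c * s ^ 3 * I + 4 * c * s ^ 3) * h
    + (-8 * c ^ 9 * s ^ 3 + 8 * c ^ 8 * s ^ 4 * I - 24 * c ^ 8 * s ^ 4 - 8 * c ^ 8 * s ^ 2 + 8 * c
      ^ 7 * s ^ 5 * I ^ 2 + 24 * c ^ 7 * s ^ 5 * I - 24 * c ^ 7 * s ^ 5 - 8 * c ^ 7 * s ^ 3
      * I + 24 * c ^ 6 * s ^ 6 * I ^ 2 + 16 * c ^ 6 * s ^ 6 * I - 8 * c ^ 6 * s ^ 6 - 8 * c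
      ^ 6 * s ^ 4 * I + 40 * c ^ 6 * s ^ 4 + 8 * c ^ 6 * s ^ 2 + 16 * c ^ 5 * s ^ 7 * I ^ 2
      - 16 * c ^ 5 * s ^ 7 * I + 8 * c ^ 5 * s ^ 7 + 16 * c ^ 5 * s ^ 5 * I + 32 * c ^ 5 * s
      ^ 5 + 4 * c ^ 5 * s ^ 3 * I + 12 * c ^ 5 * s ^ 3 - 16 * c ^ 4 * s ^ 8 * I ^ 2 - 24 * c
      ^ 4 * s ^ 8 * I + 24 * c ^ 4 * s ^ 8 + 16 * c ^ 4 * s ^ 6 * I - 24 * c ^ 4 * s ^ 6 + 8
      * c ^ 4 * s ^ 4 * I - 4 * c ^ 4 * s ^ 2 - 24 * c ^ 3 * s ^ 9 * I ^ 2 - 8 * c ^ 3 * s ^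
      9 * I + 24 * c ^ 3 * s ^ 9 - 8 * c ^ 3 * s ^ 7 * I - 32 * c ^ 3 * s ^ 7 - 8 * c ^ 3 *
      s ^ 5 - 8 * c ^ 2 * s ^ 10 * I ^ 2 + 8 * c ^ 2 * s ^ 10 - 8 * c ^ 2 * s ^ 8 * I - 8 *
      c ^ 2 * s ^ 8 - 8 * c ^ 2 * s ^ 6 * I - 8 * c ^ 2 * s ^ 6 + 4 * c ^ 2 * s ^ 4 + 4 * c
      ^ 2 * s ^ 2 - 4 * c * s ^ 7 * I - 4 * c * s ^ 7 + 4 * c * s ^ 3) * I_sq

theorem key4 : D.q ^ 2 * D.tE D.qb = D.qb ^ 2 * D.tO D.q := by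
  have h := D.hcsC
  simp only [tO, tE, aff, D.conj_q, D.conj_qb]
  simp only [W, K, q, qb, r, xi, g]
  generalize (D.c : ℂ) = c at *
  generalize (D.s : ℂ) = s at *
  linear_combination (8 * c ^ 8 * s ^ 2 * I - 8 * c ^ 8 + 24 * c ^ 7 * s ^ 3 * I + 8 * c ^ 7 * s ^ 3 + 8 * c ^ 7 *
      s * I - 8 * c ^ 7 * s + 16 * c ^ 6 * s ^ 4 * I + 24 * c ^ 6 * s ^ 4 + 8 * c ^ 6 * s ^
      2 * I + 16 * c ^ 6 * s ^ 2 - 16 * c ^ 5 * s ^ 5 * I + 16 * c ^ 5 * s ^ 5 - 16 * c ^ 5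
      * s ^ 3 * I + 16 * c ^ 5 * s ^ 3 + 4 * c ^ 5 * s * I + 4 * c ^ 5 * s - 24 * c ^ 4 * s
      ^ 6 * I - 16 * c ^ 4 * s ^ 6 - 16 * c ^ 4 * s ^ 4 * I - 8 * c ^ 4 * s ^ 4 + 8 * c ^ 4
      * s ^ 2 + 4 * c ^ 4 - 8 * c ^ 3 * s ^ 7 * I - 24 * c ^ 3 * s ^ 7 + 8 * c ^ 3 * s ^ 5 *
      I - 8 * c ^ 3 * s ^ 5 - 8 * c ^ 3 * s ^ 3 * I - 4 * c ^ 3 * s * I + 4 * c ^ 3 * s - 8
      * c ^ 2 * s ^ 8 + 8 * c ^ 2 * s ^ 6 * I - 8 * c ^ 2 * s ^ 4 - 4 * c ^ 2 * s ^ 2 + 4 *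
      c * s ^ 5 * I - 4 * c * s ^ 5 + 4 * c * s ^ 3 * I - 4 * c * s ^ 3) * h
    + (-8 * c ^ 9 * s ^ 3 - 8 * c ^ 8 * s ^ 4 * I - 24 * c ^ 8 * s ^ 4 + 8 * c ^ 8 * s ^ 2 + 8 * c
      ^ 7 * s ^ 5 * I ^ 2 - 24 * c ^ 7 * s ^ 5 * I - 24 * c ^ 7 * s ^ 5 - 8 * c ^ 7 * s ^ 3
      * I + 16 * c ^ 7 * s ^ 3 + 24 * c ^ 6 * s ^ 6 * I ^ 2 - 16 * c ^ 6 * s ^ 6 * I - 8 * c
      ^ 6 * s ^ 6 - 8 * c ^ 6 * s ^ 4 * I + 8 * c ^ 6 * s ^ 4 - 8 * c ^ 6 * s ^ 2 + 16 * c ^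
      5 * s ^ 7 * I ^ 2 + 16 * c ^ 5 * s ^ 7 * I + 8 * c ^ 5 * s ^ 7 + 16 * c ^ 5 * s ^ 5 *
      I + 4 * c ^ 5 * s ^ 3 * I - 12 * c ^ 5 * s ^ 3 - 16 * c ^ 4 * s ^ 8 * I ^ 2 + 24 * c ^
      4 * s ^ 8 * I + 24 * c ^ 4 * s ^ 8 + 16 * c ^ 4 * s ^ 6 * I - 8 * c ^ 4 * s ^ 6 + 8 *
      c ^ 4 * s ^ 4 * I + 4 * c ^ 4 * s ^ 2 - 24 * c ^ 3 * s ^ 9 * I ^ 2 + 8 * c ^ 3 * s ^ 9
      * I + 24 * c ^ 3 * s ^ 9 - 8 * c ^ 3 * s ^ 7 * I - 16 * c ^ 3 * s ^ 7 + 8 * c ^ 3 * s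
      ^ 5 - 8 * c ^ 2 * s ^ 10 * I ^ 2 + 8 * c ^ 2 * s ^ 10 - 8 * c ^ 2 * s ^ 8 * I - 8 * c
      ^ 2 * s ^ 8 - 8 * c ^ 2 * s ^ 6 * I + 8 * c ^ 2 * s ^ 6 - 4 * c ^ 2 * s ^ 4 - 4 * c ^
      2 * s ^ 2 - 4 * c * s ^ 7 * I + 4 * c * s ^ 7 - 4 * c * s ^ 3) * I_sq

theorem bound_E1 : ‖-D.r ^ 2 + 2 * D.r ^ 2 * D.g * D.xi + 0 - 1‖ ≤ 60 * D.s ^ 2 := by
  have h := D.hcsC
  have e : -D.r ^ 2 + 2 * D.r ^ 2 * D.g * D.xi + 0 - 1 = (((8 * D.c * D.s ^ 4 - 8 * D.c * D.s ^ 2 - 2 * D.c * D.s + 2 * D.c + 8 * D.s ^ 5 - 8 * D.s ^ 3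
      + 2 * D.s - 2 : ℝ)) : ℂ)
      + (((8 * D.c * D.s ^ 6 - 2 * D.c * D.s ^ 2 - 8 * D.s ^ 7 + 16 * D.s ^ 5 - 6 * D.s ^ 3 : ℝ)) : ℂ) * I := by
    push_cast
    simp only [W, K, q, qb, r, xi, g]
    generalize (D.c : ℂ) = c at *
    generalize (D.s : ℂ) = s at *
    linear_combination (-2 * c ^ 3 * s ^ 2 * I + 2 * c ^ 3 - 6 * c ^ 2 * s ^ 3 * I + 2 * c ^ 2 * s - 2 * c * s ^ 4 *
      I - 2 * c * s ^ 2 * I - 6 * c * s ^ 2 + 2 * c + 10 * s ^ 5 * I - 6 * s ^ 3 * I - 6 * s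
      ^ 3 + 2 * s - 1) * h
  rw [e]
  refine (norm_re_im_le _ _).trans ?_
  obtain ⟨a0, b0, d0, e0⟩ := pow_facts D.hs D.hs' D.c_le D.le_c 0
  obtain ⟨a1, b1, d1, e1⟩ := pow_facts D.hs D.hs' D.c_le D.le_c 1
  obtain ⟨a2, b2, d2, e2⟩ := pow_facts D.hs D.hs' D.c_le D.le_c 2
  obtain ⟨a3, b3, d3, e3⟩ := pow_facts D.hs D.hs' D.c_le D.le_c 3
  obtain ⟨a4, b4, d4, e4⟩ := pow_facts D.hs D.hs' D.c_le D.le_c 4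
  obtain ⟨a5, b5, d5, e5⟩ := pow_facts D.hs D.hs' D.c_le D.le_c 5
  obtain ⟨a6, b6, d6, e6⟩ := pow_facts D.hs D.hs' D.c_le D.le_c 6
  obtain ⟨a7, b7, d7, e7⟩ := pow_facts D.hs D.hs' D.c_le D.le_c 7
  obtain ⟨a8, b8, d8, e8⟩ := pow_facts D.hs D.hs' D.c_le D.le_c 8
  obtain ⟨a9, b9, d9, e9⟩ := pow_facts D.hs D.hs' D.c_le D.le_c 9
  norm_num at b0 d0 e0 b1 d1 e1 b2 d2 e2 b3 d3 e3 b4 d4 e4 b5 d5 e5 b6 d6 e6 b7 d7 e7 b8 d8 e8 b9 d9 e9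
  have hA : |8 * D.c * D.s ^ 4 - 8 * D.c * D.s ^ 2 - 2 * D.c * D.s + 2 * D.c + 8 * D.s ^ 5 - 8 * D.s ^ 3
      + 2 * D.s - 2| ≤ 30 * D.s ^ 2 :=
    abs_le.mpr ⟨by linarith, by linarith⟩
  have hB : |8 * D.c * D.s ^ 6 - 2 * D.c * D.s ^ 2 - 8 * D.s ^ 7 + 16 * D.s ^ 5 - 6 * D.s ^ 3| ≤ 30 * D.s ^ 2 :=
    abs_le.mpr ⟨by linarith, by linarith⟩
  linarith

theorem bound_O1 : ‖(-D.W - D.K * D.g) + (2 * D.W * D.g * D.r + D.K * D.r / 2) + (D.K * D.r / 2) - 1‖ ≤ 60 * D.s ^ 2 := by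
  have h := D.hcsC
  have e : (-D.W - D.K * D.g) + (2 * D.W * D.g * D.r + D.K * D.r / 2) + (D.K * D.r / 2) - 1 = (((-32 * D.c * D.s ^ 6 - 32 * D.c * D.s ^ 5 + 40 * D.c * D.s ^ 4 + 32 * D.c * D.s ^ 3 - 16 *
      D.c * D.s ^ 2 - 6 * D.c * D.s + 2 * D.c - 32 * D.s ^ 7 + 56 * D.s ^ 5 - 8 * D.s ^ 4 -
      32 * D.s ^ 3 + 8 * D.s ^ 2 + 6 * D.s - 2 : ℝ)) : ℂ)
      + (((-32 * D.c * D.s ^ 8 + 40 * D.c * D.s ^ 6 - 16 * D.c * D.s ^ 5 - 16 * D.c * D.s ^ 4 + 12 *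
      D.c * D.s ^ 3 - D.c * D.s + 32 * D.s ^ 9 + 32 * D.s ^ 8 - 72 * D.s ^ 7 - 56 * D.s ^ 6
      + 56 * D.s ^ 5 + 26 * D.s ^ 4 - 18 * D.s ^ 3 - 2 * D.s ^ 2 + D.s : ℝ)) : ℂ) * I := by
    push_cast
    simp only [W, K, q, qb, r, xi, g]
    generalize (D.c : ℂ) = c at *
    generalize (D.s : ℂ) = s at *
    linear_combination (-8 * c ^ 5 * s ^ 2 * I - 4 * c ^ 5 * s * I + 8 * c ^ 5 - 24 * c ^ 4 * s ^ 3 * I - 8 * c ^ 4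
      * s ^ 2 * I + 4 * c ^ 4 * s * I + 8 * c ^ 4 * s - 8 * c ^ 3 * s ^ 4 * I + 8 * c ^ 3 *
      s ^ 3 * I + 6 * c ^ 3 * s ^ 2 * I - 24 * c ^ 3 * s ^ 2 - 8 * c ^ 3 * s + 2 * c ^ 3 +
      40 * c ^ 2 * s ^ 5 * I + 24 * c ^ 2 * s ^ 4 * I - 14 * c ^ 2 * s ^ 3 * I - 24 * c ^ 2
      * s ^ 3 + 6 * c ^ 2 * s - 4 * c ^ 2 + 32 * c * s ^ 6 * I - 4 * c * s ^ 5 * I - 18 * c
      * s ^ 4 * I + 32 * c * s ^ 4 + 12 * c * s ^ 3 * I + 24 * c * s ^ 3 - 2 * c * s ^ 2 * I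
      - 14 * c * s ^ 2 - c * s * I - 8 * c * s + 2 * c - 32 * s ^ 7 * I - 32 * s ^ 6 * I +
      38 * s ^ 5 * I + 32 * s ^ 5 + 24 * s ^ 4 * I - 18 * s ^ 3 * I - 26 * s ^ 3 - 2 * s ^ 2
      * I + 8 * s ^ 2 + s * I + 6 * s - 1) * h
  rw [e]
  refine (norm_re_im_le _ _).trans ?_
  obtain ⟨a0, b0, d0, e0⟩ := pow_facts D.hs D.hs' D.c_le D.le_c 0
  obtain ⟨a1, b1, d1, e1⟩ := pow_facts D.hs D.hs' D.c_le D.le_c 1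
  obtain ⟨a2, b2, d2, e2⟩ := pow_facts D.hs D.hs' D.c_le D.le_c 2
  obtain ⟨a3, b3, d3, e3⟩ := pow_facts D.hs D.hs' D.c_le D.le_c 3
  obtain ⟨a4, b4, d4, e4⟩ := pow_facts D.hs D.hs' D.c_le D.le_c 4
  obtain ⟨a5, b5, d5, e5⟩ := pow_facts D.hs D.hs' D.c_le D.le_c 5
  obtain ⟨a6, b6, d6, e6⟩ := pow_facts D.hs D.hs' D.c_le D.le_c 6
  obtain ⟨a7, b7, d7, e7⟩ := pow_facts D.hs D.hs' D.c_le D.le_c 7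
  obtain ⟨a8, b8, d8, e8⟩ := pow_facts D.hs D.hs' D.c_le D.le_c 8
  obtain ⟨a9, b9, d9, e9⟩ := pow_facts D.hs D.hs' D.c_le D.le_c 9
  norm_num at b0 d0 e0 b1 d1 e1 b2 d2 e2 b3 d3 e3 b4 d4 e4 b5 d5 e5 b6 d6 e6 b7 d7 e7 b8 d8 e8 b9 d9 e9
  have hA : |-32 * D.c * D.s ^ 6 - 32 * D.c * D.s ^ 5 + 40 * D.c * D.s ^ 4 + 32 * D.c * D.s ^ 3 - 16 *
      D.c * D.s ^ 2 - 6 * D.c * D.s + 2 * D.c - 32 * D.s ^ 7 + 56 * D.s ^ 5 - 8 * D.s ^ 4 -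
      32 * D.s ^ 3 + 8 * D.s ^ 2 + 6 * D.s - 2| ≤ 30 * D.s ^ 2 :=
    abs_le.mpr ⟨by linarith, by linarith⟩
  have hB : |-32 * D.c * D.s ^ 8 + 40 * D.c * D.s ^ 6 - 16 * D.c * D.s ^ 5 - 16 * D.c * D.s ^ 4 + 12 *
      D.c * D.s ^ 3 - D.c * D.s + 32 * D.s ^ 9 + 32 * D.s ^ 8 - 72 * D.s ^ 7 - 56 * D.s ^ 6
      + 56 * D.s ^ 5 + 26 * D.s ^ 4 - 18 * D.s ^ 3 - 2 * D.s ^ 2 + D.s| ≤ 30 * D.s ^ 2 :=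
    abs_le.mpr ⟨by linarith, by linarith⟩
  linarith

theorem bound_BE : ‖2 * D.r ^ 2 * D.g * D.xi - 2‖ ≤ 60 * D.s := by
  have h := D.hcsC
  have e : 2 * D.r ^ 2 * D.g * D.xi - 2 = (((8 * D.c * D.s ^ 4 - 8 * D.c * D.s ^ 2 + 2 * D.c + 8 * D.s ^ 5 - 8 * D.s ^ 3 + 2 * D.s - 2 : ℝ)) : ℂ)
      + (((8 * D.c * D.s ^ 6 - 2 * D.c * D.s ^ 2 - 8 * D.s ^ 7 + 16 * D.s ^ 5 - 6 * D.s ^ 3 : ℝ)) : ℂ) * I := by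
    push_cast
    simp only [W, K, q, qb, r, xi, g]
    generalize (D.c : ℂ) = c at *
    generalize (D.s : ℂ) = s at *
    linear_combination (-2 * c ^ 3 * s ^ 2 * I + 2 * c ^ 3 - 6 * c ^ 2 * s ^ 3 * I + 2 * c ^ 2 * s - 2 * c * s ^ 4 *
      I - 2 * c * s ^ 2 * I - 6 * c * s ^ 2 + 2 * c + 10 * s ^ 5 * I - 6 * s ^ 3 * I - 6 * s
      ^ 3 + 2 * s) * h
  rw [e]
  refine (norm_re_im_le _ _).trans ?_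
  obtain ⟨a0, b0, d0, e0⟩ := pow_facts D.hs D.hs' D.c_le D.le_c 0
  obtain ⟨a1, b1, d1, e1⟩ := pow_facts D.hs D.hs' D.c_le D.le_c 1
  obtain ⟨a2, b2, d2, e2⟩ := pow_facts D.hs D.hs' D.c_le D.le_c 2
  obtain ⟨a3, b3, d3, e3⟩ := pow_facts D.hs D.hs' D.c_le D.le_c 3
  obtain ⟨a4, b4, d4, e4⟩ := pow_facts D.hs D.hs' D.c_le D.le_c 4
  obtain ⟨a5, b5, d5, e5⟩ := pow_facts D.hs D.hs' D.c_le D.le_c 5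
  obtain ⟨a6, b6, d6, e6⟩ := pow_facts D.hs D.hs' D.c_le D.le_c 6
  obtain ⟨a7, b7, d7, e7⟩ := pow_facts D.hs D.hs' D.c_le D.le_c 7
  obtain ⟨a8, b8, d8, e8⟩ := pow_facts D.hs D.hs' D.c_le D.le_c 8
  obtain ⟨a9, b9, d9, e9⟩ := pow_facts D.hs D.hs' D.c_le D.le_c 9
  norm_num at b0 d0 e0 b1 d1 e1 b2 d2 e2 b3 d3 e3 b4 d4 e4 b5 d5 e5 b6 d6 e6 b7 d7 e7 b8 d8 e8 b9 d9 e9
  have hA : |8 * D.c * D.s ^ 4 - 8 * D.c * D.s ^ 2 + 2 * D.c + 8 * D.s ^ 5 - 8 * D.s ^ 3 + 2 * D.s - 2| ≤ 30 * D.s :=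
    abs_le.mpr ⟨by linarith, by linarith⟩
  have hB : |8 * D.c * D.s ^ 6 - 2 * D.c * D.s ^ 2 - 8 * D.s ^ 7 + 16 * D.s ^ 5 - 6 * D.s ^ 3| ≤ 30 * D.s :=
    abs_le.mpr ⟨by linarith, by linarith⟩
  linarith

theorem bound_BO : ‖2 * D.W * D.g * D.r + D.K * D.r / 2 - 2‖ ≤ 60 * D.s := by
  have h := D.hcsC
  have e : 2 * D.W * D.g * D.r + D.K * D.r / 2 - 2 = (((-32 * D.c * D.s ^ 6 + 48 * D.c * D.s ^ 4 - 20 * D.c * D.s ^ 2 + 2 * D.c - 32 * D.s ^ 7 + 48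
      * D.s ^ 5 - 20 * D.s ^ 3 + 2 * D.s - 2 : ℝ)) : ℂ)
      + (((-32 * D.c * D.s ^ 8 + 32 * D.c * D.s ^ 6 - 4 * D.c * D.s ^ 4 - 3 * D.c * D.s ^ 2 + 32 * D.s
      ^ 9 - 80 * D.s ^ 7 + 64 * D.s ^ 5 - 18 * D.s ^ 3 + 1 / 2 * D.s : ℝ)) : ℂ) * I := by
    push_cast
    simp only [W, K, q, qb, r, xi, g]
    generalize (D.c : ℂ) = c at *
    generalize (D.s : ℂ) = s at *
    linear_combination (-8 * c ^ 5 * s ^ 2 * I + 8 * c ^ 5 - 24 * c ^ 4 * s ^ 3 * I + 2 * c ^ 4 * s * I + 8 * c ^ 4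
      * s - 8 * c ^ 3 * s ^ 4 * I - 24 * c ^ 3 * s ^ 2 + 2 * c ^ 3 + 40 * c ^ 2 * s ^ 5 * I
      - 16 * c ^ 2 * s ^ 3 * I - 24 * c ^ 2 * s ^ 3 + 2 * c ^ 2 * s + 32 * c * s ^ 6 * I - 8
      * c * s ^ 4 * I + 32 * c * s ^ 4 - 4 * c * s ^ 2 * I - 18 * c * s ^ 2 + 2 * c - 32 * s
      ^ 7 * I + 46 * s ^ 5 * I + 32 * s ^ 5 - 18 * s ^ 3 * I - 18 * s ^ 3 + 1 / 2 * s * I +
      2 * s) * h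
  rw [e]
  refine (norm_re_im_le _ _).trans ?_
  obtain ⟨a0, b0, d0, e0⟩ := pow_facts D.hs D.hs' D.c_le D.le_c 0
  obtain ⟨a1, b1, d1, e1⟩ := pow_facts D.hs D.hs' D.c_le D.le_c 1
  obtain ⟨a2, b2, d2, e2⟩ := pow_facts D.hs D.hs' D.c_le D.le_c 2
  obtain ⟨a3, b3, d3, e3⟩ := pow_facts D.hs D.hs' D.c_le D.le_c 3
  obtain ⟨a4, b4, d4, e4⟩ := pow_facts D.hs D.hs' D.c_le D.le_c 4
  obtain ⟨a5, b5, d5, e5⟩ := pow_facts D.hs D.hs' D.c_le D.le_c 5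
  obtain ⟨a6, b6, d6, e6⟩ := pow_facts D.hs D.hs' D.c_le D.le_c 6
  obtain ⟨a7, b7, d7, e7⟩ := pow_facts D.hs D.hs' D.c_le D.le_c 7
  obtain ⟨a8, b8, d8, e8⟩ := pow_facts D.hs D.hs' D.c_le D.le_c 8
  obtain ⟨a9, b9, d9, e9⟩ := pow_facts D.hs D.hs' D.c_le D.le_c 9
  norm_num at b0 d0 e0 b1 d1 e1 b2 d2 e2 b3 d3 e3 b4 d4 e4 b5 d5 e5 b6 d6 e6 b7 d7 e7 b8 d8 e8 b9 d9 e9
  have hA : |-32 * D.c * D.s ^ 6 + 48 * D.c * D.s ^ 4 - 20 * D.c * D.s ^ 2 + 2 * D.c - 32 * D.s ^ 7 + 48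
      * D.s ^ 5 - 20 * D.s ^ 3 + 2 * D.s - 2| ≤ 30 * D.s :=
    abs_le.mpr ⟨by linarith, by linarith⟩
  have hB : |-32 * D.c * D.s ^ 8 + 32 * D.c * D.s ^ 6 - 4 * D.c * D.s ^ 4 - 3 * D.c * D.s ^ 2 + 32 * D.s
      ^ 9 - 80 * D.s ^ 7 + 64 * D.s ^ 5 - 18 * D.s ^ 3 + 1 / 2 * D.s| ≤ 30 * D.s :=
    abs_le.mpr ⟨by linarith, by linarith⟩
  linarith

theorem bound_CO : ‖D.K * D.r / 2‖ ≤ 60 * D.s := by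
  have h := D.hcsC
  have e : D.K * D.r / 2 = (((-8 * D.c * D.s ^ 4 + 4 * D.c * D.s ^ 2 + 8 * D.s ^ 5 - 12 * D.s ^ 3 + 4 * D.s : ℝ)) : ℂ)
      + (((8 * D.c * D.s ^ 6 - 12 * D.c * D.s ^ 4 + 3 * D.c * D.s ^ 2 + 8 * D.s ^ 7 - 8 * D.s ^ 5 + 1 /
      2 * D.s : ℝ)) : ℂ) * I := by
    push_cast
    simp only [W, K, q, qb, r, xi, g]
    generalize (D.c : ℂ) = c at *
    generalize (D.s : ℂ) = s at *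
    linear_combination (2 * c ^ 4 * s * I + 6 * c ^ 3 * s ^ 2 * I + 2 * c ^ 2 * s ^ 3 * I + 4 * c ^ 2 * s - 10 * c *
      s ^ 4 * I + 2 * c * s ^ 2 * I + 4 * c * s ^ 2 - 8 * s ^ 5 * I - 8 * s ^ 3 + 1 / 2 * s
      * I + 4 * s) * h
  rw [e]
  refine (norm_re_im_le _ _).trans ?_
  obtain ⟨a0, b0, d0, e0⟩ := pow_facts D.hs D.hs' D.c_le D.le_c 0
  obtain ⟨a1, b1, d1, e1⟩ := pow_facts D.hs D.hs' D.c_le D.le_c 1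
  obtain ⟨a2, b2, d2, e2⟩ := pow_facts D.hs D.hs' D.c_le D.le_c 2
  obtain ⟨a3, b3, d3, e3⟩ := pow_facts D.hs D.hs' D.c_le D.le_c 3
  obtain ⟨a4, b4, d4, e4⟩ := pow_facts D.hs D.hs' D.c_le D.le_c 4
  obtain ⟨a5, b5, d5, e5⟩ := pow_facts D.hs D.hs' D.c_le D.le_c 5
  obtain ⟨a6, b6, d6, e6⟩ := pow_facts D.hs D.hs' D.c_le D.le_c 6
  obtain ⟨a7, b7, d7, e7⟩ := pow_facts D.hs D.hs' D.c_le D.le_c 7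
  obtain ⟨a8, b8, d8, e8⟩ := pow_facts D.hs D.hs' D.c_le D.le_c 8
  obtain ⟨a9, b9, d9, e9⟩ := pow_facts D.hs D.hs' D.c_le D.le_c 9
  norm_num at b0 d0 e0 b1 d1 e1 b2 d2 e2 b3 d3 e3 b4 d4 e4 b5 d5 e5 b6 d6 e6 b7 d7 e7 b8 d8 e8 b9 d9 e9
  have hA : |-8 * D.c * D.s ^ 4 + 4 * D.c * D.s ^ 2 + 8 * D.s ^ 5 - 12 * D.s ^ 3 + 4 * D.s| ≤ 30 * D.s :=
    abs_le.mpr ⟨by linarith, by linarith⟩
  have hB : |8 * D.c * D.s ^ 6 - 12 * D.c * D.s ^ 4 + 3 * D.c * D.s ^ 2 + 8 * D.s ^ 7 - 8 * D.s ^ 5 + 1 /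
      2 * D.s| ≤ 30 * D.s :=
    abs_le.mpr ⟨by linarith, by linarith⟩
  linarith


end Dat

end Pool.Agent.ShearComposite
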