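import Mathlib

/-!
# The soft step functions
-/

open MeasureTheory
open scoped ContDiff

namespace Pool.Agent.ShearComposite

/-- smooth step: `0` for `t ≤ -1` and `1` for `1 ≤ t` -/
noncomputable def S (t : ℝ) : ℝ := Real.smoothTransition ((t + 1) / 2)

/-- the scale function `√(|z|² + w²)` -/
noncomputable def rw (w : ℝ) (z : ℂ) : ℝ := √(‖z‖ ^ 2 + w ^ 2)

/-- soft indicator function of the upper half plane -/
noncomputable def softH (w : ℝ) (z : ℂ) : ℝ := S (64 * z.im / rw w z)

end Pool.Agent.ShearComposite
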